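import Pool.Agent.Lib.MP_776403_ag.SD.Iface

/-!
# THEOREM SD: basic lemmas on restrictions to lines and gradients
-/

set_option autoImplicit false

open MvPolynomial

noncomputable section

namespace Pool.Agent.Lib.MP_776403_ag.SD

variable {N : ℕ}

theorem lin_eval (x v : Vx N) (F : Sx N) (t : ℂ) :
    (lin x v F).eval t = eval (x + t • v) F := by
  induction F using MvPolynomial.induction_on with
  | C a => simp [lin]
  | add p q hp hq => simp only [map_add, Polynomial.eval_add, hp, hq]
  | mul_X p i hp =>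
    have h : (lin x v (X i)).eval t = x i + t * v i := by
      unfold lin
      rw [aeval_X, Polynomial.eval_add, Polynomial.eval_mul, Polynomial.eval_C, Polynomial.eval_C,
        Polynomial.eval_X]
      ring
    rw [map_mul, Polynomial.eval_mul, hp, map_mul, eval_X, h]
    rfl

/-- Two polynomials in `t` with the same values are equal. -/
theorem poly_ext {p q : Polynomial ℂ} (h : ∀ t : ℂ, p.eval t = q.eval t) : p = q :=
  Polynomial.funext h

theorem mem_zer_line {I : Ideal (Sx N)} {x v : Vx N} (h : IsLine I x v) (t : ℂ) :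
    x + t • v ∈ zer I := by
  have := h.2 1 t
  rwa [one_smul] at this

theorem line_ne_zero {x v : Vx N} (h : LinearIndependent ℂ ![x, v]) {s t : ℂ}
    (hst : s ≠ 0 ∨ t ≠ 0) : s • x + t • v ≠ 0 := by
  intro h0
  have := LinearIndependent.pair_iff.mp h s t h0
  rcases hst with h1 | h1
  · exact h1 this.1
  · exact h1 this.2

theorem line_ne_zero' {I : Ideal (Sx N)} {x v : Vx N} (h : IsLine I x v) (t : ℂ) :
    x + t • v ≠ 0 := by
  have := line_ne_zero h.1 (s := 1) (t := t) (Or.inl one_ne_zero)
  rwa [one_smul] at this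

theorem lin_eq_zero {I : Ideal (Sx N)} {x v : Vx N} (h : IsLine I x v) {F : Sx N} (hF : F ∈ I) :
    lin x v F = 0 := by
  refine poly_ext fun t => ?_
  rw [lin_eval, Polynomial.eval_zero]
  exact mem_zer_line h t F hF

/-- Scaling of a form. -/
theorem eval_smul_form {F : Sx N} {m : ℕ} (hF : F.IsHomogeneous m) (a : ℂ) (y : Vx N) :
    eval (a • y) F = a ^ m * eval y F := by
  rw [eval_eq', eval_eq', Finset.mul_sum]
  refine Finset.sum_congr rfl fun α hα => ?_
  have h1 : α.degree = m := by
    by_contra hne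
    exact (mem_support_iff.mp hα) (hF.coeff_eq_zero hne)
  have h2 : ∏ i, (a • y) i ^ α i = a ^ m * ∏ i, y i ^ α i := by
    simp only [Pi.smul_apply, smul_eq_mul, mul_pow, Finset.prod_mul_distrib]
    rw [Finset.prod_pow_eq_pow_sum, ← h1, Finsupp.degree_eq_sum]
  rw [h2]
  ring

theorem lin_mem {F : Sx N} {m : ℕ} (hF : F.IsHomogeneous m) (x v : Vx N) :
    lin x v F ∈ Polynomial.degreeLT ℂ (m + 1) := by
  rw [Polynomial.mem_degreeLT]
  have h := MvPolynomial.aeval_natDegree_le (m := m) (n := 1) F hF.totalDegree_le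
    (fun i => Polynomial.C (x i) + Polynomial.C (v i) * Polynomial.X) (fun i => by
      compute_degree)
  refine lt_of_le_of_lt Polynomial.degree_le_natDegree ?_
  have h2 : (lin x v F).natDegree < m + 1 := by
    have : (lin x v F).natDegree ≤ m * 1 := h
    lia
  exact_mod_cast h2

/-- For `σ ≠ 0` the homogenization of a polynomial of degree `≤ m`. -/
theorem homog_val {p : Polynomial ℂ} {m : ℕ} (hp : p ∈ Polynomial.degreeLT ℂ (m + 1)) {σ : ℂ}
    (hσ : σ ≠ 0) (τ : ℂ) :
    ∑ j ∈ Finset.range (m + 1), p.coeff j * σ ^ (m - j) * τ ^ j = σ ^ m * p.eval (τ / σ) := by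
  have h : p.natDegree < m + 1 := by
    by_cases h0 : p = 0
    · rw [h0, Polynomial.natDegree_zero]; lia
    · rw [Polynomial.mem_degreeLT] at hp
      rw [Polynomial.degree_eq_natDegree h0] at hp
      exact_mod_cast hp
  rw [Polynomial.eval_eq_sum_range' h, Finset.mul_sum]
  refine Finset.sum_congr rfl fun j hj => ?_
  have hj' : j ≤ m := Nat.lt_succ_iff.mp (Finset.mem_range.mp hj)
  rw [div_pow, ← pow_sub_mul_pow σ hj']
  field_simp

/-- The binary form of a form on a line. -/
theorem lin_hom {F : Sx N} {m : ℕ} (hF : F.IsHomogeneous m) (x v : Vx N) (σ τ : ℂ) :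
    ∑ j ∈ Finset.range (m + 1), (lin x v F).coeff j * σ ^ (m - j) * τ ^ j =
      eval (σ • x + τ • v) F := by
  have key : ∀ s : ℂ, s ≠ 0 →
      ∑ j ∈ Finset.range (m + 1), (lin x v F).coeff j * s ^ (m - j) * τ ^ j =
        eval (s • x + τ • v) F := by
    intro s hs
    rw [homog_val (lin_mem hF x v) hs, lin_eval, ← eval_smul_form hF, smul_add, smul_smul,
      mul_div_cancel₀ _ hs]
  have h1 : (∑ j ∈ Finset.range (m + 1), Polynomial.C ((lin x v F).coeff j * τ ^ j) *
      Polynomial.X ^ (m - j)) = lin (τ • v) x F := by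
    refine Polynomial.eq_of_infinite_eval_eq _ _ (Set.Infinite.mono (s := {0}ᶜ) ?_ ?_)
    · intro s hs
      have hs' : s ≠ 0 := by simpa using hs
      rw [Set.mem_ofPred_eq, lin_eval, add_comm (τ • v), ← key s hs', Polynomial.eval_finsetSum]
      refine Finset.sum_congr rfl fun j _ => ?_
      simp only [Polynomial.eval_mul, Polynomial.eval_C, Polynomial.eval_pow, Polynomial.eval_X]
      ring
    · exact Set.Finite.infinite_compl (Set.finite_singleton 0)
  have h2 := congrArg (Polynomial.eval σ) h1
  rw [lin_eval, add_comm (τ • v), Polynomial.eval_finsetSum] at h2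
  rw [← h2]
  refine Finset.sum_congr rfl fun j _ => ?_
  simp only [Polynomial.eval_mul, Polynomial.eval_C, Polynomial.eval_pow, Polynomial.eval_X]
  ring

theorem lin_coeff_top {F : Sx N} {m : ℕ} (hF : F.IsHomogeneous m) (x v : Vx N) :
    (lin x v F).coeff m = eval v F := by
  have h := lin_hom hF x v 0 1
  rw [zero_smul, zero_add, one_smul] at h
  rw [← h, Finset.sum_eq_single m]
  · simp
  · intro j hj hne
    have : m - j ≠ 0 := by
      have := Finset.mem_range.mp hj
      lia
    rw [zero_pow this]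
    ring
  · intro h
    exact absurd (Finset.mem_range.mpr (Nat.lt_succ_self m)) h

/-! ## gradients -/

theorem grad_add (F G : Sx N) (y : Vx N) : grad (F + G) y = grad F y + grad G y := by
  funext i; simp [grad]

theorem grad_sub (F G : Sx N) (y : Vx N) : grad (F - G) y = grad F y - grad G y := by
  funext i; simp [grad]

theorem grad_mul (F G : Sx N) (y : Vx N) :
    grad (F * G) y = eval y F • grad G y + eval y G • grad F y := by
  funext i
  simp [grad, Derivation.leibniz]

theorem grad_sum {ι : Type*} (s : Finset ι) (F : ι → Sx N) (y : Vx N) :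
    grad (∑ i ∈ s, F i) y = ∑ i ∈ s, grad (F i) y := by
  classical
  induction s using Finset.induction_on with
  | empty => funext i; simp [grad]
  | insert a s ha ih => rw [Finset.sum_insert ha, Finset.sum_insert ha, grad_add, ih]

theorem grad_C_mul (a : ℂ) (F : Sx N) (y : Vx N) : grad (C a * F) y = a • grad F y := by
  rw [grad_mul]
  have : grad (C a : Sx N) y = 0 := by funext i; simp [grad]
  rw [this, smul_zero, add_zero, eval_C]

theorem grad_smul_form {F : Sx N} {m : ℕ} (hF : F.IsHomogeneous m) (a : ℂ) (y : Vx N) :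
    grad F (a • y) = a ^ (m - 1) • grad F y := by
  funext i
  exact eval_smul_form hF.pderiv a y

/-- If `F` and `G` vanish at `y`, products `F A` have gradient `A(y) grad F (y)`. -/
theorem grad_mul_of_zero {F A : Sx N} {y : Vx N} (hF : eval y F = 0) :
    grad (A * F) y = eval y A • grad F y := by
  rw [grad_mul, hF, zero_smul, add_zero]

theorem gradL_eval (x v : Vx N) (F : Sx N) (t : ℂ) :
    (fun k => (gradL x v F k).eval t) = grad F (x + t • v) := by
  funext k
  exact lin_eval x v _ t

/-- The gradient along a line of a form of degree `m ≥ 1` (the case `m = 0` is trivial, the gradient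
is zero) is a vector of polynomials of degree `< m`. -/
theorem gradL_mem {F : Sx N} {m : ℕ} (hF : F.IsHomogeneous m) (x v : Vx N) (k : Fin (N + 1)) :
    gradL x v F k ∈ Polynomial.degreeLT ℂ m := by
  rcases Nat.eq_zero_or_pos m with h0 | h0
  · subst h0
    have h1 : F = C (coeff 0 F) := by
      rw [← totalDegree_eq_zero_iff_eq_C]
      exact Nat.le_zero.mp hF.totalDegree_le
    have h2 : gradL x v F k = 0 := by
      unfold gradL
      rw [h1]
      simp
    rw [h2]
    exact Submodule.zero_mem _
  · have h1 := lin_mem (hF.pderiv (i := k)) x v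
    rwa [Nat.sub_add_cancel h0] at h1

theorem gradL_hval {F : Sx N} {m : ℕ} (hF : F.IsHomogeneous m) (hm : 1 ≤ m) (x v : Vx N)
    (σ τ : ℂ) : hval (gradL x v F) m σ τ = grad F (σ • x + τ • v) := by
  funext k
  have h := lin_hom (hF.pderiv (i := k)) x v σ τ
  rw [Nat.sub_add_cancel hm] at h
  exact h

theorem gradL_coeff_top {F : Sx N} {m : ℕ} (hF : F.IsHomogeneous m) (x v : Vx N) :
    (fun k => (gradL x v F k).coeff (m - 1)) = grad F v := by
  funext k
  exact lin_coeff_top hF.pderiv x v

/-- Gradients of forms in `I` are sections on lines. -/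
theorem gradL_mem_Sec {I : Ideal (Sx N)} {x v : Vx N} (h : IsLine I x v) {F : Sx N} (hF : F ∈ I)
    {m : ℕ} (hm : F.IsHomogeneous m) : gradL x v F ∈ Sec I x v m := by
  refine ⟨fun i => gradL_mem hm x v i, fun w hw _ _ => ?_⟩
  have h1 := lin_eq_zero h (hw F hF)
  rw [map_sum] at h1
  simpa [gradL] using h1

/-- Multiplication of sections by polynomials in `t`. -/
theorem Sec_mul {I : Ideal (Sx N)} {x v : Vx N} {n k : ℕ} {s : Fin (N + 1) → Polynomial ℂ}
    (hs : s ∈ Sec I x v n) {L : Polynomial ℂ} (hL : L ∈ Polynomial.degreeLT ℂ (k + 1)) :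
    (fun i => L * s i) ∈ Sec I x v (n + k) := by
  refine ⟨fun i => ?_, fun w hw m hm => ?_⟩
  · have h1 := hs.1 i
    change L * s i ∈ _
    rw [Polynomial.mem_degreeLT] at h1 hL ⊢
    by_cases h0 : s i = 0
    · rw [h0, mul_zero, Polynomial.degree_zero]
      exact WithBot.bot_lt_coe _
    by_cases h0' : L = 0
    · rw [h0', zero_mul, Polynomial.degree_zero]
      exact WithBot.bot_lt_coe _
    rw [Polynomial.degree_eq_natDegree h0] at h1
    rw [Polynomial.degree_eq_natDegree h0'] at hL
    rw [Polynomial.degree_mul, Polynomial.degree_eq_natDegree h0,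
      Polynomial.degree_eq_natDegree h0']
    have h2 : (s i).natDegree < n := by exact_mod_cast h1
    have h3 : L.natDegree < k + 1 := by exact_mod_cast hL
    have h4 : L.natDegree + (s i).natDegree < n + k := by lia
    exact_mod_cast h4
  · have h1 := hs.2 w hw m hm
    simp only [mul_assoc, ← Finset.mul_sum]
    rw [h1, mul_zero]

/-- Division of a section by a nonzero polynomial in `t`. -/
theorem Sec_div {I : Ideal (Sx N)} {x v : Vx N} {n n' : ℕ} {s s' : Fin (N + 1) → Polynomial ℂ}
    (hs : s ∈ Sec I x v n) {L : Polynomial ℂ} (hL : L ≠ 0) (h : ∀ i, s i = L * s' i)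
    (hd : ∀ i, s' i ∈ Polynomial.degreeLT ℂ n') : s' ∈ Sec I x v n' := by
  refine ⟨hd, fun w hw m hm => ?_⟩
  have h1 := hs.2 w hw m hm
  have h2 : L * ∑ i, s' i * lin x v (w i) = 0 := by
    rw [Finset.mul_sum, ← h1]
    refine Finset.sum_congr rfl fun i _ => ?_
    rw [h i, mul_assoc]
  exact (mul_eq_zero.mp h2).resolve_left hL

/-- A section whose entries have smaller degree. -/
theorem Sec_of_degree {I : Ideal (Sx N)} {x v : Vx N} {n n' : ℕ} {s : Fin (N + 1) → Polynomial ℂ}
    (hs : s ∈ Sec I x v n) (hd : ∀ i, s i ∈ Polynomial.degreeLT ℂ n') : s ∈ Sec I x v n' :=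
  ⟨hd, hs.2⟩

end Pool.Agent.Lib.MP_776403_ag.SD
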