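import Pool.Agent.Lib.MP_776403_ag.SD.SpecB

set_option autoImplicit false

open MvPolynomial

noncomputable section

namespace Pool.Agent.Lib.MP_776403_ag.SD

private theorem span_le' {N c : ℕ} {d : Fin c → ℕ} {K : ℕ} {G G' : Fin c → Sx N}
    (h : ∀ i, d i ≤ K → G' i = G i) :
    Ideal.span (G '' {i | d i ≤ K}) ≤ Ideal.span (G' '' {i | d i ≤ K + 1}) := by
  refine Ideal.span_mono ?_
  rintro u ⟨i, hi, rfl⟩
  have hi' : d i ≤ K := hi
  exact ⟨i, Nat.le_succ_of_le hi', h i hi'⟩

private theorem grad_lc {N : ℕ} {κ : Type} [Fintype κ] (a : κ → ℂ) (F : κ → Sx N) (y : Vx N) :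
    grad (∑ i, C (a i) * F i) y = ∑ i, a i • grad (F i) y := by
  rw [grad_sum]
  exact Finset.sum_congr rfl fun i _ => grad_C_mul _ _ _

private theorem lc_mem {N : ℕ} {κ : Type} [Fintype κ] {I : Ideal (Sx N)} {m : ℕ} (a : κ → ℂ)
    {F : κ → Sx N} (h : ∀ i, F i ∈ I ∧ (F i).IsHomogeneous m) :
    ∑ i, C (a i) * F i ∈ I ∧ (∑ i, C (a i) * F i).IsHomogeneous m := by
  refine ⟨Ideal.sum_mem _ fun i _ => Ideal.mul_mem_left _ _ (h i).1,
    IsHomogeneous.sum _ _ _ fun i _ => ?_⟩
  have h1 := (isHomogeneous_C (Fin (N + 1)) (a i)).mul (h i).2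
  rwa [zero_add] at h1

theorem tB : S_W → S_B4 → S_B5 → S_B := by
  classical
  intro hW hB4 hB5 N c d I hyp K G hK hD hPL
  obtain ⟨F, hF, hFi⟩ := hW N c d I hyp K G hD
  obtain ⟨G', hG'⟩ : ∃ G' : Fin c → Sx N, G' = fun i =>
    if h : d i = K + 1 then F ⟨i, h⟩ else G i := ⟨_, rfl⟩
  have g1 : ∀ i, d i ≤ K → G' i = G i := by
    intro i hi
    rw [hG']
    exact dif_neg (by omega)
  have g2 : ∀ i : {i : Fin c // d i = K + 1}, G' i = F i := by
    intro i
    rw [hG']
    exact dif_pos i.2
  refine ⟨G', g1, ?_, ?_, ?_⟩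
  · intro i hi
    by_cases h : d i = K + 1
    · have h1 := hF ⟨i, h⟩
      have h2 := g2 ⟨i, h⟩
      rw [h, h2]
      exact h1
    · rw [g1 i (by omega)]
      exact hD.hom i (by omega)
  · intro y hy hy0
    rw [Fintype.linearIndependent_iff]
    intro g hg
    obtain ⟨e, he⟩ : ∃ e : Fin c → ℂ, e = fun i =>
      if h : d i ≤ K + 1 then g ⟨i, h⟩ else 0 := ⟨_, rfl⟩
    have e1 : ∀ i : {i : Fin c // d i ≤ K + 1}, g i = e i := by
      intro i
      rw [he]
      show g i = if h : d i ≤ K + 1 then g ⟨i, h⟩ else 0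
      rw [dif_pos i.2]
    have s1 : ∑ i : {i : Fin c // d i ≤ K + 1}, g i • grad (G' i) y =
        ∑ i ∈ Finset.univ.filter (fun i => d i ≤ K + 1), e i • grad (G' i) y := by
      rw [Finset.sum_subtype (p := fun i => d i ≤ K + 1) (Finset.univ.filter (fun i => d i ≤ K + 1))
        (fun x => by simp) (fun i => e i • grad (G' i) y)]
      exact Finset.sum_congr rfl fun i _ => by rw [e1 i]
    have s2 : Finset.univ.filter (fun i : Fin c => d i ≤ K + 1) =
        Finset.univ.filter (fun i => d i ≤ K) ∪ Finset.univ.filter (fun i => d i = K + 1) := by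
      ext i
      simp only [Finset.mem_filter, Finset.mem_univ, true_and, Finset.mem_union]
      omega
    have s3 : Disjoint (Finset.univ.filter (fun i : Fin c => d i ≤ K))
        (Finset.univ.filter (fun i => d i = K + 1)) := by
      rw [Finset.disjoint_filter]
      intro i _ h1 h2
      omega
    rw [s1, s2, Finset.sum_union s3] at hg
    have s4 : ∑ i ∈ Finset.univ.filter (fun i => d i = K + 1), e i • grad (G' i) y =
        grad (∑ i : {i : Fin c // d i = K + 1}, C (e i) * F i) y := by
      rw [grad_lc (fun i : {i : Fin c // d i = K + 1} => e i) F y,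
        Finset.sum_subtype (p := fun i => d i = K + 1) (Finset.univ.filter (fun i => d i = K + 1))
        (fun x => by simp) (fun i => e i • grad (G' i) y)]
      exact Finset.sum_congr rfl fun i _ => by rw [g2 i]
    have s5 : ∑ i ∈ Finset.univ.filter (fun i => d i ≤ K), e i • grad (G' i) y =
        ∑ i : {i : Fin c // d i ≤ K}, e i • grad (G i) y := by
      rw [Finset.sum_subtype (p := fun i => d i ≤ K) (Finset.univ.filter (fun i => d i ≤ K))
        (fun x => by simp) (fun i => e i • grad (G' i) y)]
      exact Finset.sum_congr rfl fun i _ => by rw [g1 i i.2]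
    rw [s4, s5] at hg
    have hGS : ∑ i : {i : Fin c // d i ≤ K}, e i • grad (G i) y ∈ GS d K G y :=
      Submodule.sum_mem _ fun i _ => Submodule.smul_mem _ _
        (Submodule.subset_span ⟨i.1, i.2, rfl⟩)
    have hH := lc_mem (fun i : {i : Fin c // d i = K + 1} => e i) hF
    have hgr : grad (∑ i : {i : Fin c // d i = K + 1}, C (e i) * F i) y ∈ GS d K G y := by
      have h1 : grad (∑ i : {i : Fin c // d i = K + 1}, C (e i) * F i) y =
          -∑ i : {i : Fin c // d i ≤ K}, e i • grad (G i) y := by
        rw [eq_neg_iff_add_eq_zero, add_comm]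
        exact hg
      rw [h1]
      exact Submodule.neg_mem _ hGS
    have hsp : ∑ i : {i : Fin c // d i = K + 1}, C (e i) * F i ∈
        Ideal.span (G '' {i | d i ≤ K}) := by
      by_contra hcon
      exact hB4 N c d I hyp K G hK hD hPL _ hH.1 hH.2 hcon y hy hy0 hgr
    have hz := hFi (fun i => e i) hsp
    have hz' : ∀ i : {i : Fin c // d i = K + 1}, e i = 0 := fun i => congrFun hz i
    have h0 : grad (∑ i : {i : Fin c // d i = K + 1}, C (e i) * F i) y = 0 := by
      rw [grad_lc (fun i : {i : Fin c // d i = K + 1} => e i) F y]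
      exact Finset.sum_eq_zero fun i _ => by rw [hz' i, zero_smul]
    rw [h0, add_zero] at hg
    have hind := (Fintype.linearIndependent_iff.1 (hD.ind y hy hy0)) (fun i => e i) hg
    intro i
    rw [e1 i]
    by_cases h : d i.1 = K + 1
    · exact hz' ⟨i.1, h⟩
    · exact hind ⟨i.1, by have := i.2; omega⟩
  · intro k hk H hH hHh
    by_cases hkK : k ≤ K
    · exact span_le' g1 (hD.gen k hkK H hH hHh)
    · have hk1 : k = K + 1 := by omega
      subst hk1
      obtain ⟨eq⟩ : Nonempty (Fin (Nat.card {i : Fin c // d i = K + 1}) ≃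
          {i : Fin c // d i = K + 1}) := ⟨(Finite.equivFin _).symm⟩
      by_contra hcon
      have hb := hB5 N c d I hyp K G hK hD hPL (Nat.card {i : Fin c // d i = K + 1} + 1)
        (Fin.cons H (fun i => F (eq i))) ?_ ?_
      · omega
      · intro i
        refine Fin.cases ⟨hH, hHh⟩ (fun i => ?_) i
        exact hF (eq i)
      · intro a ha
        rw [Fin.sum_univ_succ] at ha
        simp only [Fin.cons_zero, Fin.cons_succ] at ha
        have hre : ∑ i, C (a (Fin.succ i)) * F (eq i) =
            ∑ j : {i : Fin c // d i = K + 1}, C (a (Fin.succ (eq.symm j))) * F j := by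
          rw [← Equiv.sum_comp eq]
          refine Finset.sum_congr rfl fun i _ => ?_
          rw [Equiv.symm_apply_apply]
        rw [hre] at ha
        by_cases h0 : a 0 = 0
        · rw [h0, C_0, zero_mul, zero_add] at ha
          have h1 := hFi _ ha
          funext i
          refine Fin.cases h0 (fun i => ?_) i
          have h2 := congrFun h1 (eq i)
          simp only [Equiv.symm_apply_apply] at h2
          exact h2
        · exfalso
          apply hcon
          have h1 := span_le' g1 ha
          have h2 : ∑ j : {i : Fin c // d i = K + 1}, C (a (Fin.succ (eq.symm j))) * F j ∈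
              Ideal.span (G' '' {i | d i ≤ K + 1}) := by
            refine Ideal.sum_mem _ fun j _ => Ideal.mul_mem_left _ _ (Ideal.subset_span ?_)
            exact ⟨j.1, le_of_eq j.2, g2 j⟩
          have h3 : C (a 0) * H ∈ Ideal.span (G' '' {i | d i ≤ K + 1}) := by
            have := Ideal.sub_mem _ h1 h2
            rwa [add_sub_cancel_right] at this
          have h4 := Ideal.mul_mem_left _ (C (a 0)⁻¹) h3
          rw [← mul_assoc, ← C_mul, inv_mul_cancel₀ h0, C_1, one_mul] at h4
          exact h4

end Pool.Agent.Lib.MP_776403_ag.SD
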