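import Pool.Agent.Lib.MP_776403_ag.SD.SpecB

/-!
# THEOREM SD, module B1: minimality of the Hilbert function (helper73)
-/

set_option autoImplicit false

open MvPolynomial

noncomputable section

namespace Pool.Agent.Lib.MP_776403_ag.SD

theorem tB1 : S_KosR → S_KosI → S_KosM → S_B1 := by
  intro hR hI hM N ι _ hc d G hG k
  obtain ⟨e⟩ : Nonempty (ι ↪ Fin (N + 1)) :=
    Function.Embedding.nonempty_of_card_le (by rwa [Fintype.card_fin])
  have h1 := hR N ι e e.injective d G hG k
  have h2 := hI N ι d G hG k
  have h3 := hM N ι e e.injective d k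
  omega

end Pool.Agent.Lib.MP_776403_ag.SD
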