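import Pool.Agent.Lib.MP_776403_ag.SD.SpecB

/-!
# THEOREM SD, module B1K: Hilbert function of the constructed forms (helper27)
-/

set_option autoImplicit false

open MvPolynomial

noncomputable section

namespace Pool.Agent.Lib.MP_776403_ag.SD

/-- The summand of `hci`. -/
private def B1K_f {c : ℕ} (d : Fin c → ℕ) (N k : ℕ) (A : Finset (Fin c)) : ℤ :=
  (-1) ^ A.card *
    (if ∑ i ∈ A, d i ≤ k then (Nat.choose (N + (k - ∑ i ∈ A, d i)) N : ℤ) else 0)

private lemma B1K_sub {c : ℕ} (d : Fin c → ℕ) (N k K : ℕ) :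
    ∑ A ∈ (Finset.univ : Finset (Finset (Fin c))).filter
      (fun A => A ⊆ Finset.univ.filter fun i => d i ≤ K), B1K_f d N k A =
      hcG (fun i : {i : Fin c // d i ≤ K} => d i) N k := by
  classical
  unfold hcG
  symm
  refine Finset.sum_nbij (fun A' => A'.map (Function.Embedding.subtype _)) ?_ ?_ ?_ ?_
  · intro A' _
    rw [Finset.mem_filter]
    refine ⟨Finset.mem_univ _, ?_⟩
    intro i hi
    obtain ⟨j, -, rfl⟩ := Finset.mem_map.1 hi
    rw [Finset.mem_filter]
    exact ⟨Finset.mem_univ _, j.2⟩
  · intro A _ B _ h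
    exact Finset.map_injective _ h
  · intro A hA
    have hA' : A ⊆ Finset.univ.filter fun i => d i ≤ K := (Finset.mem_filter.1 hA).2
    refine ⟨A.subtype (fun i => d i ≤ K), Finset.mem_coe.2 (Finset.mem_univ _), ?_⟩
    exact Finset.subtype_map_of_mem fun i hi => (Finset.mem_filter.1 (hA' hi)).2
  · intro A' _
    unfold B1K_f
    rw [Finset.card_map, Finset.sum_map]
    rfl

theorem tB1K : S_B1 → S_B1K := by
  classical
  intro hB1 N c d I hyp K G hD
  have hc : c ≤ N + 1 := by
    have h1 : ∑ _i : Fin c, 2 ≤ ∑ i, d i := Finset.sum_le_sum fun i _ => hyp.two_le i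
    rw [Finset.sum_const, Finset.card_univ, Fintype.card_fin, smul_eq_mul] at h1
    have h2 := hyp.large
    omega
  have hcard : Fintype.card {i : Fin c // d i ≤ K} ≤ N + 1 := by
    refine le_trans (Fintype.card_subtype_le _) ?_
    rw [Fintype.card_fin]
    exact hc
  have hrange : Set.range (fun i : {i : Fin c // d i ≤ K} => G i) = G '' {i | d i ≤ K} := by
    ext x
    constructor
    · rintro ⟨i, rfl⟩
      exact ⟨i.1, i.2, rfl⟩
    · rintro ⟨i, hi, rfl⟩
      exact ⟨⟨i, hi⟩, rfl⟩
  have hB := hB1 N {i : Fin c // d i ≤ K} hcard (fun i => d i) (fun i => G i)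
    (fun i => (hD.hom i i.2).2)
  rw [hrange] at hB
  set T : Finset (Fin c) := Finset.univ.filter fun i => d i ≤ K with hT
  have hsplit : ∀ k, hci d N k =
      hcG (fun i : {i : Fin c // d i ≤ K} => d i) N k +
        ∑ A ∈ (Finset.univ : Finset (Finset (Fin c))).filter (fun A => ¬ A ⊆ T), B1K_f d N k A := by
    intro k
    rw [← B1K_sub d N k K, Finset.sum_filter_add_sum_filter_not]
    rfl
  have hbig : ∀ A : Finset (Fin c), ¬ A ⊆ T → ∃ i ∈ A, K + 1 ≤ d i := by
    intro A hA
    obtain ⟨i, hi, hiT⟩ := Finset.not_subset.1 hA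
    refine ⟨i, hi, ?_⟩
    by_contra h
    exact hiT (Finset.mem_filter.2 ⟨Finset.mem_univ _, by omega⟩)
  constructor
  · intro k hk
    have h0 : ∑ A ∈ (Finset.univ : Finset (Finset (Fin c))).filter (fun A => ¬ A ⊆ T),
        B1K_f d N k A = 0 := by
      refine Finset.sum_eq_zero fun A hA => ?_
      obtain ⟨i, hi, hid⟩ := hbig A (Finset.mem_filter.1 hA).2
      have h1 : d i ≤ ∑ j ∈ A, d j := Finset.single_le_sum (fun _ _ => Nat.zero_le _) hi
      unfold B1K_f
      rw [if_neg (by omega), mul_zero]
    rw [hsplit k, h0, add_zero]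
    exact hB k
  · have h0 : ∑ A ∈ (Finset.univ : Finset (Finset (Fin c))).filter (fun A => ¬ A ⊆ T),
        B1K_f d N (K + 1) A = -(Nat.card {i : Fin c // d i = K + 1} : ℤ) := by
      set S1 : Finset (Finset (Fin c)) :=
        (Finset.univ.filter fun i : Fin c => d i = K + 1).map
          ⟨fun i => ({i} : Finset (Fin c)), Finset.singleton_injective⟩ with hS1
      have hsub : S1 ⊆ (Finset.univ : Finset (Finset (Fin c))).filter (fun A => ¬ A ⊆ T) := by
        intro A hA
        obtain ⟨i, hi, rfl⟩ := Finset.mem_map.1 hA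
        have hi' : d i = K + 1 := (Finset.mem_filter.1 hi).2
        rw [Finset.mem_filter]
        refine ⟨Finset.mem_univ _, fun h => ?_⟩
        have h1 : i ∈ T := h (Finset.mem_singleton_self i)
        have h2 := (Finset.mem_filter.1 h1).2
        omega
      rw [← Finset.sum_subset hsub]
      · rw [hS1, Finset.sum_map]
        have h1 : ∀ i ∈ Finset.univ.filter fun i : Fin c => d i = K + 1,
            B1K_f d N (K + 1) ((⟨fun i => ({i} : Finset (Fin c)),
              Finset.singleton_injective⟩ : Fin c ↪ Finset (Fin c)) i) = -1 := by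
          intro i hi
          have hi' : d i = K + 1 := (Finset.mem_filter.1 hi).2
          unfold B1K_f
          simp [hi']
        rw [Finset.sum_congr rfl h1, Finset.sum_const, Nat.card_eq_fintype_card,
          Fintype.card_subtype]
        simp
      · intro A hA hA1
        obtain ⟨i, hi, hid⟩ := hbig A (Finset.mem_filter.1 hA).2
        have hne : A ≠ {i} ∨ d i ≠ K + 1 := by
          by_contra h
          push Not at h
          apply hA1
          rw [hS1, Finset.mem_map]
          exact ⟨i, Finset.mem_filter.2 ⟨Finset.mem_univ _, h.2⟩, h.1.symm⟩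
        have h1 : K + 2 ≤ ∑ j ∈ A, d j := by
          rcases hne with h | h
          · obtain ⟨j, hj, hji⟩ : ∃ j ∈ A, j ≠ i := by
              by_contra hcon
              push Not at hcon
              exact h (Finset.eq_singleton_iff_unique_mem.2 ⟨hi, hcon⟩)
            have h2 : d i + ∑ l ∈ A.erase i, d l = ∑ l ∈ A, d l := Finset.add_sum_erase A d hi
            have h3 : d j ≤ ∑ l ∈ A.erase i, d l :=
              Finset.single_le_sum (fun _ _ => Nat.zero_le _) (Finset.mem_erase.2 ⟨hji, hj⟩)
            have h4 := hyp.two_le j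
            omega
          · have h2 : d i ≤ ∑ j ∈ A, d j := Finset.single_le_sum (fun _ _ => Nat.zero_le _) hi
            omega
        unfold B1K_f
        rw [if_neg (by omega), mul_zero]
    rw [hsplit (K + 1), h0]
    have h5 := hB (K + 1)
    linarith

end Pool.Agent.Lib.MP_776403_ag.SD
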