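import Pool.Agent.Lib.MP_776403_ag.SD.SpecB

/-!
# THEOREM SD, module B3: a good point
-/

set_option autoImplicit false

open MvPolynomial

noncomputable section

namespace Pool.Agent.Lib.MP_776403_ag.SD

theorem tB3 : S_B2 → S_Null → S_Ne → S_Minor → S_DetHom → S_B3 := by
  classical
  intro hB2 hNull hPt hMinor hDetHom N c d I hI K G hK hG F hF hFh hnF
  by_contra hcon
  push Not at hcon
  have hcon' : ∀ y ∈ zer I, y ≠ 0 → grad F y ∈ GS d K G y := hcon
  have hGI : ∀ i : {i : Fin c // d i ≤ K}, G i ∈ I := fun i => (hG.hom i i.2).1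
  have hGh : ∀ i : {i : Fin c // d i ≤ K}, (G i).IsHomogeneous (d i) := fun i => (hG.hom i i.2).2
  -- the coefficients
  have h1 : ∀ y : Vx N, ∃ l : {i : Fin c // d i ≤ K} → ℂ,
      (y ∈ zer I → y ≠ 0 → grad F y = ∑ i, l i • grad (G i) y) ∧
      ((y ∉ zer I ∨ y = 0) → ∀ i, l i = 0) := by
    intro y
    by_cases hy : y ∈ zer I ∧ y ≠ 0
    · have h2 := hcon' y hy.1 hy.2
      have h3 : GS d K G y =
          Submodule.span ℂ (Set.range fun i : {i : Fin c // d i ≤ K} => grad (G i) y) := by
        unfold GS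
        congr 1
        ext u
        constructor
        · rintro ⟨i, hi, hu⟩
          exact ⟨⟨i, hi⟩, hu.symm⟩
        · rintro ⟨i, hu⟩
          exact ⟨i, i.2, hu.symm⟩
      rw [h3, Submodule.mem_span_range_iff_exists_fun] at h2
      obtain ⟨l, hl⟩ := h2
      refine ⟨l, fun _ _ => hl.symm, fun h => ?_⟩
      rcases h with h | h
      · exact absurd hy.1 h
      · exact absurd h hy.2
    · refine ⟨fun _ => 0, fun h h' => absurd ⟨h, h'⟩ hy, fun _ _ => rfl⟩
  choose ell hell using h1
  -- they are regular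
  have hreg : ∀ i : {i : Fin c // d i ≤ K}, IsReg I (K + 1 - d i) (fun y => ell y i) := by
    intro i
    refine ⟨fun y hy => (hell y).2 hy i, ?_⟩
    intro y0 hy0 hy00
    obtain ⟨B, hB⟩ := hMinor {i : Fin c // d i ≤ K} (N + 1) (fun i => grad (G i) y0)
      (hG.ind y0 hy0 hy00)
    set M : Matrix {i : Fin c // d i ≤ K} {i : Fin c // d i ≤ K} (Sx N) :=
      Matrix.of fun i' j => pderiv (B j) (G i') with hM
    set P : Sx N := (M.updateRow i (fun j => pderiv (B j) F)).det with hP
    have hev : ∀ z : Vx N, eval z M.det = (Matrix.of fun (i' : {i : Fin c // d i ≤ K}) j => grad (G i') z (B j)).det := by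
      intro z
      rw [RingHom.map_det]
      congr 1
    have hevP : ∀ z : Vx N, eval z P = ((Matrix.of fun (i' : {i : Fin c // d i ≤ K}) j => grad (G i') z (B j)).updateRow i
        (fun j => grad F z (B j))).det := by
      intro z
      rw [hP, RingHom.map_det]
      congr 1
      ext i' j
      by_cases hi : i' = i
      · subst hi
        simp [RingHom.mapMatrix_apply, grad]
      · simp [RingHom.mapMatrix_apply, Matrix.updateRow_ne hi, hM, grad]
    have hdeg : ∑ i', Function.update (fun i' : {i : Fin c // d i ≤ K} => d i' - 1) i K i' =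
        ∑ i' : {i : Fin c // d i ≤ K}, (d i' - 1) + (K + 1 - d i) := by
      rw [Finset.sum_update_of_mem (Finset.mem_univ i)]
      have h1 := Finset.sum_eq_sum_sdiff_singleton_add (Finset.mem_univ i)
        (fun i' : {i : Fin c // d i ≤ K} => d i' - 1)
      have h2 := hI.two_le i
      have h3 := i.2
      rw [h1]
      omega
    refine ⟨P, M.det, ∑ i' : {i : Fin c // d i ≤ K}, (d i' - 1), ?_, ?_, ?_, ?_⟩
    · rw [← hdeg]
      apply hDetHom
      intro i' j
      by_cases hi : i' = i
      · subst hi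
        rw [Matrix.updateRow_self, Function.update_self]
        exact (hFh.pderiv (i := B j))
      · rw [Matrix.updateRow_ne hi, Function.update_of_ne hi, hM, Matrix.of_apply]
        exact (hGh i').pderiv
    · apply hDetHom
      intro i' j
      rw [hM, Matrix.of_apply]
      exact (hGh i').pderiv
    · rw [hev]
      exact hB
    · intro z hz hz0
      show ell z i * eval z M.det = eval z P
      rw [hev, hevP]
      have h4 : (fun j => grad F z (B j)) = ∑ i' : {i : Fin c // d i ≤ K},
          ell z i' • (Matrix.of fun (i' : {i : Fin c // d i ≤ K}) j => grad (G i') z (B j)) i' := by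
        funext j
        rw [(hell z).1 hz hz0, Finset.sum_apply, Finset.sum_apply]
        rfl
      rw [h4, Matrix.det_updateRow_sum, smul_eq_mul]
  -- forms
  have h5 : ∀ i : {i : Fin c // d i ≤ K}, ∃ A : Sx N, A.IsHomogeneous (K + 1 - d i) ∧
      ∀ y ∈ zer I, y ≠ 0 → ell y i = eval y A := by
    intro i
    have h2 := hI.two_le i
    exact hB2 N c d I hI K G hG (K + 1 - d i) (by omega) _ (hreg i)
  choose A hAh hA using h5
  set F' : Sx N := F - ∑ i, A i * G i with hF'
  have hF'I : F' ∈ I := I.sub_mem hF (I.sum_mem fun i _ => I.mul_mem_left _ (hGI i))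
  have hF'h : F'.IsHomogeneous (K + 1) := by
    refine hFh.sub (IsHomogeneous.sum _ _ _ fun i _ => ?_)
    have h2 := (hAh i).mul (hGh i)
    have h3 : K + 1 - d i + d i = K + 1 := by
      have := i.2
      omega
    rwa [h3] at h2
  have hgr : ∀ y ∈ zer I, y ≠ 0 → grad F' y = 0 := by
    intro y hy hy0
    rw [hF', grad_sub, grad_sum, (hell y).1 hy hy0, sub_eq_zero]
    refine Finset.sum_congr rfl fun i _ => ?_
    rw [grad_mul_of_zero (hy _ (hGI i)), hA i y hy hy0]
  have hQI : Ideal.span (G '' {i | d i ≤ K}) ≤ I := by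
    rw [Ideal.span_le]
    rintro _ ⟨i, hi, rfl⟩
    exact (hG.hom i hi).1
  have hpd : ∀ k, pderiv k F' ∈ Ideal.span (G '' {i | d i ≤ K}) := by
    intro k
    have h6 : (pderiv k F').IsHomogeneous K := hF'h.pderiv
    refine hG.gen K le_rfl _ ?_ h6
    refine (hNull N I hI.prime hI.hom).2 (hPt N c d I hI) _ K h6 ?_
    intro z hz hz0
    exact congrFun (hgr z hz hz0) k
  have hF'Q : F' ∈ Ideal.span (G '' {i | d i ≤ K}) := by
    have h7 : (K + 1) • F' ∈ Ideal.span (G '' {i | d i ≤ K}) := by
      rw [← hF'h.sum_X_mul_pderiv]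
      exact Ideal.sum_mem _ fun k _ => Ideal.mul_mem_left _ _ (hpd k)
    have h8 : F' = C ((K + 1 : ℂ)⁻¹) * ((K + 1) • F') := by
      rw [nsmul_eq_mul, ← mul_assoc]
      have h9 : ((K + 1 : ℕ) : Sx N) = C (K + 1 : ℂ) := by
        rw [map_add, map_one, map_natCast]
        push_cast
        rfl
      rw [h9, ← map_mul, inv_mul_cancel₀ (by exact_mod_cast Nat.succ_ne_zero K), map_one, one_mul]
    rw [h8]
    exact Ideal.mul_mem_left _ _ h7
  apply hnF
  have h10 : F = F' + ∑ i, A i * G i := by rw [hF']; ring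
  rw [h10]
  exact Ideal.add_mem _ hF'Q (Ideal.sum_mem _ fun i _ => Ideal.mul_mem_left _ _
    (Ideal.subset_span ⟨i, i.2, rfl⟩))

end Pool.Agent.Lib.MP_776403_ag.SD
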