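import Pool.Agent.Lib.MP_776403_ag.SD.SpecB

/-!
# THEOREM SD, module B4: nowhere dependent gradients (helper24)
-/

set_option autoImplicit false

open MvPolynomial

noncomputable section

namespace Pool.Agent.Lib.MP_776403_ag.SD

private theorem B4_transport (hL : S_L3'') {N c : ℕ} {d : Fin c → ℕ} {I : Ideal (Sx N)}
    (hyp : Hyp I d) {K : ℕ} {G : Fin c → Sx N} (hK : 1 ≤ K) (hD : Data I d K G)
    (hP : PL I d (K + 1) G) {F : Sx N} (hF : F ∈ I) (hFh : F.IsHomogeneous (K + 1))
    {u z : Vx N} (hu : u ≠ 0) (hz : z ≠ 0) (huz : ∀ s t : ℂ, s • u + t • z ∈ zer I)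
    (h : grad F u ∈ GS d K G u) : grad F z ∈ GS d K G z := by
  by_cases hind : LinearIndependent ℂ ![u, z]
  · have hline : IsLine I u (z - u) := by
      refine ⟨?_, fun s t => ?_⟩
      · rw [LinearIndependent.pair_iff] at hind ⊢
        intro s t hst
        have h1 : (s - t) • u + t • z = 0 := by
          rw [← hst]
          module
        obtain ⟨h2, h3⟩ := hind _ _ h1
        refine ⟨?_, h3⟩
        rw [h3, sub_zero] at h2
        exact h2
      · have h1 : s • u + t • (z - u) = (s - t) • u + t • z := by module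
        rw [h1]
        exact huz _ _
    have h2 := hL N c d I hyp K G hK hD hP u (z - u) hline F hF hFh h 1
    rwa [one_smul, add_sub_cancel] at h2
  · -- dependent vectors
    obtain ⟨b, hb⟩ : ∃ b : ℂ, z = b • u := by
      rw [LinearIndependent.pair_iff] at hind
      push Not at hind
      obtain ⟨s, t, hst, hne⟩ := hind
      by_cases ht : t = 0
      · exfalso
        rw [ht, zero_smul, add_zero] at hst
        rcases smul_eq_zero.1 hst with h1 | h1
        · exact hne h1 ht
        · exact hu h1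
      · refine ⟨-(t⁻¹ * s), ?_⟩
        have h1 : t • z = -(s • u) := by
          rw [eq_neg_iff_add_eq_zero, add_comm]
          exact hst
        have h2 : z = t⁻¹ • (t • z) := by rw [smul_smul, inv_mul_cancel₀ ht, one_smul]
        rw [h2, h1, smul_neg, smul_smul, neg_smul]
    have hb0 : b ≠ 0 := by
      intro h0
      rw [h0, zero_smul] at hb
      exact hz hb
    subst hb
    rw [grad_smul_form hFh]
    refine Submodule.smul_mem _ _ ?_
    have hle : GS d K G u ≤ GS d K G (b • u) := by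
      refine Submodule.span_le.2 ?_
      rintro w ⟨i, hi, rfl⟩
      have h1 := grad_smul_form (hD.hom i hi).2 b u
      have h2 : grad (G i) u = (b ^ (d i - 1))⁻¹ • grad (G i) (b • u) := by
        rw [h1, smul_smul, inv_mul_cancel₀ (pow_ne_zero _ hb0), one_smul]
      rw [h2]
      exact Submodule.smul_mem _ _ (Submodule.subset_span ⟨i, hi, rfl⟩)
    exact hle h

theorem tB4 : S_B3 → S_L3'' → S_Line → S_Meet → S_B4 := by
  intro hB3 hL hLine hMeet N c d I hyp K G hK hD hP F hF hFh hFG y hy hy0 hyZ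
  obtain ⟨x, hx, hx0, hxZ⟩ := hB3 N c d I hyp K G hK hD F hF hFh hFG
  obtain ⟨vx, hvx, hvx'⟩ := hyp.cov x hx hx0
  obtain ⟨vy, hvy, hvy'⟩ := hyp.cov y hy hy0
  obtain ⟨Px, hPx, hPxh, -, hPxd, hPxl⟩ := hLine N c d I hyp x vx ⟨hvx, hvx'⟩
  obtain ⟨Py, hPy, hPyh, -, hPyd, hPyl⟩ := hLine N c d I hyp y vy ⟨hvy, hvy'⟩
  have hN := hyp.large
  obtain ⟨z, hz0, hzx, hzy⟩ := hMeet N Px Py _ _ hPx hPy hPxh hPyh hPxd hPyd (by omega)
  have h1 : grad F z ∈ GS d K G z :=
    B4_transport hL hyp hK hD hP hF hFh hy0 hz0 (hPyl z hzy) hyZ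
  have h2 : grad F x ∈ GS d K G x := by
    refine B4_transport hL hyp hK hD hP hF hFh hz0 hx0 (fun s t => ?_) h1
    rw [add_comm]
    exact hPxl z hzx t s
  exact hxZ h2

end Pool.Agent.Lib.MP_776403_ag.SD
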