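import Pool.Agent.Lib.MP_776403_ag.SD.SpecB

/-!
# THEOREM SD, module B5: the number of new forms of degree `K + 1`
-/

set_option autoImplicit false

open MvPolynomial

noncomputable section

namespace Pool.Agent.Lib.MP_776403_ag.SD

variable {N : ℕ}

/-- The gradient of a form in `I` is a section. -/
private theorem sect_grad {I J : Ideal (Sx N)} {F : Sx N} {m : ℕ} (hF : F ∈ I)
    (hm : F.IsHomogeneous m) : IsSect I J m (fun y => grad F y) := by
  intro y _ _
  refine ⟨Submodule.subset_span ⟨F, hF, rfl⟩, fun l => pderiv l F, 1, 0, fun l => ?_,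
    isHomogeneous_one _ _, ?_, fun z _ _ l => ?_⟩
  · rw [zero_add]
    exact hm.pderiv
  · rw [map_one]
    exact one_ne_zero
  · rw [map_one, mul_one]
    rfl

/-- Independence of a longer family restricts to the first members. -/
private theorem restr_indep {Q : Ideal (Sx N)} {r s : ℕ} (h : s ≤ r) (F : Fin r → Sx N)
    (hind : ∀ a : Fin r → ℂ, ∑ i, C (a i) * F i ∈ Q → a = 0) (b : Fin s → ℂ)
    (hb : ∑ j, C (b j) * F (Fin.castLE h j) ∈ Q) : b = 0 := by
  classical
  have hinj : Function.Injective (Fin.castLE h) := Fin.castLE_injective h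
  have h1 : ∑ j, C (b j) * F (Fin.castLE h j) =
      ∑ i, C (Function.extend (Fin.castLE h) b 0 i) * F i := by
    refine Finset.sum_of_injOn (Fin.castLE h) hinj.injOn (fun _ _ => by simp) ?_ ?_
    · intro i _ hi
      have h2 : ¬ ∃ j, Fin.castLE h j = i := by
        rintro ⟨j, hj⟩
        exact hi ⟨j, by simp, hj⟩
      rw [Function.extend_apply' _ _ _ h2]
      simp
    · intro j _
      rw [hinj.extend_apply]
  rw [h1] at hb
  have h2 := hind _ hb
  funext j
  have h3 := congrFun h2 (Fin.castLE h j)
  rwa [hinj.extend_apply] at h3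

/-- The gradients of the old and the new forms are independent at every point. -/
private theorem grads_indep (hB4 : S_B4) {c : ℕ} {d : Fin c → ℕ} {I : Ideal (Sx N)}
    (hyp : Hyp I d) {K : ℕ} {G : Fin c → Sx N} (hK : 1 ≤ K) (hD : Data I d K G)
    (hP : PL I d (K + 1) G) {n s : ℕ} (e : Fin n → {i : Fin c // d i ≤ K})
    (he : Function.Injective e) (F : Fin s → Sx N)
    (hF : ∀ i, F i ∈ I ∧ (F i).IsHomogeneous (K + 1))
    (hind : ∀ a : Fin s → ℂ, ∑ i, C (a i) * F i ∈ Ideal.span (G '' {i | d i ≤ K}) → a = 0)
    {y : Vx N} (hy : y ∈ zer I) (hy0 : y ≠ 0) :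
    LinearIndependent ℂ (fun i : Fin (n + s) =>
      grad ((Fin.append (fun i => G (e i).1) F : Fin (n + s) → Sx N) i) y) := by
  rw [Fintype.linearIndependent_iff]
  intro g hg
  rw [Fin.sum_univ_add] at hg
  simp only [Fin.append_left, Fin.append_right] at hg
  have h1 : grad (∑ j, C (g (Fin.natAdd n j)) * F j) y =
      ∑ j, g (Fin.natAdd n j) • grad (F j) y := by
    rw [grad_sum]
    exact Finset.sum_congr rfl fun j _ => grad_C_mul _ _ _
  have h2 : grad (∑ j, C (g (Fin.natAdd n j)) * F j) y ∈ GS d K G y := by
    have h3 : grad (∑ j, C (g (Fin.natAdd n j)) * F j) y =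
        - ∑ i, g (Fin.castAdd s i) • grad (G (e i).1) y := by
      rw [h1]
      exact eq_neg_of_add_eq_zero_right hg
    rw [h3]
    refine Submodule.neg_mem _ (Submodule.sum_mem _ fun i _ => Submodule.smul_mem _ _ ?_)
    exact Submodule.subset_span ⟨(e i).1, (e i).2, rfl⟩
  have h3 : (∑ j, C (g (Fin.natAdd n j)) * F j) ∈ Ideal.span (G '' {i | d i ≤ K}) := by
    by_contra hn
    refine hB4 N c d I hyp K G hK hD hP _ ?_ ?_ hn y hy hy0 h2
    · exact Ideal.sum_mem _ fun j _ => Ideal.mul_mem_left _ _ (hF j).1
    · refine IsHomogeneous.sum _ _ _ fun j _ => ?_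
      have := (isHomogeneous_C (Fin (N + 1)) (g (Fin.natAdd n j))).mul (hF j).2
      rwa [zero_add] at this
  have h4 := hind _ h3
  have h5 : ∀ j, g (Fin.natAdd n j) = 0 := fun j => congrFun h4 j
  have h6 : ∑ i, g (Fin.castAdd s i) • grad (G (e i).1) y = 0 := by
    have : ∑ j, g (Fin.natAdd n j) • grad (F j) y = 0 :=
      Finset.sum_eq_zero fun j _ => by rw [h5 j, zero_smul]
    rwa [this, add_zero] at hg
  have h7 : LinearIndependent ℂ (fun i : Fin n => grad (G (e i).1) y) :=
    (hD.ind y hy hy0).comp e he
  have h8 : ∀ i, g (Fin.castAdd s i) = 0 :=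
    Fintype.linearIndependent_iff.mp h7 (fun i => g (Fin.castAdd s i)) h6
  intro i
  induction i using Fin.addCases with
  | left i => exact h8 i
  | right j => exact h5 j

theorem tB5 : S_B4 → S_N → S_Line → S_Ne → S_Mono → S_B5 := by
  classical
  intro hB4 hN hLine hPt hMono N c d I hyp K G hK hD hP r F hF hind
  by_contra hr
  rw [not_le] at hr
  have hs : Nat.card {i : Fin c // d i = K + 1} + 1 ≤ r := hr
  set m' := Nat.card {i : Fin c // d i = K + 1} with hm'
  set n := Nat.card {i : Fin c // d i ≤ K} with hn
  let e1 : Fin n ≃ {i : Fin c // d i ≤ K} := (Finite.equivFin _).symm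
  let e2 : Fin m' ≃ {i : Fin c // d i = K + 1} := (Finite.equivFin _).symm
  let F' : Fin (m' + 1) → Sx N := fun j => F (Fin.castLE hs j)
  have hF' : ∀ i, F' i ∈ I ∧ (F' i).IsHomogeneous (K + 1) := fun i => hF _
  have hind' : ∀ a : Fin (m' + 1) → ℂ,
      ∑ i, C (a i) * F' i ∈ Ideal.span (G '' {i | d i ≤ K}) → a = 0 :=
    fun a ha => restr_indep hs F hind a ha
  let H : Fin (n + (m' + 1)) → Sx N := Fin.append (fun i => G (e1 i).1) F'
  let del : Fin (n + (m' + 1)) → ℕ := Fin.append (fun i => d (e1 i).1) (fun _ => K + 1)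
  let f : Fin (n + m') → Fin c := Fin.append (fun i => (e1 i).1) (fun j => (e2 j).1)
  obtain ⟨y0, hy0, hy0'⟩ := hPt N c d I hyp
  obtain ⟨v, hv, hline⟩ := hyp.cov y0 hy0 hy0'
  obtain ⟨J, hJ1, hJ2, hJ3, hJ4, -⟩ := hLine N c d I hyp y0 v ⟨hv, hline⟩
  have hzer : zer J ⊆ zer I := fun y hy G' hG' => hy G' (hJ3 hG')
  have hHI : ∀ i, H i ∈ I ∧ (H i).IsHomogeneous (del i) := by
    intro i
    induction i using Fin.addCases with
    | left i =>
      simp only [H, del, Fin.append_left]
      exact hD.hom _ (e1 i).2
    | right j =>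
      simp only [H, del, Fin.append_right]
      exact hF' j
  have hdel : ∀ i, 1 ≤ del i := by
    intro i
    induction i using Fin.addCases with
    | left i =>
      simp only [del, Fin.append_left]
      exact le_trans one_le_two (hyp.two_le _)
    | right j =>
      simp only [del, Fin.append_right]
      exact Nat.le_add_left _ _
  have hf : Function.Injective f := by
    intro i j hij
    induction i using Fin.addCases with
    | left i =>
      induction j using Fin.addCases with
      | left j =>
        simp only [f, Fin.append_left] at hij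
        rw [e1.injective (Subtype.ext hij)]
      | right j =>
        exfalso
        simp only [f, Fin.append_left, Fin.append_right] at hij
        have h1 := (e1 i).2
        have h2 := (e2 j).2
        rw [hij] at h1
        lia
    | right i =>
      induction j using Fin.addCases with
      | left j =>
        exfalso
        simp only [f, Fin.append_left, Fin.append_right] at hij
        have h1 := (e1 j).2
        have h2 := (e2 i).2
        rw [← hij] at h1
        lia
      | right j =>
        simp only [f, Fin.append_right] at hij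
        rw [e2.injective (Subtype.ext hij)]
  have hdf : ∀ i : Fin (n + m'), del (Fin.castSucc i) = d (f i) := by
    intro i
    induction i using Fin.addCases with
    | left i =>
      have h1 : (Fin.castSucc (Fin.castAdd m' i) : Fin (n + (m' + 1))) =
        Fin.castAdd (m' + 1) i := rfl
      change del (Fin.castAdd (m' + 1) i) = _
      simp only [del, f, Fin.append_left]
    | right j =>
      change del (Fin.natAdd n (Fin.castSucc j)) = _
      simp only [del, f, Fin.append_right]
      exact (e2 j).2.symm
  have hlast : del (Fin.last (n + m')) = K + 1 := by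
    change del (Fin.natAdd n (Fin.last m')) = _
    simp only [del, Fin.append_right]
  have hnr : ∀ j, j ∉ Set.range f → d j ≠ del (Fin.last (n + m')) := by
    intro j hj hdj
    rw [hlast] at hdj
    refine hj ⟨Fin.natAdd n (e2.symm ⟨j, hdj⟩), ?_⟩
    simp only [f, Fin.append_right, Equiv.apply_symm_apply]
  have key := hN N c d I hyp J hJ1 hJ2 hJ3 (n + m') (fun i y => grad (H i) y) del f
    (fun i => sect_grad (hHI i).1 (hHI i).2) hdel
    (fun y hy hy' => grads_indep hB4 hyp hK hD hP e1 e1.injective F' hF' hind' (hzer hy) hy')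
    hf hdf hnr
  have hsum : 2 * c ≤ ∑ i, d i := by
    have h1 : ∑ _i : Fin c, 2 ≤ ∑ i, d i := Finset.sum_le_sum fun i _ => hyp.two_le i
    simp only [Finset.sum_const, Finset.card_univ, Fintype.card_fin, smul_eq_mul] at h1
    lia
  have hlarge := hyp.large
  exact key (hMono _ J _ _ (by lia) hJ4)

end Pool.Agent.Lib.MP_776403_ag.SD
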