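import Pool.Agent.Lib.MP_776403_ag.SD.SpecD

/-!
# (D1) The Hilbert function of algebraically independent coordinates
-/

set_option autoImplicit false

open MvPolynomial

noncomputable section

namespace Pool.Agent.Lib.MP_776403_ag.SD

theorem tD1 : S_D1 := by
  classical
  rintro N P D ⟨i, hi⟩ m
  have hfin : Module.Finite ℂ (gr P m) :=
    Module.Finite.iff_fg.2 ((homogeneousSubmodule_fg (Fin (N + 1)) ℂ m).map _)
  let s : Finset (Fin (D + 1) →₀ ℕ) := Finset.finsuppAntidiag (Finset.univ : Finset (Fin (D + 1))) m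
  let a : Fin (D + 1) → Sx N ⧸ P := fun k => Ideal.Quotient.mk P (X (i k))
  have ha : ∀ F : MvPolynomial (Fin (D + 1)) ℂ,
      aeval a F = Ideal.Quotient.mkₐ ℂ P (rename i F) := by
    intro F
    have h : aeval a = (Ideal.Quotient.mkₐ ℂ P).comp (rename i) := by
      refine algHom_ext fun k => ?_
      rw [aeval_X, AlgHom.comp_apply, rename_X]
      rfl
    rw [h]
    rfl
  have hmem : ∀ d : s, aeval a (monomial (d : Fin (D + 1) →₀ ℕ) (1 : ℂ)) ∈ gr P m := by
    rintro ⟨d, hd⟩
    refine ⟨rename i (monomial d 1), ?_, (ha _).symm⟩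
    refine IsHomogeneous.rename_isHomogeneous (isHomogeneous_monomial _ ?_)
    have h1 := (Finset.mem_finsuppAntidiag.1 hd).1
    rw [Finsupp.degree_eq_sum]
    exact h1
  let v : s → gr P m := fun d => ⟨_, hmem d⟩
  have h1 : LinearIndependent ℂ (fun d : s => (monomial (d : Fin (D + 1) →₀ ℕ) (1 : ℂ) :
      MvPolynomial (Fin (D + 1)) ℂ)) := by
    have h2 := (basisMonomials (Fin (D + 1)) ℂ).linearIndependent
    rw [coe_basisMonomials] at h2
    exact h2.comp (fun d : s => (d : Fin (D + 1) →₀ ℕ)) Subtype.val_injective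
  have h3 : LinearIndependent ℂ ((gr P m).subtype ∘ v) :=
    h1.map' (aeval a : MvPolynomial (Fin (D + 1)) ℂ →ₐ[ℂ] Sx N ⧸ P).toLinearMap
      (LinearMap.ker_eq_bot.2 hi)
  have h4 : LinearIndependent ℂ v := LinearIndependent.of_comp _ h3
  have h5 := h4.fintype_card_le_finrank
  rw [Fintype.card_coe, Finset.card_finsuppAntidiag_nat_eq_choose, Finset.card_univ, Fintype.card_fin] at h5
  have h6 : D + 1 + m - 1 = m + D := by omega
  rw [h6] at h5
  rwa [Nat.choose_symm_add] at h5

end Pool.Agent.Lib.MP_776403_ag.SD
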