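import Pool.Agent.Lib.MP_776403_ag.SD.SpecD

set_option autoImplicit false

open MvPolynomial

noncomputable section

namespace Pool.Agent.Lib.MP_776403_ag.SD

open Classical in
/-- the partial evaluation at the coordinates of `s` -/
private def phi {σ : Type} (p : σ → ℂ) (s : Finset σ) :
    MvPolynomial σ ℂ →ₐ[ℂ] MvPolynomial σ ℂ :=
  aeval fun j => if j ∈ s then C (p j) else X j

private theorem phi_C {σ : Type} (p : σ → ℂ) (s : Finset σ) (a : ℂ) :
    phi p s (C a) = C a := (phi p s).commutes a

private theorem phi_X {σ : Type} (p : σ → ℂ) (s : Finset σ) (j : σ) (h : j ∈ s) :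
    phi p s (X j) = C (p j) := by
  unfold phi
  rw [aeval_X, if_pos h]

private theorem phi_X' {σ : Type} (p : σ → ℂ) (s : Finset σ) (j : σ) (h : j ∉ s) :
    phi p s (X j) = X j := by
  unfold phi
  rw [aeval_X, if_neg h]

private theorem phi_comp {σ : Type} (p : σ → ℂ) {s t : Finset σ} (h : s ⊆ t)
    (F : MvPolynomial σ ℂ) : phi p t (phi p s F) = phi p t F := by
  have h1 : (phi p t).comp (phi p s) = phi p t := by
    apply MvPolynomial.algHom_ext
    intro j
    rw [AlgHom.comp_apply]
    by_cases hj : j ∈ s
    · rw [phi_X p s j hj, phi_X p t j (h hj), phi_C]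
    · rw [phi_X' p s j hj]
  exact congrArg (fun f : MvPolynomial σ ℂ →ₐ[ℂ] MvPolynomial σ ℂ => f F) h1

private theorem phi_eval {σ : Type} (p : σ → ℂ) (s : Finset σ) (F : MvPolynomial σ ℂ) :
    eval p (phi p s F) = eval p F := by
  have h1 : (aeval p : MvPolynomial σ ℂ →ₐ[ℂ] ℂ).comp (phi p s) = aeval p := by
    apply MvPolynomial.algHom_ext
    intro j
    rw [AlgHom.comp_apply]
    by_cases hj : j ∈ s
    · rw [phi_X p s j hj, aeval_X]
      exact (aeval p : MvPolynomial σ ℂ →ₐ[ℂ] ℂ).commutes (p j)
    · rw [phi_X' p s j hj]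
  exact congrArg (fun f : MvPolynomial σ ℂ →ₐ[ℂ] ℂ => f F) h1

private theorem phi_height {σ : Type} (p : σ → ℂ) (s : Finset σ) :
    ((s.card : ℕ) : ℕ∞) ≤ (RingHom.ker (phi p s).toRingHom).height := by
  classical
  induction s using Finset.induction_on with
  | empty => simp
  | insert j s hj ih =>
    have hlt : RingHom.ker (phi p s).toRingHom < RingHom.ker (phi p (insert j s)).toRingHom := by
      rw [lt_iff_le_and_ne]
      constructor
      · intro F hF
        have hF' : phi p s F = 0 := hF
        show phi p (insert j s) F = 0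
        rw [← phi_comp p (Finset.subset_insert j s) F, hF', map_zero]
      · intro he
        have h1 : (X j - C (p j) : MvPolynomial σ ℂ) ∈ RingHom.ker (phi p s).toRingHom := by
          rw [he]
          show phi p (insert j s) (X j - C (p j)) = 0
          rw [map_sub, phi_X p _ j (Finset.mem_insert_self j s), phi_C, sub_self]
        have h2 : phi p s (X j - C (p j)) = 0 := h1
        rw [map_sub, phi_X' p s j hj, phi_C] at h2
        have h3 := congrArg (eval (fun _ => p j + 1)) h2
        rw [map_sub, eval_X, eval_C, map_zero] at h3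
        simp at h3
    have i1 : (RingHom.ker (phi p (insert j s)).toRingHom).IsPrime := RingHom.ker_isPrime _
    have i2 : (RingHom.ker (phi p s).toRingHom).IsPrime := RingHom.ker_isPrime _
    have h4 := Ideal.height_add_one_le_of_lt_of_isPrime hlt
    rw [Finset.card_insert_of_notMem hj]
    push_cast
    exact le_trans (add_le_add ih le_rfl) h4

theorem tD2a : S_D2a := by
  intro σ _ p n hn hF
  have h1 := phi_height p (Finset.univ : Finset σ)
  rw [Finset.card_univ] at h1
  refine le_trans h1 (Ideal.height_mono fun F hF' => ?_)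
  have h2 : phi p Finset.univ F = 0 := hF'
  rw [hF, ← phi_eval p Finset.univ F, h2, map_zero]

end Pool.Agent.Lib.MP_776403_ag.SD
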