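import Pool.Agent.Lib.MP_776403_ag.SD.SpecD

/-!
# THEOREM SD, module D2b: Krull dimension and independent coordinates
-/

set_option autoImplicit false

open MvPolynomial

noncomputable section

namespace Pool.Agent.Lib.MP_776403_ag.SD

private theorem dim_le_of_integral {A B : Type} [CommRing A] [CommRing B] (f : A →+* B)
    (hf : f.IsIntegral) : ringKrullDim B ≤ ringKrullDim A := by
  algebraize [f]
  refine Order.krullDim_le_of_strictMono
    (fun I : PrimeSpectrum B => (⟨Ideal.comap (algebraMap A B) I.asIdeal, inferInstance⟩ :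
      PrimeSpectrum A)) ?_
  intro I J hIJ
  exact Ideal.IsIntegral.comap_lt_comap hIJ

theorem tD2b : S_TB → S_D2b := by
  intro hTB σ _ P hP D hD
  have : Nontrivial (MvPolynomial σ ℂ ⧸ P) := Ideal.Quotient.nontrivial_iff.2 hP.ne_top
  have : IsDomain (MvPolynomial σ ℂ ⧸ P) := Ideal.Quotient.isDomain P
  obtain ⟨s, g, hinj, hint⟩ := exists_integral_inj_algHom_of_fg ℂ (MvPolynomial σ ℂ ⧸ P)
  have h1 : ringKrullDim (MvPolynomial σ ℂ ⧸ P) ≤ ringKrullDim (MvPolynomial (Fin s) ℂ) :=
    dim_le_of_integral g.toRingHom hint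
  rw [MvPolynomial.ringKrullDim_of_isNoetherianRing, ringKrullDim_eq_zero_of_field, zero_add,
    Nat.card_fin] at h1
  have h2 : ((D : ℕ∞) : WithBot ℕ∞) ≤ ((s : ℕ∞) : WithBot ℕ∞) := hD.trans h1
  have h3 : D ≤ s := by
    rw [WithBot.coe_le_coe, Nat.cast_le] at h2
    exact h2
  have halg : AlgebraicIndependent ℂ fun k : Fin D => g (X (Fin.castLE h3 k)) := by
    have h4 : AlgebraicIndependent ℂ (fun k : Fin s => g (X k)) := by
      have h5 := (MvPolynomial.algebraicIndependent_X (Fin s) ℂ).map' (f := g) hinj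
      exact h5
    exact h4.comp _ (Fin.castLE_injective h3)
  have htop : Algebra.adjoin ℂ (Set.range fun i : σ => Ideal.Quotient.mk P (X i)) = ⊤ := by
    have h6 : (Set.range fun i : σ => Ideal.Quotient.mk P (X i))
        = (Ideal.Quotient.mkₐ ℂ P) '' (Set.range (X : σ → MvPolynomial σ ℂ)) := by
      rw [← Set.range_comp]; rfl
    rw [h6, ← AlgHom.map_adjoin, MvPolynomial.adjoin_range_X, Algebra.map_top,
      AlgHom.range_eq_top]
    exact Ideal.Quotient.mkₐ_surjective ℂ P
  have halg2 : Algebra.IsAlgebraic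
      (Algebra.adjoin ℂ (Set.range fun i : σ => Ideal.Quotient.mk P (X i)))
      (MvPolynomial σ ℂ ⧸ P) := by
    refine ⟨fun r => ?_⟩
    have h7 : r ∈ Algebra.adjoin ℂ (Set.range fun i : σ => Ideal.Quotient.mk P (X i)) := by
      rw [htop]; trivial
    exact isAlgebraic_algebraMap
      (⟨r, h7⟩ : Algebra.adjoin ℂ (Set.range fun i : σ => Ideal.Quotient.mk P (X i)))
  obtain ⟨i, hi⟩ := hTB σ (MvPolynomial σ ℂ ⧸ P) (fun i : σ => Ideal.Quotient.mk P (X i)) halg2 D
    _ halg
  exact ⟨i, hi⟩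

end Pool.Agent.Lib.MP_776403_ag.SD
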