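import Pool.Agent.Lib.MP_776403_ag.SD.SpecD

/-!
# THEOREM SD, module D3: elimination (helper24)
-/

set_option autoImplicit false

open MvPolynomial

noncomputable section

namespace Pool.Agent.Lib.MP_776403_ag.SD

theorem tD3 : S_TB → S_D3 := by
  intro hTB σ ρ hσ hρ e P hP hj D hD
  haveI : P.IsPrime := hP
  obtain ⟨y, hy⟩ := hD
  let x : σ → MvPolynomial ρ ℂ ⧸ P := fun i => Ideal.Quotient.mk P (X (e i))
  have hx : ∀ g : MvPolynomial σ ℂ, Ideal.Quotient.mk P (rename e g) = aeval x g := by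
    intro g
    have h1 : (Ideal.Quotient.mkₐ ℂ P).comp (rename e) = aeval x := by
      ext i
      simp [x]
    have h2 := AlgHom.congr_fun h1 g
    exact h2
  have hmem : ∀ g : MvPolynomial σ ℂ,
      Ideal.Quotient.mk P (rename e g) ∈ Algebra.adjoin ℂ (Set.range x) := by
    intro g
    rw [hx, Algebra.adjoin_range_eq_range_aeval]
    exact ⟨g, rfl⟩
  have halg : Algebra.IsAlgebraic (Algebra.adjoin ℂ (Set.range x)) (MvPolynomial ρ ℂ ⧸ P) := by
    have h1 : ∀ j : ρ, IsAlgebraic (Algebra.adjoin ℂ (Set.range x))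
        (Ideal.Quotient.mk P (X j) : MvPolynomial ρ ℂ ⧸ P) := by
      intro j
      obtain ⟨g, h, hg, hgh⟩ := hj j
      refine ⟨Polynomial.C ⟨_, hmem g⟩ * Polynomial.X - Polynomial.C ⟨_, hmem h⟩, ?_, ?_⟩
      · intro h0
        have h2 := congrArg (fun p => Polynomial.coeff p 1) h0
        simp only [Polynomial.coeff_sub, Polynomial.coeff_C_mul, Polynomial.coeff_X_one, mul_one,
          Polynomial.coeff_C, one_ne_zero, if_false, sub_zero, Polynomial.coeff_zero] at h2
        have h3 := congrArg Subtype.val h2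
        exact hg (Ideal.Quotient.eq_zero_iff_mem.1 h3)
      · have h4 : Ideal.Quotient.mk P (rename e g * X j - rename e h) = 0 :=
          Ideal.Quotient.eq_zero_iff_mem.2 hgh
        rw [map_sub, map_mul] at h4
        simpa [Algebra.algebraMap_eq_smul_one, Subalgebra.smul_def] using h4
    have h2 : (Subalgebra.algebraicClosure (Algebra.adjoin ℂ (Set.range x))
        (MvPolynomial ρ ℂ ⧸ P)).restrictScalars ℂ = ⊤ := by
      rw [eq_top_iff]
      intro r _
      obtain ⟨p, rfl⟩ := Ideal.Quotient.mk_surjective r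
      induction p using MvPolynomial.induction_on with
      | C a =>
        exact Subalgebra.algebraMap_mem _ a
      | add p q hp hq =>
        rw [map_add]
        exact Subalgebra.add_mem _ (hp trivial) (hq trivial)
      | mul_X p j hp =>
        rw [map_mul]
        exact Subalgebra.mul_mem _ (hp trivial) (h1 j)
    refine ⟨fun r => ?_⟩
    have h3 : r ∈ (Subalgebra.algebraicClosure (Algebra.adjoin ℂ (Set.range x))
        (MvPolynomial ρ ℂ ⧸ P)).restrictScalars ℂ := by
      rw [h2]; trivial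
    exact h3
  obtain ⟨i, hi⟩ := hTB σ (MvPolynomial ρ ℂ ⧸ P) x halg D _ hy
  refine ⟨i, ?_⟩
  refine AlgebraicIndependent.of_comp (Ideal.quotientMapₐ P (rename e) (le_refl _)) ?_
  have h5 : (fun k => (Ideal.quotientMapₐ P (rename e) (le_refl _) :
      MvPolynomial σ ℂ ⧸ P.comap ((rename e : MvPolynomial σ ℂ →ₐ[ℂ] MvPolynomial ρ ℂ) :
        MvPolynomial σ ℂ →+* MvPolynomial ρ ℂ) →ₐ[ℂ] MvPolynomial ρ ℂ ⧸ P)
      (Ideal.Quotient.mk _ (X (i k)))) = x ∘ i := by
    funext k
    change Ideal.Quotient.mk P (rename e (X (i k))) = Ideal.Quotient.mk P (X (e (i k)))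
    rw [rename_X]
  rw [← h5] at hi
  exact hi

end Pool.Agent.Lib.MP_776403_ag.SD
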