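import Pool.Agent.Lib.MP_776403_ag.SD.SpecD

/-!
# THEOREM SD, module D5: projective dimension theorem, assembled (helper73)
-/

set_option autoImplicit false

open MvPolynomial

noncomputable section

namespace Pool.Agent.Lib.MP_776403_ag.SD

theorem tD5 : S_TB → S_D5a → S_D5b → S_D5 := by
  intro hTB hA hB N P Q hP hQ hPh hQh D E hD hE hDE
  obtain ⟨i, hi⟩ := hD
  obtain ⟨j, hj⟩ := hE
  by_contra hcon
  have hz : ∀ z ∈ zer P, z ∈ zer Q → z = 0 := by
    intro z h1 h2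
    by_contra h0
    exact hcon ⟨z, h0, h1, h2⟩
  have hA' := hA N D E P Q hQ i j hi hj
  obtain ⟨a, ha⟩ : ∃ a : Ideal (MvPolynomial (Fin (N + 1) ⊕ Fin (N + 1)) ℂ), a =
      (P.map ((rename Sum.inl : Sx N →ₐ[ℂ] MvPolynomial (Fin (N + 1) ⊕ Fin (N + 1)) ℂ) :
          Sx N →+* MvPolynomial (Fin (N + 1) ⊕ Fin (N + 1)) ℂ)) ⊔
        (Q.map ((rename Sum.inr : Sx N →ₐ[ℂ] MvPolynomial (Fin (N + 1) ⊕ Fin (N + 1)) ℂ) :
          Sx N →+* MvPolynomial (Fin (N + 1) ⊕ Fin (N + 1)) ℂ)) := ⟨_, rfl⟩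
  rw [← ha] at hA'
  obtain ⟨S, hS⟩ : ∃ S : Submonoid (MvPolynomial (Fin (N + 1) ⊕ Fin (N + 1)) ℂ), S =
      (nonZeroDivisors (MvPolynomial (Fin D ⊕ Fin E) ℂ)).map
        (rename (Sum.map i j) : MvPolynomial (Fin D ⊕ Fin E) ℂ →ₐ[ℂ] _) := ⟨_, rfl⟩
  have hSm : ∀ f : MvPolynomial (Fin D ⊕ Fin E) ℂ, f ≠ 0 → rename (Sum.map i j) f ∈ S := by
    intro f hf
    rw [hS]
    exact Submonoid.mem_map_of_mem _ (mem_nonZeroDivisors_of_ne_zero hf)
  have hdis : Disjoint (a : Set (MvPolynomial (Fin (N + 1) ⊕ Fin (N + 1)) ℂ)) S := by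
    rw [Set.disjoint_left]
    intro x hx hxS
    rw [hS] at hxS
    obtain ⟨f, hf, rfl⟩ := hxS
    exact nonZeroDivisors.ne_zero hf (hA' f hx)
  obtain ⟨p, hp, hap, hpS⟩ := Ideal.exists_le_prime_disjoint a S hdis
  have hy : AlgebraicIndependent ℂ (fun s : Fin D ⊕ Fin E => Ideal.Quotient.mk p (X (Sum.map i j s))) := by
    rw [algebraicIndependent_iff]
    intro f hf
    have e : aeval (fun s : Fin D ⊕ Fin E => Ideal.Quotient.mk p (X (Sum.map i j s))) f =
        Ideal.Quotient.mkₐ ℂ p (rename (Sum.map i j) f) := by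
      rw [← AlgHom.comp_apply]
      congr 1
      ext s
      simp
    rw [e] at hf
    have hf' : rename (Sum.map i j) f ∈ p := Ideal.Quotient.eq_zero_iff_mem.1 hf
    by_contra h0
    exact Set.disjoint_left.1 hpS hf' (hSm f h0)
  have halg := hB N P Q hPh hQh hz p hp
    (fun F hF => hap (by
      rw [ha]
      exact Ideal.mem_sup_left (Ideal.mem_map_of_mem _ hF)))
    (fun F hF => hap (by
      rw [ha]
      exact Ideal.mem_sup_right (Ideal.mem_map_of_mem _ hF)))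
  have hy' := hy.comp finSumFinEquiv.symm finSumFinEquiv.symm.injective
  obtain ⟨i', hi'⟩ := hTB (Fin (N + 1)) _ _ halg (D + E) _ hy'
  have hinj : Function.Injective i' := Function.Injective.of_comp hi'.injective
  have h1 := Fintype.card_le_of_injective i' hinj
  rw [Fintype.card_fin, Fintype.card_fin] at h1
  omega

end Pool.Agent.Lib.MP_776403_ag.SD
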