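import Pool.Agent.Lib.MP_776403_ag.SD.SpecD

/-!
# Module D5a: independence in the product (see `S_D5a`)
-/

set_option autoImplicit false

open MvPolynomial

noncomputable section

namespace Pool.Agent.Lib.MP_776403_ag.SD

/-- Substitution of constants for the second variables. -/
private def subst {σ τ : Type} (c : τ → ℂ) : MvPolynomial (σ ⊕ τ) ℂ →ₐ[ℂ] MvPolynomial σ ℂ :=
  aeval (Sum.elim X fun l => C (c l))

private theorem subst_eq {σ τ : Type} (c : τ → ℂ) (f : MvPolynomial (σ ⊕ τ) ℂ) :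
    subst c f = map (eval c) (sumAlgEquiv ℂ σ τ f) := by
  have h : (subst c : MvPolynomial (σ ⊕ τ) ℂ →ₐ[ℂ] MvPolynomial σ ℂ).toRingHom =
      (map (eval c)).comp (sumAlgEquiv ℂ σ τ : MvPolynomial (σ ⊕ τ) ℂ →+* _) := by
    apply MvPolynomial.ringHom_ext
    · intro r
      simp [subst]
    · rintro (i | i) <;> simp [subst]
  exact congrArg (fun g : MvPolynomial (σ ⊕ τ) ℂ →+* MvPolynomial σ ℂ => g f) h

private theorem exists_coeff {σ τ : Type} (f : MvPolynomial (σ ⊕ τ) ℂ) (hf : f ≠ 0) :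
    ∃ g : MvPolynomial τ ℂ, g ≠ 0 ∧ ∀ c : τ → ℂ, eval c g ≠ 0 → subst c f ≠ 0 := by
  have h1 : sumAlgEquiv ℂ σ τ f ≠ 0 := fun h => hf ((sumAlgEquiv ℂ σ τ).injective
    (by rw [h, map_zero]))
  obtain ⟨m, hm⟩ := MvPolynomial.ne_zero_iff.1 h1
  refine ⟨coeff m (sumAlgEquiv ℂ σ τ f), hm, fun c hc h => hc ?_⟩
  rw [subst_eq] at h
  have h2 := congrArg (coeff m) h
  rwa [coeff_map, coeff_zero] at h2

theorem tD5a : S_D5a := by
  intro N D E P Q hQ i j hi hj f hf
  by_contra hf0
  obtain ⟨g, hg0, hg⟩ := exists_coeff f hf0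
  have hgQ : rename j g ∉ Q := by
    intro h
    apply hg0
    apply hj
    rw [map_zero]
    have h1 : Ideal.Quotient.mk Q (rename j g) = 0 := Ideal.Quotient.eq_zero_iff_mem.2 h
    have h2 : (aeval (fun k => Ideal.Quotient.mk Q (X (j k)))) g =
        (Ideal.Quotient.mkₐ ℂ Q).comp (rename j) g := by
      have h3 : (aeval (fun k => Ideal.Quotient.mk Q (X (j k)))) =
          (Ideal.Quotient.mkₐ ℂ Q).comp (rename j) := by
        apply MvPolynomial.algHom_ext
        intro k
        simp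
      rw [h3]
    rw [h2]
    exact h1
  obtain ⟨b, hbQ, hb⟩ : ∃ b : Vx N, (∀ F ∈ Q, eval b F = 0) ∧ eval b (rename j g) ≠ 0 := by
    by_contra hcon
    push Not at hcon
    apply hgQ
    have h1 : vanishingIdeal ℂ (zeroLocus ℂ Q) = Q.radical :=
      vanishingIdeal_zeroLocus_eq_radical Q
    rw [hQ.radical] at h1
    rw [← h1, mem_vanishingIdeal_iff]
    intro x hx
    have h2 := hcon x (fun F hF => hx F hF)
    exact h2
  have hbg : eval (b ∘ j) g ≠ 0 := by
    rwa [eval_rename] at hb
  have hfb := hg (b ∘ j) hbg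
  have key : subst b (rename (Sum.map i j) f) ∈ P := by
    have h1 : ((P.map ((rename Sum.inl : Sx N →ₐ[ℂ] MvPolynomial (Fin (N + 1) ⊕ Fin (N + 1)) ℂ) :
          Sx N →+* MvPolynomial (Fin (N + 1) ⊕ Fin (N + 1)) ℂ)) ⊔
        (Q.map ((rename Sum.inr : Sx N →ₐ[ℂ] MvPolynomial (Fin (N + 1) ⊕ Fin (N + 1)) ℂ) :
          Sx N →+* MvPolynomial (Fin (N + 1) ⊕ Fin (N + 1)) ℂ))) ≤
        P.comap (subst b : MvPolynomial (Fin (N + 1) ⊕ Fin (N + 1)) ℂ →ₐ[ℂ] Sx N) := by
      apply sup_le
      · rw [Ideal.map_le_iff_le_comap]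
        intro F hF
        change subst b (rename (Sum.inl : Fin (N + 1) → Fin (N + 1) ⊕ Fin (N + 1)) F) ∈ P
        have : subst b (rename (Sum.inl : Fin (N + 1) → Fin (N + 1) ⊕ Fin (N + 1)) F) = F := by
          unfold subst
          rw [aeval_rename, Sum.elim_comp_inl, aeval_X_left_apply]
        rwa [this]
      · rw [Ideal.map_le_iff_le_comap]
        intro F hF
        change subst b (rename (Sum.inr : Fin (N + 1) → Fin (N + 1) ⊕ Fin (N + 1)) F) ∈ P
        have : subst b (rename (Sum.inr : Fin (N + 1) → Fin (N + 1) ⊕ Fin (N + 1)) F) = 0 := by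
          unfold subst
          rw [aeval_rename, Sum.elim_comp_inr]
          have h3 : (aeval fun l => C (b l) : Sx N →ₐ[ℂ] Sx N) F = C (eval b F) := by
            have h4 : (aeval fun l => C (b l) : Sx N →ₐ[ℂ] Sx N).toRingHom =
                (C : ℂ →+* Sx N).comp (eval b) := by
              apply MvPolynomial.ringHom_ext
              · intro r
                simp
              · intro l
                simp
            exact congrArg (fun g : Sx N →+* Sx N => g F) h4
          rw [h3, hbQ F hF, map_zero]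
        rw [this]
        exact P.zero_mem
    exact h1 hf
  have h5 : subst b (rename (Sum.map i j) f) = rename i (subst (b ∘ j) f) := by
    have h6 : (subst b).comp (rename (Sum.map i j)) = (rename i).comp (subst (b ∘ j)) := by
      apply MvPolynomial.algHom_ext
      rintro (k | k) <;> simp [subst]
    exact congrArg (fun g : MvPolynomial (Fin D ⊕ Fin E) ℂ →ₐ[ℂ] Sx N => g f) h6
  rw [h5] at key
  apply hfb
  apply hi
  rw [map_zero]
  have h7 : (aeval (fun k => Ideal.Quotient.mk P (X (i k)))) (subst (b ∘ j) f) =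
      (Ideal.Quotient.mkₐ ℂ P).comp (rename i) (subst (b ∘ j) f) := by
    have h8 : (aeval (fun k => Ideal.Quotient.mk P (X (i k)))) =
        (Ideal.Quotient.mkₐ ℂ P).comp (rename i) := by
      apply MvPolynomial.algHom_ext
      intro k
      simp
    rw [h8]
  rw [h7]
  exact Ideal.Quotient.eq_zero_iff_mem.2 key

end Pool.Agent.Lib.MP_776403_ag.SD
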