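import Pool.Agent.Lib.MP_776403_ag.SD.SpecD

/-!
# THEOREM SD, module D5b: finiteness over the diagonal (helper27)
-/

set_option autoImplicit false

open MvPolynomial

noncomputable section

namespace Pool.Agent.Lib.MP_776403_ag.SD

private abbrev D5b_R (N : ℕ) : Type := MvPolynomial (Fin (N + 1) ⊕ Fin (N + 1)) ℂ

private lemma D5b_split {σ : Type} (d : σ →₀ ℕ) (n : ℕ) (hd : d.degree = n + 1) :
    ∃ (j : σ) (d' : σ →₀ ℕ), d = Finsupp.single j 1 + d' ∧ d'.degree = n := by
  classical
  have h0 : d ≠ 0 := by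
    rintro rfl
    simp at hd
  obtain ⟨j, hj⟩ := Finsupp.ne_iff.1 h0
  have hj' : d j ≠ 0 := hj
  have hle : Finsupp.single j 1 ≤ d := by
    rw [Finsupp.single_le_iff]
    exact Nat.one_le_iff_ne_zero.2 hj'
  refine ⟨j, d - Finsupp.single j 1, (add_tsub_cancel_of_le hle).symm, ?_⟩
  have h1 : Finsupp.degree (Finsupp.single j 1 + (d - Finsupp.single j 1)) = n + 1 := by
    rw [add_tsub_cancel_of_le hle, hd]
  rw [map_add, Finsupp.degree_single] at h1
  omega

private lemma D5b_mon (N n : ℕ) : ∀ d : Fin (N + 1) →₀ ℕ, d.degree = n + 1 →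
    ∃ C : Fin (N + 1) → D5b_R N, (∀ i, (C i).IsHomogeneous n) ∧
      rename Sum.inl (monomial d (1 : ℂ)) - rename Sum.inr (monomial d (1 : ℂ)) =
        ∑ i, (X (Sum.inl i) - X (Sum.inr i)) * C i := by
  classical
  induction n with
  | zero =>
    intro d hd
    obtain ⟨j, d', rfl, hd'⟩ := D5b_split d 0 hd
    have h0 : d' = 0 := (Finsupp.degree_eq_zero_iff d').1 hd'
    subst h0
    refine ⟨fun i => if i = j then 1 else 0, fun i => ?_, ?_⟩
    · dsimp only
      split_ifs
      · exact isHomogeneous_one _ _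
      · exact isHomogeneous_zero _ _ _
    · have h1 : (monomial (Finsupp.single j 1 + 0) (1 : ℂ) : Sx N) = X j := by
        rw [add_zero]; rfl
      rw [h1, rename_X, rename_X]
      simp
  | succ n ih =>
    intro d hd
    obtain ⟨j, d', rfl, hd'⟩ := D5b_split d (n + 1) hd
    obtain ⟨C, hC, hE⟩ := ih d' hd'
    have hm : (monomial d' (1 : ℂ) : Sx N).IsHomogeneous (n + 1) := isHomogeneous_monomial _ hd'
    refine ⟨fun i => X (Sum.inl j) * C i +
      if i = j then rename Sum.inr (monomial d' (1 : ℂ)) else 0, fun i => ?_, ?_⟩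
    · dsimp only
      refine IsHomogeneous.add ?_ ?_
      · have h1 := (isHomogeneous_X ℂ (Sum.inl j : Fin (N + 1) ⊕ Fin (N + 1))).mul (hC i)
        rwa [add_comm 1 n] at h1
      · split_ifs
        · exact hm.rename_isHomogeneous
        · exact isHomogeneous_zero _ _ _
    · have h1 : (monomial (Finsupp.single j 1 + d') (1 : ℂ) : Sx N) = X j * monomial d' (1 : ℂ) := by
        rw [X, monomial_mul, one_mul]
      rw [h1, map_mul, map_mul, rename_X, rename_X]
      have h2 : (X (Sum.inl j) * rename Sum.inl (monomial d' (1 : ℂ)) -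
          X (Sum.inr j) * rename Sum.inr (monomial d' (1 : ℂ)) : D5b_R N) =
          X (Sum.inl j) * (rename Sum.inl (monomial d' (1 : ℂ)) - rename Sum.inr (monomial d' (1 : ℂ))) +
          (X (Sum.inl j) - X (Sum.inr j)) * rename Sum.inr (monomial d' (1 : ℂ)) := by ring
      rw [h2, hE, Finset.mul_sum]
      simp only [mul_add, mul_ite, mul_zero, Finset.sum_add_distrib, Finset.sum_ite_eq',
        Finset.mem_univ, if_true]
      congr 1
      refine Finset.sum_congr rfl fun i _ => by ring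

private lemma D5b_dif (N n : ℕ) (B : Sx N) (hB : B.IsHomogeneous (n + 1)) :
    ∃ C : Fin (N + 1) → D5b_R N, (∀ i, (C i).IsHomogeneous n) ∧
      rename Sum.inl B - rename Sum.inr B = ∑ i, (X (Sum.inl i) - X (Sum.inr i)) * C i := by
  classical
  choose! C hC hE using D5b_mon N n
  have hdeg : ∀ d ∈ B.support, d.degree = n + 1 := by
    intro d hd
    rw [Finsupp.degree_eq_weight_one]
    exact hB (mem_support_iff.1 hd)
  refine ⟨fun i => ∑ d ∈ B.support, MvPolynomial.C (coeff d B) * C d i, fun i => ?_, ?_⟩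
  · refine IsHomogeneous.sum _ _ _ fun d hd => ?_
    have h1 := (isHomogeneous_C (Fin (N + 1) ⊕ Fin (N + 1)) (coeff d B)).mul (hC d (hdeg d hd) i)
    rwa [zero_add] at h1
  · have h1 : B = ∑ d ∈ B.support, MvPolynomial.C (coeff d B) * monomial d (1 : ℂ) := by
      conv_lhs => rw [B.as_sum]
      refine Finset.sum_congr rfl fun d _ => ?_
      rw [C_mul_monomial, mul_one]
    have h2 : ∀ f : Fin (N + 1) → Fin (N + 1) ⊕ Fin (N + 1), rename f B =
        ∑ d ∈ B.support, MvPolynomial.C (coeff d B) * rename f (monomial d (1 : ℂ)) := by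
      intro f
      conv_lhs => rw [h1]
      rw [map_sum]
      refine Finset.sum_congr rfl fun d _ => ?_
      rw [map_mul, rename_C]
    rw [h2, h2, ← Finset.sum_sub_distrib]
    simp only [Finset.mul_sum]
    rw [Finset.sum_comm]
    refine Finset.sum_congr rfl fun d hd => ?_
    rw [← mul_sub, hE d (hdeg d hd), Finset.mul_sum]
    refine Finset.sum_congr rfl fun i _ => by ring

private lemma D5b_dec (N : ℕ) (s : (Fin (N + 1) ⊕ Fin (N + 1)) →₀ ℕ) :
    ∃ α β : Fin (N + 1) →₀ ℕ, (monomial s (1 : ℂ) : D5b_R N) =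
      rename Sum.inl (monomial α (1 : ℂ)) * rename Sum.inr (monomial β (1 : ℂ)) ∧
      s.degree = α.degree + β.degree := by
  classical
  let α : Fin (N + 1) →₀ ℕ := Finsupp.equivFunOnFinite.symm fun i => s (Sum.inl i)
  let β : Fin (N + 1) →₀ ℕ := Finsupp.equivFunOnFinite.symm fun i => s (Sum.inr i)
  have hs : s = α.mapDomain Sum.inl + β.mapDomain Sum.inr := by
    ext x
    rw [Finsupp.add_apply]
    rcases x with i | i
    · rw [Finsupp.mapDomain_apply Sum.inl_injective, Finsupp.mapDomain_notin_range _ _ (by simp)]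
      rfl
    · rw [Finsupp.mapDomain_apply Sum.inr_injective, Finsupp.mapDomain_notin_range _ _ (by simp),
        zero_add]
      rfl
  have h1 : (monomial s (1 : ℂ) : D5b_R N) =
      rename Sum.inl (monomial α (1 : ℂ)) * rename Sum.inr (monomial β (1 : ℂ)) := by
    rw [rename_monomial, rename_monomial, monomial_mul, one_mul, ← hs]
  refine ⟨α, β, h1, ?_⟩
  have h2 : (monomial s (1 : ℂ) : D5b_R N).IsHomogeneous (s.degree) := isHomogeneous_monomial _ rfl
  have h3 : (monomial s (1 : ℂ) : D5b_R N).IsHomogeneous (α.degree + β.degree) := by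
    rw [h1]
    exact IsHomogeneous.mul (isHomogeneous_monomial _ rfl).rename_isHomogeneous
      (isHomogeneous_monomial _ rfl).rename_isHomogeneous
  refine h2.inj_right h3 ?_
  rw [Ne, monomial_eq_zero]
  exact one_ne_zero

theorem tD5b : S_D6' → S_D5b := by
  classical
  intro hD6 N P Q hP hQ hPQ 𝔭 h𝔭 hPp hQp
  haveI := h𝔭
  obtain ⟨ρ, hρ⟩ := hD6 N (P ⊔ Q) (fun z hz => hPQ z (fun F hF => hz F (Ideal.mem_sup_left hF))
    (fun F hF => hz F (Ideal.mem_sup_right hF)))
  -- forms of large degree are sums of forms in `P` and in `Q`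
  have hsplit : ∀ (a : ℕ) (F : Sx N), ρ ≤ a → F.IsHomogeneous a →
      ∃ A B : Sx N, A ∈ P ∧ B ∈ Q ∧ A.IsHomogeneous a ∧ B.IsHomogeneous a ∧ F = A + B := by
    intro a F ha hF
    obtain ⟨A, hA, B, hB, hAB⟩ := Submodule.mem_sup.1 (hρ a ha F hF)
    refine ⟨homogeneousComponent a A, homogeneousComponent a B, hP A hA a, hQ B hB a,
      homogeneousComponent_isHomogeneous _ _, homogeneousComponent_isHomogeneous _ _, ?_⟩
    rw [← map_add, hAB, homogeneousComponent_of_mem ((mem_homogeneousSubmodule _ _).2 hF), if_pos rfl]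
  -- the reduction step
  have hred : ∀ (n : ℕ) (s : (Fin (N + 1) ⊕ Fin (N + 1)) →₀ ℕ), s.degree = n + 1 →
      2 * ρ + 2 ≤ n + 1 → ∃ C : Fin (N + 1) → D5b_R N, (∀ i, (C i).IsHomogeneous n) ∧
        (monomial s (1 : ℂ) : D5b_R N) - ∑ i, (X (Sum.inl i) - X (Sum.inr i)) * C i ∈ 𝔭 := by
    intro n s hs hn
    obtain ⟨α, β, hm, hd⟩ := D5b_dec N s
    rw [hs] at hd
    by_cases hα : ρ + 1 ≤ α.degree
    · obtain ⟨a, ha⟩ : ∃ a, α.degree = a + 1 := ⟨α.degree - 1, by omega⟩
      obtain ⟨A, B, hA, hB, hAh, hBh, hF⟩ := hsplit (a + 1) (monomial α (1 : ℂ)) (by omega)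
        (isHomogeneous_monomial _ ha)
      obtain ⟨C, hC, hE⟩ := D5b_dif N a B hBh
      refine ⟨fun i => C i * rename Sum.inr (monomial β (1 : ℂ)), fun i => ?_, ?_⟩
      · have h1 := (hC i).mul ((isHomogeneous_monomial (1 : ℂ) (rfl : β.degree = β.degree)).rename_isHomogeneous
          (f := (Sum.inr : Fin (N + 1) → Fin (N + 1) ⊕ Fin (N + 1))))
        have h2 : a + β.degree = n := by omega
        rwa [h2] at h1
      · have h1 : (monomial s (1 : ℂ) : D5b_R N) -
            ∑ i, (X (Sum.inl i) - X (Sum.inr i)) * (C i * rename Sum.inr (monomial β (1 : ℂ))) =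
            (rename Sum.inl A + rename Sum.inr B) * rename Sum.inr (monomial β (1 : ℂ)) := by
          have h3 : ∑ i, (X (Sum.inl i) - X (Sum.inr i)) * (C i * rename Sum.inr (monomial β (1 : ℂ))) =
              (∑ i, (X (Sum.inl i) - X (Sum.inr i)) * C i) *
                (rename Sum.inr (monomial β (1 : ℂ)) : D5b_R N) := by
            rw [Finset.sum_mul]
            exact Finset.sum_congr rfl fun i _ => by ring
          rw [h3, ← hE, hm, hF, map_add]
          ring
        rw [h1]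
        exact Ideal.mul_mem_right _ _ (𝔭.add_mem (hPp A hA) (hQp B hB))
    · obtain ⟨b, hb⟩ : ∃ b, β.degree = b + 1 := ⟨β.degree - 1, by omega⟩
      obtain ⟨A, B, hA, hB, hAh, hBh, hF⟩ := hsplit (b + 1) (monomial β (1 : ℂ)) (by omega)
        (isHomogeneous_monomial _ hb)
      obtain ⟨C, hC, hE⟩ := D5b_dif N b A hAh
      refine ⟨fun i => -(C i) * rename Sum.inl (monomial α (1 : ℂ)), fun i => ?_, ?_⟩
      · have h1 := (hC i).neg.mul ((isHomogeneous_monomial (1 : ℂ) (rfl : α.degree = α.degree)).rename_isHomogeneous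
          (f := (Sum.inl : Fin (N + 1) → Fin (N + 1) ⊕ Fin (N + 1))))
        have h2 : b + α.degree = n := by omega
        rwa [h2] at h1
      · have h1 : (monomial s (1 : ℂ) : D5b_R N) -
            ∑ i, (X (Sum.inl i) - X (Sum.inr i)) * (-(C i) * rename Sum.inl (monomial α (1 : ℂ))) =
            (rename Sum.inl A + rename Sum.inr B) * rename Sum.inl (monomial α (1 : ℂ)) := by
          have h3 : ∑ i, (X (Sum.inl i) - X (Sum.inr i)) * (-(C i) * rename Sum.inl (monomial α (1 : ℂ))) =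
              -(∑ i, (X (Sum.inl i) - X (Sum.inr i)) * C i) *
                (rename Sum.inl (monomial α (1 : ℂ)) : D5b_R N) := by
            rw [← Finset.sum_neg_distrib, Finset.sum_mul]
            exact Finset.sum_congr rfl fun i _ => by ring
          rw [h3, ← hE, hm, hF, map_add]
          ring
        rw [h1]
        exact Ideal.mul_mem_right _ _ (𝔭.add_mem (hPp A hA) (hQp B hB))
  -- the module
  set z : Fin (N + 1) → D5b_R N ⧸ 𝔭 := fun i =>
    Ideal.Quotient.mk 𝔭 (X (Sum.inl i) - X (Sum.inr i)) with hz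
  set B0 := Algebra.adjoin ℂ (Set.range z) with hB0
  let G : Set (D5b_R N ⧸ 𝔭) := (fun s : (Fin (N + 1) ⊕ Fin (N + 1)) →₀ ℕ =>
    Ideal.Quotient.mk 𝔭 (monomial s (1 : ℂ))) '' {s | s.degree < 2 * ρ + 2}
  have hfin : {s : (Fin (N + 1) ⊕ Fin (N + 1)) →₀ ℕ | s.degree < 2 * ρ + 2}.Finite := by
    refine (Set.finite_Iic (Finsupp.equivFunOnFinite.symm
      (fun _ => 2 * ρ + 2 : Fin (N + 1) ⊕ Fin (N + 1) → ℕ))).subset ?_
    intro s hs x
    have h1 : s x ≤ s.degree := Finsupp.le_degree x s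
    have h2 : s.degree < 2 * ρ + 2 := hs
    have h3 : (Finsupp.equivFunOnFinite.symm
      (fun _ => 2 * ρ + 2 : Fin (N + 1) ⊕ Fin (N + 1) → ℕ)) x = 2 * ρ + 2 := rfl
    rw [h3]
    omega
  let M : Submodule B0 (D5b_R N ⧸ 𝔭) := Submodule.span B0 G
  have hstep : ∀ (n : ℕ), (∀ s : (Fin (N + 1) ⊕ Fin (N + 1)) →₀ ℕ, s.degree = n →
      Ideal.Quotient.mk 𝔭 (monomial s (1 : ℂ)) ∈ M) → ∀ F : D5b_R N, F.IsHomogeneous n →
      Ideal.Quotient.mk 𝔭 F ∈ M := by
    intro n hn F hF
    rw [F.as_sum, map_sum]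
    refine M.sum_mem fun d hd => ?_
    have h1 : (monomial d (coeff d F) : D5b_R N) = (coeff d F) • monomial d (1 : ℂ) := by
      rw [smul_monomial, smul_eq_mul, mul_one]
    have h2 : Ideal.Quotient.mk 𝔭 ((coeff d F) • (monomial d (1 : ℂ) : D5b_R N)) =
        (coeff d F) • Ideal.Quotient.mk 𝔭 (monomial d (1 : ℂ)) := rfl
    rw [h1, h2]
    refine M.smul_of_tower_mem _ (hn d ?_)
    rw [Finsupp.degree_eq_weight_one]
    exact hF (mem_support_iff.1 hd)
  have hall : ∀ (n : ℕ) (F : D5b_R N), F.IsHomogeneous n → Ideal.Quotient.mk 𝔭 F ∈ M := by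
    intro n
    induction n with
    | zero =>
      refine hstep 0 fun s hs => ?_
      exact Submodule.subset_span ⟨s, by
        show s.degree < 2 * ρ + 2
        omega, rfl⟩
    | succ n ih =>
      refine hstep (n + 1) fun s hs => ?_
      by_cases hlt : s.degree < 2 * ρ + 2
      · exact Submodule.subset_span ⟨s, hlt, rfl⟩
      · obtain ⟨C, hC, hE⟩ := hred n s hs (by omega)
        have h1 : Ideal.Quotient.mk 𝔭 (monomial s (1 : ℂ)) =
            ∑ i, z i * Ideal.Quotient.mk 𝔭 (C i) := by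
          have h2 := Ideal.Quotient.eq_zero_iff_mem.2 hE
          rw [map_sub, sub_eq_zero, map_sum] at h2
          rw [h2]
          exact Finset.sum_congr rfl fun i _ => map_mul _ _ _
        rw [h1]
        refine M.sum_mem fun i _ => ?_
        have hzi : z i ∈ B0 := Algebra.subset_adjoin ⟨i, rfl⟩
        exact M.smul_mem (⟨z i, hzi⟩ : B0) (ih (C i) (hC i))
  have htop : M = ⊤ := by
    rw [eq_top_iff]
    intro t _
    obtain ⟨F, rfl⟩ := Ideal.Quotient.mk_surjective t
    rw [← sum_homogeneousComponent F, map_sum]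
    exact M.sum_mem fun n _ => hall n _ (homogeneousComponent_isHomogeneous _ _)
  haveI : Module.Finite B0 (D5b_R N ⧸ 𝔭) := by
    refine ⟨?_⟩
    rw [← htop]
    exact Submodule.fg_span (hfin.image _)
  haveI : Algebra.IsIntegral B0 (D5b_R N ⧸ 𝔭) := Algebra.IsIntegral.of_finite B0 _
  exact Algebra.IsIntegral.isAlgebraic

end Pool.Agent.Lib.MP_776403_ag.SD
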