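import Pool.Agent.Lib.MP_776403_ag.SD.SpecD

/-!
# THEOREM SD, module D6p: an ideal without zeros outside the origin contains all forms of large
degree
-/

set_option autoImplicit false

open MvPolynomial

noncomputable section

namespace Pool.Agent.Lib.MP_776403_ag.SD

theorem tD6p : S_D6' := by
  classical
  intro N b hb
  have h1 : ∀ i : Fin (N + 1), ∃ e : ℕ, (X i : Sx N) ^ e ∈ b := by
    intro i
    have h2 : (X i : Sx N) ∈ b.radical := by
      rw [← vanishingIdeal_zeroLocus_eq_radical (K := ℂ) b, mem_vanishingIdeal_iff]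
      intro z hz
      have hz' : z ∈ zer b := by
        intro F hF
        have := mem_zeroLocus_iff.1 hz F hF
        rwa [aeval_eq_eval] at this
      rw [hb z hz']
      simp
    exact Ideal.mem_radical_iff.1 h2
  choose e he using h1
  set E := ∑ i, e i with hE
  have hXE : ∀ i, (X i : Sx N) ^ E ∈ b := by
    intro i
    have hle : e i ≤ E := Finset.single_le_sum (fun j _ => Nat.zero_le (e j)) (Finset.mem_univ i)
    exact Ideal.pow_mem_of_pow_mem _ (he i) hle
  refine ⟨(N + 1) * E, fun m hm F hF => ?_⟩
  rw [F.as_sum]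
  refine Ideal.sum_mem _ (fun d hd => ?_)
  have hdm : ∑ i, d i = m := by
    have h3 := hF (mem_support_iff.1 hd)
    have h5 : Finsupp.degree d = m := by
      rw [← h3]
      exact congrFun (congrArg DFunLike.coe Finsupp.degree_eq_weight_one) d
    rwa [Finsupp.degree_eq_sum] at h5
  obtain ⟨i, -, hi⟩ : ∃ i ∈ (Finset.univ : Finset (Fin (N + 1))), E ≤ d i := by
    apply Finset.exists_le_of_sum_le Finset.univ_nonempty
    rw [Finset.sum_const, Finset.card_univ, Fintype.card_fin, smul_eq_mul, hdm]
    exact hm
  have h4 : monomial d (coeff d F) =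
      monomial (d - Finsupp.single i E) (coeff d F) * (X i : Sx N) ^ E := by
    rw [X_pow_eq_monomial, monomial_mul, mul_one, tsub_add_cancel_of_le]
    rwa [Finsupp.single_le_iff]
  rw [h4]
  exact Ideal.mul_mem_left _ _ (hXE i)

end Pool.Agent.Lib.MP_776403_ag.SD
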