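import Pool.Agent.Lib.MP_776403_ag.SD.SpecB

/-!
# THEOREM SD, module DetHom: the determinant of a matrix of forms
-/

set_option autoImplicit false

open MvPolynomial

noncomputable section

namespace Pool.Agent.Lib.MP_776403_ag.SD

theorem tDetHom : S_DetHom := by
  intro N ι _ _ M r h
  rw [Matrix.det_apply]
  refine IsHomogeneous.sum _ _ _ (fun s _ => ?_)
  have h1 : (∏ i, M (s i) i).IsHomogeneous (∑ l, r l) := by
    have h2 := IsHomogeneous.prod Finset.univ (fun i => M (s i) i) (fun i => r (s i))
      (fun i _ => h (s i) i)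
    have h3 : ∑ i, r (s i) = ∑ l, r l := Equiv.sum_comp s r
    rwa [h3] at h2
  rcases Int.units_eq_one_or (Equiv.Perm.sign s) with hs | hs
  · rw [hs, one_smul]
    exact h1
  · rw [hs, Units.neg_smul, one_smul]
    exact h1.neg

end Pool.Agent.Lib.MP_776403_ag.SD
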