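import Pool.Agent.Lib.MP_776403_ag.SD.SpecB

/-!
# THEOREM SD, module Frac: elimination of fraction variables
-/

set_option autoImplicit false

open MvPolynomial

noncomputable section

namespace Pool.Agent.Lib.MP_776403_ag.SD

theorem tFrac : S_TB → S_D3 → S_Frac := by
  intro hTB hD3 N τ hτ P D y hP hy hs
  have : P.IsPrime := hP
  let x : Fin (N + 1) ⊕ τ → MvPolynomial (Fin (N + 1) ⊕ τ) ℂ ⧸ P :=
    fun j => Ideal.Quotient.mk P (X j)
  have htop : Algebra.adjoin ℂ (Set.range x) = ⊤ := by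
    rw [eq_top_iff]
    intro r _
    obtain ⟨p, rfl⟩ := Ideal.Quotient.mk_surjective r
    induction p using MvPolynomial.induction_on with
    | C a => exact Subalgebra.algebraMap_mem _ a
    | add p q hp hq =>
      rw [map_add]
      exact Subalgebra.add_mem _ (hp trivial) (hq trivial)
    | mul_X p j hp =>
      rw [map_mul]
      exact Subalgebra.mul_mem _ (hp trivial) (Algebra.subset_adjoin ⟨j, rfl⟩)
  have halg : Algebra.IsAlgebraic (Algebra.adjoin ℂ (Set.range x))
      (MvPolynomial (Fin (N + 1) ⊕ τ) ℂ ⧸ P) := by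
    refine ⟨fun r => ?_⟩
    have hr : r ∈ Algebra.adjoin ℂ (Set.range x) := by rw [htop]; trivial
    exact isAlgebraic_algebraMap (⟨r, hr⟩ : Algebra.adjoin ℂ (Set.range x))
  obtain ⟨i, hi⟩ := hTB _ _ x halg D y hy
  have hD : DimGeG P D := ⟨i, hi⟩
  have h3 := hD3 (Fin (N + 1)) (Fin (N + 1) ⊕ τ) Sum.inl P hP ?_ D hD
  · exact h3
  · rintro (j | s)
    · refine ⟨1, X j, ?_, ?_⟩
      · rw [map_one]
        exact fun h => hP.ne_top ((Ideal.eq_top_iff_one _).2 h)
      · rw [map_one, one_mul, rename_X, sub_self]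
        exact P.zero_mem
    · exact hs s

end Pool.Agent.Lib.MP_776403_ag.SD
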