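import Pool.Agent.Lib.MP_776403_ag.SD.SpecB

/-!
# THEOREM SD, module Kos1: the Koszul complex is a complex
-/

set_option autoImplicit false

open MvPolynomial

noncomputable section

namespace Pool.Agent.Lib.MP_776403_ag.SD

private lemma Fd_mul {N k e f : ℕ} {x g : Sx N} (hx : x ∈ Fd N k (e + f))
    (hg : g.IsHomogeneous f) : x * g ∈ Fd N k e := by
  unfold Fd at hx ⊢
  by_cases h : e + f ≤ k
  · rw [if_pos h] at hx
    rw [if_pos (by omega)]
    have hx' : x.IsHomogeneous (k - (e + f)) := hx
    have h2 := hx'.mul hg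
    have h3 : k - (e + f) + f = k - e := by omega
    rw [h3] at h2
    exact h2
  · rw [if_neg h] at hx
    have hx' : x = 0 := hx
    rw [hx', zero_mul]
    exact Submodule.zero_mem _

theorem tKos1 : S_Kos1 := by
  rintro N ι _ d G hG k a ⟨b, hb, rfl⟩
  have hb' : ∀ i j, b i j ∈ Fd N k (d i + d j) := by
    intro i j
    have h1 := (Submodule.mem_pi.1 hb) i (Set.mem_univ i)
    exact (Submodule.mem_pi.1 h1) j (Set.mem_univ j)
  refine Submodule.mem_inf.2 ⟨?_, ?_⟩
  · refine Submodule.mem_pi.2 (fun i _ => ?_)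
    show ∑ j, (b i j - b j i) * G j ∈ Fd N k (d i)
    refine Submodule.sum_mem _ (fun j _ => ?_)
    refine Fd_mul (Submodule.sub_mem _ (hb' i j) ?_) (hG j)
    have h1 := hb' j i
    rwa [add_comm (d j) (d i)] at h1
  · rw [LinearMap.mem_ker]
    show ∑ i, (∑ j, (b i j - b j i) * G j) * G i = 0
    have h1 : ∀ i, (∑ j, (b i j - b j i) * G j) * G i =
        (∑ j, b i j * G j * G i) - ∑ j, b j i * G i * G j := by
      intro i
      rw [Finset.sum_mul, ← Finset.sum_sub_distrib]
      refine Finset.sum_congr rfl (fun j _ => ?_)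
      ring
    simp only [h1]
    rw [Finset.sum_sub_distrib, sub_eq_zero]
    exact Finset.sum_comm

end Pool.Agent.Lib.MP_776403_ag.SD
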