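import Pool.Agent.Lib.MP_776403_ag.SD.SpecB

/-!
# THEOREM SD, module KosI: the degree `k` part of an ideal generated by forms
-/

set_option autoImplicit false

open MvPolynomial

noncomputable section

namespace Pool.Agent.Lib.MP_776403_ag.SD

private theorem finrank_forms (n d : ℕ) :
    Module.finrank ℂ (homogeneousSubmodule (Fin (n + 1)) ℂ d) = (d + n).choose n := by
  classical
  have h1 : homogeneousSubmodule (Fin (n + 1)) ℂ d = Submodule.span ℂ (Set.range
      fun s : {s // s ∈ (Finset.univ : Finset (Fin (n + 1))).finsuppAntidiag d} =>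
        (monomial s.1 1 : MvPolynomial (Fin (n + 1)) ℂ)) := by
    rw [homogeneousSubmodule_eq_finsupp_supported, AddMonoidAlgebra.supported_eq_span_single]
    congr 1
    ext f
    constructor
    · rintro ⟨s, hs, rfl⟩
      refine ⟨⟨s, ?_⟩, rfl⟩
      rw [Finset.mem_finsuppAntidiag]
      refine ⟨?_, Finset.subset_univ _⟩
      rw [← Finsupp.degree_eq_sum]
      exact hs
    · rintro ⟨⟨s, hs⟩, rfl⟩
      refine ⟨s, ?_, rfl⟩
      rw [Finset.mem_finsuppAntidiag, ← Finsupp.degree_eq_sum] at hs
      exact hs.1
  have h2 : LinearIndependent ℂ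
      fun s : {s // s ∈ (Finset.univ : Finset (Fin (n + 1))).finsuppAntidiag d} =>
        (monomial s.1 1 : MvPolynomial (Fin (n + 1)) ℂ) := by
    have h3 := (basisMonomials (Fin (n + 1)) ℂ).linearIndependent.comp
      (fun s : {s // s ∈ (Finset.univ : Finset (Fin (n + 1))).finsuppAntidiag d} => s.1)
      Subtype.val_injective
    refine (linearIndependent_equiv' (Equiv.refl _) ?_).1 h3
    funext s
    change (monomial s.1 1 : MvPolynomial (Fin (n + 1)) ℂ) = basisMonomials (Fin (n + 1)) ℂ s.1
    rw [coe_basisMonomials]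
  rw [h1, finrank_span_eq_card h2, Fintype.card_coe, Finset.card_finsuppAntidiag_nat_eq_choose,
    Finset.card_univ, Fintype.card_fin]
  have h4 : n + 1 + d - 1 = d + n := by omega
  rw [h4]
  exact Nat.choose_symm_add

/-- Homogeneous components of a product with a form. -/
private theorem hc_mul {N : ℕ} (A G : Sx N) (e k : ℕ) (hG : G.IsHomogeneous e) :
    homogeneousComponent k (A * G) =
      (if e ≤ k then homogeneousComponent (k - e) A else 0) * G := by
  have h1 : A * G = ∑ m ∈ Finset.range (A.totalDegree + 1), homogeneousComponent m A * G := by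
    rw [← Finset.sum_mul, sum_homogeneousComponent]
  have h2 : ∀ m, homogeneousComponent k (homogeneousComponent m A * G) =
      if k = m + e then homogeneousComponent m A * G else 0 := fun m =>
    homogeneousComponent_of_mem ((homogeneousComponent_isHomogeneous m A).mul hG)
  rw [h1, map_sum]
  simp only [h2]
  split_ifs with hk
  · by_cases hm : k - e ∈ Finset.range (A.totalDegree + 1)
    · rw [Finset.sum_eq_single_of_mem (k - e) hm, if_pos (by omega)]
      intro m _ hne
      rw [if_neg (by omega)]
    · have h3 : homogeneousComponent (k - e) A = 0 := by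
        refine homogeneousComponent_eq_zero _ _ ?_
        rw [Finset.mem_range, not_lt] at hm
        omega
      rw [h3, zero_mul]
      refine Finset.sum_eq_zero fun m hm' => ?_
      rw [if_neg]
      rintro rfl
      rw [Nat.add_sub_cancel] at hm
      exact hm hm'
  · rw [zero_mul]
    refine Finset.sum_eq_zero fun m _ => ?_
    rw [if_neg (by omega)]

private theorem map_eq {N : ℕ} {ι : Type} [Fintype ι] (d : ι → ℕ) (G : ι → Sx N)
    (hG : ∀ i, (G i).IsHomogeneous (d i)) (k : ℕ) :
    homogeneousSubmodule (Fin (N + 1)) ℂ k ⊓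
      LinearMap.ker (Ideal.Quotient.mkₐ ℂ (Ideal.span (Set.range G))).toLinearMap =
      (K1 N d k).map (Phi1 G) := by
  have hker : ∀ F : Sx N, (Ideal.Quotient.mkₐ ℂ (Ideal.span (Set.range G))).toLinearMap F = 0 ↔
      F ∈ Ideal.span (Set.range G) := fun F => Ideal.Quotient.eq_zero_iff_mem
  ext F
  rw [Submodule.mem_inf, LinearMap.mem_ker, hker, Submodule.mem_map]
  constructor
  · rintro ⟨h1, h2⟩
    obtain ⟨c, hc⟩ := Ideal.mem_span_range_iff_exists_fun.mp h2
    refine ⟨fun i => if d i ≤ k then homogeneousComponent (k - d i) (c i) else 0, ?_, ?_⟩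
    · refine Submodule.mem_pi.mpr fun i _ => ?_
      unfold Fd
      split_ifs with hi
      · exact homogeneousComponent_mem _ _
      · exact Submodule.zero_mem _
    · have h3 : homogeneousComponent k F = F := homogeneousComponent_eq_self h1
      rw [← h3, ← hc, map_sum]
      change ∑ i, (if d i ≤ k then homogeneousComponent (k - d i) (c i) else 0) * G i = _
      refine Finset.sum_congr rfl fun i _ => ?_
      rw [hc_mul (c i) (G i) (d i) k (hG i)]
  · rintro ⟨a, ha, rfl⟩
    have ha' := Submodule.mem_pi.mp ha
    refine ⟨?_, ?_⟩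
    · change ∑ i, a i * G i ∈ _
      refine Submodule.sum_mem _ fun i _ => ?_
      have h4 := ha' i (Set.mem_univ i)
      unfold Fd at h4
      split_ifs at h4 with hi
      · have h5 : (a i * G i).IsHomogeneous (k - d i + d i) := IsHomogeneous.mul h4 (hG i)
        rw [Nat.sub_add_cancel hi] at h5
        exact h5
      · rw [(Submodule.mem_bot ℂ).mp h4, zero_mul]
        exact Submodule.zero_mem _
    · change ∑ i, a i * G i ∈ _
      exact Ideal.sum_mem _ fun i _ =>
        Ideal.mul_mem_left _ _ (Ideal.subset_span (Set.mem_range_self i))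

theorem tKosI : S_KosI := by
  intro N ι _ d G hG k
  have hfin : Module.Finite ℂ (homogeneousSubmodule (Fin (N + 1)) ℂ k) :=
    Module.Finite.iff_fg.2 (homogeneousSubmodule_fg (Fin (N + 1)) ℂ k)
  let f : Sx N →ₗ[ℂ] Sx N ⧸ Ideal.span (Set.range G) :=
    (Ideal.Quotient.mkₐ ℂ (Ideal.span (Set.range G))).toLinearMap
  have h1 := LinearMap.finrank_range_add_finrank_ker
    (f.domRestrict (homogeneousSubmodule (Fin (N + 1)) ℂ k))
  rw [finrank_forms, LinearMap.range_domRestrict] at h1
  have h2 : Module.finrank ℂ
      (LinearMap.ker (f.domRestrict (homogeneousSubmodule (Fin (N + 1)) ℂ k))) =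
      Module.finrank ℂ ((K1 N d k).map (Phi1 G)) := by
    rw [← map_eq d G hG k, ← Submodule.map_comap_subtype,
      Submodule.finrank_map_subtype_eq]
    rfl
  rw [h2] at h1
  rw [Nat.add_comm N k]
  exact h1

end Pool.Agent.Lib.MP_776403_ag.SD
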