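import Pool.Agent.Lib.MP_776403_ag.SD.SpecB

/-!
# THEOREM SD, module KosM: the monomial case of the minimality of the Hilbert function (helper71)
-/

set_option autoImplicit false

open MvPolynomial Finset

noncomputable section

namespace Pool.Agent.Lib.MP_776403_ag.SD

/-- exponents of degree `k` -/
private def T (N k : ℕ) : Finset (Fin (N + 1) →₀ ℕ) :=
  (Finset.univ : Finset (Fin (N + 1))).finsuppAntidiag k

private theorem mem_T {N k : ℕ} {α : Fin (N + 1) →₀ ℕ} : α ∈ T N k ↔ ∑ i, α i = k := by
  rw [T, Finset.mem_finsuppAntidiag]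
  exact ⟨fun h => h.1, fun h => ⟨h, Finset.subset_univ _⟩⟩

private theorem card_T (N k : ℕ) : (T N k).card = (N + k).choose N := by
  rw [T, Finset.card_finsuppAntidiag_nat_eq_choose, Finset.card_univ, Fintype.card_fin]
  have h : N + 1 + k - 1 = N + k := by omega
  rw [h]
  exact (Nat.choose_symm_add (a := N) (b := k)).symm

/-- multiples of a monomial -/
private theorem card_ge (N k : ℕ) (δ : Fin (N + 1) →₀ ℕ) :
    ((T N k).filter (fun α => δ ≤ α)).card =
      if ∑ i, δ i ≤ k then (N + (k - ∑ i, δ i)).choose N else 0 := by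
  classical
  split_ifs with h
  · rw [← card_T]
    have h1 : (T N k).filter (fun α => δ ≤ α) = (T N (k - ∑ i, δ i)).image (fun β => β + δ) := by
      ext α
      rw [Finset.mem_filter, Finset.mem_image]
      constructor
      · rintro ⟨h2, h3⟩
        refine ⟨α - δ, ?_, tsub_add_cancel_of_le h3⟩
        rw [mem_T] at h2 ⊢
        have h4 : ∑ i, (α - δ) i + ∑ i, δ i = k := by
          rw [← Finset.sum_add_distrib, ← h2]
          refine Finset.sum_congr rfl fun i _ => ?_
          rw [Finsupp.tsub_apply]
          exact Nat.sub_add_cancel (h3 i)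
        omega
      · rintro ⟨β, h2, rfl⟩
        rw [mem_T] at h2 ⊢
        refine ⟨?_, le_add_self⟩
        simp only [Finsupp.add_apply, Finset.sum_add_distrib]
        omega
    rw [h1, Finset.card_image_of_injective _ (add_left_injective δ)]
  · rw [Finset.card_eq_zero, Finset.filter_eq_empty_iff]
    intro α h2 h3
    rw [mem_T] at h2
    apply h
    rw [← h2]
    exact Finset.sum_le_sum fun i _ => h3 i

/-- the exponent `∑_(i ∈ A) d_i e_i` -/
private def dl {N : ℕ} {ι : Type} (e : ι → Fin (N + 1)) (d : ι → ℕ) (A : Finset ι) :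
    Fin (N + 1) →₀ ℕ := ∑ i ∈ A, Finsupp.single (e i) (d i)

private theorem dl_sum {N : ℕ} {ι : Type} (e : ι → Fin (N + 1)) (d : ι → ℕ) (A : Finset ι) :
    ∑ j, dl e d A j = ∑ i ∈ A, d i := by
  classical
  simp only [dl, Finsupp.finsetSum_apply]
  rw [Finset.sum_comm]
  refine Finset.sum_congr rfl fun i _ => ?_
  simp [Finsupp.single_apply]

private theorem dl_le {N : ℕ} {ι : Type} {e : ι → Fin (N + 1)} (he : Function.Injective e)
    (d : ι → ℕ) (A : Finset ι) (α : Fin (N + 1) →₀ ℕ) :
    dl e d A ≤ α ↔ ∀ i ∈ A, d i ≤ α (e i) := by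
  classical
  constructor
  · intro h i hi
    refine le_trans ?_ (h (e i))
    rw [dl, Finsupp.finsetSum_apply]
    have h1 : d i = Finsupp.single (e i) (d i) (e i) := by simp
    conv_lhs => rw [h1]
    exact Finset.single_le_sum (f := fun i' => Finsupp.single (e i') (d i') (e i))
      (fun _ _ => Nat.zero_le _) hi
  · intro h j
    rw [dl, Finsupp.finsetSum_apply]
    by_cases hj : ∃ i ∈ A, e i = j
    · obtain ⟨i, hi, rfl⟩ := hj
      rw [Finset.sum_eq_single i]
      · rw [Finsupp.single_eq_same]
        exact h i hi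
      · intro i' _ hne
        rw [Finsupp.single_apply, if_neg (fun h' => hne (he h'))]
      · intro h'
        exact absurd hi h'
    · rw [Finset.sum_eq_zero]
      · exact Nat.zero_le _
      · intro i hi
        rw [Finsupp.single_apply, if_neg (fun h' => hj ⟨i, hi, h'⟩)]

/-- inclusion-exclusion -/
private theorem incl {N : ℕ} {ι : Type} [Fintype ι] {e : ι → Fin (N + 1)}
    (he : Function.Injective e) (d : ι → ℕ) (k : ℕ) :
    (((T N k).card : ℕ) : ℤ) - (((T N k).filter (fun α => ∃ i, d i ≤ α (e i))).card : ℤ) =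
      hcG d N k := by
  classical
  have h1 : (((T N k).card : ℕ) : ℤ) - (((T N k).filter (fun α => ∃ i, d i ≤ α (e i))).card : ℤ) =
      ∑ α ∈ T N k, ∏ i : ι, (-(if d i ≤ α (e i) then (1 : ℤ) else 0) + 1) := by
    have h2 : ∀ α : Fin (N + 1) →₀ ℕ, ∏ i : ι, (-(if d i ≤ α (e i) then (1 : ℤ) else 0) + 1) =
        1 - (if ∃ i, d i ≤ α (e i) then (1 : ℤ) else 0) := by
      intro α
      by_cases h : ∃ i, d i ≤ α (e i)
      · rw [if_pos h, sub_self]
        obtain ⟨i, hi⟩ := h
        refine Finset.prod_eq_zero (Finset.mem_univ i) ?_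
        rw [if_pos hi]
        norm_num
      · rw [if_neg h, sub_zero]
        push Not at h
        refine Finset.prod_eq_one fun i _ => ?_
        rw [if_neg (not_le.2 (h i))]
        norm_num
    simp only [h2, Finset.sum_sub_distrib, Finset.sum_boole]
    simp
  rw [h1]
  have h3 : ∀ α : Fin (N + 1) →₀ ℕ, ∏ i : ι, (-(if d i ≤ α (e i) then (1 : ℤ) else 0) + 1) =
      ∑ A : Finset ι, (-1) ^ A.card * (if dl e d A ≤ α then (1 : ℤ) else 0) := by
    intro α
    rw [Finset.prod_add, Finset.powerset_univ]
    refine Finset.sum_congr rfl fun A _ => ?_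
    rw [Finset.prod_const_one, mul_one, Finset.prod_neg]
    congr 1
    by_cases h : dl e d A ≤ α
    · rw [if_pos h]
      rw [dl_le he] at h
      exact Finset.prod_eq_one fun i hi => if_pos (h i hi)
    · rw [if_neg h]
      rw [dl_le he] at h
      push Not at h
      obtain ⟨i, hi, h'⟩ := h
      exact Finset.prod_eq_zero hi (if_neg (not_le.2 h'))
  simp only [h3]
  rw [Finset.sum_comm, hcG]
  refine Finset.sum_congr rfl fun A _ => ?_
  rw [← Finset.mul_sum, Finset.sum_boole, card_ge, dl_sum]
  congr 1
  split_ifs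
  · rfl
  · rfl

/-- the span of the monomials -/
private theorem map_eq {N : ℕ} {ι : Type} [Fintype ι] (e : ι → Fin (N + 1)) (d : ι → ℕ) (k : ℕ) :
    (K1 N d k).map (Phi1 fun i => (X (e i) ^ d i : Sx N)) =
      Submodule.span ℂ (Set.range fun α : {α // α ∈ (T N k).filter (fun α => ∃ i, d i ≤ α (e i))} =>
        (monomial α.1 (1 : ℂ) : Sx N)) := by
  classical
  apply le_antisymm
  · rintro _ ⟨a, ha, rfl⟩
    change ∑ i, a i * X (e i) ^ d i ∈ _
    refine Submodule.sum_mem _ fun i _ => ?_
    have hi : a i ∈ Fd N k (d i) := ha i (Set.mem_univ i)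
    unfold Fd at hi
    split_ifs at hi with hk
    · have hh : (a i).IsHomogeneous (k - d i) := hi
      rw [(a i).as_sum, Finset.sum_mul]
      refine Submodule.sum_mem _ fun β hβ => ?_
      have h1 : (monomial β (coeff β (a i)) : Sx N) * X (e i) ^ d i =
          coeff β (a i) • monomial (β + Finsupp.single (e i) (d i)) (1 : ℂ) := by
        rw [X_pow_eq_monomial, monomial_mul, smul_monomial, smul_eq_mul]
      rw [h1]
      refine Submodule.smul_mem _ _ (Submodule.subset_span ⟨⟨_, ?_⟩, rfl⟩)
      rw [Finset.mem_filter, mem_T]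
      have h2 : β.degree = k - d i := by
        by_contra hc
        exact (mem_support_iff.1 hβ) (hh.coeff_eq_zero hc)
      have h3 : ∑ j, β j = k - d i := by
        rw [← h2, Finsupp.degree_eq_sum]
      refine ⟨?_, i, ?_⟩
      · simp only [Finsupp.add_apply, Finset.sum_add_distrib, h3]
        have h4 : ∑ j, Finsupp.single (e i) (d i) j = d i := by simp [Finsupp.single_apply]
        rw [h4]
        omega
      · rw [Finsupp.add_apply, Finsupp.single_eq_same]
        exact Nat.le_add_left _ _
    · rw [Submodule.mem_bot] at hi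
      rw [hi, zero_mul]
      exact Submodule.zero_mem _
  · rw [Submodule.span_le]
    rintro _ ⟨⟨α, hα⟩, rfl⟩
    rw [Finset.mem_filter, mem_T] at hα
    obtain ⟨hα, i, hi⟩ := hα
    have hle : Finsupp.single (e i) (d i) ≤ α := by
      rw [Finsupp.single_le_iff]
      exact hi
    have hik : d i ≤ k := by
      refine hi.trans ?_
      rw [← hα]
      exact Finset.single_le_sum (f := fun j => α j) (fun _ _ => Nat.zero_le _) (Finset.mem_univ _)
    obtain ⟨b, hb⟩ : ∃ b : ι → Sx N,
        b = Pi.single i (monomial (α - Finsupp.single (e i) (d i)) (1 : ℂ) : Sx N) := ⟨_, rfl⟩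
    have hbi : b i = monomial (α - Finsupp.single (e i) (d i)) (1 : ℂ) := by
      rw [hb, Pi.single_eq_same]
    have hbj : ∀ j, j ≠ i → b j = 0 := fun j hj => by rw [hb, Pi.single_eq_of_ne hj]
    refine ⟨b, ?_, ?_⟩
    · intro j _
      change b j ∈ Fd N k (d j)
      by_cases hj : j = i
      · subst hj
        rw [hbi]
        unfold Fd
        rw [if_pos hik]
        refine isHomogeneous_monomial _ ?_
        rw [Finsupp.degree_eq_sum]
        have h5 : ∑ l, (α - Finsupp.single (e j) (d j)) l + ∑ l, Finsupp.single (e j) (d j) l = k := by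
          rw [← Finset.sum_add_distrib, ← hα]
          refine Finset.sum_congr rfl fun l _ => ?_
          rw [Finsupp.tsub_apply]
          exact Nat.sub_add_cancel (hle l)
        have h4 : ∑ l, Finsupp.single (e j) (d j) l = d j := by simp [Finsupp.single_apply]
        rw [h4] at h5
        omega
      · rw [hbj j hj]
        exact Submodule.zero_mem _
    · change ∑ j, b j * X (e j) ^ d j = monomial α (1 : ℂ)
      rw [Finset.sum_eq_single i]
      · rw [hbi, X_pow_eq_monomial, monomial_mul, one_mul, tsub_add_cancel_of_le hle]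
      · intro j _ hj
        rw [hbj j hj, zero_mul]
      · intro h
        exact absurd (Finset.mem_univ i) h

/-- **KosM.** -/
theorem tKosM : S_KosM := by
  classical
  intro N ι _ e he d k
  have h1 : Module.finrank ℂ ((K1 N d k).map (Phi1 fun i => (X (e i) ^ d i : Sx N))) =
      ((T N k).filter (fun α => ∃ i, d i ≤ α (e i))).card := by
    rw [map_eq, finrank_span_eq_card, Fintype.card_coe]
    have h2 : LinearIndependent ℂ (fun α : Fin (N + 1) →₀ ℕ => (monomial α (1 : ℂ) : Sx N)) := by
      have h3 := (basisMonomials (Fin (N + 1)) ℂ).linearIndependent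
      rwa [coe_basisMonomials] at h3
    exact h2.comp Subtype.val Subtype.val_injective
  rw [h1, ← card_T]
  exact incl he d k

end Pool.Agent.Lib.MP_776403_ag.SD
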