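import Pool.Agent.Lib.MP_776403_ag.SD.SpecB

/-!
# THEOREM SD: the Koszul rank inequality (helper61)
-/

set_option autoImplicit false

open MvPolynomial

noncomputable section

namespace Pool.Agent.Lib.MP_776403_ag.SD

namespace KosRAux

variable {N : ℕ} {ι : Type} [Fintype ι]

/-- Rank-nullity for a submodule. -/
private theorem rank_null {V W : Type} [AddCommGroup V] [Module ℂ V] [AddCommGroup W] [Module ℂ W]
    (f : V →ₗ[ℂ] W) (U : Submodule ℂ V) [FiniteDimensional ℂ U] :
    Module.finrank ℂ (U.map f) + Module.finrank ℂ (U ⊓ LinearMap.ker f : Submodule ℂ V) =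
      Module.finrank ℂ U := by
  have hr := LinearMap.finrank_range_add_finrank_ker (f.domRestrict U)
  rw [LinearMap.range_domRestrict] at hr
  have hk : LinearMap.ker (f.domRestrict U) = Submodule.comap U.subtype (U ⊓ LinearMap.ker f) := by
    ext x
    rw [LinearMap.mem_ker, LinearMap.domRestrict_apply, Submodule.mem_comap, Submodule.subtype_apply,
      Submodule.mem_inf, LinearMap.mem_ker]
    exact ⟨fun h => ⟨x.2, h⟩, fun h => h.2⟩
  rw [hk, LinearEquiv.finrank_eq (Submodule.comapSubtypeEquivOfLe inf_le_left)] at hr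
  exact hr

private theorem Fd_fg (k e : ℕ) : (Fd N k e).FG := by
  unfold Fd
  split_ifs
  · exact homogeneousSubmodule_fg _ _ _
  · exact Submodule.fg_bot

private theorem K1_fin (d : ι → ℕ) (k : ℕ) : FiniteDimensional ℂ (K1 N d k) := by
  refine Module.Finite.iff_fg.2 ?_
  exact Submodule.fg_pi fun i => Fd_fg k (d i)

private theorem K2_fin (d : ι → ℕ) (k : ℕ) : FiniteDimensional ℂ (K2 N d k) := by
  refine Module.Finite.iff_fg.2 ?_
  exact Submodule.fg_pi fun i => Submodule.fg_pi fun j => Fd_fg k (d i + d j)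

private theorem Phi1_add (G M : ι → Sx N) (t : ℂ) :
    Phi1 G + t • Phi1 M = Phi1 fun i => G i + t • M i := by
  refine LinearMap.ext fun a => ?_
  show ∑ i, a i * G i + t • ∑ i, a i * M i = ∑ i, a i * (G i + t • M i)
  rw [Finset.smul_sum, ← Finset.sum_add_distrib]
  exact Finset.sum_congr rfl fun i _ => by rw [mul_add, mul_smul_comm]

private theorem Phi2_add (G M : ι → Sx N) (u : ℂ) :
    Phi2 G + u • Phi2 M = Phi2 fun i => G i + u • M i := by
  refine LinearMap.ext fun b => ?_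
  funext i
  show ∑ j, (b i j - b j i) * G j + u • ∑ j, (b i j - b j i) * M j =
    ∑ j, (b i j - b j i) * (G j + u • M j)
  rw [Finset.smul_sum, ← Finset.sum_add_distrib]
  exact Finset.sum_congr rfl fun i _ => by rw [mul_add, mul_smul_comm]

private theorem Phi2_smul (G : ι → Sx N) (u : ℂ) : (Phi2 fun i => u • G i) = u • Phi2 G := by
  refine LinearMap.ext fun b => ?_
  funext i
  show ∑ j, (b i j - b j i) * (u • G j) = u • ∑ j, (b i j - b j i) * G j
  rw [Finset.smul_sum]
  exact Finset.sum_congr rfl fun i _ => by rw [mul_smul_comm]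

end KosRAux

open KosRAux in
/-- **(KosR)** Rank inequality. -/
theorem tKosR : S_Pencil → S_Kos1 → S_Kos2 → S_KosR := by
  intro hP h1 h2 N ι _ e he d G hG k
  have : FiniteDimensional ℂ (K1 N d k) := K1_fin d k
  have : FiniteDimensional ℂ (K2 N d k) := K2_fin d k
  set M : ι → Sx N := fun i => X (e i) ^ d i with hM
  have hMh : ∀ i, (M i).IsHomogeneous (d i) := fun i => by
    have h3 := (isHomogeneous_X ℂ (e i)).pow (d i)
    rwa [one_mul] at h3
  have hE1 := hP (ι → Sx N) (Sx N) (K1 N d k) (Phi1 G) (Phi1 M)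
  have hE2 := hP (ι → ι → Sx N) (ι → Sx N) (K2 N d k) (Phi2 M) (Phi2 G)
  obtain ⟨u, hu⟩ := (((hE1.image fun t => t⁻¹).union hE2).union (Set.finite_singleton (0 : ℂ))).infinite_compl.nonempty
  rw [Set.mem_compl_iff, Set.mem_union, Set.mem_union, not_or, not_or] at hu
  obtain ⟨⟨hu1, hu2⟩, hu0⟩ := hu
  have hu0 : u ≠ 0 := fun h => hu0 h
  have hi1 : Module.finrank ℂ ((K1 N d k).map (Phi1 G)) ≤
      Module.finrank ℂ ((K1 N d k).map (Phi1 G + u⁻¹ • Phi1 M)) := by
    by_contra hlt
    exact hu1 ⟨u⁻¹, not_le.1 hlt, inv_inv u⟩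
  have hi2 : Module.finrank ℂ ((K2 N d k).map (Phi2 M)) ≤
      Module.finrank ℂ ((K2 N d k).map (Phi2 M + u • Phi2 G)) := by
    by_contra hlt
    exact hu2 (not_le.1 hlt)
  set H : ι → Sx N := fun i => G i + u⁻¹ • M i with hH
  have hHh : ∀ i, (H i).IsHomogeneous (d i) := fun i =>
    Submodule.add_mem (homogeneousSubmodule (Fin (N + 1)) ℂ (d i)) (hG i)
      (Submodule.smul_mem _ _ (hMh i))
  have hMG : Phi2 M + u • Phi2 G = u • Phi2 H := by
    rw [Phi2_add, ← Phi2_smul]
    congr 1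
    funext i
    rw [hH]
    show M i + u • G i = u • (G i + u⁻¹ • M i)
    rw [smul_add, smul_smul, mul_inv_cancel₀ hu0, one_smul, add_comm]
  rw [hMG, Submodule.map_smul _ _ _ hu0] at hi2
  rw [Phi1_add] at hi1
  have r1 := rank_null (Phi1 H) (K1 N d k)
  have r2 := rank_null (Phi1 M) (K1 N d k)
  have : FiniteDimensional ℂ (K1 N d k ⊓ LinearMap.ker (Phi1 H) : Submodule ℂ (ι → Sx N)) :=
    Submodule.finiteDimensional_of_le inf_le_left
  have i1 := Submodule.finrank_mono (h1 N ι d H hHh k)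
  have i2 := Submodule.finrank_mono (h2 N ι e he d k)
  have i1' : Module.finrank ℂ ((K2 N d k).map (Phi2 H)) ≤
    Module.finrank ℂ (K1 N d k ⊓ LinearMap.ker (Phi1 H) : Submodule ℂ (ι → Sx N)) := i1
  have i2' : Module.finrank ℂ (K1 N d k ⊓ LinearMap.ker (Phi1 M) : Submodule ℂ (ι → Sx N)) ≤
    Module.finrank ℂ ((K2 N d k).map (Phi2 M)) := i2
  have hi1' : Module.finrank ℂ ((K1 N d k).map (Phi1 G)) ≤
    Module.finrank ℂ ((K1 N d k).map (Phi1 H)) := hi1
  omega

end Pool.Agent.Lib.MP_776403_ag.SD
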