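import Pool.Agent.Lib.MP_776403_ag.SD.SpecB

/-!
# THEOREM SD, module Krull: Krull's height theorem in graded form
-/

set_option autoImplicit false

open MvPolynomial

noncomputable section

namespace Pool.Agent.Lib.MP_776403_ag.SD

theorem tKrull : S_D2a → S_D2b → S_D2c → S_Krull := by
  intro ha hb hc σ _ w J z g b hJ hJn hbJ hle0
  have hmem : ∀ F, F ∈ ptI z ↔ eval z F = 0 := fun F => RingHom.mem_ker
  have hnp : (ptI z).IsPrime := RingHom.ker_isPrime _
  have hJfg : J.FG := IsNoetherian.noetherian J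
  obtain ⟨h, hh1, hhJ⟩ := Submodule.exists_sub_one_mem_and_smul_le_of_fg_of_le_sup
    (I := ptI z) (N := Ideal.span (Set.range b)) (N' := J) (P := J) hJfg le_rfl hle0
  have hhJ' : ∀ G ∈ J, h * G ∈ Ideal.span (Set.range b) := fun G hG =>
    hhJ (Submodule.smul_mem_pointwise_smul G h J hG)
  have hh : h ∉ ptI z := by
    intro hx
    have h1 : (1 : MvPolynomial σ ℂ) ∈ ptI z := by
      have := Ideal.sub_mem _ hx hh1
      rwa [sub_sub_cancel] at this
    exact hnp.ne_top ((Ideal.eq_top_iff_one _).2 h1)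
  set B : Ideal (MvPolynomial σ ℂ) := Ideal.span (Set.range b) with hB
  have hBJ : B ≤ J := Ideal.span_le.mpr (by rintro _ ⟨i, rfl⟩; exact hbJ i)
  have hBn : B ≤ ptI z := hBJ.trans hJn
  have hM := ha σ z (ptI z) hnp hmem
  have h1 := Ideal.height_le_height_add_spanFinrank_of_le (I := B) (p := ptI z) hBn
  have h2 : B.spanFinrank ≤ g := by
    refine (Submodule.spanFinrank_span_le_ncard_of_finite (Set.finite_range b)).trans ?_
    rw [← Set.image_univ]
    refine (Set.ncard_image_le Set.finite_univ).trans ?_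
    rw [Set.ncard_univ, Nat.card_fin]
  have hn' : ((ptI z).map (Ideal.Quotient.mk B)).IsPrime :=
    Ideal.isPrime_map_quotientMk_of_isPrime hBn
  obtain ⟨l, hl1, hl2⟩ :=
    Ideal.exists_ltSeries_length_eq_height ((ptI z).map (Ideal.Quotient.mk B))
  have hlen : Fintype.card σ ≤ l.length + g := by
    have h3 : ((Fintype.card σ : ℕ) : ℕ∞) ≤ (l.length : ℕ∞) + (g : ℕ∞) := by
      rw [← hl2] at h1
      exact hM.trans (h1.trans (by gcongr))
    exact_mod_cast h3
  have hsur : Function.Surjective (Ideal.Quotient.mk B) := Ideal.Quotient.mk_surjective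
  set P₀ : Ideal (MvPolynomial σ ℂ) := l.head.asIdeal.comap (Ideal.Quotient.mk B) with hP₀
  have hP₀p : P₀.IsPrime := Ideal.comap_isPrime _ _
  have hle : ∀ i, l.head ≤ l i := fun i => LTSeries.head_le l i
  have hBP : B ≤ P₀ := by
    intro x hx
    rw [hP₀, Ideal.mem_comap, Ideal.Quotient.eq_zero_iff_mem.mpr hx]
    exact Ideal.zero_mem _
  have hPn : P₀ ≤ ptI z := by
    have h4 : l.head.asIdeal ≤ (ptI z).map (Ideal.Quotient.mk B) := by
      have h5 := LTSeries.head_le_last l
      rw [hl1] at h5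
      exact h5
    refine (Ideal.comap_mono h4).trans ?_
    rw [Ideal.comap_map_of_surjective _ hsur, ← RingHom.ker_eq_comap_bot, Ideal.mk_ker]
    exact sup_le le_rfl hBn
  have hhP : h ∉ P₀ := fun hx => hh (hPn hx)
  have hJP : J ≤ P₀ := by
    intro G hG
    rcases hP₀p.mem_or_mem (hBP (hhJ' G hG)) with h5 | h5
    · exact absurd h5 hhP
    · exact h5
  have hdim : ((l.length : ℕ∞) : WithBot ℕ∞) ≤ ringKrullDim (MvPolynomial σ ℂ ⧸ P₀) := by
    rw [ringKrullDim_quotient]
    let l' : LTSeries (PrimeSpectrum.zeroLocus (R := MvPolynomial σ ℂ) P₀) :=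
      { length := l.length
        toFun := fun i => ⟨⟨(l i).asIdeal.comap (Ideal.Quotient.mk B), Ideal.comap_isPrime _ _⟩,
          Ideal.comap_mono (hle i)⟩
        step := fun i => by
          have h6 := l.step i
          have h7 : (l i.castSucc).asIdeal < (l i.succ).asIdeal := h6
          exact (Ideal.orderEmbeddingOfSurjective (Ideal.Quotient.mk B) hsur).strictMono h7 }
    exact Order.LTSeries.length_le_krullDim l'
  obtain ⟨P, hP1, hP2, hP3, hP4, hP5⟩ := hc σ w J P₀ hJ hP₀p hJP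
  have hD : DimGeG P₀ (Fintype.card σ - g) := by
    refine hb σ P₀ hP₀p _ (le_trans ?_ hdim)
    have h8 : Fintype.card σ - g ≤ l.length := by omega
    exact_mod_cast h8
  obtain ⟨i, hi⟩ := hP5 _ hD
  exact ⟨P, hP1, hP3, hP4.trans hPn, hP2, _, hi⟩

end Pool.Agent.Lib.MP_776403_ag.SD
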