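import Pool.Agent.Lib.MP_776403_ag.SD.SpecB

/-!
# (L1) Sections on a line in the span of gradients
-/

set_option autoImplicit false

open MvPolynomial

noncomputable section

namespace Pool.Agent.Lib.MP_776403_ag.SD

/-- Cramer's rule. -/
private theorem L1_cramer (hM : S_Minor) {ι : Type} [Fintype ι] [DecidableEq ι] {m : ℕ}
    (g : ι → Fin m → Polynomial ℂ) (s : Fin m → Polynomial ℂ)
    (hi : LinearIndependent ℂ (fun i k => (g i k).eval 0))
    (hspan : ∀ t : ℂ, ∃ a : ι → ℂ, ∀ k, (s k).eval t = ∑ i, a i * (g i k).eval t) :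
    ∃ (D : Polynomial ℂ) (L : ι → Polynomial ℂ), D ≠ 0 ∧ ∀ k, D * s k = ∑ i, L i * g i k := by
  obtain ⟨B, hB⟩ := hM ι m (fun i k => (g i k).eval 0) hi
  let A : Matrix ι ι (Polynomial ℂ) := Matrix.of fun i j => g i (B j)
  have hev : ∀ t : ℂ, (A.det).eval t = (Matrix.of fun i j => (g i (B j)).eval t).det := by
    intro t
    have h := RingHom.map_det (Polynomial.evalRingHom t) A
    rw [Polynomial.coe_evalRingHom] at h
    rw [h]
    rfl
  have hD : A.det ≠ 0 := by
    intro h0
    have h1 := hev 0
    rw [h0, Polynomial.eval_zero] at h1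
    exact hB h1.symm
  let L : ι → Polynomial ℂ := A.transpose.cramer fun j => s (B j)
  have hL : ∀ j, ∑ i, L i * g i (B j) = A.det * s (B j) := by
    intro j
    have h := congrFun (Matrix.mulVec_cramer A.transpose fun j => s (B j)) j
    rw [Matrix.det_transpose] at h
    rw [Pi.smul_apply, smul_eq_mul] at h
    rw [← h]
    refine Finset.sum_congr rfl fun i _ => ?_
    exact mul_comm _ _
  refine ⟨A.det, L, hD, fun k => ?_⟩
  have h0 : A.det * (A.det * s k - ∑ i, L i * g i k) = 0 := by
    refine Polynomial.funext fun t => ?_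
    rw [Polynomial.eval_mul, Polynomial.eval_zero]
    by_cases ht : A.det.eval t = 0
    · rw [ht, zero_mul]
    · have h1 : (A.det * s k - ∑ i, L i * g i k).eval t = 0 := by
        obtain ⟨a, ha⟩ := hspan t
        have h2 : Matrix.vecMul (fun i => A.det.eval t * a i - (L i).eval t)
            (Matrix.of fun i j => (g i (B j)).eval t) = 0 := by
          funext j
          have h3 := congrArg (Polynomial.eval t) (hL j)
          rw [Polynomial.eval_finsetSum, Polynomial.eval_mul, ha (B j), Finset.mul_sum] at h3
          show ∑ i, (A.det.eval t * a i - (L i).eval t) * (g i (B j)).eval t = 0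
          have h4 : ∑ i, (A.det.eval t * a i - (L i).eval t) * (g i (B j)).eval t =
              ∑ i, A.det.eval t * (a i * (g i (B j)).eval t) - ∑ i, (L i * g i (B j)).eval t := by
            rw [← Finset.sum_sub_distrib]
            refine Finset.sum_congr rfl fun i _ => ?_
            rw [Polynomial.eval_mul]
            ring
          rw [h4, h3, sub_self]
        have h5 := Matrix.eq_zero_of_vecMul_eq_zero (by rw [← hev]; exact ht) h2
        have h6 : ∀ i, (L i).eval t = A.det.eval t * a i := fun i =>
          (sub_eq_zero.1 (congrFun h5 i)).symm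
        rw [Polynomial.eval_sub, Polynomial.eval_mul, Polynomial.eval_finsetSum, ha k, Finset.mul_sum,
          ← Finset.sum_sub_distrib]
        refine Finset.sum_eq_zero fun i _ => ?_
        rw [Polynomial.eval_mul, h6]
        ring
      rw [h1, mul_zero]
  exact sub_eq_zero.1 ((mul_eq_zero.1 h0).resolve_left hD)

/-- Division. -/
private theorem L1_div {ι : Type} [Fintype ι] {m : ℕ}
    (g : ι → Fin m → Polynomial ℂ) (s : Fin m → Polynomial ℂ)
    (hi : ∀ t : ℂ, LinearIndependent ℂ (fun i k => (g i k).eval t)) :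
    ∀ (r : ℕ) (D : Polynomial ℂ) (L : ι → Polynomial ℂ), D.natDegree = r → D ≠ 0 →
      (∀ k, D * s k = ∑ i, L i * g i k) → ∃ L' : ι → Polynomial ℂ, ∀ k, s k = ∑ i, L' i * g i k := by
  intro r
  induction r with
  | zero =>
    intro D L hr hD h
    obtain ⟨a, rfl⟩ := Polynomial.natDegree_eq_zero.1 hr
    have ha : a ≠ 0 := by
      rintro rfl
      exact hD (map_zero _)
    refine ⟨fun i => Polynomial.C a⁻¹ * L i, fun k => ?_⟩
    have h1 : ∑ i, Polynomial.C a⁻¹ * L i * g i k = Polynomial.C a⁻¹ * (Polynomial.C a * s k) := by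
      rw [h k, Finset.mul_sum]
      exact Finset.sum_congr rfl fun i _ => mul_assoc _ _ _
    rw [h1, ← mul_assoc, ← map_mul, inv_mul_cancel₀ ha, map_one, one_mul]
  | succ r ih =>
    intro D L hr hD h
    have hdeg : D.degree ≠ 0 := by
      intro h0
      rw [Polynomial.degree_eq_natDegree hD, hr] at h0
      have : r + 1 = 0 := by exact_mod_cast h0
      omega
    obtain ⟨t, ht⟩ := IsAlgClosed.exists_root D hdeg
    obtain ⟨D', hD'⟩ := Polynomial.dvd_iff_isRoot.2 ht
    have hD'0 : D' ≠ 0 := by
      rintro rfl
      exact hD (by rw [hD', mul_zero])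
    have h1 : ∀ i, (L i).eval t = 0 := by
      have h2 := Fintype.linearIndependent_iff.1 (hi t) (fun i => (L i).eval t) (by
        funext k
        rw [Finset.sum_apply, Pi.zero_apply]
        have h3 := congrArg (Polynomial.eval t) (h k)
        rw [Polynomial.eval_mul, ht.eq_zero, zero_mul, Polynomial.eval_finsetSum] at h3
        rw [h3]
        refine Finset.sum_congr rfl fun i _ => ?_
        rw [Polynomial.eval_mul]
        rfl)
      exact h2
    choose L' hL' using fun i => Polynomial.dvd_iff_isRoot.2 (h1 i)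
    refine ih D' L' ?_ hD'0 fun k => ?_
    · rw [hD', Polynomial.natDegree_mul (Polynomial.X_sub_C_ne_zero t) hD'0,
        Polynomial.natDegree_X_sub_C] at hr
      omega
    · have h4 : (Polynomial.X - Polynomial.C t) * (D' * s k) =
          (Polynomial.X - Polynomial.C t) * ∑ i, L' i * g i k := by
        rw [← mul_assoc, ← hD', h k, Finset.mul_sum]
        refine Finset.sum_congr rfl fun i _ => ?_
        rw [← mul_assoc, ← hL' i]
      exact mul_left_cancel₀ (Polynomial.X_sub_C_ne_zero t) h4

/-- Degrees. -/
private theorem L1_deg {ι : Type} [Fintype ι] {m : ℕ}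
    (g : ι → Fin m → Polynomial ℂ) (s : Fin m → Polynomial ℂ) (e : ι → ℕ) (n : ℕ)
    (hs : ∀ k, s k ∈ Polynomial.degreeLT ℂ n) (hg : ∀ i k, (g i k).natDegree ≤ e i)
    (htop : LinearIndependent ℂ (fun i k => (g i k).coeff (e i))) (L : ι → Polynomial ℂ)
    (h : ∀ k, s k = ∑ i, L i * g i k) : ∀ i, L i ∈ Polynomial.degreeLT ℂ (n - e i) := by
  classical
  by_cases hne : (Finset.univ.filter fun i => L i ≠ 0).Nonempty
  · obtain ⟨i0, hi0, hmax⟩ := Finset.exists_max_image _ (fun i => (L i).natDegree + e i) hne
    have hi0' : L i0 ≠ 0 := (Finset.mem_filter.1 hi0).2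
    have hM : ∀ i, L i ≠ 0 → (L i).natDegree + e i ≤ (L i0).natDegree + e i0 := fun i hi =>
      hmax i (Finset.mem_filter.2 ⟨Finset.mem_univ _, hi⟩)
    have hlt : (L i0).natDegree + e i0 < n := by
      by_contra hge
      push Not at hge
      let a : ι → ℂ := fun i => if L i = 0 then 0 else
        (L i).coeff ((L i0).natDegree + e i0 - e i)
      have h1 := Fintype.linearIndependent_iff.1 htop a (by
        funext k
        rw [Finset.sum_apply, Pi.zero_apply]
        have h2 : (s k).coeff ((L i0).natDegree + e i0) = 0 := by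
          have h3 := hs k
          rw [Polynomial.mem_degreeLT, Polynomial.degree_lt_iff_coeff_zero] at h3
          exact h3 _ hge
        rw [h k, Polynomial.finsetSum_coeff] at h2
        rw [← h2]
        refine Finset.sum_congr rfl fun i _ => ?_
        show (if L i = 0 then 0 else (L i).coeff ((L i0).natDegree + e i0 - e i)) *
          (g i k).coeff (e i) = _
        split_ifs with h4
        · rw [h4, zero_mul, zero_mul, Polynomial.coeff_zero]
        · have h5 := hM i h4
          have h6 : (L i).natDegree ≤ (L i0).natDegree + e i0 - e i := by omega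
          have h7 := Polynomial.coeff_mul_add_eq_of_natDegree_le h6 (hg i k)
          have h8 : (L i0).natDegree + e i0 - e i + e i = (L i0).natDegree + e i0 := by omega
          rw [h8] at h7
          exact h7.symm)
      have h9 := h1 i0
      simp only [a, if_neg hi0', Nat.add_sub_cancel] at h9
      exact hi0' (Polynomial.leadingCoeff_eq_zero.1 h9)
    intro i
    by_cases hi : L i = 0
    · rw [hi]
      exact Submodule.zero_mem _
    · have h5 := hM i hi
      rw [Polynomial.mem_degreeLT, Polynomial.degree_eq_natDegree hi]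
      have : (L i).natDegree < n - e i := by omega
      exact_mod_cast this
  · intro i
    have hi : L i = 0 := by
      by_contra h0
      exact hne ⟨i, Finset.mem_filter.2 ⟨Finset.mem_univ _, h0⟩⟩
    rw [hi]
    exact Submodule.zero_mem _

theorem tL1 : S_Minor → S_L1 := by
  classical
  intro hM N c d I hH K G hD x v hl n s hs hspan
  let g : {i : Fin c // d i ≤ K} → Fin (N + 1) → Polynomial ℂ := fun i => gradL x v (G i)
  have hgt : ∀ t : ℂ, (fun (i : {i : Fin c // d i ≤ K}) k => (g i k).eval t) =
      fun i : {i : Fin c // d i ≤ K} => grad (G i) (x + t • v) := by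
    intro t
    funext i
    exact gradL_eval x v (G i) t
  have hi : ∀ t : ℂ, LinearIndependent ℂ (fun (i : {i : Fin c // d i ≤ K}) k => (g i k).eval t) := by
    intro t
    rw [hgt]
    exact hD.ind _ (mem_zer_line hl t) (line_ne_zero' hl t)
  have hvz : v ∈ zer I := by
    have := hl.2 0 1
    rwa [zero_smul, zero_add, one_smul] at this
  have hv0 : v ≠ 0 := by
    have := line_ne_zero hl.1 (s := 0) (t := 1) (Or.inr one_ne_zero)
    rwa [zero_smul, zero_add, one_smul] at this
  have hspan' : ∀ t : ℂ, ∃ a : {i : Fin c // d i ≤ K} → ℂ, ∀ k,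
      (s k).eval t = ∑ i, a i * (g i k).eval t := by
    intro t
    have h1 := hspan t
    have h2 : GS d K G (x + t • v) =
        Submodule.span ℂ (Set.range fun i : {i : Fin c // d i ≤ K} => grad (G i) (x + t • v)) := by
      rw [GS]
      congr 1
      ext u
      constructor
      · rintro ⟨i, hi, rfl⟩
        exact ⟨⟨i, hi⟩, rfl⟩
      · rintro ⟨i, rfl⟩
        exact ⟨i, i.2, rfl⟩
    rw [h2, Submodule.mem_span_range_iff_exists_fun] at h1
    obtain ⟨a, ha⟩ := h1
    refine ⟨a, fun k => ?_⟩
    have h3 := congrFun ha k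
    rw [Finset.sum_apply] at h3
    rw [← h3]
    refine Finset.sum_congr rfl fun i _ => ?_
    rw [Pi.smul_apply, smul_eq_mul]
    congr 1
    exact (congrFun (congrFun (hgt t) i) k).symm
  obtain ⟨D, L0, hD0, hL0⟩ := L1_cramer hM g s (hi 0) hspan'
  obtain ⟨L, hL⟩ := L1_div g s hi D.natDegree D L0 rfl hD0 hL0
  have hg : ∀ (i : {i : Fin c // d i ≤ K}) k, (g i k).natDegree ≤ d i - 1 := by
    intro i k
    have h1 := gradL_mem (hD.hom i i.2).2 x v k
    have h2 := hH.two_le i
    rw [Polynomial.mem_degreeLT] at h1
    by_cases h0 : g i k = 0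
    · rw [h0, Polynomial.natDegree_zero]
      exact Nat.zero_le _
    · rw [Polynomial.degree_eq_natDegree h0] at h1
      have : (g i k).natDegree < d i := by exact_mod_cast h1
      omega
  have htop : LinearIndependent ℂ (fun (i : {i : Fin c // d i ≤ K}) k => (g i k).coeff (d i - 1)) := by
    have h1 : (fun (i : {i : Fin c // d i ≤ K}) k => (g i k).coeff (d i - 1)) =
        fun i : {i : Fin c // d i ≤ K} => grad (G i) v := by
      funext i
      exact gradL_coeff_top (hD.hom i i.2).2 x v
    rw [h1]
    exact hD.ind v hvz hv0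
  have hdeg := L1_deg g s (fun i => d i - 1) n hs.1 hg htop L hL
  refine ⟨fun i => if h : d i ≤ K then L ⟨i, h⟩ else 0, ?_, ?_, ?_⟩
  · intro i
    dsimp only
    split_ifs with h
    · have h1 := hdeg ⟨i, h⟩
      have h2 := hH.two_le i
      have h3 : n - (d i - 1) = n + 1 - d i := by omega
      rw [← h3]
      exact h1
    · exact Submodule.zero_mem _
  · intro i h
    exact dif_neg (not_le.2 h)
  · funext k
    rw [hL k, Finset.sum_apply]
    refine Fintype.sum_of_injective (fun i : {i : Fin c // d i ≤ K} => (i : Fin c))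
      Subtype.val_injective _ _ ?_ ?_
    · intro i hi
      have h : ¬ d i ≤ K := fun h => hi ⟨⟨i, h⟩, rfl⟩
      dsimp only
      rw [dif_neg h, zero_mul]
    · intro i
      dsimp only
      rw [dif_pos i.2]

end Pool.Agent.Lib.MP_776403_ag.SD
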