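import Pool.Agent.Lib.MP_776403_ag.SD.SpecB

/-!
# THEOREM SD, module L3: propagation along a line
-/

set_option autoImplicit false

open MvPolynomial

noncomputable section

namespace Pool.Agent.Lib.MP_776403_ag.SD

namespace L3Aux

variable {N c : ℕ}

theorem mem_GS {d : Fin c → ℕ} {K : ℕ} {G : Fin c → Sx N} {y u : Vx N}
    (hu : u ∈ GS d K G y) :
    ∃ a : Fin c → ℂ, (∀ i, K < d i → a i = 0) ∧ u = ∑ i, a i • grad (G i) y := by
  unfold GS at hu
  induction hu using Submodule.span_induction with
  | mem z hz =>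
    obtain ⟨i, hi, rfl⟩ := hz
    refine ⟨fun j => if j = i then 1 else 0, fun j hj => ?_, ?_⟩
    · refine if_neg ?_
      rintro rfl
      omega
    · simp
  | zero => exact ⟨0, fun _ _ => rfl, by simp⟩
  | add x y _ _ hx hy =>
    obtain ⟨a, ha, rfl⟩ := hx
    obtain ⟨b, hb, rfl⟩ := hy
    refine ⟨a + b, fun i hi => ?_, ?_⟩
    · rw [Pi.add_apply, ha i hi, hb i hi, add_zero]
    · simp only [Pi.add_apply, add_smul, Finset.sum_add_distrib]
  | smul r x _ hx =>
    obtain ⟨a, ha, rfl⟩ := hx
    refine ⟨r • a, fun i hi => ?_, ?_⟩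
    · rw [Pi.smul_apply, ha i hi, smul_zero]
    · simp only [Pi.smul_apply, smul_assoc, Finset.smul_sum]

/-- elements of `GS` at a multiple of `y` -/
theorem mem_GS_smul {d : Fin c → ℕ} {K : ℕ} {G : Fin c → Sx N}
    (hG : ∀ i, d i ≤ K → (G i).IsHomogeneous (d i)) {y u : Vx N} {b : ℂ} (m : ℕ) (hb : b ≠ 0)
    (hu : b ^ m • u ∈ GS d K G (b • y)) :
    ∃ a : Fin c → ℂ, (∀ i, K < d i → a i = 0) ∧ u = ∑ i, a i • grad (G i) y := by
  obtain ⟨a, ha, hu⟩ := mem_GS hu
  have hbm : b ^ m ≠ 0 := pow_ne_zero m hb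
  refine ⟨fun i => (b ^ m)⁻¹ * (a i * b ^ (d i - 1)), fun i hi => ?_, ?_⟩
  · change (b ^ m)⁻¹ * (a i * b ^ (d i - 1)) = 0
    rw [ha i hi, zero_mul, mul_zero]
  · have h1 : u = (b ^ m)⁻¹ • (b ^ m • u) := by
      rw [smul_smul, inv_mul_cancel₀ hbm, one_smul]
    rw [h1, hu, Finset.smul_sum]
    refine Finset.sum_congr rfl fun i _ => ?_
    by_cases hi : d i ≤ K
    · rw [grad_smul_form (hG i hi), smul_smul, smul_smul, mul_assoc]
    · change (b ^ m)⁻¹ • a i • grad (G i) (b • y) =
        ((b ^ m)⁻¹ * (a i * b ^ (d i - 1))) • grad (G i) y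
      rw [ha i (not_le.1 hi), zero_smul, smul_zero, zero_mul, mul_zero, zero_smul]

theorem degLT_mono {m n : ℕ} (h : m ≤ n) {p : Polynomial ℂ} (hp : p ∈ Polynomial.degreeLT ℂ m) :
    p ∈ Polynomial.degreeLT ℂ n := Polynomial.degreeLT_mono h hp

/-- subtract a combination of the gradients -/
theorem sub_mem {d : Fin c → ℕ} {I : Ideal (Sx N)} {K n : ℕ} {G : Fin c → Sx N}
    (hD : Data I d K G) (hKn : K ≤ n) {x v : Vx N} (hl : IsLine I x v)
    {s : Fin (N + 1) → Polynomial ℂ} (hs : s ∈ Sec I x v n) {M : Fin c → Polynomial ℂ}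
    (hM : ∀ i, M i ∈ Polynomial.degreeLT ℂ (n + 1 - d i)) (hM0 : ∀ i, K < d i → M i = 0) :
    (fun k => s k - ∑ i, M i * gradL x v (G i) k) ∈ Sec I x v n := by
  have h1 : ∀ i, (fun k => M i * gradL x v (G i) k) ∈ Sec I x v n := by
    intro i
    by_cases hi : d i ≤ K
    · have h2 := gradL_mem_Sec hl (hD.hom i hi).1 (hD.hom i hi).2
      have h3 : M i ∈ Polynomial.degreeLT ℂ (n - d i + 1) := by
        have := hM i
        rwa [show n + 1 - d i = n - d i + 1 by omega] at this
      have h4 := Sec_mul h2 h3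
      rwa [show d i + (n - d i) = n by omega] at h4
    · have h2 : (fun k => M i * gradL x v (G i) k) = 0 := by
        funext k
        rw [hM0 i (not_le.1 hi), zero_mul]
        rfl
      rw [h2]
      exact Submodule.zero_mem _
  have h2 : (fun k => s k - ∑ i, M i * gradL x v (G i) k) =
      s - ∑ i, fun k => M i * gradL x v (G i) k := by
    funext k
    rw [Pi.sub_apply, Finset.sum_apply]
  rw [h2]
  exact Submodule.sub_mem _ hs (Submodule.sum_mem _ fun i _ => h1 i)

/-- the conclusion from a section of smaller degree -/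
theorem finish {d : Fin c → ℕ} {I : Ideal (Sx N)} {K n : ℕ} {G : Fin c → Sx N}
    (hKn : K ≤ n) (hnK : n ≤ K + 1) (hPL : PL I d n G) {x v : Vx N} (hl : IsLine I x v)
    {s : Fin (N + 1) → Polynomial ℂ} {M : Fin c → Polynomial ℂ}
    (hM : ∀ i, M i ∈ Polynomial.degreeLT ℂ (n + 1 - d i)) (hM0 : ∀ i, K < d i → M i = 0)
    {q : Polynomial ℂ} (hq : q.natDegree ≤ 1) {s' : Fin (N + 1) → Polynomial ℂ}
    (hs' : s' ∈ Sec I x v (n - 1)) (h : ∀ k, s k - ∑ i, M i * gradL x v (G i) k = q * s' k) :
    ∃ L : Fin c → Polynomial ℂ, (∀ i, L i ∈ Polynomial.degreeLT ℂ (n + 1 - d i)) ∧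
      (∀ i, K < d i → L i = 0) ∧ s = ∑ i, fun k => L i * gradL x v (G i) k := by
  obtain ⟨L', hL', hs⟩ := hPL x v hl s' hs'
  have hL0 : ∀ i, K < d i → L' i = 0 := by
    intro i hi
    have h1 := hL' i
    rw [show n - d i = 0 by omega, Polynomial.mem_degreeLT] at h1
    by_contra h0
    rw [Polynomial.degree_eq_natDegree h0] at h1
    have h2 : (L' i).natDegree < 0 := by exact_mod_cast h1
    omega
  refine ⟨fun i => M i + q * L' i, fun i => ?_, fun i hi => ?_, ?_⟩
  · refine Submodule.add_mem _ (hM i) ?_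
    by_cases h0 : q * L' i = 0
    · rw [h0]
      exact Submodule.zero_mem _
    have hq0 : q ≠ 0 := left_ne_zero_of_mul h0
    have hL0' : L' i ≠ 0 := right_ne_zero_of_mul h0
    have h1 := hL' i
    rw [Polynomial.mem_degreeLT, Polynomial.degree_eq_natDegree hL0'] at h1
    have h2 : (L' i).natDegree < n - d i := by exact_mod_cast h1
    rw [Polynomial.mem_degreeLT, Polynomial.degree_eq_natDegree h0,
      Polynomial.natDegree_mul hq0 hL0']
    have h3 : q.natDegree + (L' i).natDegree < n + 1 - d i := by omega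
    exact_mod_cast h3
  · change M i + q * L' i = 0
    rw [hM0 i hi, hL0 i hi, mul_zero, add_zero]
  · funext k
    have h1 := h k
    have h2 : s' k = ∑ i, L' i * gradL x v (G i) k := by
      rw [hs, Finset.sum_apply]
    rw [h2] at h1
    rw [Finset.sum_apply]
    have h3 : s k = ∑ i, M i * gradL x v (G i) k + q * ∑ i, L' i * gradL x v (G i) k := by
      rw [← h1]
      ring
    rw [h3, Finset.mul_sum, ← Finset.sum_add_distrib]
    exact Finset.sum_congr rfl fun i _ => by ring

end L3Aux

open L3Aux in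
theorem tL3 : S_L3 := by
  intro N c d I hyp K n G hK hn hD hPL x v hl s hs σ τ hστ hv
  have hKn : K ≤ n := by omega
  have hnK : n ≤ K + 1 := by omega
  have hn1 : 1 ≤ n := by omega
  have hG : ∀ i, d i ≤ K → (G i).IsHomogeneous (d i) := fun i hi => (hD.hom i hi).2
  by_cases hσ : σ = 0
  · -- the point at infinity
    subst hσ
    have hτ : τ ≠ 0 := by
      rcases hστ with h | h
      · exact absurd rfl h
      · exact h
    have h1 : hval s n 0 τ = τ ^ (n - 1) • fun k => (s k).coeff (n - 1) := by
      funext k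
      change ∑ j ∈ Finset.range n, (s k).coeff j * 0 ^ (n - 1 - j) * τ ^ j =
        τ ^ (n - 1) * (s k).coeff (n - 1)
      rw [Finset.sum_eq_single (n - 1)]
      · rw [Nat.sub_self, pow_zero]
        ring
      · intro j hj hne
        have hj' := Finset.mem_range.mp hj
        rw [zero_pow (show n - 1 - j ≠ 0 by omega)]
        ring
      · intro h
        exact absurd (Finset.mem_range.mpr (show n - 1 < n by omega)) h
    rw [h1, zero_smul, zero_add] at hv
    obtain ⟨a, ha, hu⟩ := mem_GS_smul hG (n - 1) hτ hv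
    have hM : ∀ i, Polynomial.C (a i) * Polynomial.X ^ (n - d i) ∈
        Polynomial.degreeLT ℂ (n + 1 - d i) := by
      intro i
      by_cases hi : d i ≤ K
      · rw [Polynomial.mem_degreeLT]
        refine lt_of_le_of_lt (Polynomial.degree_C_mul_X_pow_le _ _) ?_
        exact_mod_cast (show n - d i < n + 1 - d i by omega)
      · rw [ha i (not_le.1 hi), map_zero, zero_mul]
        exact Submodule.zero_mem _
    have hM0 : ∀ i, K < d i → Polynomial.C (a i) * Polynomial.X ^ (n - d i) = 0 := by
      intro i hi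
      rw [ha i hi, map_zero, zero_mul]
    have hs1 := sub_mem hD hKn hl hs hM hM0
    refine finish hKn hnK hPL hl hM hM0 (q := 1) (by simp)
      (s' := fun k => s k - ∑ i, Polynomial.C (a i) * Polynomial.X ^ (n - d i) *
        gradL x v (G i) k) (Sec_of_degree hs1 fun k => ?_) fun k => by rw [one_mul]
    have h2 := hs1.1 k
    have h3 : (s k - ∑ i, Polynomial.C (a i) * Polynomial.X ^ (n - d i) *
        gradL x v (G i) k).coeff (n - 1) = 0 := by
      rw [Polynomial.coeff_sub, Polynomial.finsetSum_coeff]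
      have h4 : (s k).coeff (n - 1) = ∑ i, a i * grad (G i) v k := by
        have := congrFun hu k
        rw [Finset.sum_apply] at this
        exact this
      rw [h4, sub_eq_zero]
      refine Finset.sum_congr rfl fun i _ => ?_
      by_cases hi : d i ≤ K
      · have hd := hyp.two_le i
        rw [mul_assoc, Polynomial.coeff_C_mul, Polynomial.coeff_X_pow_mul',
          if_pos (by omega), show n - 1 - (n - d i) = d i - 1 by omega]
        have h5 : (gradL x v (G i) k).coeff (d i - 1) = grad (G i) v k :=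
          congrFun (gradL_coeff_top (hG i hi) x v) k
        rw [h5]
      · rw [ha i (not_le.1 hi)]
        simp
    rw [Polynomial.mem_degreeLT] at h2 ⊢
    rw [Polynomial.degree_lt_iff_coeff_zero] at h2 ⊢
    intro m hm
    rcases Nat.lt_or_ge m n with hmn | hmn
    · rw [show m = n - 1 by omega]
      exact h3
    · exact h2 m hmn
  · -- a finite point
    have h1 : hval s n σ τ = σ ^ (n - 1) • fun k => (s k).eval (τ / σ) := by
      funext k
      have h2 := hs.1 k
      rw [show n = n - 1 + 1 by omega] at h2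
      have h3 := homog_val h2 hσ τ
      rw [show n - 1 + 1 = n by omega] at h3
      exact h3
    have h2 : σ • x + τ • v = σ • (x + (τ / σ) • v) := by
      rw [smul_add, smul_smul, mul_div_cancel₀ _ hσ]
    rw [h1, h2] at hv
    obtain ⟨a, ha, hu⟩ := mem_GS_smul hG (n - 1) hσ hv
    have hM : ∀ i, Polynomial.C (a i) ∈ Polynomial.degreeLT ℂ (n + 1 - d i) := by
      intro i
      by_cases hi : d i ≤ K
      · rw [Polynomial.mem_degreeLT]
        refine lt_of_le_of_lt Polynomial.degree_C_le ?_
        exact_mod_cast (show 0 < n + 1 - d i by omega)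
      · rw [ha i (not_le.1 hi), map_zero]
        exact Submodule.zero_mem _
    have hM0 : ∀ i, K < d i → Polynomial.C (a i) = 0 := by
      intro i hi
      rw [ha i hi, map_zero]
    have hs1 := sub_mem hD hKn hl hs hM hM0
    have hroot : ∀ k, (s k - ∑ i, Polynomial.C (a i) * gradL x v (G i) k).IsRoot (τ / σ) := by
      intro k
      rw [Polynomial.IsRoot.def, Polynomial.eval_sub, Polynomial.eval_finsetSum, sub_eq_zero]
      have h4 : (s k).eval (τ / σ) = ∑ i, a i * grad (G i) (x + (τ / σ) • v) k := by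
        have := congrFun hu k
        rw [Finset.sum_apply] at this
        exact this
      rw [h4]
      refine Finset.sum_congr rfl fun i _ => ?_
      rw [Polynomial.eval_mul, Polynomial.eval_C]
      have h5 : (gradL x v (G i) k).eval (τ / σ) = grad (G i) (x + (τ / σ) • v) k :=
        congrFun (gradL_eval x v (G i) (τ / σ)) k
      rw [h5]
    have hdiv : ∀ k, s k - ∑ i, Polynomial.C (a i) * gradL x v (G i) k =
        (Polynomial.X - Polynomial.C (τ / σ)) *
          ((s k - ∑ i, Polynomial.C (a i) * gradL x v (G i) k) /ₘ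
            (Polynomial.X - Polynomial.C (τ / σ))) := fun k =>
      (Polynomial.mul_divByMonic_eq_iff_isRoot.2 (hroot k)).symm
    refine finish hKn hnK hPL hl hM hM0 (q := Polynomial.X - Polynomial.C (τ / σ)) (by
      rw [Polynomial.natDegree_X_sub_C]) (s' := fun k =>
        (s k - ∑ i, Polynomial.C (a i) * gradL x v (G i) k) /ₘ
          (Polynomial.X - Polynomial.C (τ / σ)))
      (Sec_div hs1 (Polynomial.X_sub_C_ne_zero _) hdiv fun k => ?_) hdiv
    have h6 : s k - ∑ i, Polynomial.C (a i) * gradL x v (G i) k ∈ Polynomial.degreeLT ℂ n :=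
      hs1.1 k
    by_cases h0 : (s k - ∑ i, Polynomial.C (a i) * gradL x v (G i) k) /ₘ
        (Polynomial.X - Polynomial.C (τ / σ)) = 0
    · rw [h0]
      exact Submodule.zero_mem _
    · have h7 : s k - ∑ i, Polynomial.C (a i) * gradL x v (G i) k ≠ 0 := by
        intro h8
        rw [h8, Polynomial.zero_divByMonic] at h0
        exact h0 rfl
      rw [Polynomial.mem_degreeLT, Polynomial.degree_eq_natDegree h7] at h6
      have h8 : (s k - ∑ i, Polynomial.C (a i) * gradL x v (G i) k).natDegree < n := by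
        exact_mod_cast h6
      have h9 := congrArg Polynomial.natDegree (hdiv k)
      rw [Polynomial.natDegree_mul (Polynomial.X_sub_C_ne_zero _) h0,
        Polynomial.natDegree_X_sub_C] at h9
      rw [Polynomial.mem_degreeLT, Polynomial.degree_eq_natDegree h0]
      have h10 : ((s k - ∑ i, Polynomial.C (a i) * gradL x v (G i) k) /ₘ
        (Polynomial.X - Polynomial.C (τ / σ))).natDegree < n - 1 := by omega
      exact_mod_cast h10

end Pool.Agent.Lib.MP_776403_ag.SD
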