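import Pool.Agent.Lib.MP_776403_ag.SD.SpecB

/-!
# Minor: independent vectors have a nonzero maximal minor
-/

set_option autoImplicit false

open MvPolynomial

noncomputable section

namespace Pool.Agent.Lib.MP_776403_ag.SD

theorem tMinor : S_Minor := by
  intro ι _ _ n v hv
  have h1 : LinearIndependent ℂ (Matrix.of v).row := hv
  have h2 := h1.rank_matrix
  rw [Matrix.rank_eq_finrank_span_cols] at h2
  obtain ⟨f, hf, -, hfi⟩ := Submodule.exists_fun_fin_finrank_span_eq ℂ
    (Set.range (Matrix.of v).col)
  choose b hb using hf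
  let e : ι ≃ Fin (Module.finrank ℂ (Submodule.span ℂ (Set.range (Matrix.of v).col))) :=
    Fintype.equivOfCardEq (by rw [h2, Fintype.card_fin])
  refine ⟨fun j => b (e j), ?_⟩
  have h3 : LinearIndependent ℂ (Matrix.of fun i j => v i (b (e j)) : Matrix ι ι ℂ).col := by
    have h4 := hfi.comp e e.injective
    have h6 : (Matrix.of fun i j => v i (b (e j)) : Matrix ι ι ℂ).col = f ∘ e := by
      funext j
      rw [Function.comp_apply, ← hb (e j)]
      rfl
    rw [h6]
    exact h4
  have h5 := Matrix.linearIndependent_cols_iff_isUnit.1 h3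
  exact ((Matrix.isUnit_iff_isUnit_det _).1 h5).ne_zero

end Pool.Agent.Lib.MP_776403_ag.SD
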