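import Pool.Agent.Lib.MP_776403_ag.SD.SpecB

/-!
# THEOREM SD, part B: monotonicity of the dimension condition
-/

set_option autoImplicit false

open MvPolynomial

noncomputable section

namespace Pool.Agent.Lib.MP_776403_ag.SD

theorem tMono : S_Mono := by
  intro σ P D D' h hD
  obtain ⟨i, hi⟩ := hD
  exact ⟨fun k => i (Fin.castLE h k), hi.comp (Fin.castLE h) (Fin.castLE_injective h)⟩

end Pool.Agent.Lib.MP_776403_ag.SD
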