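import Pool.Agent.Lib.MP_776403_ag.SD.SpecB
import Pool.Agent.Lib.MP_776403_ag.SD.Bas

/-!
# THEOREM SD, `S_Null`: Nullstellensatz for homogeneous primes
-/

set_option autoImplicit false

open MvPolynomial

noncomputable section

namespace Pool.Agent.Lib.MP_776403_ag.SD

private theorem null_aux {N : ℕ} {P : Ideal (Sx N)} (hP : P.IsPrime) {F : Sx N}
    (h : ∀ z ∈ zer P, eval z F = 0) : F ∈ P := by
  have h1 : vanishingIdeal ℂ (zeroLocus ℂ P) = P := IsPrime.vanishingIdeal_zeroLocus P
  rw [← h1, mem_vanishingIdeal_iff]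
  intro z hz
  rw [mem_zeroLocus_iff] at hz
  have h2 : z ∈ zer P := by
    intro G hG
    have h3 := hz G hG
    rwa [aeval_eq_eval] at h3
  have h4 := h z h2
  rwa [aeval_eq_eval]

/-- **Nullstellensatz.** -/
theorem tNull : S_Null := by
  intro N P hP _
  refine ⟨fun F h => null_aux hP h, ?_⟩
  rintro ⟨z0, hz0, hz0'⟩ F m hF h
  refine null_aux hP fun z hz => ?_
  by_cases hz' : z = 0
  · subst hz'
    rcases Nat.eq_zero_or_pos m with hm | hm
    · subst hm
      have h1 := eval_smul_form hF 0 z0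
      rw [zero_smul, pow_zero, one_mul] at h1
      rw [h1]
      exact h z0 hz0 hz0'
    · have h1 := eval_smul_form hF 0 z0
      rw [zero_smul, zero_pow hm.ne', zero_mul] at h1
      exact h1
  · exact h z hz hz'

end Pool.Agent.Lib.MP_776403_ag.SD
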