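import Pool.Agent.Lib.MP_776403_ag.SD.SpecB

/-!
# THEOREM SD, Pencil: the rank in a pencil of linear maps
-/

set_option autoImplicit false

open MvPolynomial

noncomputable section

namespace Pool.Agent.Lib.MP_776403_ag.SD

theorem tPencil : S_Pencil := by
  intro V W _ _ _ _ U _ f g
  set r := Module.finrank ℂ (U.map f) with hr
  let b := Module.finBasis ℂ (U.map f)
  have hu : ∀ j : Fin r, ∃ u : V, u ∈ U ∧ f u = (b j : W) := by
    intro j
    obtain ⟨u, hu, he⟩ := Submodule.mem_map.1 (b j).2
    exact ⟨u, hu, he⟩
  choose u huU hfu using hu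
  have hli : LinearIndependent ℂ (fun j => (b j : W)) :=
    b.linearIndependent.map' (U.map f).subtype (Submodule.ker_subtype _)
  have hinj : LinearMap.ker (Fintype.linearCombination ℂ (fun j => (b j : W))) = ⊥ := by
    rw [LinearMap.ker_eq_bot]
    exact hli.fintypeLinearCombination_injective
  obtain ⟨G, hG⟩ := LinearMap.exists_leftInverse_of_injective _ hinj
  have hGb : ∀ j, G (b j : W) = Pi.single j 1 := by
    intro j
    have h := LinearMap.congr_fun hG (Pi.single j 1)
    rw [LinearMap.comp_apply, LinearMap.id_apply, Fintype.linearCombination_apply_single, one_smul] at h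
    exact h
  let B : Matrix (Fin r) (Fin r) ℂ := Matrix.of fun i j => G (g (u j)) i
  let P : Matrix (Fin r) (Fin r) (Polynomial ℂ) := 1 + (Polynomial.X : Polynomial ℂ) • B.map Polynomial.C
  have hev : ∀ t : ℂ, Polynomial.eval t P.det = (1 + t • B).det := by
    intro t
    have h := RingHom.map_det (Polynomial.evalRingHom t) P
    rw [Polynomial.coe_evalRingHom] at h
    rw [h]
    congr 1
    ext i j
    show Polynomial.eval t (P i j) = _
    have h1 : P i j = (1 : Matrix (Fin r) (Fin r) (Polynomial ℂ)) i j + Polynomial.X * Polynomial.C (B i j) := rfl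
    rw [h1, Polynomial.eval_add, Polynomial.eval_mul, Polynomial.eval_X, Polynomial.eval_C, Matrix.add_apply,
      Matrix.smul_apply, smul_eq_mul, Matrix.one_apply, Matrix.one_apply]
    split_ifs
    · rw [Polynomial.eval_one]
    · rw [Polynomial.eval_zero]
  have hP0 : P.det ≠ 0 := by
    intro h
    have h1 := hev 0
    rw [h, Polynomial.eval_zero, zero_smul, add_zero, Matrix.det_one] at h1
    exact zero_ne_one h1
  refine (P.det.rootSet_finite ℂ).subset ?_
  intro t ht
  rw [Polynomial.mem_rootSet]
  refine ⟨hP0, ?_⟩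
  rw [Polynomial.coe_aeval_eq_eval, hev]
  by_contra hne
  refine absurd ht ?_
  rw [Set.mem_setOf_eq, not_lt]
  have hmem : ∀ j, (f + t • g) (u j) ∈ U.map (f + t • g) := fun j => Submodule.mem_map_of_mem (huU j)
  have hGu : ∀ i j, G ((f + t • g) (u j)) i = (1 + t • B) i j := by
    intro i j
    rw [LinearMap.add_apply, LinearMap.smul_apply, map_add, map_smul, hfu, hGb, Matrix.add_apply,
      Matrix.smul_apply, Pi.add_apply, Pi.smul_apply, Pi.single_apply, Matrix.one_apply]
    rfl
  have hlin : LinearIndependent ℂ (fun j => (⟨(f + t • g) (u j), hmem j⟩ : U.map (f + t • g))) := by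
    rw [Fintype.linearIndependent_iff]
    intro c hc
    have h1 : ∑ j, c j • (f + t • g) (u j) = 0 := by
      have h2 := congrArg (fun x : U.map (f + t • g) => (x : W)) hc
      rw [AddSubmonoidClass.coe_finsetSum] at h2
      exact h2
    have h2 : (1 + t • B).mulVec c = 0 := by
      funext i
      have h3 := congrFun (congrArg G h1) i
      rw [map_sum, map_zero, Finset.sum_apply] at h3
      rw [Matrix.mulVec, dotProduct]
      rw [Pi.zero_apply] at h3 ⊢
      rw [← h3]
      refine Finset.sum_congr rfl fun j _ => ?_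
      rw [map_smul, Pi.smul_apply, hGu, smul_eq_mul, mul_comm]
    have h4 := Matrix.eq_zero_of_mulVec_eq_zero hne h2
    intro j
    exact congrFun h4 j
  have hfd : FiniteDimensional ℂ (U.map (f + t • g)) := inferInstance
  have h5 := hlin.fintype_card_le_finrank
  rwa [Fintype.card_fin] at h5

end Pool.Agent.Lib.MP_776403_ag.SD
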