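import Pool.Agent.Lib.MP_776403_ag.SD.SpecB

/-!
# THEOREM SD, (RegDim): forms of degree `k` give independent regular functions
-/

set_option autoImplicit false

open MvPolynomial

noncomputable section

namespace Pool.Agent.Lib.MP_776403_ag.SD

theorem tRegDim : S_Null → S_Ne → S_RegDim := by
  classical
  intro hNull hPt N c d I hI k
  by_cases hfin : Module.Finite ℂ (gr I k)
  · let b := Module.finBasis ℂ (gr I k)
    have hb : ∀ i, ∃ P : Sx N, P.IsHomogeneous k ∧
        Ideal.Quotient.mk I P = ((b i : gr I k) : Sx N ⧸ I) := by
      intro i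
      obtain ⟨P, hP, hPb⟩ := Submodule.mem_map.1 (b i).2
      exact ⟨P, (mem_homogeneousSubmodule k P).1 hP, hPb⟩
    choose P hP hPb using hb
    refine ⟨P, hP, fun i y => if y ∈ zer I ∧ y ≠ 0 then eval y (P i) else 0, ?_, ?_, ?_⟩
    · intro i
      refine ⟨fun y hy => ?_, fun y hy hy0 => ?_⟩
      · refine if_neg ?_
        rintro ⟨h1, h2⟩
        rcases hy with h | h
        · exact h h1
        · exact h2 h
      · refine ⟨P i, 1, 0, ?_, isHomogeneous_one _ _, ?_, ?_⟩
        · rw [zero_add]
          exact hP i
        · rw [map_one]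
          exact one_ne_zero
        · intro z hz hz0
          show (if z ∈ zer I ∧ z ≠ 0 then eval z (P i) else 0) * eval z 1 = eval z (P i)
          rw [if_pos ⟨hz, hz0⟩, map_one, mul_one]
    · rw [Fintype.linearIndependent_iff]
      intro a ha
      have hF : (∑ i, C (a i) * P i) ∈ I := by
        refine (hNull N I hI.prime hI.hom).2 (hPt N c d I hI) _ k ?_ ?_
        · refine IsHomogeneous.sum _ _ _ fun i _ => ?_
          have h := (isHomogeneous_C (Fin (N + 1)) (a i)).mul (hP i)
          rwa [zero_add] at h
        · intro z hz hz0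
          have h := congrFun ha z
          rw [Finset.sum_apply] at h
          rw [map_sum]
          refine Eq.trans (Finset.sum_congr rfl fun i _ => ?_) h
          show eval z (C (a i) * P i) =
            a i • (if z ∈ zer I ∧ z ≠ 0 then eval z (P i) else 0)
          rw [if_pos ⟨hz, hz0⟩, map_mul, eval_C, smul_eq_mul]
      have h0 : ∑ i, a i • b i = 0 := by
        apply Subtype.ext
        have h1 := Ideal.Quotient.eq_zero_iff_mem.2 hF
        rw [map_sum] at h1
        rw [Submodule.coe_zero, ← h1, AddSubmonoidClass.coe_finsetSum]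
        refine Finset.sum_congr rfl fun i _ => ?_
        rw [Submodule.coe_smul, ← hPb i, map_mul]
        exact Algebra.smul_def (a i) (Ideal.Quotient.mk I (P i))
      exact (Fintype.linearIndependent_iff.1 b.linearIndependent) a h0
    · intro i y hy hy0
      exact if_pos ⟨hy, hy0⟩
  · have h0 : Module.finrank ℂ (gr I k) = 0 := Module.finrank_of_not_finite hfin
    rw [h0]
    refine ⟨fun i => i.elim0, fun i => i.elim0, fun i => i.elim0, fun i => i.elim0, ?_,
      fun i => i.elim0⟩
    exact linearIndependent_empty_type

end Pool.Agent.Lib.MP_776403_ag.SD
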