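import Pool.Agent.Lib.MP_776403_ag.SD.SpecB

/-!
# THEOREM SD, module SecVal (helper26): values of sections on lines
-/

set_option autoImplicit false

open MvPolynomial

noncomputable section

namespace Pool.Agent.Lib.MP_776403_ag.SD

variable {N : ℕ}

/-- homogenization -/
private def hm (p : Polynomial ℂ) (m : ℕ) (σ τ : ℂ) : ℂ :=
  ∑ j ∈ Finset.range (m + 1), p.coeff j * σ ^ (m - j) * τ ^ j

private theorem hm_zero (p : Polynomial ℂ) (m : ℕ) (τ : ℂ) : hm p m 0 τ = p.coeff m * τ ^ m := by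
  unfold hm
  rw [Finset.sum_eq_single m]
  · simp
  · intro j hj hne
    have : m - j ≠ 0 := by
      have := Finset.mem_range.mp hj
      lia
    rw [zero_pow this]
    ring
  · intro h
    exact absurd (Finset.mem_range.mpr (Nat.lt_succ_self m)) h

private theorem natDegree_le {p : Polynomial ℂ} {m : ℕ}
    (hp : p ∈ Polynomial.degreeLT ℂ (m + 1)) : p.natDegree ≤ m := by
  rw [Polynomial.mem_degreeLT] at hp
  have h : p.degree ≤ m := by
    by_cases h0 : p = 0
    · rw [h0, Polynomial.degree_zero]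
      exact bot_le
    · rw [Polynomial.degree_eq_natDegree h0] at hp ⊢
      have h1 : p.natDegree < m + 1 := by exact_mod_cast hp
      exact_mod_cast Nat.lt_succ_iff.mp h1
  exact Polynomial.natDegree_le_iff_degree_le.mpr h

private theorem mem_of_natDegree {p : Polynomial ℂ} {m : ℕ} (hp : p.natDegree ≤ m) :
    p ∈ Polynomial.degreeLT ℂ (m + 1) := by
  rw [Polynomial.mem_degreeLT]
  refine lt_of_le_of_lt Polynomial.degree_le_natDegree ?_
  exact_mod_cast Nat.lt_succ_iff.mpr hp

private theorem hm_mul {a b : Polynomial ℂ} {k m : ℕ} (ha : a ∈ Polynomial.degreeLT ℂ (k + 1))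
    (hb : b ∈ Polynomial.degreeLT ℂ (m + 1)) (σ τ : ℂ) :
    hm a k σ τ * hm b m σ τ = hm (a * b) (k + m) σ τ := by
  by_cases hσ : σ = 0
  · subst hσ
    rw [hm_zero, hm_zero, hm_zero,
      Polynomial.coeff_mul_add_eq_of_natDegree_le (natDegree_le ha) (natDegree_le hb), pow_add]
    ring
  · have hab : a * b ∈ Polynomial.degreeLT ℂ (k + m + 1) :=
      mem_of_natDegree (Polynomial.natDegree_mul_le_of_le (natDegree_le ha) (natDegree_le hb))
    have h1 : hm a k σ τ = σ ^ k * a.eval (τ / σ) := homog_val ha hσ τ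
    have h2 : hm b m σ τ = σ ^ m * b.eval (τ / σ) := homog_val hb hσ τ
    have h3 : hm (a * b) (k + m) σ τ = σ ^ (k + m) * (a * b).eval (τ / σ) := homog_val hab hσ τ
    rw [h1, h2, h3, Polynomial.eval_mul, pow_add]
    ring

private theorem hm_sum {ι : Type} (s : Finset ι) (p : ι → Polynomial ℂ) (m : ℕ) (σ τ : ℂ) :
    hm (∑ i ∈ s, p i) m σ τ = ∑ i ∈ s, hm (p i) m σ τ := by
  unfold hm
  rw [Finset.sum_comm]
  refine Finset.sum_congr rfl fun j _ => ?_
  rw [Polynomial.finsetSum_coeff, Finset.sum_mul, Finset.sum_mul]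

private theorem key {x v : Vx N} {k m : ℕ} {s : Fin (N + 1) → Polynomial ℂ}
    (hs : ∀ i, s i ∈ Polynomial.degreeLT ℂ (k + 1)) {w : Fin (N + 1) → Sx N}
    (hw : ∀ i, (w i).IsHomogeneous m) (σ τ : ℂ) :
    ∑ i, hval s (k + 1) σ τ i * eval (σ • x + τ • v) (w i) =
      hm (∑ i, s i * lin x v (w i)) (k + m) σ τ := by
  rw [hm_sum]
  refine Finset.sum_congr rfl fun i _ => ?_
  rw [← hm_mul (hs i) (lin_mem (hw i) x v) σ τ]
  have h1 : hm (lin x v (w i)) m σ τ = eval (σ • x + τ • v) (w i) := lin_hom (hw i) x v σ τ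
  rw [h1]
  rfl

private theorem orth {I : Ideal (Sx N)} {y : Vx N} (hy : y ∈ zer I) {w : Fin (N + 1) → Sx N}
    (hw : w ∈ TF I) {u : Vx N} (hu : u ∈ CN I y) : ∑ i, u i * eval y (w i) = 0 := by
  refine Submodule.span_induction (p := fun u _ => ∑ i, u i * eval y (w i) = 0) ?_ ?_ ?_ ?_ hu
  · rintro _ ⟨F, hF, rfl⟩
    have h := hy _ (hw F hF)
    rw [map_sum] at h
    rw [← h]
    refine Finset.sum_congr rfl fun i _ => ?_
    rw [map_mul]
    rfl
  · simp
  · intro a b _ _ ha hb
    simp only [Pi.add_apply, add_mul, Finset.sum_add_distrib, ha, hb, add_zero]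
  · intro c a _ ha
    simp only [Pi.smul_apply, smul_eq_mul, mul_assoc, ← Finset.mul_sum, ha, mul_zero]

theorem tSecVal : S_Perp → S_SecVal := by
  intro hP N c I hI hH hS x v hl n s hs
  rcases n with _ | k
  · have h0 : s = 0 := by
      funext i
      have h1 := hs i
      rw [Polynomial.mem_degreeLT] at h1
      by_contra hne
      rw [Polynomial.degree_eq_natDegree hne] at h1
      have h3 : (s i).natDegree < 0 := by exact_mod_cast h1
      exact Nat.not_lt_zero _ h3
    subst h0
    refine ⟨fun _ σ τ _ => ?_, fun _ => Submodule.zero_mem _⟩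
    have h1 : hval (0 : Fin (N + 1) → Polynomial ℂ) 0 σ τ = 0 := by
      funext i
      simp [hval]
    rw [h1]
    exact Submodule.zero_mem _
  constructor
  · intro hSec σ τ hst
    have hy : σ • x + τ • v ∈ zer I := hl.2 σ τ
    have hy0 : σ • x + τ • v ≠ 0 := line_ne_zero hl.1 hst
    refine (hP N c I hI hH hS _ hy hy0).2.2.2 _ fun w hw m hm' => ?_
    rw [key hs hm', hSec.2 w hw m hm']
    simp [hm]
  · intro hval'
    refine ⟨hs, fun w hw m hm' => poly_ext fun t => ?_⟩
    have h1 := hval' 1 t (Or.inl one_ne_zero)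
    have hy : (1 : ℂ) • x + t • v ∈ zer I := hl.2 1 t
    have h2 := orth hy hw h1
    rw [key hs hm'] at h2
    have hp : (∑ i, s i * lin x v (w i)) ∈ Polynomial.degreeLT ℂ (k + m + 1) := by
      refine Submodule.sum_mem _ fun i _ => ?_
      exact mem_of_natDegree (Polynomial.natDegree_mul_le_of_le (natDegree_le (hs i))
        (natDegree_le (lin_mem (hm' i) x v)))
    have h3 : hm (∑ i, s i * lin x v (w i)) (k + m) 1 t =
        1 ^ (k + m) * (∑ i, s i * lin x v (w i)).eval (t / 1) := homog_val hp one_ne_zero t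
    rw [h3, one_pow, one_mul, div_one] at h2
    rw [h2, Polynomial.eval_zero]

end Pool.Agent.Lib.MP_776403_ag.SD
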