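import Pool.Agent.Lib.MP_776403_ag.SD.SpecD

/-!
# THEOREM SD, module TB: transcendence bases from generators
-/

set_option autoImplicit false

open MvPolynomial

noncomputable section

namespace Pool.Agent.Lib.MP_776403_ag.SD

theorem tTB : S_TB := by
  intro σ _ R _ _ _ x halg D y hy
  have : FaithfulSMul ℂ R :=
    (faithfulSMul_iff_algebraMap_injective ℂ R).2 (algebraMap ℂ R).injective
  obtain ⟨t, hts, ht⟩ := exists_isTranscendenceBasis_subset (R := ℂ) (Set.range x)
  have hfin : t.Finite := (Set.finite_range x).subset hts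
  have : Fintype t := hfin.fintype
  have h1 : Cardinal.mk (Fin D) ≤ Cardinal.mk t := by
    rw [ht.cardinalMk_eq_trdeg]
    exact hy.cardinalMk_le_trdeg
  rw [Cardinal.mk_fintype, Cardinal.mk_fintype, Nat.cast_le] at h1
  obtain ⟨f⟩ := Function.Embedding.nonempty_of_card_le h1
  have h2 : ∀ k : Fin D, ∃ s : σ, x s = (f k : R) := fun k => hts (f k).2
  choose i hi using h2
  refine ⟨i, ?_⟩
  have h3 : x ∘ i = ((↑) : t → R) ∘ f := funext hi
  rw [h3]
  exact ht.1.comp f f.injective

end Pool.Agent.Lib.MP_776403_ag.SD
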