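import Pool.Agent.Lib.MP_776403_ag.SD.B
import Pool.Agent.Lib.MP_776403_ag.SD.B1
import Pool.Agent.Lib.MP_776403_ag.SD.B1K
import Pool.Agent.Lib.MP_776403_ag.SD.B2
import Pool.Agent.Lib.MP_776403_ag.SD.B3
import Pool.Agent.Lib.MP_776403_ag.SD.B4
import Pool.Agent.Lib.MP_776403_ag.SD.B5
import Pool.Agent.Lib.MP_776403_ag.SD.L3
import Pool.Agent.Lib.MP_776403_ag.SD.L3pp
import Pool.Agent.Lib.MP_776403_ag.SD.L1
import Pool.Agent.Lib.MP_776403_ag.SD.Kos1
import Pool.Agent.Lib.MP_776403_ag.SD.Kos2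
import Pool.Agent.Lib.MP_776403_ag.SD.KosI
import Pool.Agent.Lib.MP_776403_ag.SD.KosM
import Pool.Agent.Lib.MP_776403_ag.SD.KosR
import Pool.Agent.Lib.MP_776403_ag.SD.RegDim
import Pool.Agent.Lib.MP_776403_ag.SD.W
import Pool.Agent.Lib.MP_776403_ag.SD.Null
import Pool.Agent.Lib.MP_776403_ag.SD.Pt
import Pool.Agent.Lib.MP_776403_ag.SD.D1
import Pool.Agent.Lib.MP_776403_ag.SD.D2a
import Pool.Agent.Lib.MP_776403_ag.SD.D2b
import Pool.Agent.Lib.MP_776403_ag.SD.D2c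
import Pool.Agent.Lib.MP_776403_ag.SD.D3
import Pool.Agent.Lib.MP_776403_ag.SD.D5
import Pool.Agent.Lib.MP_776403_ag.SD.D5a
import Pool.Agent.Lib.MP_776403_ag.SD.D5b
import Pool.Agent.Lib.MP_776403_ag.SD.D6p
import Pool.Agent.Lib.MP_776403_ag.SD.DetHom
import Pool.Agent.Lib.MP_776403_ag.SD.TB
import Pool.Agent.Lib.MP_776403_ag.SD.Krull
import Pool.Agent.Lib.MP_776403_ag.SD.Frac
import Pool.Agent.Lib.MP_776403_ag.SD.SecVal
import Pool.Agent.Lib.MP_776403_ag.SD.Ind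
import Pool.Agent.Lib.MP_776403_ag.SD.Minor
import Pool.Agent.Lib.MP_776403_ag.SD.Mono
import Pool.Agent.Lib.MP_776403_ag.SD.Pencil

/-!
# THEOREM SD: step B and the dimension theory assembled
-/

set_option autoImplicit false

open MvPolynomial

noncomputable section

namespace Pool.Agent.Lib.MP_776403_ag.SD

theorem bKrull : S_Krull := tKrull tD2a (tD2b tTB) tD2c

theorem bFrac : S_Frac := tFrac tTB (tD3 tTB)

theorem bMeet : S_Meet := fun N P P' D D' h1 h2 h3 h4 h5 h6 h7 =>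
  tD5 tTB tD5a (tD5b tD6p) N P P' h1 h2 h3 h4 D D' h5 h6 h7

theorem bB1K : S_B1K := tB1K (tB1 (tKosR tPencil tKos1 tKos2) tKosI tKosM)

theorem bRegDim : S_RegDim := tRegDim tNull (tNe tNull)

theorem bB3 : S_B3 := tB3 (tB2 bB1K bRegDim) tNull (tNe tNull) tMinor tDetHom

/-- Step B, from the variety of lines through a point and Lemma N. -/
theorem bStepB (hLine : S_Line) (hN : S_N) : S_B :=
  have h4 : S_B4 := tB4 bB3 (tL3pp tL3) hLine bMeet
  tB (tW bB1K bRegDim) h4 (tB5 h4 hN hLine (tNe tNull) tMono)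

/-- THEOREM SD, from step A, the variety of lines through a point and Lemma N. -/
theorem bMain (hA : S_A) (hLine : S_Line) (hN : S_N) : S_SD := tInd hA (bStepB hLine hN)

end Pool.Agent.Lib.MP_776403_ag.SD
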