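import Pool.Agent.Lib.MP_776403_ag.SD.Iface

/-!
# THEOREM SD, part E (helper7): the number of equations for lines with a section

Section 4 of note 4385.  `x` is a point of `X`, `v` a variable vector, `s(t) = ξ + ∑ t^(j+1) s_j`
with variable vectors `s_j`, `j < k`.  `J1` = conditions for the line `x + t v` to be in `X`,
`J2` = conditions for `s(t)` to be conormal at `x + t v`.

NOTATION in the docstrings: at a point `x` of `X` we have (`Loc`) forms `F_1, ..., F_c ∈ I` and `c`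
coordinates `B b` such that the minor `Δ = det (∂_(B b) F_i)` is not zero at `x`, and
`h I ⊆ (F_1, ..., F_c)`, `h(x) ≠ 0`.  `D = lin Δ ∈ ℂ[t]`, `lin F = F(x + t v0)`.
-/

set_option autoImplicit false

open MvPolynomial

noncomputable section

namespace Pool.Agent.Lib.MP_776403_ag.SD

variable {N : ℕ}

/-! ## Local equations and Cramer fields -/

/-- Local equations of `X` at its point `x`. -/
structure Loc (I : Ideal (Sx N)) (x : Vx N) (c : ℕ) where
  /-- the equations -/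
  F : Fin c → Sx N
  /-- their degrees -/
  f : Fin c → ℕ
  /-- `c` coordinates -/
  B : Fin c → Fin (N + 1)
  /-- a denominator -/
  h : Sx N
  memx : x ∈ zer I
  nex : x ≠ 0
  memF : ∀ i, F i ∈ I
  homF : ∀ i, (F i).IsHomogeneous (f i)
  injB : Function.Injective B
  hx : eval x h ≠ 0
  mul : ∀ G ∈ I, h * G ∈ Ideal.span (Set.range F)
  detx : eval x (Matrix.det (Matrix.of fun i b => pderiv (B b) (F i))) ≠ 0

section

variable {I : Ideal (Sx N)} {x : Vx N} {c : ℕ} (L : Loc I x c)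

/-- The Jacobian matrix `(∂_(B b) F_i)`. -/
def Loc.M : Matrix (Fin c) (Fin c) (Sx N) := Matrix.of fun i b => pderiv (L.B b) (L.F i)

/-- The minor `Δ`. -/
def Loc.dt : Sx N := L.M.det

/-- The degree of `Δ`. -/
def Loc.dg : ℕ := ∑ i, (L.f i - 1)

/-- The Cramer coefficients: `coef b j = ∑_i adj(M)_(b i) ∂_j F_i`. -/
def Loc.coef (b : Fin c) (j : Fin (N + 1)) : Sx N := ∑ i, L.M.adjugate b i * pderiv j (L.F i)

/-- The Cramer field `Δ e_j - ∑_b coef b j e_(B b)`. -/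
def Loc.cr (j l : Fin (N + 1)) : Sx N :=
  (if l = j then L.dt else 0) - ∑ b, if L.B b = l then L.coef b j else 0

/-- The coordinates outside `B`. -/
abbrev Loc.Bc : Type := {j : Fin (N + 1) // j ∉ Set.range L.B}

instance Loc.fintypeBc : Fintype L.Bc := Fintype.ofFinite _

/-- `v0` is in good position: `Δ(v0) ≠ 0`. -/
def Loc.good (v0 : Vx N) : Prop := eval v0 L.dt ≠ 0

end

/-- PROOF: `Smooth` at `x` gives `F, h`; the gradients at `x` are independent, so some `c × c` minor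
(columns `B`) of the Jacobian matrix is not zero at `x`. -/
def S_Loc : Prop :=
  ∀ (N c : ℕ) (I : Ideal (Sx N)), Smooth I c → ∀ x ∈ zer I, x ≠ 0 → Nonempty (Loc I x c)

/-- PROOF: `Δ` is homogeneous of degree `dg`; `μ ↦ Δ(v + μ x)` is a polynomial function whose
coefficient of `μ ^ dg` is `Δ(x) ≠ 0` (`Δ(v + μ x) = μ^dg Δ(x + v/μ)` for `μ ≠ 0`, and
`τ ↦ Δ(x + τ v)` is a polynomial not zero at `τ = 0`, so not zero for some small `τ = 1/μ`). -/
def S_Good : Prop :=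
  ∀ (N c : ℕ) (I : Ideal (Sx N)) (x v : Vx N) (L : Loc I x c), ∃ μ : ℂ, L.good (v + μ • x)

/-- PROOF: Leibniz expansion; `∂_j F_i` is homogeneous of degree `f i - 1` (if `f i = 0` then
`∂_j F_i = 0` and so is `Δ`, contradiction to `detx` if `c > 0`; in all cases the entries of row
`i` are homogeneous of degree `f i - 1`).  `adj(M)_(b i)` is homogeneous of degree
`dg - (f i - 1)`.  `lin Δ` has degree `≤ dg` with coefficient `Δ(v0)` at `dg`, and constant
coefficient `Δ(x)`. -/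
def S_Hom : Prop :=
  ∀ (N c : ℕ) (I : Ideal (Sx N)) (x v0 : Vx N) (L : Loc I x c),
    L.dt.IsHomogeneous L.dg ∧ (∀ b j, (L.coef b j).IsHomogeneous L.dg) ∧
    (∀ j l, (L.cr j l).IsHomogeneous L.dg) ∧
    (∀ b i, (lin x v0 (L.M.adjugate b i)).natDegree ≤ L.dg - (L.f i - 1)) ∧
    (∀ i, L.f i - 1 ≤ L.dg) ∧
    (lin x v0 L.dt).coeff 0 ≠ 0 ∧ (L.good v0 → (lin x v0 L.dt).natDegree = L.dg)

/-- PROOF: `(lin x v F)` evaluated at `t` is `F(x + t v)`; for a form `F` of degree `m` it has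
degree `≤ m` and coefficient `F(v)` at `m`; if the line `span (x, v)` is in `zer I` then
`lin x v F = 0` for `F ∈ I`. -/
def S_LinB : Prop :=
  ∀ (N : ℕ) (x v : Vx N) (F : Sx N),
    (∀ t : ℂ, (lin x v F).eval t = eval (x + t • v) F) ∧
    (∀ m : ℕ, F.IsHomogeneous m → (lin x v F).natDegree ≤ m ∧ (lin x v F).coeff m = eval v F ∧
      ∀ σ τ : ℂ, eval (σ • x + τ • v) F =
        ∑ j ∈ Finset.range (m + 1), (lin x v F).coeff j * σ ^ (m - j) * τ ^ j) ∧
    ∀ I : Ideal (Sx N), (∀ s t : ℂ, s • x + t • v ∈ zer I) → F ∈ I → lin x v F = 0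

/-- PROOF: `Smooth` at `y`: for `G ∈ I`, `h G = ∑ a_i F_i`, so `h(y) grad G (y) =
∑ a_i(y) grad F_i (y)` (`G` and the `F_i` vanish at `y`): `CN I y` is the span of the independent
`grad F_i (y)`.  `grad` is linear and `I` is a subspace, so `{grad F y : F ∈ I}` is a subspace. -/
def S_CN : Prop :=
  ∀ (N c : ℕ) (I : Ideal (Sx N)), Smooth I c → ∀ y ∈ zer I, y ≠ 0 →
    Module.finrank ℂ (CN I y) = c ∧ (∀ F ∈ I, grad F y ∈ CN I y) ∧
    ∀ u ∈ CN I y, ∃ F ∈ I, u = grad F y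

/-- The Cramer fields are tangent fields.  PROOF: `cr j ∈ TF I`: for `G ∈ I` a form,
`∑_l ∂_l G cr_(j,l) = Δ ∂_j G - ∑_b ∂_(B b) G coef b j` is, up to sign, the
`(c+1) × (c+1)` determinant with rows `F_1, ..., F_c, G` and columns `B, j`; at `y ∈ zer I`, `y ≠ 0`
the `c + 1` gradients are in `CN I y` of dimension `c`, so the determinant is zero at `y`; `S_Null`
(for a non homogeneous `G` take components; or use the first part of `S_Null` for
`X_i * (the determinant)`).  Last claim: for `l ∉ B` it is `0`; for `l = B b` it is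
`Δ w_(B b) + ∑_(j ∉ B) w_j coef b j`, and `M w_B + (∑_(j ∉ B) w_j ∂_j F_i)_i ∈ I^c` because
`w ∈ TF I`; multiply by `adj M`.  (`cr j = 0` for `j ∈ B`.) -/
def S_Cr : Prop :=
  ∀ (N c : ℕ) (I : Ideal (Sx N)), I.IsPrime → IsHom I → Smooth I c → ∀ (x : Vx N)
    (L : Loc I x c), (∀ j, L.cr j ∈ TF I) ∧
    ∀ w ∈ TF I, ∀ l, L.dt * w l - ∑ j : L.Bc, w j.1 * L.cr j.1 l ∈ I

/-- Along a line in `X`: Cramer's rule, for local equations at a point `y = x + t0 v` of the line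
(used with `t0 = 0` except in `S_Sat`).  PROOF: (1) `h ∂_j G ≡ ∑ a_i ∂_j F_i` on the line where
`h G = ∑ a_i F_i`, (2) for `e = lin (grad G)`, `G ∈ I`: `D e_j = ∑_b lin (coef b j) e_(B b)`: it is
enough for `G = F_i` (`lin h ≠ 0`), where it is `M adj(M) = Δ`: `∑_b M_(i b) coef b j = Δ ∂_j F_i`.
(3) if `w` is orthogonal to all `lin (grad F_i)` then `D w_(B b) = - ∑_(j ∉ B) lin (coef b j) w_j`:
multiply `M w_B = - ∑_(j ∉ B) w_j ∂_j F` by `adj M`. -/
def S_CrL : Prop :=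
  ∀ (N c : ℕ) (I : Ideal (Sx N)) (x v y : Vx N) (t0 : ℂ) (L : Loc I y c), y = x + t0 • v →
    (∀ s t : ℂ, s • x + t • v ∈ zer I) → lin x v L.dt ≠ 0 ∧ lin x v L.h ≠ 0 ∧
    (∀ G ∈ I, ∀ j, lin x v L.dt * lin x v (pderiv j G) =
      ∑ b, lin x v (L.coef b j) * lin x v (pderiv (L.B b) G)) ∧
    ∀ w : Fin (N + 1) → Polynomial ℂ, (∀ i, ∑ l, lin x v (pderiv l (L.F i)) * w l = 0) →
      (∀ G ∈ I, ∑ l, lin x v (pderiv l G) * w l = 0) ∧
      ∀ b, lin x v L.dt * w (L.B b) = - ∑ j : L.Bc, lin x v (L.coef b j.1) * w j.1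

/-! ## The two representations -/

/-- (E1).  `θ = θ_1`.  PROOF: `p b = (∑_i adj(lin M)_(b i) θ(F_i)) / t` (`Polynomial.divX`; `t`
divides all `θ(F_i)`); degrees from `S_Hom`: `≤ dg - (f i - 1) + f i = dg + 1` (`f i ≥ 1`; if
`f i = 0` then `F_i ∈ I` is a constant, so `0`).  `D θ(F_i) = t ∑_b M_(i b) p b`.  For `G ∈ I`:
`h G = ∑ a_i F_i`, so `lin h θ(G) = ∑ lin a_i θ(F_i)` and `lin h lin ∂_(B b) G =
∑ lin a_i lin ∂_(B b) F_i`; cancel `lin h ≠ 0`. -/
def S_Th1 : Prop :=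
  ∀ (N c : ℕ) (I : Ideal (Sx N)) (x v0 : Vx N) (L : Loc I x c), I.IsPrime →
    (∀ s t : ℂ, s • x + t • v0 ∈ zer I) → ∀ θ : Sx N → Polynomial ℂ,
    (∀ F ∈ I, ∀ G ∈ I, θ (F + G) = θ F + θ G) →
    (∀ G : Sx N, ∀ F ∈ I, θ (G * F) = lin x v0 G * θ F) →
    (∀ F ∈ I, ∀ m : ℕ, F.IsHomogeneous m → (θ F).natDegree ≤ m) →
    (∀ F ∈ I, Polynomial.X ∣ θ F) →
    (∀ b, (∑ i, lin x v0 (L.M.adjugate b i) * θ (L.F i)).divX ∈
      Polynomial.degreeLT ℂ (L.dg + 1)) ∧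
    ∀ F ∈ I, lin x v0 L.dt * θ F = Polynomial.X *
      ∑ b, (∑ i, lin x v0 (L.M.adjugate b i) * θ (L.F i)).divX * lin x v0 (pderiv (L.B b) F)

/-- (E2).  `θ = θ_2` with `θ_1 = 0`.  PROOF: `r j = θ(cr j) / t`, `j ∉ B`; by `S_Cr`
`D θ(w) = ∑_j lin w_j θ(cr j)` (write the element of `I^(N+1)` as a sum of `F e_l`, `F ∈ I`). -/
def S_Th2 : Prop :=
  ∀ (N c : ℕ) (I : Ideal (Sx N)), I.IsPrime → IsHom I → Smooth I c → ∀ (x v0 : Vx N)
    (L : Loc I x c), (∀ s t : ℂ, s • x + t • v0 ∈ zer I) → ∀ (k : ℕ)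
    (θ : (Fin (N + 1) → Sx N) → Polynomial ℂ),
    (∀ w ∈ TF I, ∀ w' ∈ TF I, θ (w + w') = θ w + θ w') →
    (∀ G : Sx N, ∀ w ∈ TF I, θ (fun i => G * w i) = lin x v0 G * θ w) →
    (∀ F ∈ I, ∀ u : Fin (N + 1) → Sx N, θ (fun i => F * u i) = 0) →
    (∀ w ∈ TF I, ∀ m : ℕ, (∀ i, (w i).IsHomogeneous m) → (θ w).natDegree ≤ m + k) →
    (∀ w ∈ TF I, Polynomial.X ∣ θ w) →
    (∀ j : L.Bc, (θ (L.cr j.1)).divX ∈ Polynomial.degreeLT ℂ (L.dg + k)) ∧
    ∀ w ∈ TF I, lin x v0 L.dt * θ w = Polynomial.X *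
      ∑ j : L.Bc, (θ (L.cr j.1)).divX * lin x v0 (w j.1)

/-! ## Colengths -/

/-- The ideal of the line `span (x, v)`. -/
def lineI (x v : Vx N) : Ideal (Sx N) where
  carrier := {F | ∀ s t : ℂ, eval (s • x + t • v) F = 0}
  zero_mem' := fun s t => map_zero _
  add_mem' := fun {F G} hF hG s t => by rw [map_add, hF s t, hG s t, add_zero]
  smul_mem' := fun G F hF s t => by rw [smul_eq_mul, map_mul, hF s t, mul_zero]

/-- PROOF: prime: the kernel of `S → ℂ[σ, τ]`; homogeneous; a form of degree `m` is in `lineI` iff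
`lin x v F = 0`; `lin` maps the forms of degree `m` onto `degreeLT (m + 1)` (`x`, `v` independent:
there are linear forms with `lin = 1` and `lin = t`). -/
def S_LineI : Prop :=
  ∀ (N : ℕ) (x v : Vx N), LinearIndependent ℂ ![x, v] →
    (lineI x v).IsPrime ∧ IsHom (lineI x v) ∧
    (∀ (m : ℕ) (F : Sx N), F.IsHomogeneous m → (F ∈ lineI x v ↔ lin x v F = 0)) ∧
    (∀ (m : ℕ), ∀ g ∈ Polynomial.degreeLT ℂ (m + 1), ∃ F : Sx N, F.IsHomogeneous m ∧
      lin x v F = g) ∧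
    ∀ m : ℕ, Module.finrank ℂ (gr (lineI x v) m) = m + 1

/-- The `ℂ[t]`-module of the `B`-coordinates of the gradients of elements of `I` on the line. -/
def Loc.E {I : Ideal (Sx N)} {x : Vx N} {c : ℕ} (L : Loc I x c) (v0 : Vx N) :
    Submodule (Polynomial ℂ) (Fin c → Polynomial ℂ) :=
  Submodule.span (Polynomial ℂ) {e | ∃ F ∈ I, e = fun b => lin x v0 (pderiv (L.B b) F)}

/-- The `ℂ[t]`-module of the coordinates outside `B` of the tangent fields on the line. -/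
def Loc.T {I : Ideal (Sx N)} {x : Vx N} {c : ℕ} (L : Loc I x c) (v0 : Vx N) :
    Submodule (Polynomial ℂ) (L.Bc → Polynomial ℂ) :=
  Submodule.span (Polynomial ℂ) {w | ∃ u ∈ TF I, w = fun j => lin x v0 (u j.1)}

/-- (E3).  PROOF: `D e ∈ E` for all `e` (rows of `lin M` and the adjugate matrix), so the quotient
is finite dimensional.  `NumCI` for `J = lineI x v0`, `j = 1`: `dim Lam I J 1 m = ∑ (m - d i + 1) =
c (m + 1) - a` for large `m` (`S_LineI`).  The map `Lam I J 1 m → (Fin c → ℂ[t])`,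
`z ↦ (lin z_(B b))_b` (well defined on `S/J` in degree `m - 1`) is injective by `S_CrL` (1), its
image is in `E` and in `(degreeLT m)^c`.  So `dim (degreeLT m)^c / (E ∩ ..) ≤ c m - (c (m+1) - a)
= a - c` for all large `m`, and for `m ≥ deg D` the space `(degreeLT m)^c` maps onto the quotient. -/
def S_Col : Prop :=
  ∀ (N c : ℕ) (d : Fin c → ℕ) (I : Ideal (Sx N)), Hyp I d → ∀ (x v0 : Vx N), IsLine I x v0 →
    ∀ L : Loc I x c, (∀ e : Fin c → Polynomial ℂ, (fun b => lin x v0 L.dt * e b) ∈ L.E v0) ∧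
      Module.Finite ℂ ((Fin c → Polynomial ℂ) ⧸ L.E v0) ∧
      Module.finrank ℂ ((Fin c → Polynomial ℂ) ⧸ L.E v0) + c ≤ ∑ i, d i

/-- `{w | D ∣ W w}`. -/
def divM {α β : Type} [Fintype β] (D : Polynomial ℂ) (W : Matrix α β (Polynomial ℂ)) :
    Submodule (Polynomial ℂ) (β → Polynomial ℂ) where
  carrier := {w | ∀ a, D ∣ ∑ b, W a b * w b}
  zero_mem' := fun a => by simp
  add_mem' := fun {u w} hu hw a => by
    simp only [Pi.add_apply, mul_add, Finset.sum_add_distrib]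
    exact dvd_add (hu a) (hw a)
  smul_mem' := fun g w hw a => by
    have h : ∑ b, W a b * (g • w) b = g * ∑ b, W a b * w b := by
      rw [Finset.mul_sum]
      exact Finset.sum_congr rfl fun b _ => by rw [Pi.smul_apply, smul_eq_mul]; ring
    rw [h]
    exact (hw a).mul_left g

/-- The residue functional.  PROOF: `φ f =` coefficient of `t^(deg D - 1)` of `f % D` (zero if `D`
is a constant; then `D` divides everything); if `f % D ≠ 0` has degree `e`, then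
`φ(t^(deg D - 1 - e) f)` is its leading coefficient. -/
def S_Phi : Prop :=
  ∀ D : Polynomial ℂ, D ≠ 0 → ∃ φ : Polynomial ℂ →ₗ[ℂ] ℂ, (∀ f, D ∣ f → φ f = 0) ∧
    ∀ f, (∀ g, φ (g * f) = 0) → D ∣ f

/-- (E4), pure algebra.  PROOF: with `φ` of `S_Phi`, the bilinear form `(y, u) ↦ φ(∑ y_a W a b u_b)`
has the kernels `divM D W` (in `u`) and `divM D Wᵀ` (in `y`), so it induces injections of each
quotient into the dual of the other.  Finiteness: `D ℂ[t]^β ≤ divM D W`, and `ℂ[t]^β / D` is finite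
dimensional (division by `D`). -/
def S_Adj : Prop :=
  ∀ (α β : Type) [Fintype α] [Fintype β] (D : Polynomial ℂ) (W : Matrix α β (Polynomial ℂ)),
    D ≠ 0 → Module.Finite ℂ ((β → Polynomial ℂ) ⧸ divM D W) ∧
    Module.Finite ℂ ((α → Polynomial ℂ) ⧸ divM D W.transpose) ∧
    Module.finrank ℂ ((β → Polynomial ℂ) ⧸ divM D W) =
      Module.finrank ℂ ((α → Polynomial ℂ) ⧸ divM D W.transpose)

/-- (E6) saturation.  PROOF: let `D ∣ W w`, `W b j = lin (coef b j)`; put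
`w_(B b) = -(∑_j W b j w_j)/D`; then `w ∈ ℂ[t]^(N+1)` is orthogonal to the `lin (grad F_i)`, so to
all `lin (grad G)`, `G ∈ I` (`S_CrL`).  For `t0 ∈ ℂ` let `L'` be local equations at
`y = x + t0 v0` (`S_Loc`); `lin L'.dt w = ∑_(j ∉ B') w_j lin (L'.cr j)` (both sides are orthogonal to
`lin (grad F'_i)` and have the same coordinates outside `B'`; Cramer).  So `lin L'.dt w ∈ T`; the
polynomials `lin L'.dt` have no common zero, so they generate `ℂ[t]`. -/
def S_Sat : Prop :=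
  ∀ (N c : ℕ) (I : Ideal (Sx N)), I.IsPrime → IsHom I → Smooth I c → ∀ (x v0 : Vx N),
    IsLine I x v0 → ∀ L : Loc I x c,
    divM (lin x v0 L.dt) (Matrix.of fun (b : Fin c) (j : L.Bc) => lin x v0 (L.coef b j.1)) ≤ L.T v0

/-- (E7).  PROOF: `S_Sat`, `S_Adj`; `L.E v0 ≤ divM D Wᵀ` by `S_CrL`: for `e = lin (grad G)_B`,
`∑_b coef b j e_b = D e_j`. -/
def S_ColT : Prop :=
  ∀ (N c : ℕ) (d : Fin c → ℕ) (I : Ideal (Sx N)), Hyp I d → ∀ (x v0 : Vx N), IsLine I x v0 →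
    ∀ L : Loc I x c, (∀ e : L.Bc → Polynomial ℂ, (fun b => lin x v0 L.dt * e b) ∈ L.T v0) ∧
      Module.Finite ℂ ((L.Bc → Polynomial ℂ) ⧸ L.T v0) ∧
      Module.finrank ℂ ((L.Bc → Polynomial ℂ) ⧸ L.T v0) + c ≤ ∑ i, d i

/-- The polynomial vectors of degree `< n` whose product with all elements of `M` is divisible
by `D`. -/
def annD {τ : Type} [Fintype τ] (D : Polynomial ℂ) (M : Submodule (Polynomial ℂ) (τ → Polynomial ℂ))
    (n : ℕ) : Submodule ℂ (τ → Polynomial ℂ) where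
  carrier := {p | (∀ i, p i ∈ Polynomial.degreeLT ℂ n) ∧ ∀ m ∈ M, D ∣ ∑ i, p i * m i}
  zero_mem' := ⟨fun i => Submodule.zero_mem _, fun m _ => by simp⟩
  add_mem' := fun {u w} hu hw => ⟨fun i => Submodule.add_mem _ (hu.1 i) (hw.1 i), fun m hm => by
    simp only [Pi.add_apply, add_mul, Finset.sum_add_distrib]
    exact dvd_add (hu.2 m hm) (hw.2 m hm)⟩
  smul_mem' := fun a w hw => ⟨fun i => Submodule.smul_mem _ a (hw.1 i), fun m hm => by
    have h : ∑ i, (a • w) i * m i = a • ∑ i, w i * m i := by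
      rw [Finset.smul_sum]
      exact Finset.sum_congr rfl fun i _ => by rw [Pi.smul_apply, smul_mul_assoc]
    rw [h, Polynomial.smul_eq_C_mul]
    exact (hw.2 m hm).mul_left _⟩

/-- (E5), pure algebra.  PROOF: `p ↦ (f ↦ φ(∑ p_i f_i))` maps `annD` to the dual of
`ℂ[t]^τ / M` (`φ` of `S_Phi`); kernel: the `p` divisible by `D` (nondegeneracy), `p = D p'`,
`deg p' < κ`. -/
def S_Dua : Prop :=
  ∀ (τ : Type) [Fintype τ] (D : Polynomial ℂ) (M : Submodule (Polynomial ℂ) (τ → Polynomial ℂ))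
    (κ : ℕ), D ≠ 0 → (∀ e : τ → Polynomial ℂ, (fun b => D * e b) ∈ M) →
    Module.Finite ℂ ((τ → Polynomial ℂ) ⧸ M) →
    Module.Finite ℂ (annD D M (D.natDegree + κ)) ∧
    Module.finrank ℂ (annD D M (D.natDegree + κ)) ≤
      Module.finrank ℂ ((τ → Polynomial ℂ) ⧸ M) + Fintype.card τ * κ

/-! ## The ideals of the conditions -/

/-- The coordinate ring of the pairs `(v, s_1, ..., s_k)`. -/
abbrev Ak (N k : ℕ) : Type := MvPolynomial (Fin (N + 1) ⊕ (Fin (N + 1) × Fin k)) ℂ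

/-- `F(x + t v)`, `v` the generic vector. -/
def linA (k : ℕ) (x : Vx N) : Sx N →ₐ[ℂ] Polynomial (Ak N k) :=
  aeval fun i => Polynomial.C (C (x i)) + Polynomial.C (X (Sum.inl i)) * Polynomial.X

/-- `F(x + t v)`, `v` the generic vector, over `ℂ[v]`. -/
def linS (x : Vx N) : Sx N →ₐ[ℂ] Polynomial (Sx N) :=
  aeval fun i => Polynomial.C (C (x i)) + Polynomial.C (X i) * Polynomial.X

/-- The coefficients of `F(x + t v)`.  PROOF: algebra homomorphisms agree on the variables;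
(3): induction on `F`; (4), (5): `F` a monomial, or `eval z` and (2) (`MvPolynomial.funext`) and
`S_LinB`. -/
def S_LinS : Prop :=
  ∀ (N : ℕ) (x : Vx N) (F : Sx N) (n : ℕ),
    (∀ k : ℕ, (linA k x F).coeff n = rename Sum.inl ((linS x F).coeff n)) ∧
    (∀ z : Vx N, eval z ((linS x F).coeff n) = (lin x z F).coeff n) ∧
    ((linS x F).coeff n).IsHomogeneous n ∧
    (∀ m : ℕ, F.IsHomogeneous m → (linS x F).coeff m = F ∧ (m < n → (linS x F).coeff n = 0)) ∧
    (linS x F).coeff 0 = C (eval x F)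

/-- `s(t) = ξ + ∑ t^(j+1) s_j`, `s_j` generic vectors. -/
def sA (k : ℕ) (ξ : Vx N) (i : Fin (N + 1)) : Polynomial (Ak N k) :=
  Polynomial.C (C (ξ i)) + ∑ j : Fin k, Polynomial.C (X (Sum.inr (i, j))) * Polynomial.X ^ (j.1 + 1)

/-- The line is in `X`. -/
def J1 (I : Ideal (Sx N)) (x : Vx N) (k : ℕ) : Ideal (Ak N k) :=
  Ideal.span {f | ∃ F ∈ I, ∃ n : ℕ, f = (linA k x F).coeff n}

/-- `s(t)` is conormal. -/
def J2 (I : Ideal (Sx N)) (x ξ : Vx N) (k : ℕ) : Ideal (Ak N k) :=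
  Ideal.span {f | ∃ w ∈ TF I, ∃ n : ℕ, f = (∑ i, sA k ξ i * linA k x (w i)).coeff n}

/-- The weights: `v` has weight `1`, `s_j` (the coefficient of `t^(j+1)`) has weight `j + 1`. -/
def wt (N k : ℕ) : Fin (N + 1) ⊕ (Fin (N + 1) × Fin k) → ℕ
  | Sum.inl _ => 1
  | Sum.inr p => p.2.1 + 1

/-- The point `(v0, s0)`. -/
def ptA (k : ℕ) (v0 : Vx N) (s0 : Fin (N + 1) → Polynomial ℂ) :
    Fin (N + 1) ⊕ (Fin (N + 1) × Fin k) → ℂ
  | Sum.inl i => v0 i
  | Sum.inr p => (s0 p.1).coeff (p.2.1 + 1)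

/-- PROOF: the coefficient of `t^n` in `F(x + t v)` and in `⟨s(t), w(x + t v)⟩` is weighted
homogeneous of weight `n` (give `t` the weight `-1`; induction on `F`); an ideal generated by
weighted homogeneous elements is weighted homogeneous. -/
def S_WH : Prop :=
  ∀ (N : ℕ) (I : Ideal (Sx N)) (x ξ : Vx N) (k : ℕ), IsWH (wt N k) (J1 I x k) ∧
    IsWH (wt N k) (J2 I x ξ k) ∧
    (∀ (J J' : Ideal (Ak N k)), IsWH (wt N k) J → IsWH (wt N k) J' → IsWH (wt N k) (J ⊔ J')) ∧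
    ∀ (s : Set (Ak N k)), (∀ f ∈ s, ∃ n : ℕ, IsWeightedHomogeneous (wt N k) f n) →
      IsWH (wt N k) (Ideal.span s)

/-- PROOF: evaluation at the point gives `lin x v0 F = 0` and `∑ s0_i lin x v0 (w i) = 0`
(`S_LinB`; for `w ∈ TF I` take homogeneous components, which are in `TF I`; the coefficients of
`s0` above `k` are `0`). -/
def S_PtE : Prop :=
  ∀ (N : ℕ) (I : Ideal (Sx N)), IsHom I → ∀ (x v0 : Vx N) (k : ℕ), IsLine I x v0 →
    ∀ s0 ∈ Sec I x v0 (k + 1),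
    (∀ F : Sx N, (linA k x F).map (eval (ptA k v0 s0)) = lin x v0 F) ∧
    (∀ i, (sA k (fun i => (s0 i).coeff 0) i).map (eval (ptA k v0 s0)) = s0 i) ∧
    (∀ w ∈ TF I, ∑ i, s0 i * lin x v0 (w i) = 0) ∧
    J1 I x k ≤ ptI (ptA k v0 s0) ∧
    J2 I x (fun i => (s0 i).coeff 0) k ≤ ptI (ptA k v0 s0)

/-! ## The functional argument -/

/-- Apply a functional to the coefficients. -/
def mapL {A : Type} [CommRing A] [Algebra ℂ A] (lam : A →ₗ[ℂ] ℂ) (f : Polynomial A) :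
    Polynomial ℂ := ∑ n ∈ f.support, Polynomial.monomial n (lam (f.coeff n))

/-- PROOF: coefficients: `coeff n (g f) = ∑ coeff i g coeff j f`, and
`coeff i g - (coeff i g)(z)` is in the maximal ideal of `z`. -/
def S_mapL : Prop :=
  ∀ (σ : Type) [Fintype σ] (z : σ → ℂ) (J : Ideal (MvPolynomial σ ℂ))
    (lam : MvPolynomial σ ℂ →ₗ[ℂ] ℂ), (∀ f ∈ ptI z * J, lam f = 0) →
    (∀ (f : Polynomial (MvPolynomial σ ℂ)) (n : ℕ), (mapL lam f).coeff n = lam (f.coeff n)) ∧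
    (∀ f g : Polynomial (MvPolynomial σ ℂ), mapL lam (f + g) = mapL lam f + mapL lam g) ∧
    ∀ f g : Polynomial (MvPolynomial σ ℂ), (∀ n, f.coeff n ∈ J) →
      mapL lam (g * f) = g.map (eval z) * mapL lam f

/-- The functionals that vanish on `𝔪_z J`. -/
def FL {σ : Type} (z : σ → ℂ) (J : Ideal (MvPolynomial σ ℂ)) :
    Submodule ℂ (MvPolynomial σ ℂ →ₗ[ℂ] ℂ) where
  carrier := {lam | ∀ f ∈ ptI z * J, lam f = 0}
  zero_mem' := fun _ _ => rfl
  add_mem' := fun {a b} ha hb f hf => by rw [LinearMap.add_apply, ha f hf, hb f hf, add_zero]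
  smul_mem' := fun c a ha f hf => by rw [LinearMap.smul_apply, ha f hf, smul_zero]

/-- Linear algebra: if the functionals vanishing on `𝔪 J` are, modulo those that vanish on `J`,
a space of dimension `≤ g` (there is a linear map `Ψ` to a space `U` of dimension `≤ g` which is
injective modulo them), then `J` is generated by `g` elements modulo `𝔪 J`.
PROOF: `J / 𝔪 J` is finite dimensional over `ℂ` (`J` finitely generated, `S / 𝔪 = ℂ`), every
functional on it comes from an element of `FL` (extend), so its dual embeds in `U`: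
`dim J / 𝔪 J ≤ g`; lift a basis, fill up with zeros. -/
def S_FinB : Prop :=
  ∀ (σ : Type) [Fintype σ] (z : σ → ℂ) (J : Ideal (MvPolynomial σ ℂ)) (U : Type)
    [AddCommGroup U] [Module ℂ U] [Module.Finite ℂ U] (g : ℕ) (Ψ : FL z J →ₗ[ℂ] U),
    Module.finrank ℂ U ≤ g → (∀ lam : FL z J, Ψ lam = 0 → ∀ f ∈ J, lam.1 f = 0) →
    ∃ b : Fin g → MvPolynomial σ ℂ, (∀ i, b i ∈ J) ∧
      J ≤ Ideal.span (Set.range b) ⊔ ptI z * J

/-- The functionals in `FL z J` that vanish on the equations of the lines. -/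
def FL1 {k : ℕ} (I : Ideal (Sx N)) (x : Vx N) (z : Fin (N + 1) ⊕ (Fin (N + 1) × Fin k) → ℂ)
    (J : Ideal (Ak N k)) : Submodule ℂ (Ak N k →ₗ[ℂ] ℂ) where
  carrier := {lam | lam ∈ FL z J ∧ ∀ F ∈ I, ∀ n : ℕ, lam ((linA k x F).coeff n) = 0}
  zero_mem' := ⟨Submodule.zero_mem _, fun _ _ _ => rfl⟩
  add_mem' := fun {a b} ha hb => ⟨Submodule.add_mem _ ha.1 hb.1, fun F hF n => by
    rw [LinearMap.add_apply, ha.2 F hF n, hb.2 F hF n, add_zero]⟩
  smul_mem' := fun c a ha => ⟨Submodule.smul_mem _ c ha.1, fun F hF n => by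
    rw [LinearMap.smul_apply, ha.2 F hF n, smul_zero]⟩

/-- The map `lam ↦ p` of `S_Th1`.  PROOF: `θ F = mapL lam (linA k x F)`; hypotheses of `S_Th1`:
`S_mapL` (the coefficients of `linA k x F`, `F ∈ I`, are in `J1 ≤ J`; `(linA k x G).map (eval z) =
lin x v0 G`), `linA k x F` has degree `≤ m` for `F` homogeneous of degree `m` and the constant
coefficient `F(x) = 0`.  `p ∈ annD`: from `D θ F = t ∑ p_b lin ∂_(B b) F` and `D(0) ≠ 0`, `D`
divides `∑ p_b e_b` for `e` a generator of `L.E v0`, so for all `e ∈ L.E v0`;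
`natDegree D = dg` (`S_Hom`, `good`).  `p = 0` gives `D θ F = 0`, so `θ F = 0`.  `p` is linear in
`lam` (`mapL`, multiplication and `divX` are linear). -/
def S_Psi1 : Prop :=
  ∀ (N c : ℕ) (I : Ideal (Sx N)), I.IsPrime → ∀ (x v0 : Vx N), IsLine I x v0 →
    ∀ L : Loc I x c, L.good v0 → ∀ (k : ℕ) (z : Fin (N + 1) ⊕ (Fin (N + 1) × Fin k) → ℂ),
    (∀ i, z (Sum.inl i) = v0 i) → ∀ J : Ideal (Ak N k), J1 I x k ≤ J →
    ∃ p : FL z J →ₗ[ℂ] annD (lin x v0 L.dt) (L.E v0) ((lin x v0 L.dt).natDegree + 1),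
      ∀ lam : FL z J, p lam = 0 → ∀ F ∈ I, ∀ n : ℕ, lam.1 ((linA k x F).coeff n) = 0

/-- The map `lam ↦ r` of `S_Th2`.  PROOF: `θ w = mapL lam (∑ i, sA k ξ i * linA k x (w i))`, where
`ξ i = (s0 i).coeff 0`; hypotheses of `S_Th2`: `S_mapL` (the coefficients of the polynomial are in
`J2 ≤ J`); `θ (F u) = 0` because `mapL lam (linA k x F) = 0`; degree `≤ m + k`; constant
coefficient `∑ ξ_i w_i(x) = 0` (`S_PtE`: coefficient `0` of `∑ s0_i lin w_i = 0`).  The rest as in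
`S_Psi1`. -/
def S_Psi2 : Prop :=
  ∀ (N c : ℕ) (I : Ideal (Sx N)), I.IsPrime → IsHom I → Smooth I c → ∀ (x v0 : Vx N),
    IsLine I x v0 → ∀ L : Loc I x c, L.good v0 → ∀ (k : ℕ), ∀ s0 ∈ Sec I x v0 (k + 1),
    ∀ J : Ideal (Ak N k), J1 I x k ≤ J → J2 I x (fun i => (s0 i).coeff 0) k ≤ J →
    ∃ r : FL1 I x (ptA k v0 s0) J →ₗ[ℂ]
        annD (lin x v0 L.dt) (L.T v0) ((lin x v0 L.dt).natDegree + k),
      ∀ lam : FL1 I x (ptA k v0 s0) J, r lam = 0 → ∀ w ∈ TF I, ∀ n : ℕ,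
        lam.1 ((∑ i, sA k (fun i => (s0 i).coeff 0) i * linA k x (w i)).coeff n) = 0

/-- (E) for the lines only, number `a = ∑ d i`.  PROOF: `S_FinB` with `Ψ = p` of `S_Psi1`,
`U = annD ..` of dimension `≤ (a - c) + c` (`S_Dua` with `κ = 1`, `S_Col`).  `Ψ lam = 0` gives that
`lam` vanishes on the generators of `J1`, so on `J1`: `lam (g f) = g(z) lam f` for `f ∈ J1`, because
`(g - g(z)) f ∈ ptI z * J1`. -/
def S_E0 : Prop :=
  ∀ (N c : ℕ) (d : Fin c → ℕ) (I : Ideal (Sx N)), Hyp I d → ∀ (x v0 : Vx N), IsLine I x v0 →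
    ∀ L : Loc I x c, L.good v0 → ∃ b : Fin (∑ i, d i) → Ak N 0, (∀ i, b i ∈ J1 I x 0) ∧
      J1 I x 0 ≤ Ideal.span (Set.range b) ⊔ ptI (ptA 0 v0 0) * J1 I x 0

/-- (E).  PROOF: `J = J1 ⊔ J2`, `p` of `S_Psi1`, `r` of `S_Psi2`.  The kernel of `p` is in `FL1`;
extend `r` restricted to `ker p` to a linear map `r'` on `FL z J` (`LinearMap.exists_extend`);
`Ψ = (p, r')`, `U = annD .. × annD ..`, dimensions `(a - c) + c` (`S_Dua` with `κ = 1`, `S_Col`) and
`(a - c) + (N + 1 - c) k` (`S_Dua` with `κ = k`, `S_ColT`, `card Bc = N + 1 - c`).  `Ψ lam = 0`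
gives that `lam` vanishes on the generators of `J1` and `J2`, so on `J`. -/
def S_E : Prop :=
  ∀ (N c : ℕ) (d : Fin c → ℕ) (I : Ideal (Sx N)), Hyp I d → ∀ (x v0 : Vx N), IsLine I x v0 →
    ∀ L : Loc I x c, L.good v0 → ∀ (k : ℕ), ∀ s0 ∈ Sec I x v0 (k + 1),
    ∃ b : Fin (∑ i, d i + (∑ i, d i - c) + (N + 1 - c) * k) → Ak N k,
      (∀ i, b i ∈ J1 I x k ⊔ J2 I x (fun i => (s0 i).coeff 0) k) ∧
      J1 I x k ⊔ J2 I x (fun i => (s0 i).coeff 0) k ≤ Ideal.span (Set.range b) ⊔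
        ptI (ptA k v0 s0) * (J1 I x k ⊔ J2 I x (fun i => (s0 i).coeff 0) k)

/-- The ideal of `v` induced by an ideal of `Ak`. -/
def P0 {k : ℕ} (P : Ideal (Ak N k)) : Ideal (Sx N) :=
  P.comap (rename (R := ℂ) (Sum.inl : Fin (N + 1) → Fin (N + 1) ⊕ (Fin (N + 1) × Fin k))).toRingHom

/-- PROOF: `(linA k x F).coeff n` is `rename inl` of the coefficient `q_n(v)` of `F(x + t v)`; so
`q_n ∈ P0 P`; for a form `F` of degree `m`, `q_m = F`; components of `F`.  For `z ∈ zer (P0 P)`: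
`F(x + t z) = ∑ q_n(z) t^n = 0`; homogeneity and the top coefficient.  `P0` of a weighted
homogeneous ideal is homogeneous (`weightedHomogeneousComponent` and `rename`). -/
def S_P0 : Prop :=
  ∀ (N : ℕ) (I : Ideal (Sx N)), IsHom I → ∀ (x : Vx N) (k : ℕ) (P : Ideal (Ak N k)), P.IsPrime →
    IsWH (wt N k) P → J1 I x k ≤ P →
    (P0 P).IsPrime ∧ IsHom (P0 P) ∧ I ≤ P0 P ∧ ∀ z ∈ zer (P0 P), ∀ s t : ℂ, s • x + t • z ∈ zer I

/-- PROOF of `S_Line`: `S_Loc`, `S_Good` (replace `v0` by `v0 + μ x`: still a line), `S_E0`,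
`S_WH`, `S_PtE` with `s0 = 0`, `S_Krull` (`card = N + 1`), `S_Frac` (`τ` empty), `S_P0`. -/
def S_LineOf : Prop :=
  S_Loc → S_Good → S_E0 → S_WH → S_PtE → S_Krull → S_Frac → S_P0 → S_Line

/-- PROOF of `S_Perp` (last claim; the others are `S_CN`): local equations `L` at `y` (`S_Loc`);
`cr j ∈ TF I` is homogeneous of degree `dg`, so `Δ(y) u_j = ∑_b coef b j (y) u_(B b)`.  There is a
combination `e` of the `grad F_i (y)` with `e_B = u_B` (`M(y)` is invertible); `e ∈ CN I y` satisfies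
the same relation (`grad G (y)`, `G ∈ I`, is orthogonal to `w(y)`, `w ∈ TF I`), so `u = e`. -/
def S_PerpOf : Prop := S_Loc → S_Hom → S_CN → S_Cr → S_Perp

end Pool.Agent.Lib.MP_776403_ag.SD
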