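import Pool.Agent.Lib.MP_776403_ag.SD.SpecE

/-!
# THEOREM SD, part L (helper7): lines through every point from the degree

`X` of dimension `n = N - c` and degree `≤ D = ∏ d i ≤ n` is covered by lines: a general projection
`X → X' ⊆ ℙ^(n+1)` is birational onto a hypersurface of degree `≤ n`, which contains a line
through every point; the line lifts to `X` for general points (normality of `ℂ[t]`); then a closedness
argument.  Statements with proofs in the docstrings.
-/

set_option autoImplicit false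

open MvPolynomial

noncomputable section

namespace Pool.Agent.Lib.MP_776403_ag.SD

variable {N : ℕ}

/-- The Hilbert function from `RegBound`.  PROOF: let `r = finrank (gr I m)`, take forms `P_i`,
`i : Fin r`, of degree `m` whose classes are independent in `gr I m` (a basis of `gr I m`; it is finite
dimensional: image of `homogeneousSubmodule`, `homogeneousSubmodule_fg`).
`f_i y = if y ∈ zer I ∧ y ≠ 0 then eval y P_i else 0` is in `IsReg I m` (`P = P_i`, `Q = 1`, `e = 0`).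
They are independent: if `∑ a_i f_i = 0` then `∑ a_i P_i` vanishes on the punctured cone, so it is in
`I` (`S_Null`, second part). -/
def S_HFb : Prop :=
  ∀ (N c : ℕ) (d : Fin c → ℕ) (I : Ideal (Sx N)), I.IsPrime → IsHom I → (∃ y ∈ zer I, y ≠ 0) →
    RegBound I d → ∀ m : ℕ, (Module.finrank ℂ (gr I m) : ℤ) ≤ hci d N m

/-- PROOF.  `b(N, k) = binom (N + k) N` for `k ≥ 0` and `0` for `k < 0` satisfies
`b(N, k) - b(N, k - 1) = b(N - 1, k)` for `N ≥ 1`, all integers `k`.  So with `H_N(d; m) = hci d N m`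
(`= ∑_A (-1)^|A| b(N, m - d_A)`, zero for `m < 0`) we have `H_N(d; m) - H_N(d; m - 1) = H_(N-1)(d; m)`
and `H_N(d, e; m) = H_N(d; m) - H_N(d; m - e) = ∑_(j < e) H_(N-1)(d; m - j)`.  Induction on `c`
(`Fin.cons` or `Fin.snoc`, sums over `Finset (Fin (c + 1))` split into the sets with and without the
new element): `H_N(d, e; m) ≤ ∑_(j < e) (∏ d) binom (m - j + N - 1 - c) (N - 1 - c)
≤ e (∏ d) binom (m + N - (c + 1)) (N - (c + 1))`, terms with `j > m` are `0`. -/
def S_Hci : Prop :=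
  ∀ (c N : ℕ) (d : Fin c → ℕ) (m : ℕ), c ≤ N →
    hci d N m ≤ ((∏ i, d i : ℕ) : ℤ) * (Nat.choose (m + (N - c)) (N - c) : ℤ)

/-- Linear Noether normalization, with homogeneous integral equations.

PROOF.  Let `r` be minimal such that there are linear forms `y : Fin r → Sx N` with all `mk (X j)`
integral over `Algebra.adjoin ℂ (range (mk ∘ y))` (`r = N + 1`, `y = X` works).
Independence: let `q ≠ 0` with `aeval y q ∈ I`; some homogeneous component `q_m ≠ 0`, and
`aeval y q_m = homogeneousComponent m (aeval y q) ∈ I`.  Choose `u` with `eval u q_m ≠ 0`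
(`MvPolynomial.funext`); `m ≥ 1` (`I ≠ ⊤`), so `u ≠ 0`, say `u_k ≠ 0`.  `y'_i = y_i - (u_i/u_k) y_k`,
`i ≠ k`.  Then `q_m(y) = q_m(y' + (u/u_k) y_k)` is a polynomial in `y_k` of degree `≤ m` with
coefficients in `ℂ[y']` and the coefficient `q_m(u/u_k) ≠ 0` at `y_k^m`: `mk y_k` is integral over
`ℂ[y']`, so are all `mk y_i`, and by transitivity (`isIntegral_trans`) all `mk (X j)`.  `y'` has
`r - 1` members: contradiction to the minimality.
Equations: `mk (X j)` satisfies a monic equation of degree `m` with coefficients `mk (aeval y a_k)`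
(`Algebra.adjoin_range_eq_range_aeval`): `X_j^m + ∑_(k < m) aeval y a_k X_j^k ∈ I`; its homogeneous
component of degree `m` is `X_j^m + ∑ aeval y ((a_k)_(m-k)) X_j^k`. -/
def S_Noe : Prop :=
  ∀ (N : ℕ) (I : Ideal (Sx N)), I.IsPrime → IsHom I → ∃ (r : ℕ) (y : Fin r → Sx N),
    (∀ i, (y i).IsHomogeneous 1) ∧
    (AlgebraicIndependent ℂ fun i => Ideal.Quotient.mk I (y i)) ∧
    ∀ j : Fin (N + 1), ∃ (m : ℕ) (p : ℕ → MvPolynomial (Fin r) ℂ),
      (∀ k < m, (p k).IsHomogeneous (m - k)) ∧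
      X j ^ m + ∑ k ∈ Finset.range m, aeval y (p k) * X j ^ k ∈ I

/-- The rank is at most the degree.

PROOF.  Let `w` bound the total degrees of the `g i`.  For every `m` the linear map
`(b_i) ↦ mk (∑ aeval y (b i) * g i)` from `Fin ρ → restrictTotalDegree (Fin r) ℂ m` to the image of
`restrictTotalDegree (Fin (N + 1)) ℂ (m + w)` in `S / I` is injective; the image has dimension
`≤ ∑_(k ≤ m + w) finrank (gr I k) ≤ D ∑_(k ≤ m + w) binom (k + e) e = D binom (m + w + e + 1) (e + 1)`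
(hockey stick).  `dim restrictTotalDegree (Fin r) m = binom (m + r) r`.  So
`ρ binom (m + r) r ≤ D binom (m + w + e + 1) (e + 1)` for all `m`.  Comparing growth (`r ≥ e + 1`):
if `ρ ≥ 1` then `r = e + 1`, and `ρ ≤ D` (`binom (m + w + r) r / binom (m + r) r → 1`). -/
def S_Rank : Prop :=
  ∀ (N : ℕ) (I : Ideal (Sx N)) (D e : ℕ),
    (∀ m : ℕ, Module.finrank ℂ (gr I m) ≤ D * Nat.choose (m + e) e) →
    ∀ (r : ℕ) (y : Fin r → Sx N), (∀ i, (y i).IsHomogeneous 1) → e + 1 ≤ r →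
    ∀ (ρ : ℕ) (g : Fin ρ → Sx N),
    (∀ b : Fin ρ → MvPolynomial (Fin r) ℂ, ∑ i, aeval y (b i) * g i ∈ I → b = 0) →
    ρ ≤ D ∧ (1 ≤ ρ → r = e + 1)

/-- The dimension of a smooth `X` of codimension `c` is at least `N - c`.

PROOF.  At `y0 ∈ zer I - 0` take `F`, `h` from `Smooth`; `I ≤ span F ⊔ ptI y0 * I`:
`G = (1 - h / h(y0)) G + (1 / h(y0)) h G`.  `S_Krull` (weights `1`: `IsWH (fun _ => 1) I` from
`IsHom I`, `weightedHomogeneousComponent_one`; `J = I`, `g = c`): a prime `P ≥ I` with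
`N + 1 - c` algebraically independent elements of `S / P`.  `S / P` is integral, so algebraic, over
`adjoin ℂ (range (mk ∘ y))` (equations); `S_TB` (`SpecD.lean`) gives `i : Fin (N + 1 - c) → Fin r`
with `mk ∘ y ∘ i` algebraically independent; `i` is injective. -/
def S_DimS : Prop :=
  ∀ (N c : ℕ) (I : Ideal (Sx N)), I.IsPrime → IsHom I → Smooth I c → (∃ y ∈ zer I, y ≠ 0) →
    ∀ (r : ℕ) (y : Fin r → Sx N),
    (∀ j : Fin (N + 1), ∃ (m : ℕ) (p : ℕ → MvPolynomial (Fin r) ℂ),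
      X j ^ m + ∑ k ∈ Finset.range m, aeval y (p k) * X j ^ k ∈ I) → N + 1 - c ≤ r

/-- A primitive element which is a `ℂ`-linear combination of given generators.

PROOF.  `K` has characteristic zero (it contains `ℂ`), so `L / K` is separable and has a primitive
element (`Field.exists_primitive_element`), hence finitely many intermediate fields
(`Field.exists_primitive_element_iff_finite_intermediateField`).  For a proper intermediate field `M`
the `ℂ`-subspace `{a | ∑ a_i x_i ∈ M}` of `ℂ^n` is proper (otherwise all `x_i ∈ M`).  `ℂ^n` is not a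
finite union of proper subspaces (`Subspace.biUnion_ne_univ_of_top_notMem`).  Take `a` outside. -/
def S_Prim : Prop :=
  ∀ (K L : Type) [Field K] [Field L] [Algebra K L] [Algebra ℂ K] [Algebra ℂ L]
    [IsScalarTower ℂ K L] [FiniteDimensional K L] (n : ℕ) (x : Fin n → L),
    IntermediateField.adjoin K (Set.range x) = ⊤ →
    ∃ a : Fin n → ℂ, IntermediateField.adjoin K {∑ i, algebraMap ℂ L (a i) * x i} = ⊤

/-- A birational projection of `X` to a hypersurface `F = 0` in `ℙ^r`: `z` are the `r + 1`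
coordinates, linear forms on `X`; `g` a denominator. -/
structure Model (I : Ideal (Sx N)) (r : ℕ) where
  /-- the projection -/
  z : Fin (r + 1) → Sx N
  /-- the equation -/
  F : Sx r
  /-- its degree -/
  ρ : ℕ
  /-- the denominator -/
  g : Sx r
  /-- the numerators -/
  G : Fin (N + 1) → Sx r
  /-- degrees of the integral equations -/
  m : Fin (N + 1) → ℕ
  /-- coefficients of the integral equations -/
  p : Fin (N + 1) → ℕ → Sx r
  zhom : ∀ i, (z i).IsHomogeneous 1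
  Fhom : F.IsHomogeneous ρ
  mem : ∀ q : Sx r, aeval z q ∈ I ↔ F ∣ q
  gI : aeval z g ∉ I
  hG : ∀ j, aeval z g * X j - aeval z (G j) ∈ I
  phom : ∀ j, ∀ k < m j, (p j k).IsHomogeneous (m j - k)
  hp : ∀ j, X j ^ m j + ∑ k ∈ Finset.range (m j), aeval z (p j k) * X j ^ k ∈ I

/-- PROOF.  `B = MvPolynomial (Fin r) ℂ → R = S / I` injective (`y` independent) and integral,
`K = FractionRing B`, `L = FractionRing R`, finite over `K` and generated by the `x_j`.  `S_Prim`:
`ℓ = ∑ a_j X_j` with `L = K(ℓ)`.  `f = minpoly B ℓ` (`B` is integrally closed: a UFD): monic;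
`q(ℓ) = 0 ↔ f ∣ q` (`minpoly.isIntegrallyClosed_dvd_iff`); `ρ = natDegree f`; `1, ℓ, ..., ℓ^(ρ-1)` are
independent over `B`, so `ρ ≤ D` by the hypothesis.  The polynomial `f'` with the coefficients
`(f.coeff k)_(ρ - k)` (homogeneous components) is monic of degree `ρ` and `f'(y, ℓ)` is the component
of degree `ρ` of `f(y, ℓ) ∈ I`, so `f ∣ f'`, `f = f'`.  `z = Fin.snoc y ℓ` (or `Fin.cons`), `F` = the
element of `Sx r = MvPolynomial (Fin (r + 1)) ℂ` corresponding to `f` (`MvPolynomial.finSuccEquiv` with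
`z = Fin.cons ℓ y`: variable `0` is `ℓ`).  `x_j = ∑_(k < ρ) c_jk ℓ^k`, `c_jk ∈ K`; a common
denominator `g ∈ B` gives `G j`.  The integral equations: rename the given ones. -/
def S_Model : Prop :=
  ∀ (N : ℕ) (I : Ideal (Sx N)), I.IsPrime → IsHom I → ∀ (r : ℕ) (y : Fin r → Sx N) (D : ℕ),
    (∀ i, (y i).IsHomogeneous 1) →
    (AlgebraicIndependent ℂ fun i => Ideal.Quotient.mk I (y i)) →
    (∀ j : Fin (N + 1), ∃ (m : ℕ) (p : ℕ → MvPolynomial (Fin r) ℂ),
      (∀ k < m, (p k).IsHomogeneous (m - k)) ∧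
      X j ^ m + ∑ k ∈ Finset.range m, aeval y (p k) * X j ^ k ∈ I) →
    (∀ (ρ : ℕ) (g : Fin ρ → Sx N),
      (∀ b : Fin ρ → MvPolynomial (Fin r) ℂ, ∑ i, aeval y (b i) * g i ∈ I → b = 0) → ρ ≤ D) →
    ∃ M : Model I r, M.ρ ≤ D

/-- A hypersurface of degree `ρ < r` in `ℙ^r` contains a line through each of its points.

PROOF.  `λ` a vector with `∑ λ_i x'_i = 1`; `J` = ideal of `Sx r` generated by the coefficients
`(linS x' F).coeff (j + 1)`, `j : Fin ρ` (homogeneous of degree `j + 1`, `S_LinS`), and the linear form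
`∑ C λ_i X_i`: `ρ + 1` generators, all zero at `0`.  `S_Krull` (weights `1`, `z = 0`, `g = ρ + 1`): a
homogeneous prime `P ≥ J` with `r + 1 - (ρ + 1) ≥ 1` algebraically independent elements of the
quotient.  If `zer P ⊆ {0}` then all `X_i ∈ P` (`S_Null`) and the quotient is `ℂ`: impossible.  So
there is `v' ≠ 0` in `zer P`; `λ(v') = 0`, so `x', v'` are independent; `lin x' v' F = 0` (its
coefficients are the values at `v'` of those of `linS x' F`; the constant one is `F(x') = 0`, those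
above `ρ` vanish), so `F` vanishes on the plane (`S_LinB`). -/
def S_LineF : Prop :=
  ∀ (r ρ : ℕ) (F : Sx r), F.IsHomogeneous ρ → ρ < r → ∀ x' : Vx r, x' ≠ 0 → eval x' F = 0 →
    ∃ v' : Vx r, LinearIndependent ℂ ![x', v'] ∧ ∀ s t : ℂ, eval (s • x' + t • v') F = 0

/-- Lifting lines.

PROOF.  `x' i = eval x (z i)`; `x' ≠ 0`, otherwise `x_j^(m j) = 0` for all `j` by `hp` (`p j k` has
positive degree).  `F(x') = 0` (`mem`).  `S_LineF`: `v'`.  For `q : Sx r` with `aeval z q ∈ I`: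
`F ∣ q`, so `lin x' v' q = 0` (*).  `γ = lin x' v' g ≠ 0` (`γ(0) = g(x') ≠ 0`), `Γ_j = lin x' v' (G j)`.
(1) `γ ∣ Γ_j`: by `hp`, `hG` the polynomial `q = G_j^m + ∑_(k<m) p_k g^(m-k) G_j^k` has
`aeval z q ∈ I`; (*): `Γ_j^m + ∑ lin p_k γ^(m-k) Γ_j^k = 0`, so `Γ_j / γ` is integral over `ℂ[t]`,
which is integrally closed.  `Γ_j = γ ξ_j`; (2) `ξ_j^m + ∑ lin p_k ξ_j^k = 0` with
`deg lin p_k ≤ m - k` gives `deg ξ_j ≤ 1`.  `ξ_j(0) = x_j` (`hG` at `x`).  `ξ_j = x_j + v_j t`.
(3) for `P ∈ I` homogeneous of degree `e`: `q = bind₁ G P` has `aeval z q ∈ I` (`g^e P ≡ P(G)`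
modulo `I`), so `P(Γ) = 0 = γ^e P(ξ)`, `P(ξ(t)) = 0`, i.e. `lin x v P = 0`; by `S_LinB`
`P` vanishes on `span (x, v)`; components for general `P`.  (4) `x, v` are independent: `q = z_i(G) -
g X_i` (`z_i` as a linear combination of the variables: `bind₁ G (z i) - g * X i`) has
`aeval z q ∈ I`, so `z_i(ξ(t)) = x'_i + t v'_i`: the linear map `z` sends `x, v` to the independent
`x', v'`. -/
def S_Lift : Prop :=
  ∀ (N : ℕ) (I : Ideal (Sx N)), I.IsPrime → IsHom I → ∀ (r : ℕ) (M : Model I r), M.ρ < r →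
    ∀ x ∈ zer I, x ≠ 0 → eval x (aeval M.z M.g) ≠ 0 → ∃ v : Vx N, IsLine I x v

/-- `F(x + t v)` with `x` and `v` generic: `v` the variables, `x` in the coefficients. -/
def linU : Sx N →ₐ[ℂ] Polynomial (MvPolynomial (Fin (N + 1)) (Sx N)) :=
  aeval fun i => Polynomial.C (C (X i)) + Polynomial.C (X i) * Polynomial.X

/-- Specialization of `linU`.  PROOF: algebra homomorphisms that agree on the variables. -/
def S_LinU : Prop :=
  ∀ (N : ℕ) (x : Vx N) (F : Sx N) (n : ℕ),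
    ((linU F).coeff n).map (eval x) = (linS x F).coeff n

/-- Lines through general points give lines through all points.

PROOF.  Let `y ∈ zer I - 0` and suppose there is no line through `y`.  `λ` a vector with
`∑ λ_l y_l = 1`, `ℓ = ∑ C λ_l X_l` (a linear form, used both in `x` and in `v`).  For `x : Vx N` let
`b_x` be the ideal of `Sx N` generated by the `(linS x F).coeff n`, `F ∈ I`, `n`, and by `ℓ`.
(1) If `v ∈ zer b_x`, `v ≠ 0`, `x ∈ zer I` and `λ(x) ≠ 0` then `IsLine I x v` (`lin x v F = 0` for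
`F ∈ I`; components of `F` are in `I`, `S_LinB`; independence by `λ(v) = 0`, `λ(x) ≠ 0`).  So
`zer b_y ⊆ {0}` and by `S_Irr` (`b_y` is generated by forms) or `S_D6'` there is `ρ` such that `b_y`
contains all monomials `μ` of degree `ρ`: `μ = ∑_k A_(μ,k) (linS y F_k).coeff n_k + A_μ ℓ` for finitely
many `k`; take components of degree `ρ`: we may assume that `A_(μ,k)` is a form of degree `ρ - n_k`
(`0` if `n_k > ρ`), `A_μ` of degree `ρ - 1`.
(2) For `x` let `Φ_x(μ) = ∑_k A_(μ,k) (linS x F_k).coeff n_k + A_μ ℓ ∈ b_x`, a form of degree `ρ`;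
its coefficients are polynomials in `x` (`S_LinU`): `Ψ_(μ,ν) ∈ Sx N` with `eval x Ψ_(μ,ν) =` coefficient
of `ν` in `Φ_x(μ)`.  `Δ = det Ψ`, `Δ(y) = det 1 = 1`.  If `Δ(x) ≠ 0` then all monomials of degree `ρ`
are combinations of the `Φ_x(μ)`, so in `b_x`, and `zer b_x ⊆ {0}`.
(3) `g`, `Δ`, `ℓ` are not in `I` (`Δ(y) = ℓ(y) = 1`), so `g Δ ℓ ∉ I` and by `S_Null` there is
`x ∈ zer I` with `g(x) Δ(x) λ(x) ≠ 0`; `x ≠ 0`.  By hypothesis there is `v` with `IsLine I x v`; then
`v0 = v - (λ(v)/λ(x)) x ≠ 0` satisfies `λ(v0) = 0` and `lin x v0 F = 0` for `F ∈ I`, so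
`v0 ∈ zer b_x`, contradiction to (2). -/
def S_Close : Prop :=
  ∀ (N : ℕ) (I : Ideal (Sx N)), I.IsPrime → IsHom I → ∀ g : Sx N, g ∉ I →
    (∀ x ∈ zer I, x ≠ 0 → eval x g ≠ 0 → ∃ v : Vx N, IsLine I x v) → Covered I

/-- `X` is covered by lines if `deg X ≤ ∏ d i ≤ n = N - c`.

PROOF.  `X` is not empty (otherwise `X_0 ∈ I` by `S_Null`, contradiction to `nd`).  `D = ∏ d i`,
`e = N - c`: `finrank (gr I m) ≤ D binom (m + e) e` (`S_HFb`, `S_Hci`).  `S_Noe`: `r`, `y`.
`S_DimS`: `e + 1 ≤ r`.  `S_Rank` with `ρ = 1`, `g = 1` (`y` independent): `r = e + 1`.  `S_Rank` and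
`S_Model`: `M` with `M.ρ ≤ D ≤ e < r`.  `S_Lift`: lines through the points with `g ≠ 0`; `S_Close`. -/
def S_Cov : Prop :=
  ∀ (N c : ℕ) (d : Fin c → ℕ) (I : Ideal (Sx N)), ∏ i, d i + c ≤ N → I.IsPrime → IsHom I →
    (∀ F ∈ I, F.IsHomogeneous 1 → F = 0) → Smooth I c → RegBound I d → Covered I

/-- PROOF.  Induction on `c ≥ 3`: `2 ∑ d ≤ ∏ d + c + 1`.  For `c = 3`: with `d_i = 2 + u_i` expand.
Step: `∏ d ≥ 8`, `e ≥ 2`: `e ∏ d + c + 2 - 2 ∑ d - 2 e ≥ e ∏ d + 1 - ∏ d - 2 e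
= (e - 1) (∏ d - 2) - 1 ≥ 0`. -/
def S_Rng : Prop :=
  ∀ (c : ℕ) (d : Fin c → ℕ), 3 ≤ c → (∀ i, 2 ≤ d i) → 2 * ∑ i, d i ≤ ∏ i, d i + c + 1

/-- THEOREM SD in the range of the problem: no hypothesis on lines. -/
def S_SD2 : Prop :=
  ∀ (N c : ℕ) (d : Fin c → ℕ) (I : Ideal (Sx N)), 3 ≤ c → (∀ i, 2 ≤ d i) →
    ∏ i, d i + 1 ≤ N - c → I.IsPrime → IsHom I → (∀ F ∈ I, F.IsHomogeneous 1 → F = 0) →
    Smooth I c → NumCI I d → RegBound I d →
    ∃ G : Fin c → Sx N, (∀ i, (G i).IsHomogeneous (d i)) ∧ I = Ideal.span (Set.range G)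

end Pool.Agent.Lib.MP_776403_ag.SD
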