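import Pool.Agent.Lib.MP_776403_ag.SD.SpecN

/-!
# THEOREM SD, module NGro: growth of the solutions of a difference equation
-/

set_option autoImplicit false

open MvPolynomial

noncomputable section

namespace Pool.Agent.Lib.MP_776403_ag.SD

namespace NGroAux

/-- Growth of a function with bounded increments along steps of length `t`. -/
theorem grow (H : ℕ → ℤ) (t : ℕ) (ht : 1 ≤ t) (p : ℕ) (C2 : ℤ) (hC2 : 0 ≤ C2)
    (hp : p = 0 → C2 = 0) (M : ℕ)
    (h : ∀ n, M ≤ n → |H n| ≤ |H (n - t)| + C2 * ((n : ℤ) + 1) ^ (p - 1)) :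
    ∃ C : ℤ, ∀ n : ℕ, |H n| ≤ C * ((n : ℤ) + 1) ^ p := by
  set S : ℤ := ∑ k ∈ Finset.range (M + 1), |H k| with hS
  have hS0 : 0 ≤ S := Finset.sum_nonneg (fun k _ => abs_nonneg _)
  refine ⟨C2 + S, fun n => ?_⟩
  induction n using Nat.strong_induction_on with
  | _ n ih =>
    have hn1 : (1 : ℤ) ≤ (n : ℤ) + 1 := by
      have : (0 : ℤ) ≤ (n : ℤ) := Int.natCast_nonneg n
      linarith
    have hpow : (1 : ℤ) ≤ ((n : ℤ) + 1) ^ p := one_le_pow₀ hn1
    by_cases hnM : n ≤ M
    · have h1 : |H n| ≤ S :=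
        Finset.single_le_sum (f := fun k => |H k|) (fun k _ => abs_nonneg _)
          (Finset.mem_range.2 (by omega))
      calc |H n| ≤ S := h1
        _ ≤ C2 + S := by linarith
        _ = (C2 + S) * 1 := by ring
        _ ≤ (C2 + S) * ((n : ℤ) + 1) ^ p := mul_le_mul_of_nonneg_left hpow (by linarith)
    · have hlt : n - t < n := by omega
      have h2 := ih (n - t) hlt
      have h3 := h n (by omega)
      have hcast : ((n - t : ℕ) : ℤ) + 1 ≤ (n : ℤ) := by
        have : n - t + 1 ≤ n := by omega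
        exact_mod_cast this
      have hcast0 : (0 : ℤ) ≤ ((n - t : ℕ) : ℤ) + 1 := by positivity
      have h4 : (((n - t : ℕ) : ℤ) + 1) ^ p ≤ (n : ℤ) ^ p := pow_le_pow_left₀ hcast0 hcast p
      rcases Nat.eq_zero_or_pos p with hp0 | hp0
      · rw [hp0] at h2 h3 ⊢
        rw [hp hp0] at h2 h3 ⊢
        simp only [pow_zero, mul_one, zero_add, zero_mul, add_zero] at h2 h3 ⊢
        exact le_trans h3 h2
      · obtain ⟨r, rfl⟩ : ∃ r, p = r + 1 := ⟨p - 1, by omega⟩
        rw [Nat.add_sub_cancel] at h3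
        have hn0 : (0 : ℤ) ≤ (n : ℤ) := Int.natCast_nonneg n
        have h5 : (n : ℤ) ^ r ≤ ((n : ℤ) + 1) ^ r := pow_le_pow_left₀ hn0 (by linarith) r
        have h6 : (n : ℤ) ^ (r + 1) + ((n : ℤ) + 1) ^ r ≤ ((n : ℤ) + 1) ^ (r + 1) := by
          have h7 : (n : ℤ) ^ (r + 1) ≤ (n : ℤ) * ((n : ℤ) + 1) ^ r := by
            rw [pow_succ, mul_comm]
            exact mul_le_mul_of_nonneg_left h5 hn0
          have h8 : ((n : ℤ) + 1) ^ (r + 1) = (n : ℤ) * ((n : ℤ) + 1) ^ r + ((n : ℤ) + 1) ^ r := by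
            ring
          rw [h8]
          linarith
        have hC : 0 ≤ C2 + S := by linarith
        have h9 : (C2 + S) * (((n - t : ℕ) : ℤ) + 1) ^ (r + 1) ≤ (C2 + S) * (n : ℤ) ^ (r + 1) :=
          mul_le_mul_of_nonneg_left h4 hC
        have h10 : (0 : ℤ) ≤ ((n : ℤ) + 1) ^ r := by positivity
        have h11 : C2 * ((n : ℤ) + 1) ^ r ≤ (C2 + S) * ((n : ℤ) + 1) ^ r :=
          mul_le_mul_of_nonneg_right (by linarith) h10
        calc |H n| ≤ |H (n - t)| + C2 * ((n : ℤ) + 1) ^ r := h3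
          _ ≤ (C2 + S) * (n : ℤ) ^ (r + 1) + (C2 + S) * ((n : ℤ) + 1) ^ r := by linarith
          _ = (C2 + S) * ((n : ℤ) ^ (r + 1) + ((n : ℤ) + 1) ^ r) := by ring
          _ ≤ (C2 + S) * ((n : ℤ) + 1) ^ (r + 1) := mul_le_mul_of_nonneg_left h6 hC

end NGroAux

open NGroAux in
theorem nGro : S_NGro := by
  intro ι _ d κ s
  induction s using Finset.induction_on with
  | empty =>
    intro _ H h
    refine ⟨fun _ => ?_, fun h1 => ?_⟩
    · simpa using h
    · simp at h1
  | insert a s' ha ih =>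
    intro hd H h
    have ha' : d a ≠ κ := hd a (Finset.mem_insert_self _ _)
    have hs' : ∀ i ∈ s', d i ≠ κ := fun i hi => hd i (Finset.mem_insert_of_mem hi)
    have hcard : (insert a s').card = s'.card + 1 := Finset.card_insert_of_notMem ha
    refine ⟨fun h0 => ?_, fun _ => ?_⟩
    · rw [hcard] at h0
      exact absurd h0 (Nat.succ_ne_zero _)
    set H1 : ℕ → ℤ := fun m => H (m - κ) - H (m - d a) with hH1
    have h1 : ∀ᶠ m : ℕ in Filter.atTop,
        ∑ A ∈ s'.powerset, (-1) ^ A.card * H1 (m - ∑ i ∈ A, d i - κ * (s' \ A).card) = 0 := by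
      filter_upwards [h] with m hm
      rw [Finset.sum_powerset_insert ha, ← Finset.sum_add_distrib] at hm
      rw [← hm]
      refine Finset.sum_congr rfl fun A hA => ?_
      have hA' := Finset.mem_powerset.1 hA
      have haA : a ∉ A := fun h => ha (hA' h)
      rw [Finset.sum_insert haA, Finset.card_insert_of_notMem haA]
      have e1 : (insert a s' \ A).card = (s' \ A).card + 1 := by
        rw [Finset.insert_sdiff_of_notMem _ haA, Finset.card_insert_of_notMem]
        intro hx
        exact ha (Finset.mem_sdiff.1 hx).1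
      have e2 : insert a s' \ insert a A = s' \ A := by
        ext x
        simp only [Finset.mem_sdiff, Finset.mem_insert, not_or]
        constructor
        · rintro ⟨hx, hxa, hxA⟩
          exact ⟨hx.resolve_left hxa, hxA⟩
        · rintro ⟨hx, hxA⟩
          exact ⟨Or.inr hx, fun hxa => ha (hxa ▸ hx), hxA⟩
      rw [e1, e2]
      have e3 : m - ∑ i ∈ A, d i - κ * ((s' \ A).card + 1) =
          m - ∑ i ∈ A, d i - κ * (s' \ A).card - κ := by
        rw [mul_add, mul_one]
        omega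
      have e4 : m - (d a + ∑ i ∈ A, d i) - κ * (s' \ A).card =
          m - ∑ i ∈ A, d i - κ * (s' \ A).card - d a := by
        omega
      rw [e3, e4, hH1]
      ring
    obtain ⟨i0, i1⟩ := ih hs' H1 h1
    -- bound for `H1`
    obtain ⟨C, hC0, hCp, hC⟩ : ∃ C : ℤ, 0 ≤ C ∧ (s'.card = 0 → C = 0) ∧
        ∀ᶠ m : ℕ in Filter.atTop, |H1 m| ≤ C * ((m : ℤ) + 1) ^ (s'.card - 1) := by
      rcases Nat.eq_zero_or_pos s'.card with h0 | h0
      · refine ⟨0, le_refl _, fun _ => rfl, ?_⟩
        filter_upwards [i0 h0] with m hm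
        rw [hm]
        simp
      · obtain ⟨C, hC⟩ := i1 h0
        refine ⟨|C|, abs_nonneg _, fun h => absurd h (by omega), ?_⟩
        filter_upwards [hC] with m hm
        refine hm.trans (mul_le_mul_of_nonneg_right (le_abs_self C) ?_)
        positivity
    -- the step
    obtain ⟨t, t', ht, hstep⟩ : ∃ t t' : ℕ, 1 ≤ t ∧
        ∀ n : ℕ, |H n| ≤ |H (n - t)| + |H1 (n + t')| := by
      rcases lt_or_gt_of_ne ha' with hlt | hlt
      · refine ⟨κ - d a, d a, by omega, fun n => ?_⟩
        have e5 : n + d a - κ = n - (κ - d a) := by omega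
        have e6 : H n = H (n - (κ - d a)) + -(H1 (n + d a)) := by
          rw [hH1]
          simp only [e5, Nat.add_sub_cancel]
          ring
        calc |H n| = |H (n - (κ - d a)) + -(H1 (n + d a))| := by rw [← e6]
          _ ≤ |H (n - (κ - d a))| + |-(H1 (n + d a))| := abs_add_le _ _
          _ = _ := by rw [abs_neg]
      · refine ⟨d a - κ, κ, by omega, fun n => ?_⟩
        have e5 : n + κ - d a = n - (d a - κ) := by omega
        have e6 : H n = H (n - (d a - κ)) + H1 (n + κ) := by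
          rw [hH1]
          simp only [e5, Nat.add_sub_cancel]
          ring
        calc |H n| = |H (n - (d a - κ)) + H1 (n + κ)| := by rw [← e6]
          _ ≤ _ := abs_add_le _ _
    obtain ⟨M, hM⟩ := Filter.eventually_atTop.1 hC
    obtain ⟨C', hC'⟩ := grow H t ht s'.card (C * ((t' : ℤ) + 1) ^ (s'.card - 1)) (by positivity)
      (fun h0 => by rw [hCp h0, zero_mul]) M (fun n hn => by
        have h2 := hM (n + t') (by omega)
        have h3 := hstep n
        have h4 : ((n + t' : ℕ) : ℤ) + 1 ≤ ((t' : ℤ) + 1) * ((n : ℤ) + 1) := by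
          push_cast
          nlinarith [Int.natCast_nonneg n, Int.natCast_nonneg t']
        have h5 : (((n + t' : ℕ) : ℤ) + 1) ^ (s'.card - 1) ≤
            (((t' : ℤ) + 1) * ((n : ℤ) + 1)) ^ (s'.card - 1) :=
          pow_le_pow_left₀ (by positivity) h4 _
        have h6 : C * (((n + t' : ℕ) : ℤ) + 1) ^ (s'.card - 1) ≤
            C * ((t' : ℤ) + 1) ^ (s'.card - 1) * ((n : ℤ) + 1) ^ (s'.card - 1) := by
          rw [mul_assoc, ← mul_pow]
          exact mul_le_mul_of_nonneg_left h5 hC0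
        linarith)
    refine ⟨C', Filter.Eventually.of_forall fun n => ?_⟩
    rw [hcard, Nat.add_sub_cancel]
    exact hC' n

end Pool.Agent.Lib.MP_776403_ag.SD
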