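import Pool.Agent.Lib.MP_776403_ag.SD.SpecN

/-!
# THEOREM SD, Lemma N: the formal counting

Everything is done with functions on the natural numbers and eventual equalities.  With
`s_i` = the complement of the first `i` values of `f`, the function `h i j` is, for `i ≤ q`,
eventually the sum of the `H (m - ∑ d)` over the `j`-element subsets of `s_i` (the factors
`1 + u X ^ d` are cancelled one after the other).  The last step is a telescoping sum.
-/

set_option autoImplicit false

open MvPolynomial

noncomputable section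

namespace Pool.Agent.Lib.MP_776403_ag.SD

namespace NPowAux

/-- The elements which are not among the first `i` values of `f`. -/
def rest {c q : ℕ} (f : Fin q → Fin c) (i : ℕ) : Finset (Fin c) :=
  Finset.univ.filter (fun x => ∀ l : Fin q, (l : ℕ) < i → f l ≠ x)

theorem mem_rest {c q : ℕ} {f : Fin q → Fin c} {i : ℕ} {x : Fin c} :
    x ∈ rest f i ↔ ∀ l : Fin q, (l : ℕ) < i → f l ≠ x := by
  simp [rest]

theorem rest_zero {c q : ℕ} (f : Fin q → Fin c) : rest f 0 = Finset.univ := by
  ext x
  simp [mem_rest]

theorem rest_last {c q : ℕ} (f : Fin q → Fin c) :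
    rest f q = (Finset.univ : Finset (Fin c)) \ Finset.univ.image f := by
  ext x
  simp [mem_rest]

theorem rest_step {c q : ℕ} {f : Fin q → Fin c} (hf : Function.Injective f) {i : ℕ}
    (hi : i < q) : rest f i = insert (f ⟨i, hi⟩) (rest f (i + 1)) ∧
      f ⟨i, hi⟩ ∉ rest f (i + 1) := by
  constructor
  · ext x
    rw [Finset.mem_insert, mem_rest, mem_rest]
    constructor
    · intro h
      by_cases hx : x = f ⟨i, hi⟩
      · exact Or.inl hx
      · refine Or.inr (fun l hl => ?_)
        rcases Nat.lt_succ_iff_lt_or_eq.1 hl with h1 | h1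
        · exact h l h1
        · have h2 : l = ⟨i, hi⟩ := Fin.ext h1
          rw [h2]
          exact fun h3 => hx h3.symm
    · rintro (rfl | h) l hl
      · intro h1
        have h2 := congrArg Fin.val (hf h1)
        simp only at h2
        omega
      · exact h l (Nat.lt_succ_of_lt hl)
  · intro h
    exact mem_rest.1 h ⟨i, hi⟩ (Nat.lt_succ_self i) rfl

theorem ev_sub {P : ℕ → Prop} (e : ℕ) (h : ∀ᶠ m : ℕ in Filter.atTop, P m) :
    ∀ᶠ m : ℕ in Filter.atTop, P (m - e) :=
  (Filter.tendsto_sub_atTop_nat e).eventually h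

/-- Splitting of the sum over the subsets with `j + 1` elements. -/
theorem split {c : ℕ} (d : Fin c → ℕ) (H : ℕ → ℤ) (x : Fin c) (t : Finset (Fin c))
    (hx : x ∉ t) (j m : ℕ) :
    ∑ A ∈ Finset.powersetCard (j + 1) (insert x t), H (m - ∑ l ∈ A, d l) =
      ∑ A ∈ Finset.powersetCard (j + 1) t, H (m - ∑ l ∈ A, d l) +
        ∑ A ∈ Finset.powersetCard j t, H (m - d x - ∑ l ∈ A, d l) := by
  classical
  have hn : ∀ (k : ℕ), ∀ A ∈ Finset.powersetCard k t, x ∉ A := fun k A hA h =>
    hx ((Finset.mem_powersetCard.1 hA).1 h)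
  rw [Finset.powersetCard_succ_insert hx, Finset.sum_union, Finset.sum_image]
  · congr 1
    refine Finset.sum_congr rfl (fun A hA => ?_)
    rw [Finset.sum_insert (hn j A hA), Nat.sub_sub]
  · intro A hA B hB hAB
    have h1 := congrArg (fun s => Finset.erase s x) hAB
    simp only [Finset.erase_insert (hn j A hA), Finset.erase_insert (hn j B hB)] at h1
    exact h1
  · rw [Finset.disjoint_left]
    intro A hA hA'
    obtain ⟨B, _, rfl⟩ := Finset.mem_image.1 hA'
    exact hn (j + 1) _ hA (Finset.mem_insert_self x B)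

/-- The telescoping sum. -/
theorem tele (a b : ℕ → ℤ) (p : ℕ) (h0 : a 0 = b 0) (h1 : ∀ j < p, a (j + 1) = b (j + 1) + b j) :
    ∑ j ∈ Finset.range (p + 1), (-1) ^ j * a j = (-1) ^ p * b p := by
  induction p with
  | zero => simp [h0]
  | succ p ih =>
    rw [Finset.sum_range_succ, ih (fun j hj => h1 j (Nat.lt_succ_of_lt hj)),
      h1 p (Nat.lt_succ_self p), pow_succ]
    ring

end NPowAux

open NPowAux in
theorem nPow : S_NPow := by
  intro c q d f δ H h hf hδ h0 hrec hz hend
  have hrec' : ∀ i ≤ q, ∀ j, ∀ᶠ m : ℕ in Filter.atTop,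
      h i (j + 1) m = h (i + 1) (j + 1) m + h (i + 1) j (m - δ i) := by
    intro i hi j
    filter_upwards [ev_sub (δ i) (hrec i hi j), Filter.eventually_ge_atTop (δ i)] with m h1 h2
    rwa [Nat.sub_add_cancel h2] at h1
  have key : ∀ i, i ≤ q → ∀ j, ∀ᶠ m : ℕ in Filter.atTop, h i j m =
      ∑ A ∈ Finset.powersetCard j (rest f i), H (m - ∑ l ∈ A, d l) := by
    intro i
    induction i with
    | zero =>
      intro _ j
      rw [rest_zero]
      exact h0 j
    | succ i ih =>
      intro hi j
      have hi' : i < q := hi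
      obtain ⟨hins, hnot⟩ := rest_step hf hi'
      induction j with
      | zero =>
        filter_upwards [ih hi'.le 0, hz i hi'.le] with m h1 h2
        rw [← h2, h1, Finset.powersetCard_zero, Finset.powersetCard_zero]
      | succ j ihj =>
        filter_upwards [ih hi'.le (j + 1), hrec' i hi'.le j, ev_sub (δ i) ihj] with m h1 h2 h3
        have h4 := split d H (f ⟨i, hi'⟩) (rest f (i + 1)) hnot j m
        rw [← hins, ← hδ ⟨i, hi'⟩] at h4
        simp only at h4
        rw [h1, h3, h4] at h2
        linarith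
  rw [← rest_last f]
  set s := rest f q with hs
  have hcard : c < q + 1 + s.card := by
    have h1 : (Finset.univ : Finset (Fin c)).card ≤
        ((Finset.univ : Finset (Fin c)) \ Finset.univ.image f).card +
          ((Finset.univ : Finset (Fin q)).image f).card := Finset.card_le_card_sdiff_add_card
    have h2 : ((Finset.univ : Finset (Fin q)).image f).card ≤ (Finset.univ : Finset (Fin q)).card :=
      Finset.card_image_le
    rw [← rest_last f, ← hs, Finset.card_univ, Fintype.card_fin] at h1
    rw [Finset.card_univ (α := Fin q), Fintype.card_fin] at h2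
    omega
  have hA : ∀ᶠ m : ℕ in Filter.atTop, ∀ j ∈ Finset.range (s.card + 1),
      h q j (m - δ q * (s.card - j)) =
        ∑ A ∈ Finset.powersetCard j s, H (m - δ q * (s.card - j) - ∑ l ∈ A, d l) := by
    rw [Filter.eventually_all_finset]
    intro j _
    exact ev_sub (δ q * (s.card - j)) (key q le_rfl j)
  have hB : ∀ᶠ m : ℕ in Filter.atTop, ∀ j ∈ Finset.range s.card,
      h q (j + 1) (m - δ q * (s.card - (j + 1))) =
        h (q + 1) (j + 1) (m - δ q * (s.card - (j + 1))) +
          h (q + 1) j (m - δ q * (s.card - (j + 1)) - δ q) := by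
    rw [Filter.eventually_all_finset]
    intro j _
    exact ev_sub (δ q * (s.card - (j + 1))) (hrec' q le_rfl j)
  filter_upwards [hA, hB, ev_sub (δ q * (s.card - 0)) (hz q le_rfl), hend s.card hcard]
    with m h1 h2 h3 h4
  have h5 := tele (fun j => h q j (m - δ q * (s.card - j)))
    (fun j => h (q + 1) j (m - δ q * (s.card - j))) s.card h3 (by
      intro j hj
      have h6 := h2 j (Finset.mem_range.2 hj)
      rw [Nat.sub_sub] at h6
      have h7 : δ q * (s.card - (j + 1)) + δ q = δ q * (s.card - j) := by
        have h8 : s.card - j = (s.card - (j + 1)) + 1 := by omega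
        rw [h8, Nat.mul_add, Nat.mul_one]
      rw [h7] at h6
      exact h6)
  rw [Nat.sub_self, Nat.mul_zero, Nat.sub_zero, h4, mul_zero] at h5
  rw [Finset.sum_powerset, ← h5]
  refine Finset.sum_congr rfl (fun j hj => ?_)
  rw [h1 j hj, Finset.mul_sum]
  refine Finset.sum_congr rfl (fun A hA => ?_)
  obtain ⟨hAs, hAc⟩ := Finset.mem_powersetCard.1 hA
  rw [Finset.card_sdiff_of_subset hAs, hAc, Nat.sub_sub, Nat.sub_sub, Nat.add_comm]

end Pool.Agent.Lib.MP_776403_ag.SD
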