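import Pool.Agent.Lib.MP_776403_ag.SD.Defs

/-!
# THEOREM SD: interfaces between the parts (note 4385 on MP_776403_ag)

* `S_N` (helper60): numerical lemma N.
* `S_Line` (helper7): the variety of the lines through a point.
* `S_A` (helper7): step A.
* `S_B` (helper44): step B.
* `S_Krull` (helper44): (D2), Krull's height theorem in graded form.
* `S_Dim1`, `S_Meet` (helper44): (D1), (D5).
-/

set_option autoImplicit false

open MvPolynomial

noncomputable section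

namespace Pool.Agent.Lib.MP_776403_ag.SD

variable {N : ℕ}

/-- The conormal space of `X` at `y`. -/
def CN (I : Ideal (Sx N)) (y : Vx N) : Submodule ℂ (Vx N) :=
  Submodule.span ℂ {u | ∃ F ∈ I, u = grad F y}

/-- `sig` (a function on the punctured cone of `J`) is a section of `N_X^*(del)` over the variety
of `J`. -/
def IsSect (I J : Ideal (Sx N)) (del : ℕ) (sig : Vx N → Vx N) : Prop :=
  ∀ y ∈ zer J, y ≠ 0 → sig y ∈ CN I y ∧
    ∃ (P : Fin (N + 1) → Sx N) (Q : Sx N) (e : ℕ), (∀ l, (P l).IsHomogeneous (e + del - 1)) ∧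
      Q.IsHomogeneous e ∧ eval y Q ≠ 0 ∧
      ∀ z ∈ zer J, z ≠ 0 → ∀ l, sig z l * eval z Q = eval z (P l)

/-- NUMERICAL LEMMA N (section 5 of note 4385): `q + 1` sections `sig i` of `N_X^*(del i)` over the
variety of `J`, independent at every point, the degrees of the first `q` are among the `d j`
(`f` injective), the last one is none of the other `d j`.  Then `dim J ≤ c - q`. -/
def S_N : Prop :=
  ∀ (N c : ℕ) (d : Fin c → ℕ) (I : Ideal (Sx N)), Hyp I d →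
  ∀ J : Ideal (Sx N), J.IsPrime → IsHom J → I ≤ J →
  ∀ (q : ℕ) (sig : Fin (q + 1) → (Vx N → Vx N)) (del : Fin (q + 1) → ℕ) (f : Fin q → Fin c),
    (∀ i, IsSect I J (del i) (sig i)) → (∀ i, 1 ≤ del i) →
    (∀ y ∈ zer J, y ≠ 0 → LinearIndependent ℂ (fun i => sig i y)) →
    Function.Injective f → (∀ i, del (Fin.castSucc i) = d (f i)) →
    (∀ j, j ∉ Set.range f → d j ≠ del (Fin.last q)) → ¬ DimGe J (c - q + 1)

/-- Through a line `span (x, v0)` in `X` there is a family of lines through `x` in `X` of dimension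
`≥ N - 1 - a`: `P` is the ideal of (a component of) the cone over it. -/
def S_Line : Prop :=
  ∀ (N c : ℕ) (d : Fin c → ℕ) (I : Ideal (Sx N)), Hyp I d → ∀ x v0 : Vx N, IsLine I x v0 →
    ∃ P : Ideal (Sx N), P.IsPrime ∧ IsHom P ∧ I ≤ P ∧ DimGe P (N + 1 - ∑ i, d i) ∧
      ∀ z ∈ zer P, ∀ s t : ℂ, s • x + t • z ∈ zer I

/-- STEP A (section 6 of note 4385). -/
def S_A : Prop :=
  ∀ (N c : ℕ) (d : Fin c → ℕ) (I : Ideal (Sx N)), Hyp I d → ∀ (K : ℕ) (G : Fin c → Sx N),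
    1 ≤ K → Data I d K G → PL I d K G → PL I d (K + 1) G

/-- STEP B (section 7 of note 4385). -/
def S_B : Prop :=
  ∀ (N c : ℕ) (d : Fin c → ℕ) (I : Ideal (Sx N)), Hyp I d → ∀ (K : ℕ) (G : Fin c → Sx N),
    1 ≤ K → Data I d K G → PL I d (K + 1) G →
    ∃ G' : Fin c → Sx N, (∀ i, d i ≤ K → G' i = G i) ∧ Data I d (K + 1) G'

/-- The maximal ideal of the point `z`. -/
def ptI {σ : Type} (z : σ → ℂ) : Ideal (MvPolynomial σ ℂ) := RingHom.ker (eval z)

/-- `J` is homogeneous for the weights `w`. -/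
def IsWH {σ : Type} (w : σ → ℕ) (J : Ideal (MvPolynomial σ ℂ)) : Prop :=
  ∀ F ∈ J, ∀ m : ℕ, weightedHomogeneousComponent w m F ∈ J

/-- (D2) Krull's height theorem: `J` is generated near its zero `z` by `g` elements. -/
def S_Krull : Prop :=
  ∀ (σ : Type) [Fintype σ] (w : σ → ℕ) (J : Ideal (MvPolynomial σ ℂ)) (z : σ → ℂ) (g : ℕ)
    (b : Fin g → MvPolynomial σ ℂ), IsWH w J → J ≤ ptI z → (∀ i, b i ∈ J) →
    J ≤ Ideal.span (Set.range b) ⊔ ptI z * J →
    ∃ P : Ideal (MvPolynomial σ ℂ), P.IsPrime ∧ J ≤ P ∧ P ≤ ptI z ∧ IsWH w P ∧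
      ∃ y : Fin (Fintype.card σ - g) → MvPolynomial σ ℂ ⧸ P, AlgebraicIndependent ℂ y

/-- (D3) if the variables `inr` are, modulo `P`, fractions of polynomials in the variables `inl`,
then the dimension of `P` is attained by variables `inl`. -/
def S_Frac : Prop :=
  ∀ (N : ℕ) (τ : Type) [Fintype τ] (P : Ideal (MvPolynomial (Fin (N + 1) ⊕ τ) ℂ)) (D : ℕ)
    (y : Fin D → MvPolynomial (Fin (N + 1) ⊕ τ) ℂ ⧸ P), P.IsPrime → AlgebraicIndependent ℂ y →
    (∀ s : τ, ∃ g h : Sx N, rename Sum.inl g ∉ P ∧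
      rename Sum.inl g * X (Sum.inr s) - rename Sum.inl h ∈ P) →
    DimGe (P.comap (rename (R := ℂ) (Sum.inl : Fin (N + 1) → Fin (N + 1) ⊕ τ)).toRingHom) D

/-- (D5) the projective dimension theorem. -/
def S_Meet : Prop :=
  ∀ (N : ℕ) (P P' : Ideal (Sx N)) (D D' : ℕ), P.IsPrime → P'.IsPrime → IsHom P → IsHom P' →
    DimGe P D → DimGe P' D' → N + 2 ≤ D + D' → ∃ z : Vx N, z ≠ 0 ∧ z ∈ zer P ∧ z ∈ zer P'

/-- (D6) a homogeneous ideal whose only zero is the origin contains all forms of large degree. -/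
def S_Irr : Prop :=
  ∀ (N : ℕ) (b : Ideal (Sx N)), IsHom b → (∀ z ∈ zer b, z = 0) →
    ∃ r : ℕ, ∀ m ≥ r, ∀ F : Sx N, F.IsHomogeneous m → F ∈ b

/-- (D7) a polynomial that vanishes on the zero set of a prime homogeneous ideal is in it; for
forms it is enough that it vanishes on the punctured cone, if this is not empty. -/
def S_Null : Prop :=
  ∀ (N : ℕ) (P : Ideal (Sx N)), P.IsPrime → IsHom P →
    (∀ F : Sx N, (∀ z ∈ zer P, eval z F = 0) → F ∈ P) ∧
    ((∃ z ∈ zer P, z ≠ 0) → ∀ (F : Sx N) (m : ℕ), F.IsHomogeneous m →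
      (∀ z ∈ zer P, z ≠ 0 → eval z F = 0) → F ∈ P)

/-! ## Sections on lines (used in steps A and B) -/

/-- The value of `s` (degree `< n`) at the point `σ x + τ v` of the line. -/
def hval (s : Fin (N + 1) → Polynomial ℂ) (n : ℕ) (σ τ : ℂ) : Vx N :=
  fun i => ∑ j ∈ Finset.range n, (s i).coeff j * σ ^ (n - 1 - j) * τ ^ j

/-- The span of the differentials of the `G i`, `d i ≤ K`, at `y`. -/
def GS {c : ℕ} (d : Fin c → ℕ) (K : ℕ) (G : Fin c → Sx N) (y : Vx N) : Submodule ℂ (Vx N) :=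
  Submodule.span ℂ {u | ∃ i, d i ≤ K ∧ u = grad (G i) y}

/-- (L1) a section on a line with values in the span of the `grad (G i)` is a combination of the
`grad (G i)` (Cramer's rule; the `grad (G i)` are independent at all points of the line). -/
def S_L1 : Prop :=
  ∀ (N c : ℕ) (d : Fin c → ℕ) (I : Ideal (Sx N)), Hyp I d → ∀ (K : ℕ) (G : Fin c → Sx N),
    Data I d K G → ∀ x v : Vx N, IsLine I x v → ∀ (n : ℕ), ∀ s ∈ Sec I x v n,
    (∀ t : ℂ, (fun i => (s i).eval t) ∈ GS d K G (x + t • v)) →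
    ∃ L : Fin c → Polynomial ℂ, (∀ i, L i ∈ Polynomial.degreeLT ℂ (n + 1 - d i)) ∧
      (∀ i, K < d i → L i = 0) ∧ s = ∑ i, fun k => L i * gradL x v (G i) k

/-- (L3), (L3') `K' = K` or `K' = K + 1`: if `PL K'` holds and a section of `N_X^*(K')` on a line
has, at one point of the line, its value in the span of the `grad (G i)`, `d i ≤ K`, then it is a
combination of the `grad (G i)`. -/
def S_L3 : Prop :=
  ∀ (N c : ℕ) (d : Fin c → ℕ) (I : Ideal (Sx N)), Hyp I d → ∀ (K K' : ℕ) (G : Fin c → Sx N),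
    1 ≤ K → (K' = K ∨ K' = K + 1) → Data I d K G → PL I d K' G →
    ∀ x v : Vx N, IsLine I x v → ∀ s ∈ Sec I x v K', ∀ σ τ : ℂ, (σ ≠ 0 ∨ τ ≠ 0) →
    hval s K' σ τ ∈ GS d K G (σ • x + τ • v) →
    ∃ L : Fin c → Polynomial ℂ, (∀ i, L i ∈ Polynomial.degreeLT ℂ (K' + 1 - d i)) ∧
      (∀ i, K < d i → L i = 0) ∧ s = ∑ i, fun k => L i * gradL x v (G i) k

/-- The values of a section are conormal vectors, also at `t = ∞`. -/
def S_SecVal : Prop :=
  ∀ (N c : ℕ) (I : Ideal (Sx N)), I.IsPrime → IsHom I → Smooth I c → ∀ x v : Vx N,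
    IsLine I x v → ∀ (n : ℕ) (s : Fin (N + 1) → Polynomial ℂ),
    (∀ i, s i ∈ Polynomial.degreeLT ℂ n) →
    (s ∈ Sec I x v n ↔ ∀ σ τ : ℂ, (σ ≠ 0 ∨ τ ≠ 0) → hval s n σ τ ∈ CN I (σ • x + τ • v))

/-- `T(y) = CN(y)^⊥`, and the conormal space has dimension `c`. -/
def S_Perp : Prop :=
  ∀ (N c : ℕ) (I : Ideal (Sx N)), I.IsPrime → IsHom I → Smooth I c → ∀ y ∈ zer I, y ≠ 0 →
    Module.finrank ℂ (CN I y) = c ∧ (∀ F ∈ I, grad F y ∈ CN I y) ∧
    (∀ u ∈ CN I y, ∃ F ∈ I, u = grad F y) ∧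
    ∀ u : Vx N, (∀ w ∈ TF I, (∀ m : ℕ, (∀ i, (w i).IsHomogeneous m) →
      ∑ i, u i * eval y (w i) = 0)) → u ∈ CN I y

/-- The induction: THEOREM SD from steps A and B. -/
def S_Ind : Prop := S_A → S_B → S_SD

end Pool.Agent.Lib.MP_776403_ag.SD
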