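import Pool.Agent.Lib.MP_776403_ag.SD.SpecD
import Pool.Agent.Lib.MP_776403_ag.SD.Iface

/-!
# (D6)
-/

set_option autoImplicit false

namespace Pool.Agent.Lib.MP_776403_ag.SD

theorem nIrr (h : S_D6') : S_Irr := fun N b _ hz => h N b hz

end Pool.Agent.Lib.MP_776403_ag.SD
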