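import Pool.Agent.Lib.MP_776403_ag.SD.SpecN

set_option autoImplicit false

namespace Pool.Agent.Lib.MP_776403_ag.SD

open MvPolynomial

/-- growth of binomial coefficients (helper41) -/
theorem nBin : S_NBin := by
  intro p C hp
  have h0 : ∀ᶠ m : ℕ in Filter.atTop, C * (p.factorial : ℤ) < (m : ℤ) + 1 := by
    refine Filter.eventually_atTop.2 ⟨(C * (p.factorial : ℤ)).toNat, fun m hm => ?_⟩
    have h1 := Int.self_le_toNat (C * (p.factorial : ℤ))
    have h2 : (((C * (p.factorial : ℤ)).toNat : ℕ) : ℤ) ≤ (m : ℤ) := by exact_mod_cast hm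
    omega
  filter_upwards [h0] with m hm
  have h1 : (m + 1) ^ p ≤ p.factorial * Nat.choose (m + p) p := by
    have h2 := Nat.pow_sub_le_descFactorial (m + p) p
    rw [Nat.descFactorial_eq_factorial_mul_choose] at h2
    have h3 : m + p + 1 - p = m + 1 := by omega
    rwa [h3] at h2
  have h2 : ((m : ℤ) + 1) ^ p ≤ (p.factorial : ℤ) * (Nat.choose (m + p) p : ℤ) := by
    exact_mod_cast h1
  have h3 : ((m : ℤ) + 1) ^ p = ((m : ℤ) + 1) ^ (p - 1) * ((m : ℤ) + 1) := by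
    rw [← pow_succ]
    congr 1
    omega
  have h4 : (0 : ℤ) < ((m : ℤ) + 1) ^ (p - 1) := by positivity
  have h5 : (0 : ℤ) < (p.factorial : ℤ) := by exact_mod_cast p.factorial_pos
  have h6 : (p.factorial : ℤ) * (C * ((m : ℤ) + 1) ^ (p - 1)) <
      (p.factorial : ℤ) * (Nat.choose (m + p) p : ℤ) := by
    calc (p.factorial : ℤ) * (C * ((m : ℤ) + 1) ^ (p - 1))
        = ((m : ℤ) + 1) ^ (p - 1) * (C * (p.factorial : ℤ)) := by ring
      _ < ((m : ℤ) + 1) ^ (p - 1) * ((m : ℤ) + 1) := mul_lt_mul_of_pos_left hm h4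
      _ = ((m : ℤ) + 1) ^ p := h3.symm
      _ ≤ _ := h2
  exact lt_of_mul_lt_mul_left h6 h5.le

end Pool.Agent.Lib.MP_776403_ag.SD
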