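import Pool.Agent.Lib.MP_776403_ag.SD.SpecN

/-!
# THEOREM SD, Lemma N: from sections as functions to sections over `K` (helper73)
-/

set_option autoImplicit false

open MvPolynomial

noncomputable section

namespace Pool.Agent.Lib.MP_776403_ag.SD

namespace NCnvAux

variable {N : ℕ}

/-- Two local representations of a section are proportional over `K`. -/
private theorem cmp (h1 : S_Null) {K : Type} [Field K] [Algebra ℂ K] {J : Ideal (Sx N)}
    {π : Sx N →ₐ[ℂ] K} (hJ : J.IsPrime) (hJh : IsHom J) (hπ : ∀ F, π F = 0 ↔ F ∈ J)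
    (hne : ∃ y ∈ zer J, y ≠ 0) {s : Vx N → ℂ} {P P' Q Q' : Sx N} {e e' d : ℕ} (hd : 1 ≤ d)
    (hP : P.IsHomogeneous (e + d - 1)) (hP' : P'.IsHomogeneous (e' + d - 1)) (hQ : Q.IsHomogeneous e)
    (hQ' : Q'.IsHomogeneous e') (h : ∀ z ∈ zer J, z ≠ 0 → s z * eval z Q = eval z P)
    (h' : ∀ z ∈ zer J, z ≠ 0 → s z * eval z Q' = eval z P') : π Q' * π P = π Q * π P' := by
  have k1 : (Q' * P - Q * P').IsHomogeneous (e' + (e + d - 1)) := by
    refine (hQ'.mul hP).sub ?_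
    have k2 : e' + (e + d - 1) = e + (e' + d - 1) := by omega
    rw [k2]
    exact hQ.mul hP'
  have k3 : Q' * P - Q * P' ∈ J := by
    refine (h1 N J hJ hJh).2 hne _ _ k1 fun z hz hz0 => ?_
    rw [map_sub, map_mul, map_mul, ← h z hz hz0, ← h' z hz hz0]
    ring
  have k4 := (hπ _).2 k3
  rw [map_sub, map_mul, map_mul] at k4
  exact sub_eq_zero.1 k4

end NCnvAux

theorem nCnv (h1 : S_Null) (h2 : S_NRk) (h3 : S_NSpc) : S_NCnv := by
  intro N c K _ _ I J π hI hIh hS hJ hJh hIJ hπ hne Q sig del hsec hdel hind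
  obtain ⟨hrk, hmem⟩ := h2 N c K I J π hI hIh hS hJ hJh hIJ hπ hne
  obtain ⟨y0, hy0, hy00⟩ := hne
  have hne : ∃ y ∈ zer J, y ≠ 0 := ⟨y0, hy0, hy00⟩
  choose P Qd e hP hQd hQ0 hrep using fun i => (hsec i y0 hy0 hy00).2
  have hπQ : ∀ i, π (Qd i) ≠ 0 := by
    intro i h0
    exact hQ0 i (hy0 _ ((hπ _).1 h0))
  obtain ⟨σ, hσ⟩ : ∃ σ : ℕ → Fin (N + 1) → K, ∀ i : Fin Q, ∀ b, σ i b = π (P i b) / π (Qd i) := by
    refine ⟨fun l b => if h : l < Q then π (P ⟨l, h⟩ b) / π (Qd ⟨l, h⟩) else 0, fun i b => ?_⟩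
    simp only [i.2, dite_true]
  obtain ⟨δ, hδ⟩ : ∃ δ : ℕ → ℕ, ∀ i : Fin Q, δ i = del i := by
    refine ⟨fun l => if h : l < Q then del ⟨l, h⟩ else 0, fun i => ?_⟩
    simp only [i.2, dite_true]
  have hσ' : ∀ i : Fin Q, σ i = (π (Qd i))⁻¹ • fun b => π (P i b) := by
    intro i
    funext b
    rw [hσ, Pi.smul_apply, smul_eq_mul, div_eq_inv_mul]
  refine ⟨σ, δ, hδ, ⟨hI, hIh, hS, hJ, hJh, hIJ, hπ, hrk, fun l hl => ?_, fun l hl => ?_, ?_, ?_⟩⟩
  · have := hσ' ⟨l, hl⟩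
    rw [this]
    refine Submodule.smul_mem _ _ (hmem (P ⟨l, hl⟩) _ (hP ⟨l, hl⟩) fun z hz hz0 => ?_)
    have e1 : (fun b => eval z (P ⟨l, hl⟩ b)) = eval z (Qd ⟨l, hl⟩) • sig ⟨l, hl⟩ z := by
      funext b
      rw [← hrep ⟨l, hl⟩ z hz hz0 b, Pi.smul_apply, smul_eq_mul, mul_comm]
    rw [e1]
    exact Submodule.smul_mem _ _ (hsec ⟨l, hl⟩ z hz hz0).1
  · rw [hδ ⟨l, hl⟩]
    exact hdel _
  · have k1 : LinearIndependent K (fun l : Fin Q => fun b => π (P l b)) := by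
      refine (h3 N K J π hJ hJh hπ hne Q P _ hP).2 ⟨y0, hy0, hy00, ?_⟩
      have k2 := (hind y0 hy0 hy00).units_smul fun l => Units.mk0 (eval y0 (Qd l)) (hQ0 l)
      have k3 : (fun l : Fin Q => fun b => eval y0 (P l b)) =
          (fun l => Units.mk0 (eval y0 (Qd l)) (hQ0 l)) • fun i => sig i y0 := by
        funext l b
        rw [← hrep l y0 hy0 hy00 b, Pi.smul_apply', Units.smul_def, Units.val_mk0, Pi.smul_apply,
          smul_eq_mul, mul_comm]
      rw [k3]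
      exact k2
    have k2 := k1.units_smul fun l => Units.mk0 (π (Qd l))⁻¹ (inv_ne_zero (hπQ l))
    have k3 : (fun l : Fin Q => σ l) =
        (fun l => Units.mk0 (π (Qd l))⁻¹ (inv_ne_zero (hπQ l))) • fun l : Fin Q => fun b => π (P l b) := by
      funext l
      rw [hσ' l]
      rfl
    rw [k3]
    exact k2
  · intro y hy hyne
    choose P' Q' e' hP' hQ' hQ0' hrep' using fun i => (hsec i y hy hyne).2
    classical
    obtain ⟨τ, hτ⟩ : ∃ τ : ℕ → Fin (N + 1) → Sx N, ∀ i : Fin Q, ∀ b,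
        τ i b = (∏ j ∈ Finset.univ.erase i, Q' j) * P' i b := by
      refine ⟨fun l b => if h : l < Q then (∏ j ∈ Finset.univ.erase ⟨l, h⟩, Q' j) * P' ⟨l, h⟩ b else 0,
        fun i b => ?_⟩
      simp only [i.2, dite_true]
    have hsum : ∀ i : Fin Q, e' i + ∑ j ∈ Finset.univ.erase i, e' j = ∑ j, e' j := fun i =>
      Finset.add_sum_erase _ _ (Finset.mem_univ i)
    have hprod : ∀ i : Fin Q, Q' i * ∏ j ∈ Finset.univ.erase i, Q' j = ∏ j, Q' j := fun i =>
      Finset.mul_prod_erase _ _ (Finset.mem_univ i)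
    have hg0 : eval y (∏ j, Q' j) ≠ 0 := by
      rw [map_prod]
      exact Finset.prod_ne_zero_iff.2 fun j _ => hQ0' j
    refine ⟨∏ j, Q' j, ∑ j, e' j, τ, IsHomogeneous.prod _ _ _ fun j _ => hQ' j, hg0, fun l hl b => ?_, ?_⟩
    · obtain ⟨i, hi⟩ : ∃ i : Fin Q, l = i := ⟨⟨l, hl⟩, rfl⟩
      subst hi
      constructor
      · rw [hτ, hδ]
        have k1 : ∑ j, e' j + del i - 1 = ∑ j ∈ Finset.univ.erase i, e' j + (e' i + del i - 1) := by
          have := hsum i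
          have := hdel i
          omega
        rw [k1]
        exact (IsHomogeneous.prod _ _ _ fun j _ => hQ' j).mul (hP' i b)
      · rw [hτ, hσ, map_mul, ← hprod i, map_mul]
        have k1 := NCnvAux.cmp h1 hJ hJh hπ hne (s := fun z => sig i z b) (hdel i) (hP i b) (hP' i b)
          (hQd i) (hQ' i) (fun z hz hz0 => hrep i z hz hz0 b) (fun z hz hz0 => hrep' i z hz hz0 b)
        have k2 : π (Q' i) * (π (P i b) / π (Qd i)) = π (P' i b) := by
          rw [← mul_div_assoc, k1, mul_div_cancel_left₀ _ (hπQ i)]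
        rw [mul_right_comm, k2, mul_comm]
    · have k2 := (hind y hy hyne).units_smul fun _ : Fin Q => Units.mk0 (eval y (∏ j, Q' j)) hg0
      have k3 : (fun l : Fin Q => fun b => eval y (τ l b)) =
          (fun _ : Fin Q => Units.mk0 (eval y (∏ j, Q' j)) hg0) • fun i => sig i y := by
        funext l b
        rw [Pi.smul_apply', Units.smul_def, Units.val_mk0, Pi.smul_apply, smul_eq_mul, hτ, map_mul,
          ← hrep' l y hy hyne b, ← hprod l, map_mul]
        ring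
      rw [k3]
      exact k2

end Pool.Agent.Lib.MP_776403_ag.SD
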