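import Pool.Agent.Lib.MP_776403_ag.SD.SpecN

/-!
# NCon: contraction of products of gradients with a vector of forms (helper61)
-/

set_option autoImplicit false

open MvPolynomial

noncomputable section

namespace Pool.Agent.Lib.MP_776403_ag.SD

variable {N : ℕ} {K : Type} [Field K] [Algebra ℂ K]

namespace NConAux

private theorem con_smulC (φ : Fin (N + 1) → K) (r : ℂ) (w : Om (N + 1) K) :
    con φ (r • w) = r • con φ w := by
  rw [← algebraMap_smul K r w, map_smul, algebraMap_smul]

/-- the gradient of a form of degree zero -/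
private theorem gk_zero (π : Sx N →ₐ[ℂ] K) {F : Sx N} (h : F.IsHomogeneous 0) : gk π F = 0 := by
  have h1 : F.totalDegree = 0 := (totalDegree_zero_iff_isHomogeneous _).2 h
  have h2 := (totalDegree_eq_zero_iff_eq_C (p := F)).1 h1
  funext i
  show π (pderiv i F) = 0
  rw [h2, pderiv_C, map_zero]

private theorem wdg_eq_zero (π : Sx N →ₐ[ℂ] K) (L : List (Sx N × ℕ))
    (h : ∃ x ∈ L, gk π x.1 = 0) : wdg (L.map fun x => gk π x.1) = 0 := by
  induction L with
  | nil =>
    obtain ⟨x, hx, -⟩ := h
    exact absurd hx List.not_mem_nil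
  | cons y L ih =>
    rw [List.map_cons, wdg_cons]
    obtain ⟨x, hx, h0⟩ := h
    rcases List.mem_cons.1 hx with rfl | hx
    · rw [h0, wed_zero_left]
    · rw [ih ⟨x, hx, h0⟩, map_zero]

private theorem claim (I : Ideal (Sx N)) (π : Sx N →ₐ[ℂ] K) (E : ℕ) (φ : Fin (N + 1) → Sx N)
    (hφ : ∀ b, (φ b).IsHomogeneous E) (L : List (Sx N × ℕ)) :
    (∀ x ∈ L, x.1 ∈ I ∧ x.1.IsHomogeneous x.2) → (∀ x ∈ L, 1 ≤ x.2) → ∀ j m : ℕ,
    L.length = j + 1 → (L.map Prod.snd).sum = m + 1 →
    con (fun b => π (φ b)) (wdg (L.map fun x => gk π x.1)) ∈ Lm I π j (m + E) := by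
  induction L with
  | nil =>
    intro _ _ j m h
    simp at h
  | cons y L ih =>
    intro hL h1 j m hlen hsum
    rw [List.length_cons] at hlen
    rw [List.map_cons, List.sum_cons] at hsum
    have hy := hL y List.mem_cons_self
    have hy1 := h1 y List.mem_cons_self
    have hL' : ∀ x ∈ L, x.1 ∈ I ∧ x.1.IsHomogeneous x.2 := fun x hx =>
      hL x (List.mem_cons_of_mem _ hx)
    have h1' : ∀ x ∈ L, 1 ≤ x.2 := fun x hx => h1 x (List.mem_cons_of_mem _ hx)
    rw [List.map_cons, wdg_cons, con_wed]
    have hj : L.length = j := by omega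
    refine Submodule.sub_mem _ ?_ ?_
    · have h2 : ∑ b, π (φ b) * gk π y.1 b = π (∑ b, φ b * pderiv b y.1) := by
        rw [map_sum]
        exact Finset.sum_congr rfl fun b _ => (map_mul π _ _).symm
      have h3 : (∑ b, φ b * pderiv b y.1).IsHomogeneous (E + (y.2 - 1)) :=
        IsHomogeneous.sum _ _ _ fun b _ => (hφ b).mul hy.2.pderiv
      have h4 := mem_Lm (π := π) h3 hL'
      rw [h2]
      have h5 : E + (y.2 - 1) + (L.map Prod.snd).sum = m + E := by omega
      rw [h5, hj] at h4
      exact h4
    · rcases Nat.eq_zero_or_pos j with h0 | h0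
      · have hnil : L = [] := List.length_eq_zero_iff.1 (by omega)
        rw [hnil, List.map_nil, wdg_nil, con_eps, map_zero]
        exact Submodule.zero_mem _
      · obtain ⟨x, hx⟩ : ∃ x, x ∈ L := List.exists_mem_of_length_pos (by omega)
        have hs : 1 ≤ (L.map Prod.snd).sum :=
          (h1' x hx).trans (List.single_le_sum (fun _ _ => Nat.zero_le _) _ (List.mem_map_of_mem hx))
        have h2 := ih hL' h1' (j - 1) ((L.map Prod.snd).sum - 1) (by omega) (by omega)
        have h3 := Lm_wed hy.1 hy.2 h2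
        have h4 : j - 1 + 1 = j := by omega
        have h5 : (L.map Prod.snd).sum - 1 + E + y.2 = m + E := by omega
        rw [h4, h5] at h3
        exact h3

end NConAux

open NConAux in
/-- **NCon.** Contraction of products of gradients. -/
theorem nCon : S_NCon := by
  intro N K _ _ I π _ j m E φ hφ η hη
  unfold Lm at hη
  induction hη using Submodule.span_induction with
  | mem z hz =>
    obtain ⟨a, e, L, ha, hlen, hL, hm, rfl⟩ := hz
    rw [map_smul]
    by_cases h1 : ∀ x ∈ L, 1 ≤ x.2
    · obtain ⟨x, hx⟩ : ∃ x, x ∈ L := List.exists_mem_of_length_pos (by omega)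
      have hs : 1 ≤ (L.map Prod.snd).sum :=
        (h1 x hx).trans (List.single_le_sum (fun _ _ => Nat.zero_le _) _ (List.mem_map_of_mem hx))
      have h2 := claim I π E φ hφ L hL h1 j ((L.map Prod.snd).sum - 1) hlen (by omega)
      have h3 := Lm_smul ha h2
      have h4 : (L.map Prod.snd).sum - 1 + E + e = m + E := by omega
      rw [h4] at h3
      exact h3
    · push Not at h1
      obtain ⟨x, hx, h0⟩ := h1
      have h2 : x.1.IsHomogeneous 0 := by
        have h3 := (hL x hx).2
        have h4 : x.2 = 0 := by omega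
        rwa [h4] at h3
      rw [wdg_eq_zero π L ⟨x, hx, gk_zero π h2⟩, map_zero, smul_zero]
      exact Submodule.zero_mem _
  | zero => rw [map_zero]; exact Submodule.zero_mem _
  | add x y _ _ hx hy => rw [map_add]; exact Submodule.add_mem _ hx hy
  | smul r x _ hx => rw [con_smulC]; exact Submodule.smul_mem _ r hx

end Pool.Agent.Lib.MP_776403_ag.SD
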