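import Pool.Agent.Lib.MP_776403_ag.SD.SpecN

/-!
# THEOREM SD, module NCrm: Cramer near a point
-/

set_option autoImplicit false

open MvPolynomial

noncomputable section

namespace Pool.Agent.Lib.MP_776403_ag.SD

namespace NCrmAux

/-- Independent rows have a nonzero maximal minor. -/
theorem exists_minor {c n : ℕ} (A : Fin c → Fin n → ℂ) (h : LinearIndependent ℂ A) :
    ∃ α : Fin c → Fin n, (Matrix.of fun l k => A l (α k)).det ≠ 0 := by
  classical
  have hr : (Matrix.of A).rank = c := by
    have h1 : LinearIndependent ℂ (Matrix.of A).row := h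
    rw [h1.rank_matrix, Fintype.card_fin]
  rw [Matrix.rank_eq_finrank_span_cols] at hr
  have htop : Submodule.span ℂ (Set.range (Matrix.of A).col) = ⊤ := by
    apply Submodule.eq_top_of_finrank_eq
    rw [hr, Module.finrank_fin_fun]
  obtain ⟨κ, a, ha, hsp, hli⟩ := exists_linearIndependent' ℂ (Matrix.of A).col
  have : Finite κ := Finite.of_injective a ha
  have : Fintype κ := Fintype.ofFinite κ
  have hcard : Fintype.card κ = c := by
    have h2 := finrank_span_eq_card hli
    rw [hsp, hr] at h2
    exact h2.symm
  let e : Fin c ≃ κ := (Fintype.equivFinOfCardEq hcard).symm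
  refine ⟨a ∘ e, ?_⟩
  have hli2 : LinearIndependent ℂ ((Matrix.of A).col ∘ a ∘ e) := by
    have := hli.comp e e.injective
    exact this
  have hcol : (Matrix.of fun l k => A l ((a ∘ e) k)).col = (Matrix.of A).col ∘ a ∘ e := rfl
  have hu : IsUnit (Matrix.of fun l k => A l ((a ∘ e) k)) := by
    rw [← Matrix.linearIndependent_cols_iff_isUnit, hcol]
    exact hli2
  rw [Matrix.isUnit_iff_isUnit_det] at hu
  exact hu.ne_zero

/-- The determinant of a matrix of forms, the degree depending on the row. -/
theorem det_hom {N c : ℕ} (M : Matrix (Fin c) (Fin c) (Sx N)) (r : Fin c → ℕ)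
    (h : ∀ l k, (M l k).IsHomogeneous (r l)) : M.det.IsHomogeneous (∑ l, r l) := by
  rw [Matrix.det_apply]
  refine IsHomogeneous.sum _ _ _ (fun s _ => ?_)
  have h1 : (∏ i, M (s i) i).IsHomogeneous (∑ l, r l) := by
    have h2 := IsHomogeneous.prod Finset.univ (fun i => M (s i) i) (fun i => r (s i))
      (fun i _ => h (s i) i)
    have h3 : ∑ i, r (s i) = ∑ l, r l := Equiv.sum_comp s r
    rwa [h3] at h2
  rcases Int.units_eq_one_or (Equiv.Perm.sign s) with hs | hs
  · rw [hs, one_smul]
    exact h1
  · rw [hs, Units.neg_smul, one_smul]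
    exact h1.neg

end NCrmAux

open NCrmAux in
theorem nCrm : S_NCrm := by
  classical
  intro N c K _ _ I J π hIp hIh hS hJp hJh hIJ hker hrk y hy hy0 s g e δ τ hs hδ hg hgy hτ hgs
  have hyI : y ∈ zer I := fun F hF => hy F (hIJ hF)
  obtain ⟨F, f, h, e0, hF, hh, hhy, hlin, hgen⟩ := hS y hyI hy0
  -- degrees are positive
  have hf : ∀ l, 1 ≤ f l := by
    intro l
    by_contra hlt
    have h0 : f l = 0 := by omega
    have h1 := (hF l).2
    rw [h0, ← totalDegree_zero_iff_isHomogeneous, totalDegree_eq_zero_iff_eq_C] at h1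
    apply hlin.ne_zero l
    funext i
    show eval y (pderiv i (F l)) = 0
    rw [h1, pderiv_C, map_zero]
  obtain ⟨α, hα⟩ := exists_minor _ hlin
  set M : Matrix (Fin c) (Fin c) (Sx N) := Matrix.of fun l k => pderiv (α k) (F l) with hM
  have hMh : ∀ l k, (M l k).IsHomogeneous (f l - 1) := fun l k => (hF l).2.pderiv
  have hdety : eval y M.det ≠ 0 := by
    rw [RingHom.map_det]
    exact hα
  have hdeth : M.det.IsHomogeneous (∑ l, (f l - 1)) := det_hom M _ hMh
  have hπdet : π M.det ≠ 0 := by
    intro h0
    exact hdety (hy _ ((hker _).1 h0))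
  -- the matrix over `K`
  set A : Matrix (Fin c) (Fin c) K := Matrix.of fun l k => gk π (F l) (α k) with hA
  have hAM : A = π.mapMatrix M := rfl
  have hdetA : A.det = π M.det := by
    rw [hAM, ← AlgHom.map_det]
  have hdetA0 : A.det ≠ 0 := by
    rw [hdetA]
    exact hπdet
  -- independence
  have hAind : LinearIndependent K A.row := by
    rw [Matrix.linearIndependent_rows_iff_isUnit, Matrix.isUnit_iff_isUnit_det]
    exact hdetA0.isUnit
  have hgind : LinearIndependent K (fun l => gk π (F l)) := by
    have h1 : A.row = (LinearMap.funLeft K K α) ∘ (fun l => gk π (F l)) := rfl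
    rw [h1] at hAind
    exact hAind.of_comp _
  -- `s` is a combination
  have hspan : Submodule.span K (Set.range fun l => gk π (F l)) = CK I π := by
    apply Submodule.eq_of_le_of_finrank_le
    · rw [Submodule.span_le]
      rintro _ ⟨l, rfl⟩
      exact Submodule.subset_span ⟨F l, (hF l).1, rfl⟩
    · rw [finrank_span_eq_card hgind, Fintype.card_fin]
      exact hrk
  rw [← hspan, Submodule.mem_span_range_iff_exists_fun] at hs
  obtain ⟨q, hq⟩ := hs
  have hsα : ∀ k, s (α k) = ∑ l, q l * A l k := by
    intro k
    rw [← hq]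
    simp only [Finset.sum_apply, Pi.smul_apply, smul_eq_mul]
    rfl
  -- Cramer
  have hcr : ∀ l, (A.updateRow l (fun k => s (α k))).det = A.det * q l := by
    intro l
    rw [← Matrix.cramer_transpose_apply]
    have h1 : A.transpose.mulVec (Matrix.cramer A.transpose (fun k => s (α k))) =
        A.transpose.mulVec (A.det • q) := by
      rw [Matrix.mulVec_cramer, Matrix.mulVec_smul, Matrix.det_transpose]
      congr 1
      funext k
      rw [hsα]
      simp only [Matrix.mulVec, dotProduct, Matrix.transpose_apply]
      exact Finset.sum_congr rfl (fun l _ => mul_comm _ _)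
    have hinj : Function.Injective A.transpose.mulVec := by
      apply Matrix.mulVec_injective_of_det_ne_zero
      rw [Matrix.det_transpose]
      exact hdetA0
    have h2 := hinj h1
    rw [h2]
    rfl
  -- the coefficients
  set a : Fin c → Sx N := fun l => (M.updateRow l (fun k => τ (α k))).det with ha
  have hπa : ∀ l, π (a l) = π g * (A.det * q l) := by
    intro l
    rw [← hcr l, ha]
    simp only
    rw [AlgHom.map_det, ← Matrix.det_updateRow_smul]
    congr 1
    have h1 : π.mapMatrix (M.updateRow l fun k => τ (α k)) =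
        (π.mapMatrix M).updateRow l (fun k => π (τ (α k))) := by
      ext i k
      simp only [AlgHom.mapMatrix_apply, Matrix.map_apply, Matrix.updateRow_apply]
      split_ifs <;> rfl
    rw [h1, ← hAM]
    congr 1
    funext k
    rw [Pi.smul_apply, smul_eq_mul, hgs]
  refine ⟨M.det * g, (∑ l, (f l - 1)) + e, a, F,
    fun l => ∑ l', Function.update (fun l => f l - 1) l (e + δ - 1) l', f,
    hdeth.mul hg, ?_, ?_, ?_⟩
  · rw [map_mul]
    exact mul_ne_zero hdety hgy
  · intro l
    refine ⟨?_, (hF l).1, (hF l).2, ?_⟩
    · refine det_hom _ _ (fun i k => ?_)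
      rw [Matrix.updateRow_apply]
      by_cases hi : i = l
      · rw [if_pos hi, hi, Function.update_self]
        exact hτ (α k)
      · rw [if_neg hi, Function.update_of_ne hi]
        exact hMh i k
    · show (∑ l', Function.update (fun l => f l - 1) l (e + δ - 1) l') + f l =
        (∑ l, (f l - 1)) + e + δ
      rw [Finset.sum_update_of_mem (Finset.mem_univ l)]
      have h1 : ∑ l', (f l' - 1) = (f l - 1) + ∑ l' ∈ Finset.univ \ {l}, (f l' - 1) := by
        rw [Finset.sdiff_singleton_eq_erase]
        exact (Finset.add_sum_erase _ (fun l' => f l' - 1) (Finset.mem_univ l)).symm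
      have h2 := hf l
      omega
  · rw [map_mul, ← hdetA]
    have h3 : ∀ l, π (a l) • gk π (F l) = (A.det * π g) • (q l • gk π (F l)) := by
      intro l
      rw [hπa l, smul_smul]
      congr 1
      ring
    simp only [h3]
    rw [← Finset.smul_sum, hq]

end Pool.Agent.Lib.MP_776403_ag.SD
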