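import Pool.Agent.Lib.MP_776403_ag.SD.SpecN

/-!
# THEOREM SD, module NDep : the wedge product of dependent vectors is zero
-/

set_option autoImplicit false

open MvPolynomial

noncomputable section

namespace Pool.Agent.Lib.MP_776403_ag.SD

namespace NDepAux

variable {n : ℕ} {K : Type} [Field K]

/-- a repeated factor -/
theorem wed_mem (us : List (Fin n → K)) : ∀ u ∈ us, wed u (wdg us) = 0 := by
  induction us with
  | nil =>
    intro u hu
    simp at hu
  | cons v t ih =>
    intro u hu
    rw [wdg_cons]
    rcases List.mem_cons.1 hu with h | h
    · rw [h, wed_self]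
    · rw [wed_wed, ih u h, map_zero, neg_zero]

/-- a factor in the span of the others -/
theorem wed_span (us : List (Fin n → K)) (u : Fin n → K)
    (hu : u ∈ Submodule.span K {v | v ∈ us}) : wed u (wdg us) = 0 := by
  induction hu using Submodule.span_induction with
  | mem v hv => exact wed_mem us v hv
  | zero => exact wed_zero_left _
  | add a b _ _ ha hb => rw [wed_add_left, ha, hb, add_zero]
  | smul c a _ ha => rw [wed_smul_left, ha, smul_zero]

theorem wdg_dep (us : List (Fin n → K))
    (h : Module.finrank K (Submodule.span K {v | v ∈ us}) < us.length) : wdg us = 0 := by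
  induction us with
  | nil => simp at h
  | cons u t ih =>
    rw [wdg_cons]
    by_cases h1 : Module.finrank K (Submodule.span K {v | v ∈ t}) < t.length
    · rw [ih h1, map_zero]
    · rw [not_lt] at h1
      have h2 : Submodule.span K {v | v ∈ t} ≤ Submodule.span K {v | v ∈ u :: t} :=
        Submodule.span_mono fun v hv => List.mem_cons_of_mem u hv
      have h3 : Submodule.span K {v | v ∈ t} = Submodule.span K {v | v ∈ u :: t} := by
        refine Submodule.eq_of_le_of_finrank_le h2 ?_
        rw [List.length_cons] at h
        omega
      refine wed_span t u ?_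
      rw [h3]
      exact Submodule.subset_span List.mem_cons_self

end NDepAux

theorem nDep : S_NDep := by
  intro n K _ C us hus hlt
  refine NDepAux.wdg_dep us (lt_of_le_of_lt ?_ hlt)
  exact Submodule.finrank_mono (Submodule.span_le.2 fun v hv => hus v hv)

end Pool.Agent.Lib.MP_776403_ag.SD
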