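import Pool.Agent.Lib.MP_776403_ag.SD.SpecN

/-!
# THEOREM SD, module NDet: the values of wedge products are determinants (helper24)
-/

set_option autoImplicit false

open MvPolynomial

noncomputable section

namespace Pool.Agent.Lib.MP_776403_ag.SD

namespace NDetAux

variable {n : ℕ} {K : Type} [Field K]

/-- The expansion of `u ∧ w`. -/
theorem wed_ofFn (u : Fin n → K) (q : ℕ) (w : Om n K) (α : Fin (q + 1) → Fin n) :
    wed u w (List.ofFn α) = ∑ j : Fin (q + 1), (-1) ^ (j : ℕ) * u (α j) *
      w (List.ofFn fun k => α (j.succAbove k)) := by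
  induction q generalizing w with
  | zero =>
    rw [List.ofFn_succ, wed_cons]
    simp [wed_nil]
  | succ q ih =>
    rw [List.ofFn_succ, wed_cons, ih (fun e' => w (α 0 :: e')),
      Fin.sum_univ_succ (n := q + 1)]
    have h0 : (fun k : Fin (q + 1) => α ((0 : Fin (q + 2)).succAbove k)) = fun i => α i.succ := by
      funext k
      rw [Fin.succAbove_zero]
    rw [h0, Fin.val_zero, pow_zero, one_mul, sub_eq_add_neg, ← Finset.sum_neg_distrib]
    congr 1
    refine Finset.sum_congr rfl fun j _ => ?_
    have h1 : List.ofFn (fun k : Fin (q + 1) => α (j.succ.succAbove k)) =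
        α 0 :: List.ofFn (fun k : Fin q => α (j.succAbove k).succ) := by
      rw [List.ofFn_succ, Fin.succ_succAbove_zero]
      simp only [Fin.succ_succAbove_succ]
    rw [h1, Fin.val_succ, pow_succ]
    ring

theorem wed_length (u : Fin n → K) (e : List (Fin n)) :
    ∀ (w : Om n K) (p : ℕ), (∀ e' : List (Fin n), e'.length ≠ p → w e' = 0) →
      e.length ≠ p + 1 → wed u w e = 0 := by
  induction e with
  | nil =>
    intro w p _ _
    rfl
  | cons b e ih =>
    intro w p hw he
    rw [List.length_cons] at he
    have h1 : e.length ≠ p := fun h => he (by rw [h])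
    rw [wed_cons, hw e h1, mul_zero, zero_sub, neg_eq_zero]
    cases p with
    | zero =>
      have h2 : (fun e' : List (Fin n) => w (b :: e')) = 0 := by
        funext e'
        exact hw _ (by rw [List.length_cons]; omega)
      rw [h2, map_zero]
      rfl
    | succ p =>
      exact ih _ p (fun e' he' => hw _ (by rw [List.length_cons]; omega)) h1

end NDetAux

theorem nDet : S_NDet := by
  intro n K _ p
  induction p with
  | zero =>
    intro u
    refine ⟨fun α => ?_, fun e he => ?_⟩
    · rw [Matrix.det_isEmpty, List.ofFn_zero, List.ofFn_zero, wdg_nil]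
      simp [eps]
    · rw [List.ofFn_zero, wdg_nil]
      have h1 : e ≠ [] := fun h => he (by rw [h]; rfl)
      simp [eps, h1]
  | succ p ih =>
    intro u
    refine ⟨fun α => ?_, fun e he => ?_⟩
    · rw [List.ofFn_succ, wdg_cons, NDetAux.wed_ofFn, Matrix.det_succ_row_zero]
      refine Finset.sum_congr rfl fun j _ => ?_
      rw [(ih (fun i => u i.succ)).1]
      rfl
    · rw [List.ofFn_succ, wdg_cons]
      exact NDetAux.wed_length _ e _ p (fun e' he' => (ih (fun i => u i.succ)).2 e' he') he

end Pool.Agent.Lib.MP_776403_ag.SD
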