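import Pool.Agent.Lib.MP_776403_ag.SD.SpecN

/-!
# THEOREM SD, Lemma N: a functional by cofactors
-/

set_option autoImplicit false

open MvPolynomial

noncomputable section

namespace Pool.Agent.Lib.MP_776403_ag.SD

namespace NFunAux

/-- independent rows give a nonzero maximal minor -/
private theorem exists_minor {p n : ℕ} (v : Fin p → Fin n → ℂ) (hv : LinearIndependent ℂ v) :
    ∃ α : Fin p → Fin n, (Matrix.of fun l k : Fin p => v l (α k)).det ≠ 0 := by
  classical
  let M : Matrix (Fin p) (Fin n) ℂ := Matrix.of v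
  have hrow : LinearIndependent ℂ M.row := hv
  have hr : M.rank = p := by
    have := hrow.rank_matrix
    rwa [Fintype.card_fin] at this
  have hr2 : Module.finrank ℂ (Submodule.span ℂ (Set.range M.col)) = p := by
    rw [← Matrix.rank_eq_finrank_span_cols, hr]
  obtain ⟨f, hf, -, hind⟩ := Submodule.exists_fun_fin_finrank_span_eq ℂ (Set.range M.col)
  choose α hα using hf
  let g : Fin p → Fin p → ℂ := fun k => f (Fin.cast hr2.symm k)
  have hg : LinearIndependent ℂ g :=
    hind.comp (Fin.cast hr2.symm) (Fin.cast_injective _)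
  refine ⟨fun k => α (Fin.cast hr2.symm k), ?_⟩
  have hcol : LinearIndependent ℂ
      (Matrix.of fun l k : Fin p => v l (α (Fin.cast hr2.symm k))).col := by
    have : (Matrix.of fun l k : Fin p => v l (α (Fin.cast hr2.symm k))).col = g := by
      funext k l
      have h1 := congrFun (hα (Fin.cast hr2.symm k)) l
      exact h1
    rw [this]
    exact hg
  have h2 := Matrix.linearIndependent_cols_iff_isUnit.1 hcol
  exact ((Matrix.isUnit_iff_isUnit_det _).1 h2).ne_zero

/-- the determinant of a matrix with homogeneous rows -/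
private theorem det_hom {N p : ℕ} (A : Matrix (Fin p) (Fin p) (Sx N)) (d : Fin p → ℕ)
    (h : ∀ l k, (A l k).IsHomogeneous (d l)) : A.det.IsHomogeneous (∑ l, d l) := by
  rw [Matrix.det_apply]
  refine MvPolynomial.IsHomogeneous.sum _ _ _ (fun s _ => ?_)
  have h1 : (∏ i, A (s i) i).IsHomogeneous (∑ i, d (s i)) :=
    MvPolynomial.IsHomogeneous.prod _ _ _ (fun i _ => h _ _)
  rw [Equiv.sum_comp s d] at h1
  rcases Int.units_eq_one_or (Equiv.Perm.sign s) with h2 | h2
  · rw [h2, one_smul]
    exact h1
  · rw [h2, Units.neg_smul, one_smul]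
    exact h1.neg

end NFunAux

theorem nFun : S_NFun := by
  classical
  intro N i τ e y hτ hy
  obtain ⟨α, hα⟩ := NFunAux.exists_minor _ hy
  let A : Matrix (Fin (i + 1)) (Fin (i + 1)) (Sx N) := Matrix.of fun l k => τ l (α k)
  have hdet : eval y A.det ≠ 0 := by
    rw [RingHom.map_det]
    exact hα
  let φ : Fin (N + 1) → Sx N := fun b =>
    ∑ k ∈ Finset.univ.filter (fun k => α k = b), A.adjugate k (Fin.last i)
  have hsum : ∀ l : Fin (i + 1), ∑ b, φ b * τ l b =
      A.det * (1 : Matrix (Fin (i + 1)) (Fin (i + 1)) (Sx N)) l (Fin.last i) := by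
    intro l
    have h1 := congrFun (congrFun (Matrix.mul_adjugate A) l) (Fin.last i)
    rw [Matrix.mul_apply, Matrix.smul_apply, smul_eq_mul] at h1
    rw [← h1]
    have h2 : ∀ b, φ b * τ l b =
        ∑ k ∈ Finset.univ.filter (fun k => α k = b), A l k * A.adjugate k (Fin.last i) := by
      intro b
      rw [Finset.sum_mul]
      refine Finset.sum_congr rfl (fun k hk => ?_)
      rw [← (Finset.mem_filter.1 hk).2, mul_comm]
      rfl
    rw [Finset.sum_congr rfl (fun b _ => h2 b)]
    exact Finset.sum_fiberwise _ _ _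
  refine ⟨φ, ?_, ?_, ?_⟩
  · intro b
    refine MvPolynomial.IsHomogeneous.sum _ _ _ (fun k _ => ?_)
    rw [Matrix.adjugate_apply]
    have hd : ∑ l ∈ Finset.range i, e l =
        ∑ l : Fin (i + 1), (if l = Fin.last i then 0 else e l) := by
      rw [Fin.sum_univ_castSucc, if_pos rfl, add_zero, Finset.sum_range]
      refine Finset.sum_congr rfl (fun l _ => ?_)
      rw [if_neg (Fin.castSucc_lt_last l).ne]
      rfl
    rw [hd]
    refine NFunAux.det_hom _ _ (fun l k' => ?_)
    by_cases hl : l = Fin.last i
    · subst hl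
      rw [Matrix.updateRow_self, if_pos rfl]
      by_cases hk : k' = k
      · subst hk
        rw [Pi.single_eq_same]
        exact MvPolynomial.isHomogeneous_one _ _
      · rw [Pi.single_eq_of_ne hk]
        exact MvPolynomial.isHomogeneous_zero _ _ _
    · rw [Matrix.updateRow_ne hl, if_neg hl]
      exact hτ l (Nat.lt_succ_iff.1 l.2) _
  · intro l hl
    have h1 := hsum ⟨l, hl.trans (Nat.lt_succ_self i)⟩
    rw [Matrix.one_apply_ne, mul_zero] at h1
    · exact h1
    · intro h2
      have := congrArg Fin.val h2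
      simp only [Fin.val_last] at this
      omega
  · have h1 := hsum (Fin.last i)
    rw [Matrix.one_apply_eq, mul_one] at h1
    have h2 : ∑ b, φ b * τ i b = A.det := by
      rw [← h1]
      rfl
    rw [h2]
    exact hdet

end Pool.Agent.Lib.MP_776403_ag.SD
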