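import Pool.Agent.Lib.MP_776403_ag.SD.SpecN

/-!
# The kernel, second inclusion
-/

set_option autoImplicit false

open MvPolynomial

noncomputable section

namespace Pool.Agent.Lib.MP_776403_ag.SD

theorem nKerB (h1 : S_NSat) (h2 : S_NLfg) (h3 : S_NCrm) : S_NKerB := by
  intro N c Q K _ _ I J π σ δ hD i hi j
  refine h1 N K J π hD.Jhom hD.ker (fun m => Li I π σ i (j + 1) (m + δ i))
    (fun m => Li I π σ (i + 1) j m) ?_ ?_ ?_
  · intro m b w hw
    have h := Li_GF (m + δ i) b w hw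
    have e1 : m + 1 + δ i = m + δ i + 1 := by omega
    change π (X b) • w ∈ Li I π σ i (j + 1) (m + 1 + δ i)
    rw [e1]
    exact h
  · exact h2 N K I π hD.Ihom (fun F hF => (hD.ker F).mpr (hD.le hF)) σ (i + 1) j
  · intro y hy hy0
    obtain ⟨g, e, τ, hg, hgy, hτ, -⟩ := hD.loc y hy hy0
    obtain ⟨g', e', a, F, ea, f, hg', hg'y, haf, hsum⟩ := h3 N c K I J π hD.Iprime hD.Ihom
      hD.smooth hD.Jprime hD.Jhom hD.le hD.ker hD.rk y hy hy0 (σ i) g e (δ i) (τ i)
      (hD.mem i hi) (hD.pos i hi) hg hgy (fun b => (hτ i hi b).1) (fun b => (hτ i hi b).2)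
    refine ⟨g', e', hg', hg'y, fun m w hw => ?_⟩
    change w ∈ Li I π σ (i + 1) j m at hw
    rw [Li_succ] at hw
    obtain ⟨w', hw', rfl⟩ := hw
    change π g' • wed (σ i) w' ∈ Li I π σ i (j + 1) (m + e' + δ i)
    rw [← wed_smul_left, hsum, wed_sum_left]
    refine Submodule.sum_mem _ (fun l _ => ?_)
    rw [wed_smul_left]
    obtain ⟨ha, hF, hf, hd⟩ := haf l
    have h := Li_smul ha (Li_wed hF hf hw')
    have e1 : m + f l + ea l = m + e' + δ i := by omega
    rw [e1] at h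
    exact h

end Pool.Agent.Lib.MP_776403_ag.SD
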