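import Pool.Agent.Lib.MP_776403_ag.SD.SpecN

/-!
# THEOREM SD, module NLfg: the modules Lambda are finitely generated
-/

set_option autoImplicit false
set_option linter.unusedSectionVars false

open MvPolynomial

noncomputable section

namespace Pool.Agent.Lib.MP_776403_ag.SD

namespace NLfgAux

variable {N : ℕ} {K : Type} [Field K] [Algebra ℂ K]

/-- The homogeneous components of a product with a form. -/
theorem hc_mul {d f : ℕ} {G : Sx N} (hG : G.IsHomogeneous d) (b : Sx N) :
    homogeneousComponent f (b * G) =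
      (if d ≤ f then homogeneousComponent (f - d) b else 0) * G := by
  have h0 : b * G = ∑ i ∈ Finset.range (b.totalDegree + 1), homogeneousComponent i b * G := by
    rw [← Finset.sum_mul, sum_homogeneousComponent]
  rw [h0, map_sum]
  have h1 : ∀ i ∈ Finset.range (b.totalDegree + 1),
      homogeneousComponent f (homogeneousComponent i b * G) =
        if f = i + d then homogeneousComponent i b * G else 0 := fun i _ =>
    homogeneousComponent_of_mem ((homogeneousComponent_isHomogeneous i b).mul hG)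
  rw [Finset.sum_congr rfl h1]
  split_ifs with h
  · by_cases h2 : f - d < b.totalDegree + 1
    · rw [Finset.sum_eq_single (f - d)]
      · rw [if_pos (by omega)]
      · intro i _ hi
        rw [if_neg (by omega)]
      · intro hi
        exact absurd (Finset.mem_range.2 h2) hi
    · rw [Finset.sum_eq_zero, homogeneousComponent_eq_zero _ _ (by omega), zero_mul]
      intro i hi
      rw [Finset.mem_range] at hi
      rw [if_neg (by omega)]
  · rw [zero_mul]
    exact Finset.sum_eq_zero fun i _ => if_neg (by omega)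

/-- A homogeneous ideal has finitely many homogeneous generators. -/
theorem exists_gens {I : Ideal (Sx N)} (hI : IsHom I) :
    ∃ T : Finset (Sx N × ℕ), (∀ x ∈ T, x.1 ∈ I ∧ x.1.IsHomogeneous x.2) ∧
      ∀ F ∈ I, ∀ f : ℕ, F.IsHomogeneous f → ∃ a : Sx N × ℕ → Sx N,
        (∀ x ∈ T, a x = 0 ∨ ∃ e, e + x.2 = f ∧ (a x).IsHomogeneous e) ∧
        F = ∑ x ∈ T, a x * x.1 := by
  classical
  obtain ⟨G, hG⟩ : I.FG := IsNoetherian.noetherian I
  let T : Finset (Sx N × ℕ) := G.biUnion fun g =>
    (Finset.range (g.totalDegree + 1)).image fun m => (homogeneousComponent m g, m)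
  have hGI : ∀ g ∈ G, g ∈ I := fun g hg => by
    rw [← hG]
    exact Submodule.subset_span hg
  have hT : ∀ x ∈ T, x.1 ∈ I ∧ x.1.IsHomogeneous x.2 := by
    intro x hx
    obtain ⟨g, hg, hx⟩ := Finset.mem_biUnion.1 hx
    obtain ⟨m, _, rfl⟩ := Finset.mem_image.1 hx
    exact ⟨hI g (hGI g hg) m, homogeneousComponent_isHomogeneous m g⟩
  have hspan : I ≤ Submodule.span (Sx N) ((fun x : Sx N × ℕ => x.1) '' (T : Set (Sx N × ℕ))) := by
    conv_lhs => rw [← hG]
    refine Submodule.span_le.2 fun g hg => ?_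
    rw [SetLike.mem_coe, ← sum_homogeneousComponent g]
    refine Submodule.sum_mem _ fun m hm => Submodule.subset_span ⟨(_, m), ?_, rfl⟩
    exact Finset.mem_biUnion.2 ⟨g, hg, Finset.mem_image.2 ⟨m, hm, rfl⟩⟩
  refine ⟨T, hT, fun F hF f hf => ?_⟩
  obtain ⟨b, hb⟩ := (Submodule.mem_span_image_finset_iff_exists_fun' (Sx N)).1 (hspan hF)
  refine ⟨fun x => if x.2 ≤ f then homogeneousComponent (f - x.2) (b x) else 0, fun x hx => ?_, ?_⟩
  · by_cases h : x.2 ≤ f
    · right
      refine ⟨f - x.2, by omega, ?_⟩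
      simp only [if_pos h]
      exact homogeneousComponent_isHomogeneous _ _
    · left
      simp only [if_neg h]
  · have h1 : homogeneousComponent f F = F := homogeneousComponent_eq_self hf
    rw [← h1, ← hb, map_sum]
    refine Finset.sum_congr rfl fun x hx => ?_
    rw [smul_eq_mul, hc_mul (hT x hx).2]

theorem gk_mul {π : Sx N →ₐ[ℂ] K} (a G : Sx N) (h : π G = 0) : gk π (a * G) = π a • gk π G := by
  funext i
  simp only [gk, Derivation.leibniz, smul_eq_mul, map_add, map_mul, h, zero_mul, add_zero,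
    Pi.smul_apply]

theorem gk_sum {π : Sx N →ₐ[ℂ] K} {ι : Type} (s : Finset ι) (G : ι → Sx N) :
    gk π (∑ x ∈ s, G x) = ∑ x ∈ s, gk π (G x) := by
  funext i
  simp only [gk, map_sum, Finset.sum_apply]

/-- The span of the products of the generators. -/
def Gn (π : Sx N →ₐ[ℂ] K) (T : Finset (Sx N × ℕ)) (j m : ℕ) : Submodule ℂ (Om (N + 1) K) :=
  Submodule.span ℂ {z | ∃ (s : Fin (N + 1) →₀ ℕ) (M : List {x // x ∈ T}), M.length = j ∧
    s.degree + (M.map fun x => x.1.2).sum = m ∧
    z = π (monomial s 1) • wdg (M.map fun x => gk π x.1.1)}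

variable {π : Sx N →ₐ[ℂ] K} {T : Finset (Sx N × ℕ)} {j m : ℕ}

theorem Gn_mon (t : Fin (N + 1) →₀ ℕ) {w : Om (N + 1) K} (hw : w ∈ Gn π T j m) :
    π (monomial t 1) • w ∈ Gn π T j (m + t.degree) := by
  unfold Gn at hw
  induction hw using Submodule.span_induction with
  | mem z hz =>
    obtain ⟨s, M, hM, hm, rfl⟩ := hz
    refine Submodule.subset_span ⟨t + s, M, hM, ?_, ?_⟩
    · rw [map_add]
      omega
    · rw [← mul_smul, ← map_mul, monomial_mul, mul_one]
  | zero => rw [smul_zero]; exact Submodule.zero_mem _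
  | add x y _ _ hx hy => rw [smul_add]; exact Submodule.add_mem _ hx hy
  | smul r x _ hx => rw [smul_comm]; exact Submodule.smul_mem _ r hx

theorem Gn_smul {e : ℕ} {a : Sx N} (ha : a.IsHomogeneous e) {w : Om (N + 1) K}
    (hw : w ∈ Gn π T j m) : π a • w ∈ Gn π T j (m + e) := by
  rw [as_sum a, map_sum, Finset.sum_smul]
  refine Submodule.sum_mem _ fun t ht => ?_
  have h1 : t.degree = e := by
    by_contra h
    exact (mem_support_iff.1 ht) (ha.coeff_eq_zero h)
  have h2 : monomial t (coeff t a) = (coeff t a) • monomial t (1 : ℂ) := by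
    rw [smul_monomial, smul_eq_mul, mul_one]
  rw [h2, map_smul, smul_assoc, ← h1]
  exact Submodule.smul_mem _ _ (Gn_mon t hw)

theorem Gn_wed {x : Sx N × ℕ} (hx : x ∈ T) {w : Om (N + 1) K} (hw : w ∈ Gn π T j m) :
    wed (gk π x.1) w ∈ Gn π T (j + 1) (m + x.2) := by
  unfold Gn at hw
  induction hw using Submodule.span_induction with
  | mem z hz =>
    obtain ⟨s, M, hM, hm, rfl⟩ := hz
    refine Submodule.subset_span ⟨s, ⟨x, hx⟩ :: M, by rw [List.length_cons, hM], ?_, ?_⟩
    · rw [List.map_cons, List.sum_cons]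
      change s.degree + (x.2 + (M.map fun x => x.1.2).sum) = m + x.2
      omega
    · rw [map_smul, List.map_cons, wdg_cons]
  | zero => rw [map_zero]; exact Submodule.zero_mem _
  | add x y _ _ hx hy => rw [map_add]; exact Submodule.add_mem _ hx hy
  | smul r y _ hy =>
    have : wed (gk π x.1) (r • y) = r • wed (gk π x.1) y := by
      rw [← algebraMap_smul K r y, map_smul, algebraMap_smul]
    rw [this]; exact Submodule.smul_mem _ r hy

theorem Gn_fin : FiniteDimensional ℂ (Gn π T j m) := by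
  refine FiniteDimensional.span_of_finite ℂ ?_
  have h1 : {s : Fin (N + 1) →₀ ℕ | s.degree ≤ m}.Finite := Finsupp.finite_of_degree_le m
  have h2 : {M : List {x // x ∈ T} | M.length = j}.Finite := List.finite_length_eq _ j
  refine ((h1.prod h2).image (fun p => π (monomial p.1 1) • wdg (p.2.map fun x =>
    gk π x.1.1))).subset ?_
  rintro z ⟨s, M, h3, h4, rfl⟩
  refine ⟨(s, M), ⟨?_, h3⟩, rfl⟩
  change s.degree ≤ m
  omega

variable {I : Ideal (Sx N)}

theorem Gn_le (hT : ∀ x ∈ T, x.1 ∈ I ∧ x.1.IsHomogeneous x.2) : Gn π T j m ≤ Lm I π j m := by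
  refine Submodule.span_le.2 ?_
  rintro z ⟨s, M, hM, hm, rfl⟩
  refine Submodule.subset_span ⟨monomial s 1, s.degree, M.map Subtype.val,
    isHomogeneous_monomial _ rfl, by rw [List.length_map, hM], ?_, ?_, ?_⟩
  · intro x hx
    obtain ⟨y, _, rfl⟩ := List.mem_map.1 hx
    exact hT y.1 y.2
  · rw [List.map_map]
    exact hm
  · rw [List.map_map]
    rfl

theorem wdg_mem (hπ : ∀ F ∈ I, π F = 0) (hT : ∀ x ∈ T, x.1 ∈ I ∧ x.1.IsHomogeneous x.2)
    (hgen : ∀ F ∈ I, ∀ f : ℕ, F.IsHomogeneous f → ∃ a : Sx N × ℕ → Sx N,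
        (∀ x ∈ T, a x = 0 ∨ ∃ e, e + x.2 = f ∧ (a x).IsHomogeneous e) ∧
        F = ∑ x ∈ T, a x * x.1) (L : List (Sx N × ℕ))
    (hL : ∀ x ∈ L, x.1 ∈ I ∧ x.1.IsHomogeneous x.2) :
    wdg (L.map fun x => gk π x.1) ∈ Gn π T L.length (L.map Prod.snd).sum := by
  induction L with
  | nil =>
    refine Submodule.subset_span ⟨0, [], rfl, ?_, ?_⟩
    · simp
    · rw [List.map_nil, List.map_nil]
      have : (monomial (0 : Fin (N + 1) →₀ ℕ)) (1 : ℂ) = (1 : Sx N) := rfl
      rw [this, map_one, one_smul]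
  | cons x L ih =>
    have ih' := ih fun y hy => hL y (List.mem_cons_of_mem _ hy)
    have hx := hL x List.mem_cons_self
    obtain ⟨a, ha, hF⟩ := hgen x.1 hx.1 x.2 hx.2
    have h1 : gk π x.1 = ∑ y ∈ T, π (a y) • gk π y.1 := by
      rw [hF, gk_sum]
      exact Finset.sum_congr rfl fun y hy => gk_mul _ _ (hπ _ (hT y hy).1)
    have h0 : (x :: L).map (fun x => gk π x.1) = gk π x.1 :: L.map (fun x => gk π x.1) := rfl
    rw [h0, wdg_cons, h1, wed_sum_left]
    refine Submodule.sum_mem _ fun y hy => ?_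
    rw [wed_smul_left]
    rcases ha y hy with h | ⟨e, he, hae⟩
    · rw [h, map_zero, zero_smul]
      exact Submodule.zero_mem _
    · have h2 := Gn_smul hae (Gn_wed hy ih')
      have h3 : (L.map Prod.snd).sum + y.2 + e = ((x :: L).map Prod.snd).sum := by
        rw [List.map_cons, List.sum_cons]
        omega
      rw [h3] at h2
      exact h2

theorem Lm_le (hπ : ∀ F ∈ I, π F = 0) (hT : ∀ x ∈ T, x.1 ∈ I ∧ x.1.IsHomogeneous x.2)
    (hgen : ∀ F ∈ I, ∀ f : ℕ, F.IsHomogeneous f → ∃ a : Sx N × ℕ → Sx N,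
        (∀ x ∈ T, a x = 0 ∨ ∃ e, e + x.2 = f ∧ (a x).IsHomogeneous e) ∧
        F = ∑ x ∈ T, a x * x.1) : Lm I π j m ≤ Gn π T j m := by
  refine Submodule.span_le.2 ?_
  rintro z ⟨a, e, L, ha, hL, hL', hm, rfl⟩
  have h := Gn_smul ha (wdg_mem hπ hT hgen L hL')
  rw [hL, add_comm (L.map Prod.snd).sum e, hm] at h
  exact h

/-- In large degrees the generators are multiples of variables. -/
theorem Gn_step (hm : j * T.sup Prod.snd ≤ m) {w : Om (N + 1) K} (hw : w ∈ Gn π T j (m + 1)) :
    w ∈ Submodule.span ℂ {z | ∃ (i : Fin (N + 1)) (w' : Om (N + 1) K), w' ∈ Gn π T j m ∧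
      z = π (X i) • w'} := by
  have hle : Gn π T j (m + 1) ≤ Submodule.span ℂ {z | ∃ (i : Fin (N + 1)) (w' : Om (N + 1) K),
      w' ∈ Gn π T j m ∧ z = π (X i) • w'} := by
    refine Submodule.span_le.2 ?_
    rintro z ⟨s, M, hM, hs, rfl⟩
    have h1 : (M.map fun x => x.1.2).sum ≤ j * T.sup Prod.snd := by
      have h2 := List.sum_le_card_nsmul (M.map fun x => x.1.2) (T.sup Prod.snd) (by
        intro y hy
        obtain ⟨x, _, rfl⟩ := List.mem_map.1 hy
        exact Finset.le_sup (f := Prod.snd) x.2)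
      rw [List.length_map, hM, smul_eq_mul] at h2
      exact h2
    have h3 : s ≠ 0 := by
      rintro rfl
      rw [map_zero] at hs
      omega
    obtain ⟨i, hi⟩ := Finsupp.ne_iff.1 h3
    have hi' : 1 ≤ s i := Nat.one_le_iff_ne_zero.2 hi
    have h4 : Finsupp.single i 1 + (s - Finsupp.single i 1) = s :=
      add_tsub_cancel_of_le (Finsupp.single_le_iff.2 hi')
    have h5 : (s - Finsupp.single i 1).degree + 1 = s.degree := by
      conv_rhs => rw [← h4]
      rw [map_add, Finsupp.degree_single, add_comm]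
    refine Submodule.subset_span ⟨i, π (monomial (s - Finsupp.single i 1) 1) •
      wdg (M.map fun x => gk π x.1.1), Submodule.subset_span ⟨_, M, hM, by omega, rfl⟩, ?_⟩
    have h6 : (monomial s (1 : ℂ)) = X i * monomial (s - Finsupp.single i 1) (1 : ℂ) := by
      conv_lhs => rw [← h4]
      rw [X, monomial_mul, mul_one]
    rw [h6, map_mul, mul_smul]
  exact hle hw

end NLfgAux

open NLfgAux in
theorem nLfg : S_NLfg := by
  intro N K _ _ I π hI hπ σ i j
  obtain ⟨T, hT, hgen⟩ := exists_gens hI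
  have heq : ∀ m, Lm I π j m = Gn π T j m := fun m =>
    le_antisymm (Lm_le hπ hT hgen) (Gn_le hT)
  refine ⟨fun m => ?_, j * T.sup Prod.snd, fun m hm w hw => ?_⟩
  · have : FiniteDimensional ℂ (Lm I π j m) := by
      rw [heq m]
      exact Gn_fin
    unfold Li
    infer_instance
  · obtain ⟨η, hη, rfl⟩ := mem_Li.1 hw
    rw [heq] at hη
    have h1 := Gn_step hm hη
    rw [← heq] at h1
    have h2 : ∀ η ∈ Submodule.span ℂ {z | ∃ (i : Fin (N + 1)) (w' : Om (N + 1) K),
        w' ∈ Lm I π j m ∧ z = π (X i) • w'}, itw σ i η ∈ Submodule.span ℂ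
          {z | ∃ (b : Fin (N + 1)) (w' : Om (N + 1) K), w' ∈ Li I π σ i j m ∧
            z = π (X b) • w'} := by
      intro η hη
      induction hη using Submodule.span_induction with
      | mem z hz =>
        obtain ⟨b, w', hw', rfl⟩ := hz
        refine Submodule.subset_span ⟨b, itw σ i w', mem_Li.2 ⟨w', hw', rfl⟩, ?_⟩
        rw [map_smul]
      | zero => rw [map_zero]; exact Submodule.zero_mem _
      | add x y _ _ hx hy => rw [map_add]; exact Submodule.add_mem _ hx hy
      | smul r x _ hx =>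
        have : itw σ i (r • x) = r • itw σ i x := by
          rw [← algebraMap_smul K r x, map_smul, algebraMap_smul]
        rw [this]; exact Submodule.smul_mem _ r hx
    exact h2 η h1

end Pool.Agent.Lib.MP_776403_ag.SD
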