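import Pool.Agent.Lib.MP_776403_ag.SD.SpecN

/-!
# The wedge product of independent vectors is not zero
-/

set_option autoImplicit false

open MvPolynomial

noncomputable section

namespace Pool.Agent.Lib.MP_776403_ag.SD

namespace NLi0Aux

/-- A functional which vanishes at `σ_l`, `l < i`, and not at `σ_i`. -/
theorem exists_fun {n : ℕ} {K : Type} [Field K] (σ : ℕ → Fin n → K) (i : ℕ)
    (h : LinearIndependent K (fun l : Fin (i + 1) => σ l)) :
    ∃ φ : Fin n → K, (∀ l < i, ∑ b, φ b * σ l b = 0) ∧ ∑ b, φ b * σ i b ≠ 0 := by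
  classical
  have hn : σ i ∉ Submodule.span K ((fun l : Fin (i + 1) => σ l) '' {l | (l : ℕ) < i}) := by
    refine h.notMem_span_image (x := Fin.last i) ?_
    simp
  obtain ⟨f, hf1, hf2⟩ := Submodule.exists_le_ker_of_notMem hn
  have hf : ∀ u : Fin n → K, f u = ∑ b, f (Pi.single b 1) * u b := by
    intro u
    conv_lhs => rw [pi_eq_sum_univ' u]
    rw [map_sum]
    refine Finset.sum_congr rfl fun b _ => ?_
    rw [map_smul, smul_eq_mul, mul_comm]
  refine ⟨fun b => f (Pi.single b 1), fun l hl => ?_, ?_⟩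
  · rw [← hf]
    exact hf2 (Submodule.subset_span ⟨⟨l, by omega⟩, hl, rfl⟩)
  · rw [← hf]
    exact hf1

end NLi0Aux

open NLi0Aux

theorem nLi0 : S_NLi0 := by
  intro N K _ _ σ i
  induction i with
  | zero =>
    intro _ h
    have h1 := congrFun h []
    rw [itw_zero] at h1
    simp [eps] at h1
  | succ i ih =>
    intro hli h
    have hli' : LinearIndependent K (fun l : Fin i => σ l) :=
      hli.comp (fun l : Fin i => Fin.castSucc l) (Fin.castSucc_injective i)
    obtain ⟨φ, h1, h2⟩ := exists_fun σ i hli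
    have h3 : con φ (itw σ (i + 1) (eps : Om (N + 1) K)) = 0 := by rw [h, map_zero]
    rw [itw_succ, con_wed, con_itw σ i φ h1, con_eps, map_zero, smul_zero, map_zero, sub_zero] at h3
    exact ih hli' ((smul_eq_zero.1 h3).resolve_left h2)

end Pool.Agent.Lib.MP_776403_ag.SD
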