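import Pool.Agent.Lib.MP_776403_ag.SD.SpecN

/-!
# THEOREM SD, `S_NNoe`: graded submodules are finitely generated
-/

set_option autoImplicit false

open MvPolynomial

noncomputable section

namespace Pool.Agent.Lib.MP_776403_ag.SD

namespace NNoeAux

variable {N : ℕ} {K : Type} [Field K] [Algebra ℂ K]

/-- The span in the definition of `FGn`. -/
def sp (π : Sx N →ₐ[ℂ] K) (W : ℕ → Submodule ℂ (Om (N + 1) K)) (m : ℕ) :
    Submodule ℂ (Om (N + 1) K) :=
  Submodule.span ℂ {z | ∃ (i : Fin (N + 1)) (w' : Om (N + 1) K), w' ∈ W m ∧ z = π (X i) • w'}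

theorem sp_le {π : Sx N →ₐ[ℂ] K} {W : ℕ → Submodule ℂ (Om (N + 1) K)} (hW : GFn π W) (m : ℕ) :
    sp π W m ≤ W (m + 1) := by
  refine Submodule.span_le.2 ?_
  rintro z ⟨i, w', hw', rfl⟩
  exact hW m i w' hw'

/-- Monomials of degree `k + 1`. -/
theorem mono_aux {π : Sx N →ₐ[ℂ] K} {W : ℕ → Submodule ℂ (Om (N + 1) K)} {k : ℕ}
    (h : ∀ (d : Fin (N + 1) →₀ ℕ), d.degree = k → ∀ (c : ℂ) (m : ℕ), ∀ w ∈ W m,
      π (monomial d c) • w ∈ W (m + k)) (d : Fin (N + 1) →₀ ℕ) (hd : d.degree = k + 1) (c : ℂ)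
    (m : ℕ) (w : Om (N + 1) K) (hw : w ∈ W m) : π (monomial d c) • w ∈ sp π W (m + k) := by
  have hne : d ≠ 0 := by
    rintro rfl
    simp at hd
  obtain ⟨i, hi⟩ : ∃ i, d i ≠ 0 := by
    by_contra hcon
    push Not at hcon
    exact hne (Finsupp.ext hcon)
  obtain ⟨d', rfl⟩ : ∃ d', d = Finsupp.single i 1 + d' := by
    refine ⟨d - Finsupp.single i 1, ?_⟩
    rw [add_tsub_cancel_of_le]
    rw [Finsupp.single_le_iff]
    omega
  have hd' : d'.degree = k := by
    rw [map_add, Finsupp.degree_single] at hd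
    omega
  have h1 : monomial (Finsupp.single i 1 + d') c = (X i : Sx N) * monomial d' c := by
    rw [X, monomial_mul, one_mul]
  refine Submodule.subset_span ⟨i, π (monomial d' c) • w, h d' hd' c m w hw, ?_⟩
  rw [h1, map_mul, mul_smul]

theorem mono {π : Sx N →ₐ[ℂ] K} {W : ℕ → Submodule ℂ (Om (N + 1) K)} (hW : GFn π W) (k : ℕ) :
    ∀ (d : Fin (N + 1) →₀ ℕ), d.degree = k → ∀ (c : ℂ) (m : ℕ), ∀ w ∈ W m,
      π (monomial d c) • w ∈ W (m + k) := by
  induction k with
  | zero =>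
    intro d hd c m w hw
    have h0 : d = 0 := by
      rwa [Finsupp.degree_eq_zero_iff] at hd
    subst h0
    have h1 : π (monomial 0 c) = algebraMap ℂ K c := by
      have h2 : (monomial 0 c : Sx N) = algebraMap ℂ (Sx N) c := rfl
      rw [h2, AlgHom.commutes]
    rw [h1, algebraMap_smul, add_zero]
    exact Submodule.smul_mem _ c hw
  | succ k ih =>
    intro d hd c m w hw
    exact sp_le hW (m + k) (mono_aux ih d hd c m w hw)

theorem deg_of_mem {a : Sx N} {k : ℕ} (ha : a.IsHomogeneous k) {d : Fin (N + 1) →₀ ℕ}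
    (hd : d ∈ a.support) : d.degree = k := by
  have h := ha (mem_support_iff.1 hd)
  have h2 : (Finsupp.degree d : ℕ) = Finsupp.weight 1 d := by
    rw [Finsupp.degree_eq_weight_one]
    rfl
  rw [h2]
  exact h

/-- Forms of degree `k + 1`. -/
theorem form_smul {π : Sx N →ₐ[ℂ] K} {W : ℕ → Submodule ℂ (Om (N + 1) K)} (hW : GFn π W) {k : ℕ}
    {a : Sx N} (ha : a.IsHomogeneous (k + 1)) {m : ℕ} {w : Om (N + 1) K} (hw : w ∈ W m) :
    π a • w ∈ sp π W (m + k) := by
  rw [a.as_sum, map_sum, Finset.sum_smul]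
  exact Submodule.sum_mem _ fun d hd =>
    mono_aux (mono hW k) d (deg_of_mem ha hd) _ m w hw

/-- Vectors of forms of degree `e`. -/
def Hs (N b e : ℕ) : Submodule ℂ (Fin b → Sx N) where
  carrier := {s | ∀ i, (s i).IsHomogeneous e}
  zero_mem' := fun _ => isHomogeneous_zero _ _ _
  add_mem' := fun h h' i => (h i).add (h' i)
  smul_mem' := by
    intro c s h i
    rw [Pi.smul_apply, MvPolynomial.smul_eq_C_mul]
    have := (isHomogeneous_C (Fin (N + 1)) c).mul (h i)
    rwa [zero_add] at this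

/-- The map `s ↦ ∑ s_i ω_i`. -/
def ph (π : Sx N →ₐ[ℂ] K) {b : ℕ} (ω : Fin b → Om (N + 1) K) :
    (Fin b → Sx N) →ₗ[ℂ] Om (N + 1) K where
  toFun s := ∑ i, π (s i) • ω i
  map_add' s s' := by
    simp only [Pi.add_apply, map_add, add_smul, Finset.sum_add_distrib]
  map_smul' c s := by
    rw [RingHom.id_apply, Finset.smul_sum]
    refine Finset.sum_congr rfl fun i _ => ?_
    rw [Pi.smul_apply, map_smul, smul_assoc]

theorem ph_apply (π : Sx N →ₐ[ℂ] K) {b : ℕ} (ω : Fin b → Om (N + 1) K) (s : Fin b → Sx N) :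
    ph π ω s = ∑ i, π (s i) • ω i := rfl

theorem ph_smul (π : Sx N →ₐ[ℂ] K) {b : ℕ} (ω : Fin b → Om (N + 1) K) (a : Sx N)
    (s : Fin b → Sx N) : ph π ω (a • s) = π a • ph π ω s := by
  rw [ph_apply, ph_apply, Finset.smul_sum]
  refine Finset.sum_congr rfl fun i _ => ?_
  rw [Pi.smul_apply, smul_eq_mul, map_mul, mul_smul]

/-- `U (m0 + e)` is the image of the vectors of forms of degree `e`. -/
theorem U_le {π : Sx N →ₐ[ℂ] K} {U : ℕ → Submodule ℂ (Om (N + 1) K)} {m0 : ℕ}
    (h0 : ∀ m, m0 ≤ m → ∀ w ∈ U (m + 1), w ∈ sp π U m) {b : ℕ} {ω : Fin b → Om (N + 1) K}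
    (hω : Submodule.span ℂ (Set.range ω) = U m0) (e : ℕ) :
    U (m0 + e) ≤ (Hs N b e).map (ph π ω) := by
  classical
  induction e with
  | zero =>
    rw [add_zero, ← hω]
    refine Submodule.span_le.2 ?_
    rintro _ ⟨i, rfl⟩
    refine ⟨fun j => if j = i then 1 else 0, fun j => ?_, ?_⟩
    · show MvPolynomial.IsHomogeneous (if j = i then (1 : Sx N) else 0) 0
      split_ifs
      · exact isHomogeneous_one _ _
      · exact isHomogeneous_zero _ _ _
    · rw [ph_apply, Finset.sum_eq_single i]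
      · rw [if_pos rfl, map_one, one_smul]
      · intro j _ hj
        rw [if_neg hj, map_zero, zero_smul]
      · intro h
        exact absurd (Finset.mem_univ i) h
  | succ e ih =>
    intro w hw
    have h1 := h0 (m0 + e) (Nat.le_add_right _ _) w hw
    refine (Submodule.span_le.2 ?_ : sp π U (m0 + e) ≤ (Hs N b (e + 1)).map (ph π ω)) h1
    rintro z ⟨i, w', hw', rfl⟩
    obtain ⟨s', hs', rfl⟩ := ih hw'
    refine ⟨(X i : Sx N) • s', fun j => ?_, ph_smul π ω (X i) s'⟩
    rw [Pi.smul_apply, smul_eq_mul]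
    have h2 := (isHomogeneous_X ℂ i).mul (hs' j)
    rwa [add_comm 1 e] at h2

/-- Homogeneous components of a product with a form. -/
theorem comp_mul {a t : Sx N} {d n : ℕ} (ht : t.IsHomogeneous d) (hdn : d ≤ n) :
    homogeneousComponent n (a * t) = homogeneousComponent (n - d) a * t := by
  let _ := MvPolynomial.gradedAlgebra (σ := Fin (N + 1)) (R := ℂ)
  have h : ∀ (p : Sx N) (i : ℕ), (DirectSum.decompose (homogeneousSubmodule (Fin (N + 1)) ℂ) p i :
      Sx N) = homogeneousComponent i p := fun p i => decomposition.decompose'_apply p i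
  have h1 := DirectSum.coe_decompose_mul_of_right_mem_of_le
    (𝒜 := homogeneousSubmodule (Fin (N + 1)) ℂ) (a := a) (b := t) (i := d) (n := n) ht hdn
  rwa [h, h] at h1

end NNoeAux

open NNoeAux in
/-- **Graded submodules are finitely generated.** -/
theorem nNoe : S_NNoe := by
  classical
  intro N K _ _ π U W hU hFU hW hWU
  obtain ⟨hfd, m0, h0⟩ := hFU
  refine ⟨fun m => ?_, ?_⟩
  · have := hfd m
    exact Submodule.finiteDimensional_of_le (hWU m)
  have hfg : (U m0).FG := by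
    have := hfd m0
    exact (Submodule.fg_iff_finiteDimensional _).2 this
  obtain ⟨b, ω, hω⟩ := Submodule.fg_iff_exists_fin_generating_family.1 hfg
  have hUle := U_le (U := U) h0 hω
  let A : Set (Fin b → Sx N) := {s | ∃ e, s ∈ Hs N b e ∧ ph π ω s ∈ W (m0 + e)}
  have hfgA : (Submodule.span (Sx N) A).FG := IsNoetherian.noetherian _
  obtain ⟨T, hTA, hT⟩ := (Submodule.fg_span_iff_fg_span_finset_subset A).1 hfgA
  have hex : ∀ t : Fin b → Sx N, ∃ e, t ∈ T → t ∈ Hs N b e ∧ ph π ω t ∈ W (m0 + e) := by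
    intro t
    by_cases ht : t ∈ T
    · obtain ⟨e, he⟩ := hTA ht
      exact ⟨e, fun _ => he⟩
    · exact ⟨0, fun h => absurd h ht⟩
  choose dg hdg using hex
  refine ⟨m0 + T.sup dg, fun m hm w hw => ?_⟩
  show w ∈ sp π W m
  obtain ⟨e, rfl⟩ : ∃ e, m = m0 + e := ⟨m - m0, by omega⟩
  have hle : ∀ t ∈ T, dg t ≤ e := fun t ht => (Finset.le_sup (f := dg) ht).trans (by omega)
  obtain ⟨s, hs, rfl⟩ := hUle (e + 1) (hWU _ hw)
  have hsA : s ∈ Submodule.span (Sx N) A := Submodule.subset_span ⟨e + 1, hs, hw⟩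
  rw [hT] at hsA
  obtain ⟨a, -, hsum⟩ := Submodule.mem_span_finset.1 hsA
  have hs2 : s = ∑ t ∈ T, homogeneousComponent (e + 1 - dg t) (a t) • t := by
    funext i
    have h1 : s i = ∑ t ∈ T, a t * t i := by
      rw [← hsum, Finset.sum_apply]
      rfl
    rw [← homogeneousComponent_eq_self (hs i), h1, map_sum, Finset.sum_apply]
    refine Finset.sum_congr rfl fun t ht => ?_
    rw [comp_mul ((hdg t ht).1 i) ((hle t ht).trans (Nat.le_succ e))]
    rfl
  rw [hs2, map_sum]
  refine Submodule.sum_mem _ fun t ht => ?_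
  rw [ph_smul]
  have h3 : e + 1 - dg t = (e - dg t) + 1 := by
    have := hle t ht
    omega
  have h4 : (homogeneousComponent (e + 1 - dg t) (a t)).IsHomogeneous ((e - dg t) + 1) := by
    rw [← h3]
    exact homogeneousComponent_isHomogeneous _ _
  have h5 := form_smul hW h4 (hdg t ht).2
  have h6 : m0 + dg t + (e - dg t) = m0 + e := by
    have := hle t ht
    omega
  rwa [h6] at h5

end Pool.Agent.Lib.MP_776403_ag.SD
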