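import Pool.Agent.Lib.MP_776403_ag.SD.SpecN

/-!
# THEOREM SD, Lemma N: recursion for the dimensions
-/

set_option autoImplicit false

open MvPolynomial

noncomputable section

namespace Pool.Agent.Lib.MP_776403_ag.SD

namespace NRecAux

variable {N : ℕ} {K : Type} [Field K] [Algebra ℂ K]

/-- Rank-nullity for a submodule, the kernel being known. -/
theorem rank_null {M M' : Type} [AddCommGroup M] [Module ℂ M] [AddCommGroup M'] [Module ℂ M']
    (f : M →ₗ[ℂ] M') (V W : Submodule ℂ M) [FiniteDimensional ℂ V] (hWV : W ≤ V)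
    (h1 : ∀ w ∈ V, f w = 0 → w ∈ W) (h2 : ∀ w ∈ W, f w = 0) :
    Module.finrank ℂ V = Module.finrank ℂ (V.map f) + Module.finrank ℂ W := by
  have hr := LinearMap.finrank_range_add_finrank_ker (f.domRestrict V)
  rw [LinearMap.range_domRestrict] at hr
  have hk : LinearMap.ker (f.domRestrict V) = Submodule.comap V.subtype W := by
    ext x
    rw [LinearMap.mem_ker, LinearMap.domRestrict_apply, Submodule.mem_comap, Submodule.subtype_apply]
    exact ⟨h1 _ x.2, h2 _⟩
  rw [hk, LinearEquiv.finrank_eq (Submodule.comapSubtypeEquivOfLe hWV)] at hr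
  exact hr.symm

/-- The elements of `Λ_0(m)`. -/
theorem mem_Lm_zero {I : Ideal (Sx N)} {π : Sx N →ₐ[ℂ] K} {m : ℕ} {w : Om (N + 1) K}
    (hw : w ∈ Lm I π 0 m) : ∃ a : Sx N, w = π a • (eps : Om (N + 1) K) := by
  unfold Lm at hw
  induction hw using Submodule.span_induction with
  | mem z hz =>
    obtain ⟨a, e, L, -, hL, -, -, rfl⟩ := hz
    rw [List.length_eq_zero_iff] at hL
    subst hL
    exact ⟨a, rfl⟩
  | zero => exact ⟨0, by rw [map_zero, zero_smul]⟩
  | add x y _ _ hx hy =>
    obtain ⟨a, rfl⟩ := hx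
    obtain ⟨b, rfl⟩ := hy
    exact ⟨a + b, by rw [map_add, add_smul]⟩
  | smul r x _ hx =>
    obtain ⟨a, rfl⟩ := hx
    exact ⟨r • a, by rw [map_smul, smul_assoc]⟩

/-- `σ_(i-1) ∧ ... ∧ σ_0 ∧ (wedge of a list)` is the wedge of a longer list. -/
theorem itw_wdg (σ : ℕ → Fin (N + 1) → K) (C : Submodule K (Fin (N + 1) → K))
    (us : List (Fin (N + 1) → K)) (hus : ∀ u ∈ us, u ∈ C) (i : ℕ) (hσ : ∀ l < i, σ l ∈ C) :
    ∃ vs : List (Fin (N + 1) → K), vs.length = i + us.length ∧ (∀ u ∈ vs, u ∈ C) ∧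
      itw σ i (wdg us) = wdg vs := by
  induction i with
  | zero => exact ⟨us, by rw [zero_add], hus, itw_zero _ _⟩
  | succ i ih =>
    obtain ⟨vs, h1, h2, h3⟩ := ih (fun l hl => hσ l (Nat.lt_succ_of_lt hl))
    refine ⟨σ i :: vs, by rw [List.length_cons, h1]; omega, ?_, ?_⟩
    · intro u hu
      rcases List.mem_cons.1 hu with rfl | hu
      · exact hσ i (Nat.lt_succ_self i)
      · exact h2 u hu
    · rw [itw_succ, h3, wdg_cons]

end NRecAux

theorem nRec (h1 : S_NKerA) (h2 : S_NKerB) (h3 : S_NLi0) (h4 : S_NDep) (h5 : S_NLfg) :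
    S_NRec := by
  intro N c Q K _ _ I J π σ δ hD
  have hker : ∀ F ∈ I, π F = 0 := fun F hF => (hD.ker F).2 (hD.le hF)
  have hfin : ∀ i j m, FiniteDimensional ℂ (Li I π σ i j m) := fun i j m =>
    (h5 N K I π hD.Ihom hker σ i j).1 m
  refine ⟨?_, ?_, ?_⟩
  · intro i hi j
    obtain ⟨m1, hm1⟩ := h1 N c Q K I J π σ δ hD i hi j
    obtain ⟨m2, hm2⟩ := h2 N c Q K I J π σ δ hD i hi j
    refine Filter.eventually_atTop.2 ⟨max m1 m2, fun m hm => ?_⟩
    have hma : m1 ≤ m := le_trans (le_max_left _ _) hm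
    have hmb : m2 ≤ m := le_trans (le_max_right _ _) hm
    have := hfin i (j + 1) (m + δ i)
    rw [Li_succ (i := i) (j := j + 1) (m := m + δ i)]
    refine NRecAux.rank_null ((wed (σ i)).restrictScalars ℂ) (Li I π σ i (j + 1) (m + δ i))
      (Li I π σ (i + 1) j m) (hm2 m hmb) ?_ ?_
    · intro w hw hw0
      exact hm1 m hma w hw hw0
    · intro w hw
      obtain ⟨η, -, rfl⟩ := mem_Li.1 hw
      rw [LinearMap.restrictScalars_apply, itw_succ]
      exact wed_self _ _
  · intro i hi m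
    have := hfin i 0 m
    have key := NRecAux.rank_null ((wed (σ i)).restrictScalars ℂ) (Li I π σ i 0 m) ⊥ bot_le ?_ ?_
    · rw [key, Li_succ, finrank_bot, add_zero]
    · intro w hw hw0
      obtain ⟨η, hη, rfl⟩ := mem_Li.1 hw
      obtain ⟨a, rfl⟩ := NRecAux.mem_Lm_zero hη
      rw [LinearMap.restrictScalars_apply, ← itw_succ, map_smul] at hw0
      have hne : itw σ (i + 1) (eps : Om (N + 1) K) ≠ 0 := by
        refine h3 N K σ (i + 1) ?_
        have := hD.ind.comp (Fin.castLE (Nat.succ_le_of_lt hi)) (Fin.castLE_injective _)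
        exact this
      rcases smul_eq_zero.1 hw0 with h | h
      · rw [h, zero_smul, map_zero]
        exact Submodule.zero_mem _
      · exact absurd h hne
    · intro w hw
      rw [(Submodule.mem_bot ℂ).1 hw, map_zero]
  · intro j hj m
    have hbot : Li I π σ Q j m = ⊥ := by
      rw [eq_bot_iff]
      intro w hw
      obtain ⟨η, hη, rfl⟩ := mem_Li.1 hw
      rw [Submodule.mem_bot]
      unfold Lm at hη
      clear hw
      induction hη using Submodule.span_induction with
      | mem z hz =>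
        obtain ⟨a, e, L, -, hL, hL', -, rfl⟩ := hz
        rw [map_smul]
        obtain ⟨vs, hv1, hv2, hv3⟩ := NRecAux.itw_wdg σ (CK I π) (L.map fun x => gk π x.1) (by
          intro u hu
          obtain ⟨x, hx, rfl⟩ := List.mem_map.1 hu
          exact Submodule.subset_span ⟨x.1, (hL' x hx).1, rfl⟩) Q hD.mem
        rw [hv3, h4 (N + 1) K (CK I π) vs hv2, smul_zero]
        rw [hv1, List.length_map, hL]
        exact lt_of_le_of_lt hD.rk hj
      | zero => rw [map_zero]
      | add x y _ _ hx hy => rw [map_add, hx, hy, add_zero]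
      | smul r x _ hx => rw [← algebraMap_smul K r x, map_smul, hx, smul_zero]
    rw [hbot, finrank_bot]

end Pool.Agent.Lib.MP_776403_ag.SD
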