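import Pool.Agent.Lib.MP_776403_ag.SD.SpecN

/-!
# THEOREM SD, section 5: NRel (helper97)

`Λ_j(m)` with determinants in `S / J` has the same dimension as `Lm`.
-/

set_option autoImplicit false

open MvPolynomial

noncomputable section

namespace Pool.Agent.Lib.MP_776403_ag.SD

namespace NRelAux

variable {N : ℕ} {K : Type} [Field K] [Algebra ℂ K]

/-- The homomorphism `S / J → K`. -/
def piq (J : Ideal (Sx N)) (π : Sx N →ₐ[ℂ] K) (hJ : ∀ F, π F = 0 ↔ F ∈ J) :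
    (Sx N ⧸ J) →ₐ[ℂ] K :=
  Ideal.Quotient.liftₐ J π fun F hF => (hJ F).2 hF

theorem piq_mk (J : Ideal (Sx N)) (π : Sx N →ₐ[ℂ] K) (hJ : ∀ F, π F = 0 ↔ F ∈ J) (F : Sx N) :
    piq J π hJ (Ideal.Quotient.mk J F) = π F := rfl

theorem piq_inj (J : Ideal (Sx N)) (π : Sx N →ₐ[ℂ] K) (hJ : ∀ F, π F = 0 ↔ F ∈ J)
    {x : Sx N ⧸ J} (hx : piq J π hJ x = 0) : x = 0 := by
  obtain ⟨F, rfl⟩ := Ideal.Quotient.mk_surjective x
  rw [piq_mk] at hx
  exact Ideal.Quotient.eq_zero_iff_mem.2 ((hJ F).1 hx)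

/-- From functions of `j` indices to functions of lists. -/
def Psi (J : Ideal (Sx N)) (π : Sx N →ₐ[ℂ] K) (hJ : ∀ F, π F = 0 ↔ F ∈ J) (j : ℕ) :
    ((Fin j → Fin (N + 1)) → Sx N ⧸ J) →ₗ[ℂ] Om (N + 1) K where
  toFun ω := fun e => if h : e.length = j then
    piq J π hJ (ω fun k => e.get (Fin.cast h.symm k)) else 0
  map_add' ω ω' := by
    funext e
    by_cases h : e.length = j
    · simp only [dif_pos h, Pi.add_apply, map_add]
    · simp only [dif_neg h, Pi.add_apply, add_zero]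
  map_smul' r ω := by
    funext e
    by_cases h : e.length = j
    · simp only [dif_pos h, Pi.smul_apply, map_smul, RingHom.id_apply]
    · simp only [dif_neg h, Pi.smul_apply, smul_zero, RingHom.id_apply]

theorem exists_ofFn {α : Type} {j : ℕ} (e : List α) (h : e.length = j) :
    ∃ f : Fin j → α, List.ofFn f = e := by
  subst h
  exact ⟨e.get, List.ofFn_get e⟩

theorem Psi_ofFn (J : Ideal (Sx N)) (π : Sx N →ₐ[ℂ] K) (hJ : ∀ F, π F = 0 ↔ F ∈ J) {j : ℕ}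
    (ω : (Fin j → Fin (N + 1)) → Sx N ⧸ J) (α : Fin j → Fin (N + 1)) :
    Psi J π hJ j ω (List.ofFn α) = piq J π hJ (ω α) := by
  have h : (List.ofFn α).length = j := List.length_ofFn
  have h1 : (fun k => (List.ofFn α).get (Fin.cast h.symm k)) = α := by
    funext k
    rw [List.get_ofFn]
    rfl
  change (if h : (List.ofFn α).length = j then
    piq J π hJ (ω fun k => (List.ofFn α).get (Fin.cast h.symm k)) else 0) = _
  rw [dif_pos h, h1]

theorem Psi_of_ne (J : Ideal (Sx N)) (π : Sx N →ₐ[ℂ] K) (hJ : ∀ F, π F = 0 ↔ F ∈ J) {j : ℕ}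
    (ω : (Fin j → Fin (N + 1)) → Sx N ⧸ J) (e : List (Fin (N + 1))) (h : e.length ≠ j) :
    Psi J π hJ j ω e = 0 := by
  change (if h : e.length = j then
    piq J π hJ (ω fun k => e.get (Fin.cast h.symm k)) else 0) = _
  rw [dif_neg h]

theorem Psi_inj (J : Ideal (Sx N)) (π : Sx N →ₐ[ℂ] K) (hJ : ∀ F, π F = 0 ↔ F ∈ J) (j : ℕ) :
    Function.Injective (Psi J π hJ j) := by
  rw [← LinearMap.ker_eq_bot, LinearMap.ker_eq_bot']
  intro ω hω
  funext α
  have h := congrFun hω (List.ofFn α)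
  rw [Psi_ofFn] at h
  exact piq_inj J π hJ h

theorem Psi_gen (h1 : S_NDet) (J : Ideal (Sx N)) (π : Sx N →ₐ[ℂ] K)
    (hJ : ∀ F, π F = 0 ↔ F ∈ J) {j : ℕ} (a : Sx N) (F : Fin j → Sx N) :
    Psi J π hJ j (fun α => Ideal.Quotient.mk J
      (a * Matrix.det (Matrix.of fun i k => pderiv (α k) (F i)))) =
    π a • wdg (List.ofFn fun i => gk π (F i)) := by
  obtain ⟨hd, hz⟩ := h1 (N + 1) K j fun i => gk π (F i)
  funext e
  by_cases h : e.length = j
  · obtain ⟨α, rfl⟩ := exists_ofFn e h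
    rw [Psi_ofFn, piq_mk, map_mul, Pi.smul_apply, hd α, smul_eq_mul]
    have h2 : π (Matrix.det (Matrix.of fun i k => pderiv (α k) (F i))) =
        Matrix.det (Matrix.of fun i k => gk π (F i) (α k)) := by
      rw [AlgHom.map_det]
      rfl
    rw [h2]
  · rw [Psi_of_ne J π hJ _ e h, Pi.smul_apply, hz e h, smul_zero]

theorem Lm_eq (h1 : S_NDet) (I J : Ideal (Sx N)) (π : Sx N →ₐ[ℂ] K)
    (hJ : ∀ F, π F = 0 ↔ F ∈ J) (j m : ℕ) :
    Lm I π j m = (Lam I J j m).map (Psi J π hJ j) := by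
  unfold Lm Lam
  rw [Submodule.map_span]
  refine congrArg _ (Set.ext fun z => ⟨?_, ?_⟩)
  · rintro ⟨a, e, L, ha, hL, hLI, hm, rfl⟩
    obtain ⟨P, rfl⟩ := exists_ofFn L hL
    refine ⟨_, ⟨a, e, fun i => (P i).1, fun i => (P i).2, ha, fun i => ?_, ?_, rfl⟩, ?_⟩
    · exact hLI _ ((List.mem_ofFn' P _).2 ⟨i, rfl⟩)
    · rw [← hm, List.map_ofFn, List.sum_ofFn]
      rfl
    · rw [Psi_gen h1, List.map_ofFn]
      rfl
  · rintro ⟨_, ⟨a, e, F, f, ha, hFI, hm, rfl⟩, rfl⟩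
    refine ⟨a, e, List.ofFn fun i => (F i, f i), ha, List.length_ofFn, ?_, ?_, ?_⟩
    · intro x hx
      obtain ⟨i, rfl⟩ := (List.mem_ofFn' _ _).1 hx
      exact hFI i
    · rw [← hm, List.map_ofFn, List.sum_ofFn]
      rfl
    · rw [Psi_gen h1, List.map_ofFn]
      rfl

end NRelAux

open NRelAux in
theorem nRel (h1 : S_NDet) : S_NRel := by
  intro N K _ _ I J π hJ j m
  rw [Lm_eq h1 I J π hJ j m]
  exact (LinearEquiv.finrank_eq
    (Submodule.equivMapOfInjective (Psi J π hJ j) (Psi_inj J π hJ j) (Lam I J j m))).symm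

end Pool.Agent.Lib.MP_776403_ag.SD
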