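import Pool.Agent.Lib.MP_776403_ag.SD.SpecN

/-!
# THEOREM SD, section 5: rank of the space of gradients
-/

set_option autoImplicit false

open MvPolynomial

noncomputable section

namespace Pool.Agent.Lib.MP_776403_ag.SD

namespace NRkAux

/-- vectors of forms with values in the conormal spaces, independent over `K`: at most `c` -/
theorem card_le (h1 : S_Perp) (h2 : S_NSpc) {N c : ℕ} {K : Type} [Field K] [Algebra ℂ K]
    {I J : Ideal (Sx N)} {π : Sx N →ₐ[ℂ] K} (hIp : I.IsPrime) (hIh : IsHom I) (hS : Smooth I c)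
    (hJp : J.IsPrime) (hJh : IsHom J) (hIJ : I ≤ J) (hker : ∀ F, π F = 0 ↔ F ∈ J)
    (hne : ∃ y ∈ zer J, y ≠ 0) (r : ℕ) (P : Fin r → Fin (N + 1) → Sx N) (e : Fin r → ℕ)
    (hP : ∀ l b, (P l b).IsHomogeneous (e l))
    (hval : ∀ l, ∀ z ∈ zer J, z ≠ 0 → (fun b => eval z (P l b)) ∈ CN I z)
    (hind : LinearIndependent K (fun l : Fin r => fun b => π (P l b))) : r ≤ c := by
  obtain ⟨z, hz, hz0, hl⟩ := (h2 N K J π hJp hJh hker hne r P e hP).1 hind
  have hzI : z ∈ zer I := fun F hF => hz F (hIJ hF)
  have hfin := (h1 N c I hIp hIh hS z hzI hz0).1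
  let v : Fin r → CN I z := fun l => ⟨fun b => eval z (P l b), hval l z hz hz0⟩
  have hv : LinearIndependent ℂ v := LinearIndependent.of_comp (CN I z).subtype hl
  have h3 := hv.fintype_card_le_finrank
  rw [Fintype.card_fin, hfin] at h3
  exact h3

/-- the gradients of the forms of `I` -/
def GG {N : ℕ} {K : Type} [Field K] [Algebra ℂ K] (I : Ideal (Sx N)) (π : Sx N →ₐ[ℂ] K) :
    Set (Fin (N + 1) → K) := {v | ∃ F ∈ I, ∃ f : ℕ, F.IsHomogeneous f ∧ v = gk π F}

theorem CK_eq {N : ℕ} {K : Type} [Field K] [Algebra ℂ K] {I : Ideal (Sx N)} (hIh : IsHom I)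
    (π : Sx N →ₐ[ℂ] K) : CK I π = Submodule.span K (GG I π) := by
  apply le_antisymm
  · refine Submodule.span_le.2 ?_
    rintro v ⟨F, hF, rfl⟩
    have e1 : gk π F = ∑ m ∈ Finset.range (F.totalDegree + 1),
        gk π (homogeneousComponent m F) := by
      funext b
      have h := sum_homogeneousComponent F
      calc gk π F b = π (pderiv b F) := rfl
        _ = π (pderiv b (∑ m ∈ Finset.range (F.totalDegree + 1), homogeneousComponent m F)) := by
            rw [h]
        _ = ∑ m ∈ Finset.range (F.totalDegree + 1), π (pderiv b (homogeneousComponent m F)) := by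
            rw [map_sum, map_sum]
        _ = (∑ m ∈ Finset.range (F.totalDegree + 1), gk π (homogeneousComponent m F)) b := by
            rw [Finset.sum_apply]
            rfl
    rw [e1]
    refine Submodule.sum_mem _ (fun m _ => Submodule.subset_span ?_)
    exact ⟨_, hIh F hF m, m, homogeneousComponent_isHomogeneous m F, rfl⟩
  · refine Submodule.span_mono ?_
    rintro v ⟨F, hF, _, _, rfl⟩
    exact ⟨F, hF, rfl⟩

end NRkAux

open NRkAux in
theorem nRk (h1 : S_Perp) (h2 : S_NSpc) : S_NRk := by
  classical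
  intro N c K _ _ I J π hIp hIh hS hJp hJh hIJ hker hne
  have hcn : ∀ F ∈ I, ∀ z : Vx N, (fun b => eval z (pderiv b F)) ∈ CN I z :=
    fun F hF z => Submodule.subset_span ⟨F, hF, rfl⟩
  constructor
  · obtain ⟨b, hbG, hbs, hbi⟩ := exists_linearIndependent K (GG I π)
    have hfin : b.Finite := hbi.setFinite
    haveI : Fintype b := hfin.fintype
    let eq : b ≃ Fin (Fintype.card b) := Fintype.equivFin b
    have hch : ∀ l : Fin (Fintype.card b), ∃ F ∈ I, ∃ f : ℕ, F.IsHomogeneous f ∧
        ((eq.symm l : b) : Fin (N + 1) → K) = gk π F := fun l => hbG (eq.symm l).2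
    choose F hF f hf hFv using hch
    have hind : LinearIndependent K
        (fun l : Fin (Fintype.card b) => fun i => π (pderiv i (F l))) := by
      have h3 : (fun l : Fin (Fintype.card b) => fun i => π (pderiv i (F l))) =
          (fun x : b => (x : Fin (N + 1) → K)) ∘ eq.symm := by
        funext l
        exact (hFv l).symm
      rw [h3]
      exact hbi.comp _ eq.symm.injective
    have h4 := card_le h1 h2 hIp hIh hS hJp hJh hIJ hker hne _
      (fun l i => pderiv i (F l)) (fun l => f l - 1) (fun l i => (hf l).pderiv)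
      (fun l z _ _ => hcn (F l) (hF l) z) hind
    rw [CK_eq hIh π, ← hbs, finrank_span_set_eq_card hbi, Set.toFinset_card]
    exact h4
  · intro P e hP hPv
    by_contra hcon
    obtain ⟨y, hy, hy0⟩ := hne
    obtain ⟨F, f, -, -, hF, -, -, hFi, -⟩ := hS y (fun G hG => hy G (hIJ hG)) hy0
    have hK : LinearIndependent K (fun l : Fin c => fun i => π (pderiv i (F l))) :=
      (h2 N K J π hJp hJh hker ⟨y, hy, hy0⟩ c (fun l i => pderiv i (F l)) (fun l => f l - 1)
        (fun l i => (hF l).2.pderiv)).2 ⟨y, hy, hy0, hFi⟩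
    have hns : (fun b => π (P b)) ∉
        Submodule.span K (Set.range (fun l : Fin c => fun i => π (pderiv i (F l)))) := by
      intro h
      refine hcon (Submodule.span_le.2 ?_ h)
      rintro _ ⟨l, rfl⟩
      exact Submodule.subset_span ⟨F l, (hF l).1, rfl⟩
    have hcons : LinearIndependent K (Fin.cons (fun b => π (P b))
        (fun l : Fin c => fun i => π (pderiv i (F l))) : Fin (c + 1) → Fin (N + 1) → K) :=
      linearIndependent_finCons.2 ⟨hK, hns⟩
    have h5 := card_le h1 h2 hIp hIh hS hJp hJh hIJ hker ⟨y, hy, hy0⟩ (c + 1)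
      (Fin.cons P (fun l i => pderiv i (F l)) : Fin (c + 1) → Fin (N + 1) → Sx N)
      (Fin.cons e (fun l => f l - 1) : Fin (c + 1) → ℕ)
      (by
        intro l i
        refine Fin.cases ?_ (fun k => ?_) l
        · exact hP i
        · exact (hF k).2.pderiv)
      (by
        intro l z hz hz0
        refine Fin.cases ?_ (fun k => ?_) l
        · exact hPv z hz hz0
        · exact hcn (F k) (hF k).1 z)
      (by
        have h6 : (fun l : Fin (c + 1) => fun b => π ((Fin.cons P (fun l i => pderiv i (F l)) :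
            Fin (c + 1) → Fin (N + 1) → Sx N) l b)) = (Fin.cons (fun b => π (P b))
            (fun l : Fin c => fun i => π (pderiv i (F l))) : Fin (c + 1) → Fin (N + 1) → K) := by
          funext l
          refine Fin.cases ?_ (fun k => ?_) l
          · rfl
          · rfl
        rw [h6]
        exact hcons)
    omega

end Pool.Agent.Lib.MP_776403_ag.SD
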