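import Pool.Agent.Lib.MP_776403_ag.SD.SpecN

/-!
# THEOREM SD, module NSat: a local inclusion of graded modules holds in large degrees
-/

set_option autoImplicit false

open MvPolynomial

noncomputable section

namespace Pool.Agent.Lib.MP_776403_ag.SD

namespace NSatAux

variable {N : ℕ} {K : Type} [Field K] [Algebra ℂ K]

/-- The ideal of the polynomials all of whose components map `W` into `U`. -/
def bI (π : Sx N →ₐ[ℂ] K) (U W : ℕ → Submodule ℂ (Om (N + 1) K)) (hU : GFn π U) :
    Ideal (Sx N) where
  carrier := {F | ∀ e m : ℕ, ∀ w ∈ W m, π (homogeneousComponent e F) • w ∈ U (m + e)}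
  zero_mem' := by
    intro e m w _
    rw [map_zero, map_zero, zero_smul]
    exact Submodule.zero_mem _
  add_mem' := by
    intro F G hF hG e m w hw
    rw [map_add, map_add, add_smul]
    exact Submodule.add_mem _ (hF e m w hw) (hG e m w hw)
  smul_mem' := by
    intro a F hF
    rw [smul_eq_mul]
    induction a using MvPolynomial.induction_on with
    | C c =>
      intro e m w hw
      rw [homogeneousComponent_C_mul, map_mul, mul_smul]
      have h1 : π (C c) = algebraMap ℂ K c := π.commutes c
      rw [h1, algebraMap_smul]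
      exact Submodule.smul_mem _ c (hF e m w hw)
    | add p q hp hq =>
      intro e m w hw
      rw [add_mul, map_add, map_add, add_smul]
      exact Submodule.add_mem _ (hp e m w hw) (hq e m w hw)
    | mul_X p i hp =>
      intro e m w hw
      have h1 : p * X i * F = ∑ j ∈ Finset.range ((p * F).totalDegree + 1),
          X i * homogeneousComponent j (p * F) := by
        rw [← Finset.mul_sum, sum_homogeneousComponent]
        ring
      rw [h1, map_sum, map_sum, Finset.sum_smul]
      refine Submodule.sum_mem _ (fun j _ => ?_)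
      have h2 : (X i * homogeneousComponent j (p * F)) ∈
          homogeneousSubmodule (Fin (N + 1)) ℂ (1 + j) :=
        (isHomogeneous_X ℂ i).mul (homogeneousComponent_isHomogeneous j _)
      rw [homogeneousComponent_of_mem h2]
      split_ifs with h3
      · rw [map_mul, mul_smul]
        have h4 := hU (m + j) i _ (hp j m w hw)
        have h5 : m + e = m + j + 1 := by omega
        rw [h5]
        exact h4
      · rw [map_zero, zero_smul]
        exact Submodule.zero_mem _

theorem mem_bI {π : Sx N →ₐ[ℂ] K} {U W : ℕ → Submodule ℂ (Om (N + 1) K)} {hU : GFn π U}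
    {F : Sx N} : F ∈ bI π U W hU ↔
      ∀ e m : ℕ, ∀ w ∈ W m, π (homogeneousComponent e F) • w ∈ U (m + e) := Iff.rfl

theorem bI_hom {π : Sx N →ₐ[ℂ] K} {U W : ℕ → Submodule ℂ (Om (N + 1) K)} {hU : GFn π U} :
    IsHom (bI π U W hU) := by
  intro F hF k e m w hw
  have h2 : homogeneousComponent k F ∈ homogeneousSubmodule (Fin (N + 1)) ℂ k :=
    homogeneousComponent_isHomogeneous k F
  rw [homogeneousComponent_of_mem h2]
  split_ifs with h3
  · subst h3
    exact hF e m w hw
  · rw [map_zero, zero_smul]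
    exact Submodule.zero_mem _

/-- Generation in large degrees. -/
theorem gen {π : Sx N →ₐ[ℂ] K} {W : ℕ → Submodule ℂ (Om (N + 1) K)} {m0 : ℕ}
    (h : ∀ m, m0 ≤ m → ∀ w ∈ W (m + 1),
      w ∈ Submodule.span ℂ {z | ∃ (i : Fin (N + 1)) (w' : Om (N + 1) K), w' ∈ W m ∧
        z = π (X i) • w'}) (m : ℕ) (hm : m0 ≤ m) (k : ℕ) :
    ∀ w ∈ W (m + k), w ∈ Submodule.span ℂ {z | ∃ (s : Sx N) (w' : Om (N + 1) K),
      s.IsHomogeneous k ∧ w' ∈ W m ∧ z = π s • w'} := by
  induction k with
  | zero =>
    intro w hw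
    refine Submodule.subset_span ⟨1, w, isHomogeneous_one _ _, hw, ?_⟩
    rw [map_one, one_smul]
  | succ k ih =>
    intro w hw
    have h1 := h (m + k) (by omega) w hw
    refine Submodule.span_induction (p := fun w _ => w ∈ Submodule.span ℂ
      {z | ∃ (s : Sx N) (w' : Om (N + 1) K), s.IsHomogeneous (k + 1) ∧ w' ∈ W m ∧
        z = π s • w'}) ?_ (Submodule.zero_mem _) (fun x y _ _ hx hy => Submodule.add_mem _ hx hy)
      (fun a x _ hx => Submodule.smul_mem _ a hx) h1
    rintro z ⟨i, w', hw', rfl⟩
    refine Submodule.span_induction (p := fun w' _ => π (X i) • w' ∈ Submodule.span ℂ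
      {z | ∃ (s : Sx N) (w' : Om (N + 1) K), s.IsHomogeneous (k + 1) ∧ w' ∈ W m ∧
        z = π s • w'}) ?_ ?_ ?_ ?_ (ih w' hw')
    · rintro z ⟨s, w'', hs, hw'', rfl⟩
      refine Submodule.subset_span ⟨s * X i, w'', hs.mul (isHomogeneous_X ℂ i), hw'', ?_⟩
      rw [map_mul, mul_comm, mul_smul]
    · rw [smul_zero]
      exact Submodule.zero_mem _
    · intro x y _ _ hx hy
      rw [smul_add]
      exact Submodule.add_mem _ hx hy
    · intro a x _ hx
      rw [smul_comm]
      exact Submodule.smul_mem _ a hx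

end NSatAux

open NSatAux in
theorem nSat (h1 : S_Irr) : S_NSat := by
  intro N K _ _ J π hJ hker U W hU hW hloc
  obtain ⟨-, m0, hm0⟩ := hW
  have hJb : ∀ F ∈ J, F ∈ bI π U W hU := by
    intro F hF e m w _
    rw [(hker _).2 (hJ F hF e), zero_smul]
    exact Submodule.zero_mem _
  obtain ⟨r, hr⟩ := h1 N (bI π U W hU) bI_hom (fun z hz => by
    by_contra hz0
    have hzJ : z ∈ zer J := fun F hF => hz F (hJb F hF)
    obtain ⟨g, e, hg, hgz, hgw⟩ := hloc z hzJ hz0
    apply hgz
    apply hz g
    intro e' m w hw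
    have h2 : g ∈ homogeneousSubmodule (Fin (N + 1)) ℂ e := hg
    rw [homogeneousComponent_of_mem h2]
    split_ifs with h3
    · subst h3
      exact hgw m w hw
    · rw [map_zero, zero_smul]
      exact Submodule.zero_mem _)
  refine ⟨m0 + r, fun m hm w hw => ?_⟩
  obtain ⟨m', rfl⟩ : ∃ m', m = m' + r := ⟨m - r, by omega⟩
  have h3 := gen hm0 m' (by omega) r w hw
  refine Submodule.span_le.2 ?_ h3
  rintro z ⟨s, w', hs, hw', rfl⟩
  have h4 := hr r (le_refl r) s hs r m' w' hw'
  have h5 : s ∈ homogeneousSubmodule (Fin (N + 1)) ℂ r := hs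
  rw [homogeneousComponent_of_mem h5, if_pos rfl] at h4
  exact h4

end Pool.Agent.Lib.MP_776403_ag.SD
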