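import Pool.Agent.Lib.MP_776403_ag.SD.SpecN

/-!
# THEOREM SD, section 5: `S_NSpc`

Linear independence over `K` of vectors of forms is linear independence of the values at some point
of the punctured cone.
-/

set_option autoImplicit false

noncomputable section

namespace Pool.Agent.Lib.MP_776403_ag.SD

open MvPolynomial

namespace NSpcAux

/-- `r` vectors over a field are independent iff some `r × r` minor is nonzero. -/
private theorem li_iff {F : Type} [Field F] {r n : ℕ} (v : Fin r → Fin n → F) :
    LinearIndependent F v ↔ ∃ s : Fin r → Fin n,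
      Matrix.det (Matrix.of fun l k => v l (s k)) ≠ 0 := by
  constructor
  · intro h
    have h1 : (Matrix.of v).rank = r := by
      have := LinearIndependent.rank_matrix (M := Matrix.of v) h
      simpa using this
    obtain ⟨κ, a, ha, hsp, hli⟩ := exists_linearIndependent' F (Matrix.of v).col
    have : Finite κ := Finite.of_injective a ha
    letI : Fintype κ := Fintype.ofFinite κ
    have h2 : Fintype.card κ = r := by
      rw [← finrank_span_eq_card hli, hsp, ← Matrix.rank_eq_finrank_span_cols, h1]
    have eq : Fin r ≃ κ := (Fintype.equivFinOfCardEq h2).symm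
    refine ⟨a ∘ eq, ?_⟩
    have h3 : LinearIndependent F
        (Matrix.of fun (l k : Fin r) => v l ((a ∘ eq) k)).col := hli.comp _ eq.injective
    have h4 := Matrix.linearIndependent_cols_iff_isUnit.1 h3
    exact ((Matrix.isUnit_iff_isUnit_det _).1 h4).ne_zero
  · rintro ⟨s, hs⟩
    have h1 := Matrix.linearIndependent_rows_of_det_ne_zero hs
    have h2 : LinearIndependent F (fun l : Fin r => (LinearMap.funLeft F F s) (v l)) := h1
    exact LinearIndependent.of_comp (LinearMap.funLeft F F s) h2

end NSpcAux

open NSpcAux

/-- Linear independence over `K` of vectors of forms is linear independence of the values at some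
point of the punctured cone. -/
theorem nSpc (h1 : S_Null) : S_NSpc := by
  intro N K _ _ J π hJ hJh hker hne r P e hP
  -- the minor
  have hmap : ∀ s : Fin r → Fin (N + 1),
      Matrix.det (Matrix.of fun l k => π (P l (s k))) =
        π (Matrix.det (Matrix.of fun l k => P l (s k))) := by
    intro s
    rw [AlgHom.map_det]
    rfl
  have hev : ∀ (z : Vx N) (s : Fin r → Fin (N + 1)),
      Matrix.det (Matrix.of fun l k => eval z (P l (s k))) =
        eval z (Matrix.det (Matrix.of fun l k => P l (s k))) := by
    intro z s
    rw [RingHom.map_det]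
    rfl
  have hhom : ∀ s : Fin r → Fin (N + 1),
      (Matrix.det (Matrix.of fun l k => P l (s k))).IsHomogeneous (∑ l, e l) := by
    intro s
    rw [Matrix.det_apply]
    refine IsHomogeneous.sum _ _ _ fun g _ => ?_
    have h2 : (∏ i, (Matrix.of fun l k => P l (s k)) (g i) i).IsHomogeneous (∑ l, e l) := by
      rw [← Equiv.sum_comp g e]
      exact IsHomogeneous.prod _ _ _ fun i _ => hP (g i) (s i)
    rcases Int.units_eq_one_or (Equiv.Perm.sign g) with h | h
    · rw [h, one_smul]; exact h2
    · rw [h, Units.neg_smul, one_smul]; exact h2.neg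
  rw [li_iff]
  constructor
  · rintro ⟨s, hs⟩
    rw [hmap s] at hs
    have h2 : Matrix.det (Matrix.of fun l k => P l (s k)) ∉ J := fun h => hs ((hker _).2 h)
    by_contra hcon
    refine h2 ((h1 N J hJ hJh).2 hne _ _ (hhom s) fun z hz hz0 => ?_)
    by_contra h3
    refine hcon ⟨z, hz, hz0, ?_⟩
    rw [li_iff]
    exact ⟨s, by rw [hev z s]; exact h3⟩
  · rintro ⟨z, hz, hz0, hli⟩
    rw [li_iff] at hli
    obtain ⟨s, hs⟩ := hli
    rw [hev z s] at hs
    refine ⟨s, ?_⟩
    rw [hmap s]
    intro h
    exact hs (hz _ ((hker _).1 h))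

end Pool.Agent.Lib.MP_776403_ag.SD
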