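import Pool.Agent.Lib.MP_776403_ag.SD.NAsm
import Pool.Agent.Lib.MP_776403_ag.SD.Irr
import Pool.Agent.Lib.MP_776403_ag.SD.NBin
import Pool.Agent.Lib.MP_776403_ag.SD.NCnv
import Pool.Agent.Lib.MP_776403_ag.SD.NCon
import Pool.Agent.Lib.MP_776403_ag.SD.NCrm
import Pool.Agent.Lib.MP_776403_ag.SD.NDep
import Pool.Agent.Lib.MP_776403_ag.SD.NDet
import Pool.Agent.Lib.MP_776403_ag.SD.NFun
import Pool.Agent.Lib.MP_776403_ag.SD.NGro
import Pool.Agent.Lib.MP_776403_ag.SD.NKerA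
import Pool.Agent.Lib.MP_776403_ag.SD.NKerB
import Pool.Agent.Lib.MP_776403_ag.SD.NLfg
import Pool.Agent.Lib.MP_776403_ag.SD.NLi0
import Pool.Agent.Lib.MP_776403_ag.SD.NNoe
import Pool.Agent.Lib.MP_776403_ag.SD.NPow
import Pool.Agent.Lib.MP_776403_ag.SD.NRec
import Pool.Agent.Lib.MP_776403_ag.SD.NRel
import Pool.Agent.Lib.MP_776403_ag.SD.NRk
import Pool.Agent.Lib.MP_776403_ag.SD.NSat
import Pool.Agent.Lib.MP_776403_ag.SD.NSpc

/-!
# THEOREM SD: Lemma N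
-/

set_option autoImplicit false

namespace Pool.Agent.Lib.MP_776403_ag.SD

/-- Lemma N, from the dimension lemma (D1), (D6'), the Nullstellensatz and `S_Perp`. -/
theorem nMain (hD1 : S_D1) (h6 : S_D6') (hNull : S_Null) (hPerp : S_Perp) : S_N :=
  nN hD1 (nIrr h6)
    (nRec (nKerA nNoe (nSat (nIrr h6)) nLfg nFun nCon) (nKerB (nSat (nIrr h6)) nLfg nCrm)
      nLi0 nDep nLfg)
    nPow nGro nBin (nRel nDet) (nCnv hNull (nRk hPerp (nSpc hNull)) (nSpc hNull))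

end Pool.Agent.Lib.MP_776403_ag.SD
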