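import Pool.Agent.Lib.MP_776403_ag.SD.Defs

/-!
# THEOREM SD, dimension theory (section 3 of the blueprint, note 4385)

All statements are about ideals in polynomial rings over `ℂ`.  Every `def S_… : Prop` below is to be
proved in its own module; the docstring contains a complete proof.
-/

set_option autoImplicit false

open MvPolynomial

noncomputable section

namespace Pool.Agent.Lib.MP_776403_ag.SD

/-- `D` of the coordinates are algebraically independent modulo `P` (for `σ = Fin (N + 1)` this is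
`DimGe P D`, by `Iff.rfl`). -/
def DimGeG {σ : Type} (P : Ideal (MvPolynomial σ ℂ)) (D : ℕ) : Prop :=
  ∃ i : Fin D → σ, AlgebraicIndependent ℂ fun k => Ideal.Quotient.mk P (X (i k))

/-- `J` is homogeneous for the weights `w` (for `w = 1` this is `IsHom`, up to
`weightedHomogeneousComponent_one`). -/
def IsWHom {σ : Type} (w : σ → ℕ) (J : Ideal (MvPolynomial σ ℂ)) : Prop :=
  ∀ F ∈ J, ∀ m : ℕ, weightedHomogeneousComponent w m F ∈ J

/-- `dim_ℂ (J / n J) ≤ g`, `n` the maximal ideal of the zero `p` of `J`: there are at most `g`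
linearly independent functionals `lam : J → ℂ` with `lam (f F) = f (p) lam (F)`. -/
def NumEq {σ : Type} (J : Ideal (MvPolynomial σ ℂ)) (p : σ → ℂ) (g : ℕ) : Prop :=
  ∀ (r : ℕ) (lam : Fin r → (J →ₗ[ℂ] ℂ)),
    (∀ (i : Fin r) (f : MvPolynomial σ ℂ) (F : J), lam i (f • F) = eval p f * lam i F) →
    LinearIndependent ℂ lam → r ≤ g

/-- (TB) TRANSCENDENCE BASES FROM GENERATORS.  `R` a domain over `ℂ`, algebraic over the subalgebra
generated by the finite family `x`; if `D` elements of `R` are algebraically independent then `D`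
members of the family `x` are.

PROOF.  `exists_isTranscendenceBasis_subset (R := ℂ) (Set.range x)` gives `t ⊆ Set.range x` with
`IsTranscendenceBasis ℂ ((↑) : t → R)`.  `#t = Algebra.trdeg ℂ R`
(`IsTranscendenceBasis.lift_cardinalMk_eq_trdeg`) and `D ≤ trdeg`
(`AlgebraicIndependent.lift_cardinalMk_le_trdeg`), so `D ≤ #t`; `t` is finite, so there is an
injection `Fin D → t`; compose with a choice of preimages under `x`. -/
def S_TB : Prop :=
  ∀ (σ : Type) [Finite σ] (R : Type) [CommRing R] [IsDomain R] [Algebra ℂ R] (x : σ → R),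
    Algebra.IsAlgebraic (Algebra.adjoin ℂ (Set.range x)) R →
    ∀ (D : ℕ) (y : Fin D → R), AlgebraicIndependent ℂ y →
    ∃ i : Fin D → σ, AlgebraicIndependent ℂ (x ∘ i)

/-- (D1) For a homogeneous prime `P` with `DimGe P (D + 1)` the Hilbert function of `S / P` is at
least `binom (m + D) D`.

PROOF.  Let `a_k = X (i k) mod P`, `k : Fin (D + 1)`, be algebraically independent.  The monomials
`∏ a_k ^ α_k`, `|α| = m`, are elements of `gr P m` (images of `∏ X (i k) ^ α_k`, homogeneous of
degree `m`), pairwise different and linearly independent (`AlgebraicIndependent` = injectivity of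
`aeval`, and monomials are linearly independent in `MvPolynomial (Fin (D + 1)) ℂ`).  Their number is
`binom (m + D) D` (`Finset.card_finsuppAntidiag`, `Sym.card_sym_eq_choose` or
`Finset.Nat.antidiagonalTuple` counts).  `gr P m` is finite-dimensional (image of
`homogeneousSubmodule`, which is contained in `restrictTotalDegree`).  Neither primality nor
homogeneity of `P` is needed. -/
def S_D1 : Prop :=
  ∀ (N : ℕ) (P : Ideal (Sx N)) (D : ℕ), DimGe P (D + 1) → ∀ m : ℕ,
    Nat.choose (m + D) D ≤ Module.finrank ℂ (gr P m)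

/-- (D2a) The maximal ideal of a point of affine `M`-space has height `≥ M`.

PROOF.  By the translation automorphism `X_j ↦ X_j + p_j` and `RingEquiv.height_comap` reduce to
`p = 0`; enumerate `σ ≃ Fin M`; the ideals `span (X_j : j < i)`, `i = 0, …, M`, are prime
(`MvPolynomial.isPrime_span_X_image`), strictly increasing and contained in the ideal `n`; use
`Ideal.height_add_one_le_of_lt_of_isPrime` and induction.  (Other way: induction with
`Polynomial.height_eq_height_add_one`, or `MvPolynomial.ringKrullDim_of_isNoetherianRing` plus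
`Ideal.sup_isMaximal_height_eq_ringKrullDim`, the Nullstellensatz and translations.) -/
def S_D2a : Prop :=
  ∀ (σ : Type) [Fintype σ] (p : σ → ℂ) (n : Ideal (MvPolynomial σ ℂ)), n.IsPrime →
    (∀ F, F ∈ n ↔ eval p F = 0) → ((Fintype.card σ : ℕ) : ℕ∞) ≤ n.height

/-- (D2b) If `dim (A / P) ≥ D` for a prime ideal `P` of `A = ℂ[x_i : i ∈ σ]` then `D` coordinates
are algebraically independent modulo `P`.

PROOF.  Noether normalization `exists_integral_inj_algHom_of_fg ℂ (A ⧸ P)`:
`g : MvPolynomial (Fin s) ℂ → A / P` injective and integral; so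
`ringKrullDim (A / P) = ringKrullDim (MvPolynomial (Fin s) ℂ) = s` (only `≤` is needed: for
integral extensions `ringKrullDim` of the top is `≤` that of the bottom:
`Algebra.IsIntegral` incomparability; `MvPolynomial.ringKrullDim_of_isNoetherianRing`).  Hence
`D ≤ s`.  The elements `g (X_k)`, `k < D`, are algebraically independent; `A / P` is generated by
the coordinates, so (TB) applies (`Algebra.IsAlgebraic` over `adjoin = ⊤`). -/
def S_D2b : Prop :=
  ∀ (σ : Type) [Fintype σ] (P : Ideal (MvPolynomial σ ℂ)), P.IsPrime → ∀ D : ℕ,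
    ((D : ℕ∞) : WithBot ℕ∞) ≤ ringKrullDim (MvPolynomial σ ℂ ⧸ P) → DimGeG P D

/-- (D2c) HOMOGENEOUS CORE.  `J` homogeneous for `w`, `J ≤ P₀`, `P₀` prime: the ideal `P` generated
by the weighted homogeneous elements of `P₀` is prime, homogeneous, `J ≤ P ≤ P₀`, and coordinates
which are algebraically independent modulo `P₀` are so modulo `P`.

PROOF.  `P := (P₀.homogeneousCore (weightedHomogeneousSubmodule ℂ w)).toIdeal`
(`weightedGradedAlgebra`); it is prime (`Ideal.IsPrime.homogeneousCore`), `≤ P₀`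
(`Ideal.toIdeal_homogeneousCore_le`), and contains `J`: every weighted homogeneous component of an
element of `J` is a homogeneous element of `P₀`, and an element is the sum of its components
(`weightedHomogeneousComponent` and `finsum` / `sum_weightedHomogeneousComponent`).  Independence:
the ring map `A / P → A / P₀` sends the family to the family (`AlgebraicIndependent.of_aeval` or
`AlgebraicIndependent.of_ringHom_of_comp_eq`: injectivity of the composite `aeval` implies
injectivity of the first). -/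
def S_D2c : Prop :=
  ∀ (σ : Type) [Fintype σ] (w : σ → ℕ) (J P₀ : Ideal (MvPolynomial σ ℂ)), IsWHom w J →
    P₀.IsPrime → J ≤ P₀ →
    ∃ P : Ideal (MvPolynomial σ ℂ), P.IsPrime ∧ IsWHom w P ∧ J ≤ P ∧ P ≤ P₀ ∧
      ∀ D : ℕ, DimGeG P₀ D → DimGeG P D

/-- (D2d) NAKAYAMA.  `p` a zero of `J`, `dim (J / n J) ≤ g`: near `p` the ideal `J` is generated by
`g` elements.

PROOF.  `n` = ideal of polynomials vanishing at `p`, `n J = n • (J : submodule)`.  The `ℂ`-space
`V = J / n J` (quotient of `J` by the `ℂ`-subspace `{F : J | (F : A) ∈ n * J}`) is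
finite-dimensional, as `J` is finitely generated and `A = ℂ + n`.  Every functional on `V` gives a
`lam : J →ₗ[ℂ] ℂ` with `lam (f F) = f(p) lam (F)` (because `f - f(p) ∈ n`); a basis of the dual of
`V` gives `dim V` independent ones; so `dim V ≤ g`.  Choose `F_i ∈ J`, `i < g`, spanning `V` (add
zeros); `J ≤ span F + n J`.  Nakayama
(`Submodule.exists_sub_one_mem_and_smul_le_of_fg_of_le_sup` or
`Submodule.exists_sub_one_mem_and_smul_eq_zero_of_fg_of_le_smul` for `J / span F`) gives `h` with
`h - 1 ∈ n` and `h J ≤ span F`; `h (p) = 1`. -/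
def S_D2d : Prop :=
  ∀ (σ : Type) [Fintype σ] (J : Ideal (MvPolynomial σ ℂ)) (p : σ → ℂ),
    (∀ F ∈ J, eval p F = 0) → ∀ g : ℕ, NumEq J p g →
    ∃ (F : Fin g → MvPolynomial σ ℂ) (h : MvPolynomial σ ℂ), (∀ i, F i ∈ J) ∧ eval p h ≠ 0 ∧
      ∀ G ∈ J, h * G ∈ Ideal.span (Set.range F)

/-- (D2) KRULL.  `J` weighted homogeneous, `p` a zero of `J`, `dim (J / n J) ≤ g`.  There is a
weighted homogeneous prime `P ≥ J`, vanishing at `p`, of dimension at least `card σ - g`.

PROOF (uses D2a - D2d).  `n` = (prime) ideal of `p`.  Take `F`, `h` of (D2d), `B = span (range F)`,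
`B ≤ J ≤ n`, `B.spanFinrank ≤ g`.  By (D2a) and `Ideal.height_le_height_add_spanFinrank_of_le` the
prime `n / B` of `A / B` has height `≥ M - g`, `M = card σ`.  If `M ≤ g` the claim about `D` only
concerns `D = 0`; in any case choose a chain of primes `Q_0 < … < Q_l = n / B`, `l ≥ M - g`, of
`A / B` (`Ideal.exists_ltSeries_length_eq_height` / `Ideal.height`), and let `P₀` be the preimage of
`Q_0`: a prime of `A` with `B ≤ P₀ ≤ n`, and `ringKrullDim (A / P₀) ≥ l` (the chain
`Q_i / Q_0`).  `h ∉ n`, so `h ∉ P₀`, and `h J ≤ B ≤ P₀` gives `J ≤ P₀`.  (D2b): `DimGeG P₀ D` for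
all `D ≤ l`; (D2c): the homogeneous core `P` of `P₀`; `P ≤ P₀ ≤ n` vanishes at `p`. -/
def S_D2 : Prop :=
  ∀ (σ : Type) [Fintype σ] (w : σ → ℕ) (J : Ideal (MvPolynomial σ ℂ)), IsWHom w J →
    ∀ p : σ → ℂ, (∀ F ∈ J, eval p F = 0) → ∀ g : ℕ, NumEq J p g →
    ∃ P : Ideal (MvPolynomial σ ℂ), P.IsPrime ∧ IsWHom w P ∧ J ≤ P ∧ (∀ F ∈ P, eval p F = 0) ∧
      ∀ D : ℕ, D + g ≤ Fintype.card σ → DimGeG P D

/-- (D3) ELIMINATION.  `P` a prime ideal of `ℂ[x_j : j ∈ ρ]`, `e : σ → ρ`,
`P0 = P ∩ ℂ[x_(e i) : i ∈ σ]`; if every variable is modulo `P` a quotient of polynomials in the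
`x_(e i)`, then `dim P ≥ D` implies `dim P0 ≥ D`.

PROOF.  `R = ℂ[x_j] / P` is a domain, `x = (X (e i) mod P)_i`.  `R` is algebraic over
`adjoin ℂ (range x)`: each generator `X j` is a root of `g T - h` with `g ≠ 0` in `R` (`g`, `h`
images of `rename e g`, `rename e h`, elements of the adjoin), and the elements algebraic over a
subalgebra of a domain form a subalgebra (`integralClosure` / `Subalgebra.algebraicClosure`,
`Algebra.IsAlgebraic` from generators: `IsAlgebraic.adjoin…`).  (TB) gives `i' : Fin D → σ` with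
`X (e (i' k)) mod P` algebraically independent.  The injective map
`MvPolynomial σ ℂ / P0 → MvPolynomial ρ ℂ / P` sends `X (i' k)` to it, so the `X (i' k) mod P0` are
algebraically independent. -/
def S_D3 : Prop :=
  ∀ (σ ρ : Type) [Finite σ] [Finite ρ] (e : σ → ρ) (P : Ideal (MvPolynomial ρ ℂ)), P.IsPrime →
    (∀ j : ρ, ∃ g h : MvPolynomial σ ℂ, rename e g ∉ P ∧ rename e g * X j - rename e h ∈ P) →
    ∀ D : ℕ, DimGeG P D →
      DimGeG (P.comap ((rename e : MvPolynomial σ ℂ →ₐ[ℂ] MvPolynomial ρ ℂ) :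
        MvPolynomial σ ℂ →+* MvPolynomial ρ ℂ)) D

/-- (D5a) `P`, `Q` ideals of `S`, `Q` prime, `D` coordinates independent modulo `P` and `E` modulo
`Q`; then no nonzero polynomial `f` in the `D + E` coordinates `x_(i k)`, `y_(j l)` lies in the
ideal `P(x) + Q(y)` of `ℂ[x, y]`.

PROOF.  Let `f ∈ MvPolynomial (Fin D ⊕ Fin E) ℂ`, `f ≠ 0`, with `f (x_i, y_j) ∈ P(x) R + Q(y) R`,
`R = ℂ[x, y]`.  Write `f` as a polynomial in the first variables with coefficients in
`ℂ[Fin E]` (`sumAlgEquiv`); some coefficient `g ≠ 0`.  `g (y_j) ∉ Q`, so (Nullstellensatz: `Q` is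
prime, `MvPolynomial.vanishingIdeal_zeroLocus_eq_radical`) there is `b ∈ zer Q` with `g (b_j) ≠ 0`.
The ring map `R → S`, `x_i ↦ X_i`, `y_j ↦ b_j` sends `P(x)` into `P`, `Q(y)` to `0` and
`f (x_i, y_j)` to the polynomial `f (X_i, b_j)` in the `X_(i k)`, which is nonzero as a polynomial
in `Fin D` variables (its coefficient `g (b_j)` is not zero) and lies in `P`: contradiction with the
independence modulo `P`. -/
def S_D5a : Prop :=
  ∀ (N D E : ℕ) (P Q : Ideal (Sx N)), Q.IsPrime → ∀ (i : Fin D → Fin (N + 1))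
    (j : Fin E → Fin (N + 1)),
    (AlgebraicIndependent ℂ fun k => Ideal.Quotient.mk P (X (i k))) →
    (AlgebraicIndependent ℂ fun k => Ideal.Quotient.mk Q (X (j k))) →
    ∀ f : MvPolynomial (Fin D ⊕ Fin E) ℂ,
      rename (Sum.map i j) f ∈
        (P.map ((rename Sum.inl : Sx N →ₐ[ℂ] MvPolynomial (Fin (N + 1) ⊕ Fin (N + 1)) ℂ) :
          Sx N →+* MvPolynomial (Fin (N + 1) ⊕ Fin (N + 1)) ℂ)) ⊔
        (Q.map ((rename Sum.inr : Sx N →ₐ[ℂ] MvPolynomial (Fin (N + 1) ⊕ Fin (N + 1)) ℂ) :
          Sx N →+* MvPolynomial (Fin (N + 1) ⊕ Fin (N + 1)) ℂ)) → f = 0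

/-- (D6') An ideal without zeros outside the origin contains all forms of large degree.

PROOF.  Every `X_i` vanishes on `zer b`, so `X_i ^ e ∈ b` for a common `e` (Nullstellensatz,
`MvPolynomial.vanishingIdeal_zeroLocus_eq_radical`); a monomial of degree `≥ (N + 1) e` is divisible
by some `X_i ^ e`; a form is the sum of its monomials. -/
def S_D6' : Prop :=
  ∀ (N : ℕ) (b : Ideal (Sx N)), (∀ z ∈ zer b, z = 0) →
    ∃ ρ : ℕ, ∀ m ≥ ρ, ∀ F : Sx N, F.IsHomogeneous m → F ∈ b

/-- (D5b) FINITENESS OVER THE DIAGONAL.  `P`, `Q` homogeneous ideals of `S` without common zero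
outside the origin, `𝔭` a prime of `R = ℂ[x, y]` containing `P(x)` and `Q(y)`.  Then `R / 𝔭` is
algebraic over the subalgebra generated by the `N + 1` elements `x_i - y_i`.

PROOF.  `z_i = x_i - y_i`.  (D6') for `P ⊔ Q` gives `ρ`.  Let `x^α` be a monomial of degree
`m ≥ ρ`: `x^α = A + B`, `A ∈ P`, `B ∈ Q`, and (take components of degree `m`, `P`, `Q` are
homogeneous) `A`, `B` are forms of degree `m`.  `B(x) - B(y)` is in the ideal of the `z_i` (it is in
the kernel of `R → S`, `x_i, y_i ↦ X_i`, or by induction on monomials), so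
`B(x) - B(y) = ∑ z_i C_i`, and (components of degree `m`) the `C_i` are forms of degree `m - 1`.
So `x^α ∈ P(x) + Q(y) + ∑ z_i R_(m-1)`; in the same way for `y^β`, `|β| ≥ ρ`.  A monomial
`x^α y^β` of degree `m ≥ 2 ρ` has `|α| ≥ ρ` or `|β| ≥ ρ`; hence
`x^α y^β ∈ P(x) R + Q(y) R + ∑ z_i R_(m-1)`.  Let `B₀` be the subalgebra of `T = R / 𝔭` generated by
the `z_i`; by strong induction on the degree every monomial is mapped into the `B₀`-span of the
finitely many monomials of degree `< 2 ρ`.  So `T` is a finite `B₀`-module, hence integral, hence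
algebraic over `B₀`. -/
def S_D5b : Prop :=
  ∀ (N : ℕ) (P Q : Ideal (Sx N)), IsHom P → IsHom Q → (∀ z ∈ zer P, z ∈ zer Q → z = 0) →
    ∀ 𝔭 : Ideal (MvPolynomial (Fin (N + 1) ⊕ Fin (N + 1)) ℂ), 𝔭.IsPrime →
      (∀ F ∈ P, rename Sum.inl F ∈ 𝔭) → (∀ F ∈ Q, rename Sum.inr F ∈ 𝔭) →
      Algebra.IsAlgebraic (Algebra.adjoin ℂ (Set.range fun i : Fin (N + 1) =>
        Ideal.Quotient.mk 𝔭 (X (Sum.inl i) - X (Sum.inr i))))
        (MvPolynomial (Fin (N + 1) ⊕ Fin (N + 1)) ℂ ⧸ 𝔭)

/-- (D5) PROJECTIVE DIMENSION THEOREM.  Homogeneous primes of dimensions `≥ D`, `≥ E` with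
`D + E ≥ N + 2` have a common zero outside the origin.

PROOF (uses D5a, D5b, TB).  Otherwise: by (D5a) the ideal `𝔞 = P(x) + Q(y)` of `R` is disjoint from
the multiplicative set of the `f (x_(i k), y_(j l))`, `f ≠ 0`
(`rename (Sum.map i j)` is injective on it, or simply: image of `nonZeroDivisors` / of the
submonoid `{f ≠ 0}`; it is a submonoid as `MvPolynomial` is a domain); so there is a prime
`𝔭 ≥ 𝔞` disjoint from it (`Ideal.exists_le_prime_disjoint`): the `D + E` elements
`x_(i k)`, `y_(j l)` are algebraically independent modulo `𝔭`.  (D5b) and (TB) with the family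
`z : Fin (N + 1) → R / 𝔭`, `z_i = x_i - y_i`: there is `i' : Fin (D + E) → Fin (N + 1)` with
`z ∘ i'` algebraically independent; so `z ∘ i'` is injective, `i'` is injective,
`D + E ≤ N + 1`. -/
def S_D5 : Prop :=
  ∀ (N : ℕ) (P Q : Ideal (Sx N)), P.IsPrime → Q.IsPrime → IsHom P → IsHom Q →
    ∀ D E : ℕ, DimGe P D → DimGe Q E → N + 2 ≤ D + E → ∃ z : Vx N, z ≠ 0 ∧ z ∈ zer P ∧ z ∈ zer Q

end Pool.Agent.Lib.MP_776403_ag.SD
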