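import Pool.Agent.Lib.MP_776403_ag.SD.SpecN
import Pool.Agent.Lib.MP_776403_ag.SD.SpecD

/-!
# THEOREM SD: Lemma N from its parts
-/

set_option autoImplicit false

open MvPolynomial

noncomputable section

namespace Pool.Agent.Lib.MP_776403_ag.SD

namespace NAsmAux

variable {N : ℕ}

/-- The map to the fraction field. -/
def piK (J : Ideal (Sx N)) : Sx N →ₐ[ℂ] FractionRing (Sx N ⧸ J) :=
  (IsScalarTower.toAlgHom ℂ (Sx N ⧸ J) (FractionRing (Sx N ⧸ J))).comp (Ideal.Quotient.mkₐ ℂ J)

theorem piK_ker (J : Ideal (Sx N)) (hJ : J.IsPrime) (F : Sx N) : piK J F = 0 ↔ F ∈ J := by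
  haveI := hJ
  have h : piK J F = algebraMap (Sx N ⧸ J) (FractionRing (Sx N ⧸ J)) (Ideal.Quotient.mk J F) := rfl
  rw [h, ← Ideal.Quotient.eq_zero_iff_mem]
  constructor
  · intro h'
    exact IsFractionRing.injective (Sx N ⧸ J) (FractionRing (Sx N ⧸ J)) (by rw [h', map_zero])
  · intro h'
    rw [h', map_zero]

end NAsmAux

open NAsmAux

/-- Lemma N. -/
theorem nN (hD1 : S_D1) (hIrr : S_Irr) (hRec : S_NRec) (hPow : S_NPow) (hGro : S_NGro)
    (hBin : S_NBin) (hRel : S_NRel) (hCnv : S_NCnv) : S_N := by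
  intro N c d I hI J hJp hJh hle q sig del f hsig hdel hind hf hdf hlast hdim
  by_cases hz : ∃ y ∈ zer J, y ≠ 0
  · haveI := hJp
    obtain ⟨σ, δ, hδ, D⟩ := hCnv N c (FractionRing (Sx N ⧸ J)) I J (piK J) hI.prime hI.hom
      hI.smooth hJp hJh hle (piK_ker J hJp) hz (q + 1) sig del hsig hdel hind
    obtain ⟨hA, hB, hC⟩ := hRec N c (q + 1) (FractionRing (Sx N ⧸ J)) I J (piK J) σ δ D
    have hδ0 : ∀ i : Fin q, δ i = d (f i) := by
      intro i
      have := hδ (Fin.castSucc i)
      rw [Fin.val_castSucc] at this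
      rw [this, hdf]
    have hδq : δ q = del (Fin.last q) := by
      have := hδ (Fin.last q)
      rwa [Fin.val_last] at this
    have key := hPow c q d f δ (fun m => (Module.finrank ℂ (gr J m) : ℤ))
      (fun i j m => (Module.finrank ℂ (Li I (piK J) σ i j m) : ℤ)) hf hδ0
      (by
        intro j
        filter_upwards [hI.num J hJp hJh hle j] with m hm
        rw [Li_zero, hRel N _ I J (piK J) (piK_ker J hJp) j m, hm]
        push_cast
        rfl)
      (by
        intro i hi j
        filter_upwards [hA i (Nat.lt_succ_of_le hi) j] with m hm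
        rw [hm]
        push_cast
        rfl)
      (by
        intro i hi
        refine Filter.Eventually.of_forall fun m => ?_
        rw [hB i (Nat.lt_succ_of_le hi) m])
      (by
        intro j hj
        refine Filter.Eventually.of_forall fun m => ?_
        rw [hC j hj m]
        rfl)
    have hs : ((Finset.univ : Finset (Fin c)) \ Finset.univ.image f).card = c - q := by
      rw [Finset.card_sdiff_of_subset (Finset.subset_univ _),
        Finset.card_image_of_injective _ hf, Finset.card_univ, Finset.card_univ, Fintype.card_fin,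
        Fintype.card_fin]
    have hne : ∀ i ∈ (Finset.univ : Finset (Fin c)) \ Finset.univ.image f, d i ≠ δ q := by
      intro i hi
      rw [hδq]
      refine hlast i fun hr => ?_
      obtain ⟨k, hk⟩ := hr
      exact (Finset.mem_sdiff.1 hi).2 (Finset.mem_image.2 ⟨k, Finset.mem_univ _, hk⟩)
    obtain ⟨g0, g1⟩ := hGro (Fin c) d (δ q) _ hne (fun m => (Module.finrank ℂ (gr J m) : ℤ)) key
    rw [hs] at g0 g1
    have hch : ∀ m : ℕ, (Nat.choose (m + (c - q)) (c - q) : ℤ) ≤
        (Module.finrank ℂ (gr J m) : ℤ) := fun m => by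
      exact_mod_cast hD1 N J (c - q) hdim m
    rcases Nat.eq_zero_or_pos (c - q) with h0 | h1
    · obtain ⟨m, hm⟩ := (g0 h0).exists
      have := hch m
      rw [hm, h0, Nat.choose_zero_right] at this
      norm_num at this
    · obtain ⟨C, hC'⟩ := g1 h1
      obtain ⟨m, hm1, hm2⟩ := (hC'.and (hBin (c - q) C h1)).exists
      have h3 := hch m
      have h4 := le_abs_self (Module.finrank ℂ (gr J m) : ℤ)
      linarith
  · have hz' : ∀ z ∈ zer J, z = 0 := by
      intro z hzJ
      by_contra hne
      exact hz ⟨z, hzJ, hne⟩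
    obtain ⟨r, hr⟩ := hIrr N J hJh hz'
    obtain ⟨i, hi⟩ := hdim
    have hX : (X (i 0) : Sx N) ∈ J := by
      have : ((X (i 0) : Sx N) ^ r) ∈ J := hr r le_rfl _ (by
        have := (isHomogeneous_X ℂ (i 0)).pow r
        rwa [one_mul] at this)
      exact hJp.mem_of_pow_mem r this
    haveI := hJp
    have := hi.ne_zero 0
    exact this (Ideal.Quotient.eq_zero_iff_mem.2 hX)

end Pool.Agent.Lib.MP_776403_ag.SD
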