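import Pool.Agent.Lib.MP_776403_ag.SD.SpecD

/-!
# THEOREM SD, module D2: Krull's theorem
-/

set_option autoImplicit false

open MvPolynomial

noncomputable section

namespace Pool.Agent.Lib.MP_776403_ag.SD

theorem tD2 : S_D2a → S_D2b → S_D2c → S_D2d → S_D2 := by
  intro ha hb hc hd σ _ w J hJ p hp g hg
  obtain ⟨F, h, hF, hh, hhJ⟩ := hd σ J p hp g hg
  set n : Ideal (MvPolynomial σ ℂ) := RingHom.ker (eval p) with hn
  have hmem : ∀ F, F ∈ n ↔ eval p F = 0 := fun F => RingHom.mem_ker
  have hnp : n.IsPrime := RingHom.ker_isPrime _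
  set B : Ideal (MvPolynomial σ ℂ) := Ideal.span (Set.range F) with hB
  have hBJ : B ≤ J := Ideal.span_le.mpr (by rintro _ ⟨i, rfl⟩; exact hF i)
  have hJn : J ≤ n := fun F hF => (hmem F).mpr (hp F hF)
  have hBn : B ≤ n := hBJ.trans hJn
  have hM := ha σ p n hnp hmem
  have h1 := Ideal.height_le_height_add_spanFinrank_of_le (I := B) (p := n) hBn
  have h2 : B.spanFinrank ≤ g := by
    refine (Submodule.spanFinrank_span_le_ncard_of_finite (Set.finite_range F)).trans ?_
    rw [← Set.image_univ]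
    refine (Set.ncard_image_le Set.finite_univ).trans ?_
    rw [Set.ncard_univ, Nat.card_fin]
  have hn' : (n.map (Ideal.Quotient.mk B)).IsPrime := Ideal.isPrime_map_quotientMk_of_isPrime hBn
  obtain ⟨l, hl1, hl2⟩ := Ideal.exists_ltSeries_length_eq_height (n.map (Ideal.Quotient.mk B))
  have hlen : Fintype.card σ ≤ l.length + g := by
    have h3 : ((Fintype.card σ : ℕ) : ℕ∞) ≤ (l.length : ℕ∞) + (g : ℕ∞) := by
      rw [← hl2] at h1
      exact hM.trans (h1.trans (by gcongr))
    exact_mod_cast h3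
  have hsur : Function.Surjective (Ideal.Quotient.mk B) := Ideal.Quotient.mk_surjective
  set P₀ : Ideal (MvPolynomial σ ℂ) := l.head.asIdeal.comap (Ideal.Quotient.mk B) with hP₀
  have hP₀p : P₀.IsPrime := Ideal.comap_isPrime _ _
  have hle : ∀ i, l.head ≤ l i := fun i => LTSeries.head_le l i
  have hBP : B ≤ P₀ := by
    intro x hx
    rw [hP₀, Ideal.mem_comap, Ideal.Quotient.eq_zero_iff_mem.mpr hx]
    exact Ideal.zero_mem _
  have hPn : P₀ ≤ n := by
    have h4 : l.head.asIdeal ≤ n.map (Ideal.Quotient.mk B) := by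
      have h5 := LTSeries.head_le_last l
      rw [hl1] at h5
      exact h5
    refine (Ideal.comap_mono h4).trans ?_
    rw [Ideal.comap_map_of_surjective _ hsur, ← RingHom.ker_eq_comap_bot, Ideal.mk_ker]
    exact sup_le le_rfl hBn
  have hhP : h ∉ P₀ := fun hx => hh ((hmem h).mp (hPn hx))
  have hJP : J ≤ P₀ := by
    intro G hG
    rcases hP₀p.mem_or_mem (hBP (hhJ G hG)) with h5 | h5
    · exact absurd h5 hhP
    · exact h5
  have hdim : ((l.length : ℕ∞) : WithBot ℕ∞) ≤ ringKrullDim (MvPolynomial σ ℂ ⧸ P₀) := by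
    rw [ringKrullDim_quotient]
    let l' : LTSeries (PrimeSpectrum.zeroLocus (R := MvPolynomial σ ℂ) P₀) :=
      { length := l.length
        toFun := fun i => ⟨⟨(l i).asIdeal.comap (Ideal.Quotient.mk B), Ideal.comap_isPrime _ _⟩,
          Ideal.comap_mono (hle i)⟩
        step := fun i => by
          have h6 := l.step i
          have h7 : (l i.castSucc).asIdeal < (l i.succ).asIdeal := h6
          exact (Ideal.orderEmbeddingOfSurjective (Ideal.Quotient.mk B) hsur).strictMono h7 }
    exact Order.LTSeries.length_le_krullDim l'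
  obtain ⟨P, hP1, hP2, hP3, hP4, hP5⟩ := hc σ w J P₀ hJ hP₀p hJP
  refine ⟨P, hP1, hP2, hP3, fun G hG => (hmem G).mp (hPn (hP4 hG)), fun D hD => hP5 D ?_⟩
  refine hb σ P₀ hP₀p D (le_trans ?_ hdim)
  have h8 : D ≤ l.length := by omega
  exact_mod_cast h8

end Pool.Agent.Lib.MP_776403_ag.SD
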