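import Pool.Agent.Lib.MP_776403_ag.SD.SpecD

/-!
# THEOREM SD, module D2c: the homogeneous core of a prime ideal
-/

set_option autoImplicit false

open MvPolynomial

noncomputable section

namespace Pool.Agent.Lib.MP_776403_ag.SD

theorem tD2c : S_D2c := by
  classical
  intro σ _ w J P₀ hJ hP hJP
  let _ := MvPolynomial.weightedGradedAlgebra ℂ w
  have hle : (P₀.homogeneousCore (weightedHomogeneousSubmodule ℂ w)).toIdeal ≤ P₀ :=
    Ideal.toIdeal_homogeneousCore_le _ _
  refine ⟨(P₀.homogeneousCore (weightedHomogeneousSubmodule ℂ w)).toIdeal,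
    Ideal.IsPrime.homogeneousCore hP, ?_, ?_, hle, ?_⟩
  · intro F hF m
    have h1 := (P₀.homogeneousCore (weightedHomogeneousSubmodule ℂ w)).isHomogeneous m hF
    have h2 : (DirectSum.decompose (weightedHomogeneousSubmodule ℂ w) F m : MvPolynomial σ ℂ) =
        weightedHomogeneousComponent w m F := weightedDecomposition.decompose'_apply ℂ w F m
    rwa [h2] at h1
  · intro F hF
    have hsum := sum_weightedHomogeneousComponent w F
    rw [← hsum, finsum_eq_sum _ (weightedHomogeneousComponent_finsupp F)]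
    refine Ideal.sum_mem _ (fun m _ => ?_)
    exact Ideal.mem_homogeneousCore_of_homogeneous_of_mem
      ⟨m, weightedHomogeneousComponent_mem w F m⟩ (hJP (hJ F hF m))
  · rintro D ⟨i, hi⟩
    exact ⟨i, AlgebraicIndependent.of_comp (Ideal.Quotient.factorₐ ℂ hle) hi⟩

end Pool.Agent.Lib.MP_776403_ag.SD
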