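import Pool.Agent.Lib.MP_776403_ag.SD.SpecD

/-!
# THEOREM SD, D2d: Nakayama with functionals
-/

set_option autoImplicit false

open MvPolynomial

noncomputable section

namespace Pool.Agent.Lib.MP_776403_ag.SD

variable {σ : Type}

/-- the maximal ideal of `p` -/
private abbrev mI (p : σ → ℂ) : Ideal (MvPolynomial σ ℂ) := RingHom.ker (eval p)

/-- the subspace `n J` of `J` -/
private def WJ (J : Ideal (MvPolynomial σ ℂ)) (p : σ → ℂ) : Submodule ℂ J :=
  Submodule.comap ((Submodule.subtype J).restrictScalars ℂ) ((mI p * J).restrictScalars ℂ)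

private theorem mem_WJ {J : Ideal (MvPolynomial σ ℂ)} {p : σ → ℂ} {F : J} :
    F ∈ WJ J p ↔ (F : MvPolynomial σ ℂ) ∈ mI p * J := Iff.rfl

private theorem mk_smul (J : Ideal (MvPolynomial σ ℂ)) (p : σ → ℂ) (a : MvPolynomial σ ℂ) (F : J) :
    (WJ J p).mkQ (a • F) = eval p a • (WJ J p).mkQ F := by
  rw [← map_smul, ← sub_eq_zero, ← map_sub, Submodule.mkQ_apply, Submodule.Quotient.mk_eq_zero, mem_WJ]
  have h : ((a • F - eval p a • F : J) : MvPolynomial σ ℂ) = (a - C (eval p a)) * (F : MvPolynomial σ ℂ) := by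
    show a * (F : MvPolynomial σ ℂ) - eval p a • (F : MvPolynomial σ ℂ) = _
    rw [MvPolynomial.smul_eq_C_mul, sub_mul]
  rw [h]
  refine Ideal.mul_mem_mul ?_ F.2
  rw [RingHom.mem_ker, map_sub, eval_C, sub_self]

private theorem fin_V [Fintype σ] (J : Ideal (MvPolynomial σ ℂ)) (p : σ → ℂ) : Module.Finite ℂ (J ⧸ WJ J p) := by
  obtain ⟨S, hS'⟩ : J.FG := IsNoetherian.noetherian J
  have hS : Submodule.span (MvPolynomial σ ℂ) (S : Set (MvPolynomial σ ℂ)) = J := hS'
  have hSJ : ∀ s ∈ S, s ∈ J := fun s hs => by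
    rw [← hS]
    exact Submodule.subset_span hs
  let T : Set (J ⧸ WJ J p) := Set.range fun s : S => (WJ J p).mkQ ⟨s, hSJ s s.2⟩
  have hT : T.Finite := Set.finite_range _
  have key : ∀ x (hx : x ∈ J), (WJ J p).mkQ ⟨x, hx⟩ ∈ Submodule.span ℂ T := by
    intro x hx
    have hx' : x ∈ Submodule.span (MvPolynomial σ ℂ) (S : Set (MvPolynomial σ ℂ)) := by
      rw [hS]
      exact hx
    revert hx
    induction hx' using Submodule.span_induction with
    | mem s hs => exact fun _ => Submodule.subset_span ⟨⟨s, hs⟩, rfl⟩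
    | zero =>
      intro h
      have h1 : (⟨0, h⟩ : J) = 0 := rfl
      rw [h1, map_zero]
      exact Submodule.zero_mem _
    | add x y hx hy ihx ihy =>
      intro h
      rw [hS] at hx hy
      have h1 : (⟨x + y, h⟩ : J) = ⟨x, hx⟩ + ⟨y, hy⟩ := rfl
      rw [h1, map_add]
      exact Submodule.add_mem _ (ihx hx) (ihy hy)
    | smul a x hx ihx =>
      intro h
      rw [hS] at hx
      have h1 : (⟨a • x, h⟩ : J) = a • (⟨x, hx⟩ : J) := rfl
      rw [h1, mk_smul]
      exact Submodule.smul_mem _ _ (ihx hx)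
  refine ⟨⟨hT.toFinset, ?_⟩⟩
  rw [Set.Finite.coe_toFinset, eq_top_iff]
  intro v _
  obtain ⟨F, rfl⟩ := (WJ J p).mkQ_surjective v
  exact key F F.2

theorem tD2d : S_D2d := by
  intro σ _ J p hp g hg
  have := fin_V J p
  let b := Module.finBasis ℂ (J ⧸ WJ J p)
  set r := Module.finrank ℂ (J ⧸ WJ J p) with hr
  choose L hL using fun i : Fin r => (WJ J p).mkQ_surjective (b i)
  have hrg : r ≤ g := by
    refine hg r (fun i => (b.coord i) ∘ₗ (WJ J p).mkQ) ?_ ?_
    · intro i f F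
      rw [LinearMap.comp_apply, LinearMap.comp_apply, mk_smul, map_smul, smul_eq_mul]
    · rw [Fintype.linearIndependent_iff]
      intro c hc j
      have h1 := LinearMap.congr_fun hc (L j)
      rw [LinearMap.zero_apply, LinearMap.sum_apply, Finset.sum_eq_single j] at h1
      · rw [LinearMap.smul_apply, LinearMap.comp_apply, hL, Module.Basis.coord_apply, Module.Basis.repr_self,
          Finsupp.single_eq_same, smul_eq_mul, mul_one] at h1
        exact h1
      · intro i _ hij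
        rw [LinearMap.smul_apply, LinearMap.comp_apply, hL, Module.Basis.coord_apply, Module.Basis.repr_self,
          Finsupp.single_eq_of_ne hij, smul_zero]
      · intro h
        exact absurd (Finset.mem_univ j) h
  let F : Fin g → MvPolynomial σ ℂ := fun i => if h : (i : ℕ) < r then (L ⟨i, h⟩ : MvPolynomial σ ℂ) else 0
  have hFJ : ∀ i, F i ∈ J := by
    intro i
    show (if h : (i : ℕ) < r then (L ⟨i, h⟩ : MvPolynomial σ ℂ) else 0) ∈ J
    split_ifs with h
    · exact (L ⟨i, h⟩).2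
    · exact J.zero_mem
  have hLF : ∀ i : Fin r, (L i : MvPolynomial σ ℂ) ∈ Ideal.span (Set.range F) := by
    intro i
    refine Ideal.subset_span ⟨⟨i, lt_of_lt_of_le i.2 hrg⟩, ?_⟩
    show (if h : (i : ℕ) < r then (L ⟨i, h⟩ : MvPolynomial σ ℂ) else 0) = L i
    rw [dif_pos i.2]
  have hle : J ≤ Ideal.span (Set.range F) ⊔ mI p • J := by
    intro G hG
    have h1 := b.sum_repr ((WJ J p).mkQ ⟨G, hG⟩)
    have h2 : (⟨G, hG⟩ - ∑ i, b.repr ((WJ J p).mkQ ⟨G, hG⟩) i • L i : J) ∈ WJ J p := by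
      rw [← Submodule.Quotient.mk_eq_zero, ← Submodule.mkQ_apply, map_sub, map_sum, sub_eq_zero]
      conv_lhs => rw [← h1]
      refine Finset.sum_congr rfl fun i _ => ?_
      rw [map_smul, hL]
    have h3 : G - ∑ i, b.repr ((WJ J p).mkQ ⟨G, hG⟩) i • (L i : MvPolynomial σ ℂ) ∈ mI p * J := by
      have h4 : ((⟨G, hG⟩ - ∑ i, b.repr ((WJ J p).mkQ ⟨G, hG⟩) i • L i : J) : MvPolynomial σ ℂ) =
          G - ∑ i, b.repr ((WJ J p).mkQ ⟨G, hG⟩) i • (L i : MvPolynomial σ ℂ) := by
        rw [AddSubgroupClass.coe_sub, AddSubmonoidClass.coe_finsetSum]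
        rfl
      rw [← h4]
      exact mem_WJ.1 h2
    have h5 : ∑ i, b.repr ((WJ J p).mkQ ⟨G, hG⟩) i • (L i : MvPolynomial σ ℂ) ∈ Ideal.span (Set.range F) := by
      refine Ideal.sum_mem _ fun i _ => ?_
      rw [MvPolynomial.smul_eq_C_mul]
      exact Ideal.mul_mem_left _ _ (hLF i)
    have h6 := Submodule.add_mem_sup h5 h3
    rwa [add_sub_cancel] at h6
  obtain ⟨h, h1, h2⟩ := Submodule.exists_sub_one_mem_and_smul_le_of_fg_of_le_sup (I := mI p)
    (N := Ideal.span (Set.range F)) (N' := J) (P := J) (IsNoetherian.noetherian J) le_rfl hle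
  refine ⟨F, h, hFJ, ?_, ?_⟩
  · rw [RingHom.mem_ker, map_sub, map_one, sub_eq_zero] at h1
    rw [h1]
    exact one_ne_zero
  · intro G hG
    exact h2 (Submodule.smul_mem_pointwise_smul G h J hG)

end Pool.Agent.Lib.MP_776403_ag.SD
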