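import Mathlib

/-!
# THEOREM SD: numerical complete intersections of large dimension are complete intersections

Definitions for the statement.  `S = ℂ[x_0, ..., x_N]`, `V = ℂ^(N+1)`, `I ⊆ S` a homogeneous prime
ideal, `X = V(I) ⊆ ℙ^N`, `zer I` the cone over `X`.

* `Smooth I c`: `X` is smooth of codimension `c`.
* `NumCI I d`: the conormal bundle of `X` is numerically `⊕ O(-d_i)`: for every closed subvariety
  `C ⊆ X` and every `j` the sheaf `Λ^j N_X^*` restricted to `C` has the Hilbert polynomial of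
  `⊕_{|A| = j} O_C(-∑_{i ∈ A} d_i)`.
* `Reg I k`: the space `H^0(X, O_X(k))` of regular functions of degree `k`; `hci d N k`: the
  dimension of the degree `k` part of the coordinate ring of a complete intersection of type `d`.
* `Covered I`: there is a line in `X` through every point of `X`.
-/

set_option autoImplicit false

open MvPolynomial

noncomputable section

namespace Pool.Agent.Lib.MP_776403_ag.SD

/-- The polynomial ring `ℂ[x_0, ..., x_N]`. -/
abbrev Sx (N : ℕ) : Type := MvPolynomial (Fin (N + 1)) ℂ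

/-- The space `ℂ^(N+1)`. -/
abbrev Vx (N : ℕ) : Type := Fin (N + 1) → ℂ

variable {N : ℕ}

/-- `I` is a homogeneous ideal. -/
def IsHom (I : Ideal (Sx N)) : Prop := ∀ F ∈ I, ∀ m : ℕ, homogeneousComponent m F ∈ I

/-- The cone over the zero set of `I` in `ℙ^N`. -/
def zer (I : Ideal (Sx N)) : Set (Vx N) := {y | ∀ F ∈ I, eval y F = 0}

/-- The gradient of `F` at `y`. -/
def grad (F : Sx N) (y : Vx N) : Vx N := fun i => eval y (pderiv i F)

/-- The projective variety `X` of `I` is smooth of codimension `c`: near each of its points it is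
defined by `c` forms in `I` with linearly independent differentials. -/
def Smooth (I : Ideal (Sx N)) (c : ℕ) : Prop :=
  ∀ y ∈ zer I, y ≠ 0 → ∃ (F : Fin c → Sx N) (f : Fin c → ℕ) (h : Sx N) (e : ℕ),
    (∀ i, F i ∈ I ∧ (F i).IsHomogeneous (f i)) ∧ h.IsHomogeneous e ∧ eval y h ≠ 0 ∧
    LinearIndependent ℂ (fun i => grad (F i) y) ∧
    ∀ G ∈ I, h * G ∈ Ideal.span (Set.range F)

/-- The degree `m` part of `S / J`. -/
def gr (J : Ideal (Sx N)) (m : ℕ) : Submodule ℂ (Sx N ⧸ J) :=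
  (homogeneousSubmodule (Fin (N + 1)) ℂ m).map (Ideal.Quotient.mkₐ ℂ J).toLinearMap

/-- The degree `m` part of the graded `S / J`-module generated by the vectors of the `j × j` minors
of the Jacobian matrices of forms `F_1, ..., F_j ∈ I`: this is `H^0(C, Λ^j N_X^*|_C (m))` for
large `m`, `C ⊆ X` the variety of the prime ideal `J ⊇ I`. -/
def Lam (I J : Ideal (Sx N)) (j m : ℕ) : Submodule ℂ ((Fin j → Fin (N + 1)) → Sx N ⧸ J) :=
  Submodule.span ℂ {z | ∃ (a : Sx N) (e : ℕ) (F : Fin j → Sx N) (f : Fin j → ℕ),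
    a.IsHomogeneous e ∧ (∀ i, F i ∈ I ∧ (F i).IsHomogeneous (f i)) ∧ e + ∑ i, f i = m ∧
    z = fun α => Ideal.Quotient.mk J
      (a * Matrix.det (Matrix.of fun i k => pderiv (α k) (F i)))}

/-- The conormal bundle of `X` is numerically equivalent to `⊕ O(-d_i)`: for every closed
subvariety `C` of `X` (homogeneous prime ideal `J ⊇ I`) and all `j` the Hilbert polynomial of
`Λ^j N_X^*|_C` is that of `⊕_{|A| = j} O_C(-∑_{i ∈ A} d_i)`. -/
def NumCI (I : Ideal (Sx N)) {c : ℕ} (d : Fin c → ℕ) : Prop :=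
  ∀ J : Ideal (Sx N), J.IsPrime → IsHom J → I ≤ J → ∀ j : ℕ, ∀ᶠ m : ℕ in Filter.atTop,
    Module.finrank ℂ (Lam I J j m) =
      ∑ A ∈ Finset.powersetCard j (Finset.univ : Finset (Fin c)),
        Module.finrank ℂ (gr J (m - ∑ i ∈ A, d i))

/-- `f` (extended by zero) is a regular function, homogeneous of degree `k`, on the punctured
cone: an element of `H^0(X, O_X(k))`. -/
def IsReg (I : Ideal (Sx N)) (k : ℕ) (f : Vx N → ℂ) : Prop :=
  (∀ y, y ∉ zer I ∨ y = 0 → f y = 0) ∧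
  ∀ y ∈ zer I, y ≠ 0 → ∃ (P Q : Sx N) (e : ℕ), P.IsHomogeneous (e + k) ∧ Q.IsHomogeneous e ∧
    eval y Q ≠ 0 ∧ ∀ z ∈ zer I, z ≠ 0 → f z * eval z Q = eval z P

/-- The dimension of the degree `k` part of `ℂ[x_0, ..., x_N] / (G_1, ..., G_c)` for a complete
intersection of forms of the degrees `d_i`. -/
def hci {c : ℕ} (d : Fin c → ℕ) (N k : ℕ) : ℤ :=
  ∑ A : Finset (Fin c), (-1) ^ A.card *
    (if ∑ i ∈ A, d i ≤ k then (Nat.choose (N + (k - ∑ i ∈ A, d i)) N : ℤ) else 0)

/-- Linearly independent elements of `H^0(X, O_X(k))` are at most `hci d N k` in number. -/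
def RegBound (I : Ideal (Sx N)) {c : ℕ} (d : Fin c → ℕ) : Prop :=
  ∀ (k r : ℕ) (f : Fin r → (Vx N → ℂ)), (∀ i, IsReg I k (f i)) → LinearIndependent ℂ f →
    (r : ℤ) ≤ hci d N k

/-- `X` is covered by lines. -/
def Covered (I : Ideal (Sx N)) : Prop :=
  ∀ y ∈ zer I, y ≠ 0 → ∃ v : Vx N, LinearIndependent ℂ ![y, v] ∧
    ∀ s t : ℂ, s • y + t • v ∈ zer I

/-- THEOREM SD. -/
def S_SD : Prop :=
  ∀ (N c : ℕ) (d : Fin c → ℕ) (I : Ideal (Sx N)), (∀ i, 2 ≤ d i) → 2 * ∑ i, d i ≤ N →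
    I.IsPrime → IsHom I → (∀ F ∈ I, F.IsHomogeneous 1 → F = 0) → Smooth I c → NumCI I d →
    RegBound I d → Covered I →
    ∃ G : Fin c → Sx N, (∀ i, (G i).IsHomogeneous (d i)) ∧ I = Ideal.span (Set.range G)

/-! ## Tools used in all parts of the proof -/

/-- Polynomial vector fields tangent to `X`. -/
def TF (I : Ideal (Sx N)) : Set (Fin (N + 1) → Sx N) :=
  {w | ∀ F ∈ I, ∑ i, pderiv i F * w i ∈ I}

/-- The restriction of a polynomial to the line `x + t v`. -/
def lin (x v : Vx N) : Sx N →ₐ[ℂ] Polynomial ℂ :=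
  aeval fun i => Polynomial.C (x i) + Polynomial.C (v i) * Polynomial.X

/-- `span (x, v)` is a line in `X`. -/
def IsLine (I : Ideal (Sx N)) (x v : Vx N) : Prop :=
  LinearIndependent ℂ ![x, v] ∧ ∀ s t : ℂ, s • x + t • v ∈ zer I

/-- Sections of `N_X^*(n)` on the line `x + t v` (`n ≥ 0`): polynomial vectors `s` of degree `< n`
with `s(t) ∈ {grad F (x + t v) : F ∈ I}` for all `t` (including `t = ∞`). -/
def Sec (I : Ideal (Sx N)) (x v : Vx N) (n : ℕ) : Submodule ℂ (Fin (N + 1) → Polynomial ℂ) where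
  carrier := {s | (∀ i, s i ∈ Polynomial.degreeLT ℂ n) ∧
    ∀ w ∈ TF I, (∀ m : ℕ, (∀ i, (w i).IsHomogeneous m) → ∑ i, s i * lin x v (w i) = 0)}
  zero_mem' := by
    refine ⟨fun i => Submodule.zero_mem _, fun w _ m _ => ?_⟩
    simp
  add_mem' := by
    rintro s s' ⟨h1, h2⟩ ⟨h1', h2'⟩
    refine ⟨fun i => Submodule.add_mem _ (h1 i) (h1' i), fun w hw m hm => ?_⟩
    simp only [Pi.add_apply, add_mul, Finset.sum_add_distrib, h2 w hw m hm, h2' w hw m hm, add_zero]
  smul_mem' := by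
    rintro a s ⟨h1, h2⟩
    refine ⟨fun i => Submodule.smul_mem _ a (h1 i), fun w hw m hm => ?_⟩
    simp only [Pi.smul_apply, smul_mul_assoc, ← Finset.smul_sum, h2 w hw m hm, smul_zero]

/-- The gradient of `G` along the line `x + t v`. -/
def gradL (x v : Vx N) (G : Sx N) : Fin (N + 1) → Polynomial ℂ := fun i => lin x v (pderiv i G)

/-- The data constructed up to degree `K`: forms `G i ∈ I` of degree `d i` for the `i` with
`d i ≤ K`, with independent differentials everywhere, generating `I` up to degree `K`. -/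
structure Data (I : Ideal (Sx N)) {c : ℕ} (d : Fin c → ℕ) (K : ℕ) (G : Fin c → Sx N) : Prop where
  hom : ∀ i, d i ≤ K → G i ∈ I ∧ (G i).IsHomogeneous (d i)
  ind : ∀ y ∈ zer I, y ≠ 0 → LinearIndependent ℂ (fun i : {i // d i ≤ K} => grad (G i) y)
  gen : ∀ k ≤ K, ∀ F ∈ I, F.IsHomogeneous k → F ∈ Ideal.span (G '' {i | d i ≤ K})

/-- `P(K)`: on every line in `X` all sections of `N_X^*(K - 1)` come from the `G i`. -/
def PL (I : Ideal (Sx N)) {c : ℕ} (d : Fin c → ℕ) (K : ℕ) (G : Fin c → Sx N) : Prop :=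
  ∀ x v : Vx N, IsLine I x v → ∀ s ∈ Sec I x v (K - 1), ∃ L : Fin c → Polynomial ℂ,
    (∀ i, L i ∈ Polynomial.degreeLT ℂ (K - d i)) ∧ s = ∑ i, fun k => L i * gradL x v (G i) k

/-- The hypotheses of THEOREM SD. -/
structure Hyp (I : Ideal (Sx N)) {c : ℕ} (d : Fin c → ℕ) : Prop where
  two_le : ∀ i, 2 ≤ d i
  large : 2 * ∑ i, d i ≤ N
  prime : I.IsPrime
  hom : IsHom I
  nd : ∀ F ∈ I, F.IsHomogeneous 1 → F = 0
  smooth : Smooth I c
  num : NumCI I d
  reg : RegBound I d
  cov : Covered I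

/-- `P` is a homogeneous prime ideal and `D` of the coordinates are algebraically independent
modulo `P`: the affine dimension of `S / P` is at least `D`. -/
def DimGe (P : Ideal (Sx N)) (D : ℕ) : Prop :=
  ∃ i : Fin D → Fin (N + 1), AlgebraicIndependent ℂ fun k => Ideal.Quotient.mk P (X (i k))

end Pool.Agent.Lib.MP_776403_ag.SD
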