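import Pool.Agent.Lib.MP_776403_ag.SD.SpecB

/-!
# THEOREM SD, module Ind: the induction
-/

set_option autoImplicit false

open MvPolynomial

noncomputable section

namespace Pool.Agent.Lib.MP_776403_ag.SD

private lemma form_zero {N : ℕ} {I : Ideal (Sx N)} (hI : I.IsPrime) {F : Sx N} (hF : F ∈ I)
    (h : F.IsHomogeneous 0) : F = 0 := by
  rw [← totalDegree_zero_iff_isHomogeneous, totalDegree_eq_zero_iff_eq_C] at h
  by_cases ha : coeff 0 F = 0
  · rw [h, ha, C_0]
  · exfalso
    apply hI.ne_top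
    rw [Ideal.eq_top_iff_one]
    have h1 : C (coeff 0 F)⁻¹ * F ∈ I := I.mul_mem_left _ hF
    rw [h, coeff_C, if_pos rfl, ← C_mul, inv_mul_cancel₀ ha, C_1] at h1
    exact h1

private lemma data_one {N c : ℕ} {d : Fin c → ℕ} {I : Ideal (Sx N)} (hH : Hyp I d)
    (G : Fin c → Sx N) : Data I d 1 G where
  hom := by
    intro i hi
    have := hH.two_le i
    omega
  ind := by
    intro y _ _
    have : IsEmpty {i // d i ≤ 1} := ⟨fun i => by
      have h1 := hH.two_le i.1
      have h2 := i.2
      omega⟩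
    exact linearIndependent_empty_type
  gen := by
    intro k hk F hF hFk
    have h0 : F = 0 := by
      rcases Nat.le_one_iff_eq_zero_or_eq_one.1 hk with rfl | rfl
      · exact form_zero hH.prime hF hFk
      · exact hH.nd F hF hFk
    rw [h0]
    exact Submodule.zero_mem _

private lemma pl_one {N c : ℕ} {d : Fin c → ℕ} {I : Ideal (Sx N)} (G : Fin c → Sx N) :
    PL I d 1 G := by
  intro x v _ s hs
  refine ⟨0, fun i => Submodule.zero_mem _, ?_⟩
  have h0 : s = 0 := by
    funext i
    have h1 := hs.1 i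
    rw [Polynomial.mem_degreeLT] at h1
    simp only [Nat.sub_self, Nat.cast_zero] at h1
    have h2 := Nat.WithBot.lt_zero_iff.1 h1
    exact Polynomial.degree_eq_bot.1 h2
  rw [h0]
  funext k
  simp

private lemma pl_congr {N c : ℕ} {d : Fin c → ℕ} {I : Ideal (Sx N)} {K : ℕ}
    {G G' : Fin c → Sx N} (h : ∀ i, d i ≤ K → G' i = G i) (hG : PL I d (K + 1) G) :
    PL I d (K + 1) G' := by
  intro x v hl s hs
  obtain ⟨L, hL, hsL⟩ := hG x v hl s hs
  refine ⟨L, hL, ?_⟩
  rw [hsL]
  refine Finset.sum_congr rfl (fun i _ => ?_)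
  by_cases hi : d i ≤ K
  · rw [h i hi]
  · have h1 := hL i
    have h2 : K + 1 - d i = 0 := by omega
    rw [h2, Polynomial.mem_degreeLT, Nat.cast_zero, Nat.WithBot.lt_zero_iff,
      Polynomial.degree_eq_bot] at h1
    funext k
    rw [h1, zero_mul, zero_mul]

theorem tInd : S_Ind := by
  intro hA hB N c d I h2 hN hp hh hnd hs hnum hreg hcov
  have hH : Hyp I d := ⟨h2, hN, hp, hh, hnd, hs, hnum, hreg, hcov⟩
  have hex : ∀ K : ℕ, ∃ G, Data I d (K + 1) G ∧ PL I d (K + 1) G := by
    intro K
    induction K with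
    | zero => exact ⟨0, data_one hH 0, pl_one 0⟩
    | succ K ih =>
      obtain ⟨G, hG, hPL⟩ := ih
      have h3 := hA N c d I hH (K + 1) G (by omega) hG hPL
      obtain ⟨G', hG', hD⟩ := hB N c d I hH (K + 1) G (by omega) hG h3
      exact ⟨G', hD, pl_congr hG' h3⟩
  obtain ⟨G, hG, hPL⟩ := hex (∑ i, d i)
  have hle : ∀ i, d i ≤ ∑ i, d i := fun i =>
    Finset.single_le_sum (fun j _ => Nat.zero_le (d j)) (Finset.mem_univ i)
  have hall : ∀ K : ℕ, Data I d (∑ i, d i + 1 + K) G ∧ PL I d (∑ i, d i + 1 + K) G := by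
    intro K
    induction K with
    | zero => exact ⟨hG, hPL⟩
    | succ K ih =>
      have h3 := hA N c d I hH (∑ i, d i + 1 + K) G (by omega) ih.1 ih.2
      obtain ⟨G', hG', hD⟩ := hB N c d I hH (∑ i, d i + 1 + K) G (by omega) ih.1 h3
      have hGG : G' = G := by
        funext i
        have := hle i
        exact hG' i (by omega)
      rw [hGG] at hD
      exact ⟨hD, h3⟩
  have hhom : ∀ i, G i ∈ I ∧ (G i).IsHomogeneous (d i) := fun i => by
    have := hle i
    exact hG.hom i (by omega)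
  refine ⟨G, fun i => (hhom i).2, le_antisymm ?_ ?_⟩
  · intro F hF
    have hsum := sum_homogeneousComponent F
    rw [← hsum]
    refine Ideal.sum_mem _ (fun k _ => ?_)
    have h4 := (hall k).1.gen k (by omega) (homogeneousComponent k F) (hh F hF k)
      (homogeneousComponent_isHomogeneous k F)
    exact Ideal.span_mono (Set.image_subset_range _ _) h4
  · rw [Ideal.span_le]
    rintro _ ⟨i, rfl⟩
    exact (hhom i).1

end Pool.Agent.Lib.MP_776403_ag.SD
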