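import Pool.Agent.Lib.MP_776403_ag.SD.B
import Pool.Agent.Lib.MP_776403_ag.SD.B1
import Pool.Agent.Lib.MP_776403_ag.SD.B1K
import Pool.Agent.Lib.MP_776403_ag.SD.B2
import Pool.Agent.Lib.MP_776403_ag.SD.B3
import Pool.Agent.Lib.MP_776403_ag.SD.B4
import Pool.Agent.Lib.MP_776403_ag.SD.B5
import Pool.Agent.Lib.MP_776403_ag.SD.D1
import Pool.Agent.Lib.MP_776403_ag.SD.D2a
import Pool.Agent.Lib.MP_776403_ag.SD.D2b
import Pool.Agent.Lib.MP_776403_ag.SD.D2c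
import Pool.Agent.Lib.MP_776403_ag.SD.D3
import Pool.Agent.Lib.MP_776403_ag.SD.D5
import Pool.Agent.Lib.MP_776403_ag.SD.D5a
import Pool.Agent.Lib.MP_776403_ag.SD.D5b
import Pool.Agent.Lib.MP_776403_ag.SD.D6p
import Pool.Agent.Lib.MP_776403_ag.SD.DetHom
import Pool.Agent.Lib.MP_776403_ag.SD.Frac
import Pool.Agent.Lib.MP_776403_ag.SD.Ind
import Pool.Agent.Lib.MP_776403_ag.SD.Krull
import Pool.Agent.Lib.MP_776403_ag.SD.Kos1
import Pool.Agent.Lib.MP_776403_ag.SD.Kos2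
import Pool.Agent.Lib.MP_776403_ag.SD.KosI
import Pool.Agent.Lib.MP_776403_ag.SD.KosM
import Pool.Agent.Lib.MP_776403_ag.SD.KosR
import Pool.Agent.Lib.MP_776403_ag.SD.L3
import Pool.Agent.Lib.MP_776403_ag.SD.L3pp
import Pool.Agent.Lib.MP_776403_ag.SD.Minor
import Pool.Agent.Lib.MP_776403_ag.SD.Mono
import Pool.Agent.Lib.MP_776403_ag.SD.NMain
import Pool.Agent.Lib.MP_776403_ag.SD.Null
import Pool.Agent.Lib.MP_776403_ag.SD.Pencil
import Pool.Agent.Lib.MP_776403_ag.SD.Pt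
import Pool.Agent.Lib.MP_776403_ag.SD.RegDim
import Pool.Agent.Lib.MP_776403_ag.SD.SecVal
import Pool.Agent.Lib.MP_776403_ag.SD.TB
import Pool.Agent.Lib.MP_776403_ag.SD.W
import Pool.Agent.Lib.MP_776403_ag.SD.E.Adj
import Pool.Agent.Lib.MP_776403_ag.SD.E.CN
import Pool.Agent.Lib.MP_776403_ag.SD.E.Col
import Pool.Agent.Lib.MP_776403_ag.SD.E.ColT
import Pool.Agent.Lib.MP_776403_ag.SD.E.Cr
import Pool.Agent.Lib.MP_776403_ag.SD.E.CrL
import Pool.Agent.Lib.MP_776403_ag.SD.E.Dua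
import Pool.Agent.Lib.MP_776403_ag.SD.E.E0
import Pool.Agent.Lib.MP_776403_ag.SD.E.EMain
import Pool.Agent.Lib.MP_776403_ag.SD.E.FinB
import Pool.Agent.Lib.MP_776403_ag.SD.E.Good
import Pool.Agent.Lib.MP_776403_ag.SD.E.Hom
import Pool.Agent.Lib.MP_776403_ag.SD.E.LinB
import Pool.Agent.Lib.MP_776403_ag.SD.E.LinS
import Pool.Agent.Lib.MP_776403_ag.SD.E.LineI
import Pool.Agent.Lib.MP_776403_ag.SD.E.LineOf
import Pool.Agent.Lib.MP_776403_ag.SD.E.Loc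
import Pool.Agent.Lib.MP_776403_ag.SD.E.MapL
import Pool.Agent.Lib.MP_776403_ag.SD.E.P0
import Pool.Agent.Lib.MP_776403_ag.SD.E.PerpOf
import Pool.Agent.Lib.MP_776403_ag.SD.E.Phi
import Pool.Agent.Lib.MP_776403_ag.SD.E.Psi1
import Pool.Agent.Lib.MP_776403_ag.SD.E.Psi2
import Pool.Agent.Lib.MP_776403_ag.SD.E.Pt
import Pool.Agent.Lib.MP_776403_ag.SD.E.Sat
import Pool.Agent.Lib.MP_776403_ag.SD.E.Th1
import Pool.Agent.Lib.MP_776403_ag.SD.E.Th2
import Pool.Agent.Lib.MP_776403_ag.SD.E.WH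
import Pool.Agent.Lib.MP_776403_ag.SD.A.AOf
import Pool.Agent.Lib.MP_776403_ag.SD.A.Aff
import Pool.Agent.Lib.MP_776403_ag.SD.A.Ari
import Pool.Agent.Lib.MP_776403_ag.SD.A.CaseOne
import Pool.Agent.Lib.MP_776403_ag.SD.A.CaseTwo
import Pool.Agent.Lib.MP_776403_ag.SD.A.CombV
import Pool.Agent.Lib.MP_776403_ag.SD.A.Cram
import Pool.Agent.Lib.MP_776403_ag.SD.A.DualV
import Pool.Agent.Lib.MP_776403_ag.SD.A.Fam
import Pool.Agent.Lib.MP_776403_ag.SD.A.FinA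
import Pool.Agent.Lib.MP_776403_ag.SD.A.Gen
import Pool.Agent.Lib.MP_776403_ag.SD.A.IndA
import Pool.Agent.Lib.MP_776403_ag.SD.A.NrmE
import Pool.Agent.Lib.MP_776403_ag.SD.A.NrmU
import Pool.Agent.Lib.MP_776403_ag.SD.A.PtA
import Pool.Agent.Lib.MP_776403_ag.SD.A.Repar
import Pool.Agent.Lib.MP_776403_ag.SD.A.SigA

/-!
# THEOREM SD: assembly
-/

set_option autoImplicit false

namespace Pool.Agent.Lib.MP_776403_ag.SD

/-! ## Dimension theory -/

theorem mKrull : S_Krull := tKrull tD2a (tD2b tTB) tD2c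

theorem mFrac : S_Frac := tFrac tTB (tD3 tTB)

theorem mD5 : S_D5 := tD5 tTB tD5a (tD5b tD6p)

theorem mMeet : S_Meet := fun N P P' D D' hP hP' hh hh' h h' hD =>
  mD5 N P P' hP hP' hh hh' D D' h h' hD

/-! ## Part E -/

theorem mHom : S_Hom := eHom eLinB

theorem mCr : S_Cr := eCr eCN tNull

theorem mCrL : S_CrL := eCrL eLinB

theorem mLoc : S_Loc := eLoc

theorem mPerp : S_Perp := ePerpOf mLoc mHom eCN mCr

theorem mN : S_N := nMain tD1 tD6p tNull mPerp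

theorem mLinS : S_LinS := eLinS eLinB

theorem mCol : S_Col := eCol eLinB mHom mCrL (eLineI eLinB)

theorem mColT : S_ColT :=
  eColT eLinB mCr mCrL mCol (eSat eLinB mLoc mCr mCrL) (eAdj ePhi)

theorem mPsi1 : S_Psi1 := ePsi1 eLinB mHom (eTh1 mHom eLinB) mLinS eMapL

theorem mPtE : S_PtE := ePt eLinB mLinS

theorem mPsi2 : S_Psi2 := ePsi2 eLinB mHom (eTh2 mHom eLinB mCr) mLinS mPtE eMapL

theorem mE0 : S_E0 := eE0 (eDua ePhi) mCol eFinB mPsi1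

theorem mE : S_E := eEMain (eDua ePhi) mCol mColT eFinB mPsi1 mPsi2

theorem mWH : S_WH := eWH mLinS

theorem mP0 : S_P0 := eP0 eLinB mLinS

theorem mGood : S_Good := eGood mHom

theorem mLine : S_Line := eLineOf mLoc mGood mE0 mWH mPtE mKrull mFrac mP0

theorem mSecVal : S_SecVal := tSecVal mPerp

/-! ## Part A -/

theorem mRepar : S_Repar := aRepar mSecVal

theorem mPtA : S_PtA := aPtA mP0 aNrmU aCram (aAff mLinS)

theorem mSigA : S_SigA := aSigA mPtA mSecVal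

theorem mFam : S_Fam := aFam mE mWH mPtE mKrull aGen aAri

theorem mFinA : S_FinA := aFinA mPerp mN

theorem mIndA : S_IndA := aIndA aCombV tL3

theorem mCaseOne : S_CaseOne :=
  aCaseOne mLoc mGood mRepar mE mWH mPtE mKrull mFrac mP0 mLinS mPerp mFinA

theorem mCaseTwo : S_CaseTwo :=
  aCaseTwo mLoc mGood mRepar aDualV (aNrmE aNrmU) aCombV mFam mPtA mSigA mIndA mP0 mFrac mFinA

/-- Step A. -/
theorem mA : S_A := aAOf tL3 mSecVal mPerp mCaseOne mCaseTwo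

/-! ## Part B -/

theorem mB1K : S_B1K := tB1K (tB1 (tKosR tPencil tKos1 tKos2) tKosI tKosM)

theorem mNe : S_Ne := tNe tNull

theorem mRegDim : S_RegDim := tRegDim tNull mNe

theorem mB3 : S_B3 := tB3 (tB2 mB1K mRegDim) tNull mNe tMinor tDetHom

theorem mB4 : S_B4 := tB4 mB3 (tL3pp tL3) mLine mMeet

theorem mB5 : S_B5 := tB5 mB4 mN mLine mNe tMono

/-- Step B. -/
theorem mB : S_B := tB (tW mB1K mRegDim) mB4 mB5

/-- THEOREM SD. -/
theorem mSD : S_SD := tInd mA mB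

end Pool.Agent.Lib.MP_776403_ag.SD
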