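import Pool.Agent.Lib.MP_776403_ag.SD.SpecD
import Pool.Agent.Lib.MP_776403_ag.SD.Bas

/-!
# THEOREM SD, specs for section 2 (sections on lines), section 7 (step B) and the induction

Statements `S_Krull`, `S_Frac`, `S_Meet`, `S_Null`, `S_L1`, `S_L3`, `S_SecVal`, `S_B`, `S_Ind` are in
`Iface.lean`; their proofs are described here (docstrings of `P_…`).  The remaining `S_…` are
defined here.  `Bas.lean` contains proved lemmas on `lin`, `grad`, `Sec`.
-/

set_option autoImplicit false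

open MvPolynomial

noncomputable section

namespace Pool.Agent.Lib.MP_776403_ag.SD

variable {N : ℕ}

/-! ## Linear algebra and small facts -/

/-- (Minor) Independent vectors `v_i ∈ ℂ^n` have a nonzero maximal minor.

PROOF.  The matrix `M = (v_i k)` (`ι × Fin n`) has independent rows, so its column rank is
`card ι` (`Matrix.rank`, `LinearIndependent.rank_matrix`, `Matrix.rank_transpose`); so the columns
span `ι → ℂ`, and `card ι` of them form a basis (`exists_linearIndependent'`, `Basis` extraction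
from a spanning family); the corresponding square matrix has independent columns, so its
determinant is not zero (`Matrix.linearIndependent_cols_iff_isUnit`). -/
def S_Minor : Prop :=
  ∀ (ι : Type) [Fintype ι] [DecidableEq ι] (n : ℕ) (v : ι → (Fin n → ℂ)), LinearIndependent ℂ v →
    ∃ B : ι → Fin n, (Matrix.of fun i j => v i (B j)).det ≠ 0

/-- (DetHom) The determinant of a matrix of forms with degrees constant in rows.

PROOF.  `Matrix.det_apply`: a sum of `sign • ∏ i, M (σ i) i`; each product is homogeneous of degree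
`∑ i, a (σ i) = ∑ i, a i` (`IsHomogeneous.prod`, `Equiv.sum_comp`), signs are integers. -/
def S_DetHom : Prop :=
  ∀ (N : ℕ) (ι : Type) [Fintype ι] [DecidableEq ι] (M : Matrix ι ι (Sx N)) (a : ι → ℕ),
    (∀ i j, (M i j).IsHomogeneous (a i)) → M.det.IsHomogeneous (∑ i, a i)

/-- (Pt) `X` is not empty.

PROOF.  Otherwise `zer I ⊆ {0}` and `X_0` vanishes on `zer I`; by `S_Null` (first part) `X_0 ∈ I`,
a form of degree `1`, not zero: contradiction with `Hyp.nd`. -/
def S_Ne : Prop :=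
  ∀ (N c : ℕ) (d : Fin c → ℕ) (I : Ideal (Sx N)), Hyp I d → ∃ y ∈ zer I, y ≠ 0

/-- (Mono) `DimGeG` is monotone; compose with `Fin.castLE`
(`AlgebraicIndependent.comp` with an injective map). -/
def S_Mono : Prop :=
  ∀ (σ : Type) (P : Ideal (MvPolynomial σ ℂ)) (D D' : ℕ), D' ≤ D → DimGeG P D → DimGeG P D'

/-! ## Proofs of statements of `Iface.lean` -/

/-- `tNull : S_Null`.  PROOF.  (1) `F` vanishes on `zer P`, i.e. on `zeroLocus P`: Nullstellensatz
(`MvPolynomial.vanishingIdeal_zeroLocus_eq_radical`; `eval` versus `aeval`), radical of a prime.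
(2) `m ≥ 1`: `F (0) = 0` (`eval_smul_form` with `a = 0`), so `F` vanishes on `zer P`; `m = 0`: `F` is
a constant `C a` and `F (z) = 0` at the given point, so `F = 0`. -/
def P_Null : Prop := S_Null

/-- `tKrull : S_D2a → S_D2b → S_D2c → S_Krull`.  PROOF.  `A = MvPolynomial σ ℂ`, `n = ptI z` (a
prime, the kernel of `eval z`), `B = span (range b)`.  `J ≤ B ⊔ n * J`; `J` is finitely generated;
Nakayama (`Submodule.exists_sub_one_mem_and_smul_le_of_fg_of_le_sup`) gives `h` with `h - 1 ∈ n` and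
`h F ∈ B` for all `F ∈ J`.  `h ∉ n`.  By (D2a) `n.height ≥ M = card σ`, by
`Ideal.height_le_height_add_spanFinrank_of_le` (`B ≤ J ≤ n`, `B.spanFinrank ≤ g`) the prime `n / B`
of `A / B` has height `≥ M - g`, so there is a chain of primes `Q_0 < … < Q_l = n / B` of `A / B`
with `l = M - g` (`Ideal.height`, `Ideal.exists_ltSeries_length_eq_height`, `LTSeries` in
`PrimeSpectrum`; truncate).  `P₀ = Q_0.comap (mk B)`: a prime, `B ≤ P₀ ≤ n`; the chain of the
preimages gives `ringKrullDim (A / P₀) ≥ l` (`Order.LTSeries.length_le_krullDim`; primes of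
`A / P₀` = primes `≥ P₀`).  `h ∉ P₀`, so `J ≤ P₀`.  (D2b): `DimGeG P₀ l`, (D2c): `P`; the family
`y k = X (i k) mod P`. -/
def P_Krull : Prop := S_D2a → S_D2b → S_D2c → S_Krull

/-- `tFrac : S_TB → S_D3 → S_Frac`.  PROOF.  `R = MvPolynomial (Fin (N + 1) ⊕ τ) ℂ / P`.  By (TB)
with `x` = all coordinates (`adjoin = ⊤`) the hypothesis `AlgebraicIndependent ℂ y` gives
`DimGeG P D`; then (D3) with `e = Sum.inl`: for `j = inr s` the given `g`, `h`, for `j = inl i`
take `g = 1`, `h = X i` (`P ≠ ⊤`). -/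
def P_Frac : Prop := S_TB → S_D3 → S_Frac

/-- `tMeet : S_D5 → S_Meet`.  PROOF.  Reordering of the arguments. -/
def P_Meet : Prop := S_D5 → S_Meet

/-- `tSecVal : S_Perp → S_SecVal`.  PROOF.  Let `w` be a homogeneous field of degree `m` in
`TF I`, `p = ∑ i, s i * lin x v (w i)`, a polynomial of degree `< n + m` (`s i` has degree `< n`,
`lin x v (w i)` degree `≤ m`).  For `σ ≠ 0`: `hval s n σ τ = σ ^ (n - 1) • s (τ / σ)` (for `n ≥ 1`;
for `n = 0` everything is zero) and `w (σ x + τ v) = σ ^ m • w (x + (τ / σ) v)`, so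
`∑ (hval s n σ τ) i * w i (σ x + τ v) = σ ^ (n - 1 + m) * p (τ / σ)`; for `σ = 0` the left side is
`τ ^ (n - 1 + m)` times the coefficient of `t ^ (n - 1 + m)` of `p` (`lin_coeff_top`,
`(s i).coeff (n - 1)`, `Polynomial.coeff_mul` with degrees bounded by `n - 1` and `m`:
`Polynomial.coeff_mul_of_natDegree_le`).  (⟹) `p = 0`, so `hval s n σ τ` is orthogonal to `w (y)`,
`y = σ x + τ v ∈ zer I - 0`, for all homogeneous `w ∈ TF I`; by `S_Perp` (last part) it is in
`CN I y`.  (⟸) elements of `CN I y` are orthogonal to `w (y)` (`∑ pderiv i F * w i ∈ I` vanishes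
at `y ∈ zer I`; `Submodule.span_induction`); so `p (t) = 0` for all `t`. -/
def P_SecVal : Prop := S_Perp → S_SecVal

/-- `tL1 : S_Minor → S_L1`.  PROOF.  `ι = {i // d i ≤ K}`, `g_i = gradL x v (G i)` for `i : ι`; the
values `g_i (t) = grad (G i) (x + t v)` are independent for every `t` (`Data.ind`,
`mem_zer_line`, `line_ne_zero'`), and so are the vectors `(coefficient of t^(d_i - 1) in g_i)
= grad (G i) v` (`gradL_coeff_top`).
(1) Cramer.  `S_Minor` at `t = 0`: `B : ι → Fin (N + 1)` with `D = det (g_i (B j)) ≠ 0` in `ℂ[t]`.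
With `A i j = g_i (B j)`, `u j = s (B j)`, put `L0 i = ` the determinant of `A` with row `i` replaced
by `u` (`Matrix.cramer`).  For every `t` there are `a_i` with `s (t) = ∑ a_i g_i (t)`
(hypothesis), so `L0 i (t) = a_i D (t)` and `D (t) s (t) = ∑ L0 i (t) g_i (t)`; so
`D • s = ∑ L0 i • g_i` as polynomials.
(2) Division.  Let `D` be nonzero of minimal degree with `D • s = ∑ L_i g_i` for some `L`.  If
`deg D > 0` take a root `t0` (`ℂ` is algebraically closed): `0 = ∑ L_i (t0) g_i (t0)`, so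
`L_i (t0) = 0` for all `i` and everything is divisible by `X - C t0`: contradiction.  So `D` is a
constant and `s = ∑ L_i g_i` (`L_i = 0` for `d i > K`).
(3) Degrees.  Let `M` be the maximum of `deg L_i + d_i - 1` over the `i` with `L_i ≠ 0`.  The
coefficient of `t^M` of `∑ L_i g_i` is `∑ lc(L_i) grad (G i) v` (sum over the `i` attaining the
maximum), not zero by independence at `v` (`v ∈ zer I`, `v ≠ 0`).  As `s` has degree `< n`,
`M < n`: `deg L_i < n + 1 - d_i`. -/
def P_L1 : Prop := S_Minor → S_L1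

/-- `tL3 : S_L3`.  PROOF.  `ι = {i // d i ≤ K}`, `g_i = gradL x v (G i)`, `n = K'` (`≥ 1`).
CASE `σ ≠ 0`, `t0 = τ / σ`: `hval s n σ τ = σ ^ (n - 1) • s (t0)` (`homog_val`) and
`GS d K G (σ x + τ v) = GS d K G (x + t0 v)` (`grad_smul_form`), so `s (t0) = ∑ c_i g_i (t0)` with
`c_i = 0` for `d i > K`.  `s - ∑ c_i g_i` is in `Sec n` (`Sec_mul` or `Submodule.smul_mem`,
`gradL_mem_Sec`, `Sec_of_degree`: `d i ≤ K ≤ n`), it vanishes at `t0`, so it is
`(X - C t0) • s'` with entries of `s'` of degree `< n - 1`, `s' ∈ Sec (n - 1)` (`Sec_div`); by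
`PL I d K'` `s' = ∑ L'_i g_i` with `L'_i ∈ degreeLT (K' - d i)`.
[For `K < d i` : `K' - d i = 0`, so `L'_i = 0`.]  `L_i = c_i + (X - C t0) L'_i` for `d i ≤ K`, `0` for
the others; degree `< K' + 1 - d i` (as `d i ≤ K ≤ K'`).
CASE `σ = 0`, `τ ≠ 0`: `hval s n 0 τ = τ ^ (n - 1) • (coefficients of t^(n-1) of s)`, and
`GS d K G (τ v) = GS d K G v`; so the vector of the coefficients of `t^(n - 1)` of `s` is
`∑ c_i grad (G i) v`.  `s - ∑ c_i t^(n - d_i) g_i` has degree `< n - 1` (`gradL_coeff_top`;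
`n - d_i + d_i - 1 = n - 1`) and is in `Sec (n - 1)` (`Sec_mul`, `Sec_of_degree`); `PL I d K'`;
`L_i = c_i t^(n - d_i) + L'_i`, degree `< n + 1 - d_i`. -/
def P_L3 : Prop := S_L3

/-- `tInd : S_Ind`.  PROOF.  Given the data of `S_SD`, `Hyp I d` holds.  `Data I d 1 G` for
every `G` (e.g. `G = 0`): `d i ≤ 1` is impossible; `ind`: empty family; `gen`: `k = 0`: a form of
degree `0` in the prime ideal `I` is `0` (constant), `k = 1`: `nd`.  `PL I d 1 G`: `Sec I x v 0` is
zero (`degreeLT ℂ 0 = ⊥`), `L = 0`.  Induction over `K ≥ 1`: `∃ G, Data I d K G ∧ PL I d K G`: from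
`(G, K)` step A gives `PL I d (K + 1) G`, step B gives `G'` with `G' i = G i` for `d i ≤ K` and
`Data I d (K + 1) G'`; `PL I d (K + 1) G'` follows from `PL I d (K + 1) G`, as `L i ∈ degreeLT 0`,
so `L i = 0`, for `d i ≥ K + 1`.  For `K₀ ≥ 1` with `d i ≤ K₀` for all `i`, let `G` be the forms for
`K₀`; by induction `Data I d K G ∧ PL I d K G` for the same `G` and all `K ≥ K₀` (`G' = G`).  So
`G i ∈ I` is homogeneous of degree `d i`, and a form of degree `k` in `I` is in
`span (range G)` (`gen` for `K = max k K₀`); `I` is homogeneous (`IsHom`,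
`sum_homogeneousComponent`), so `I = span (range G)`. -/
def P_Ind : Prop := S_Ind

/-! ## Minimality of the Hilbert function of complete intersections -/

/-- `S_(k-e)`, zero for `e > k`. -/
def Fd (N k e : ℕ) : Submodule ℂ (Sx N) :=
  if e ≤ k then homogeneousSubmodule (Fin (N + 1)) ℂ (k - e) else ⊥

/-- The degree `k` part of the second term of the Koszul complex. -/
def K1 (N : ℕ) {ι : Type} (d : ι → ℕ) (k : ℕ) : Submodule ℂ (ι → Sx N) :=
  Submodule.pi Set.univ fun i => Fd N k (d i)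

/-- The degree `k` part of (a redundant form of) the third term of the Koszul complex. -/
def K2 (N : ℕ) {ι : Type} (d : ι → ℕ) (k : ℕ) : Submodule ℂ (ι → ι → Sx N) :=
  Submodule.pi Set.univ fun i => Submodule.pi Set.univ fun j => Fd N k (d i + d j)

/-- The first differential `a ↦ ∑ a_i G_i`. -/
def Phi1 {ι : Type} [Fintype ι] (G : ι → Sx N) : (ι → Sx N) →ₗ[ℂ] Sx N where
  toFun a := ∑ i, a i * G i
  map_add' a b := by simp only [Pi.add_apply, add_mul, Finset.sum_add_distrib]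
  map_smul' r a := by
    simp only [Pi.smul_apply, smul_mul_assoc, ← Finset.smul_sum, RingHom.id_apply]

/-- The second differential `b ↦ (∑_j (b_ij - b_ji) G_j)_i`. -/
def Phi2 {ι : Type} [Fintype ι] (G : ι → Sx N) : (ι → ι → Sx N) →ₗ[ℂ] (ι → Sx N) where
  toFun b := fun i => ∑ j, (b i j - b j i) * G j
  map_add' a b := by
    funext i
    simp only [Pi.add_apply, ← Finset.sum_add_distrib]
    refine Finset.sum_congr rfl fun j _ => ?_
    ring
  map_smul' r a := by
    funext i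
    simp only [Pi.smul_apply, ← smul_sub, smul_mul_assoc, ← Finset.smul_sum, RingHom.id_apply]

/-- (Pencil) The rank of `f + t g` on a finite-dimensional subspace is at least the rank of `f`, with
finitely many exceptions `t`.

PROOF.  `r = finrank (U.map f)`; `u : Fin r → U` with `f ∘ u` linearly independent (preimages of a
basis of `U.map f`); functionals `φ_i : W →ₗ[ℂ] ℂ` with `φ_i (f (u_j)) = δ_ij`
(`LinearMap.exists_extend` of the coordinates of the span, or
`exists_dual_map_eq…`).  `p = det (1 + X • C B) ∈ ℂ[X]`, `B i j = φ_i (g (u_j))`, has `p (0) = 1`, so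
finitely many roots; if `p (t) ≠ 0` the vectors `(f + t g) (u_j)` are independent (a relation gives
a vector in the kernel of the invertible matrix `1 + t B`), so `finrank (U.map (f + t • g)) ≥ r`. -/
def S_Pencil : Prop :=
  ∀ (V W : Type) [AddCommGroup V] [Module ℂ V] [AddCommGroup W] [Module ℂ W]
    (U : Submodule ℂ V) [FiniteDimensional ℂ U] (f g : V →ₗ[ℂ] W),
    {t : ℂ | Module.finrank ℂ (U.map (f + t • g)) < Module.finrank ℂ (U.map f)}.Finite

/-- (Kos1) The Koszul complex is a complex and respects degrees.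

PROOF.  `(Phi1 G) (Phi2 G b) = ∑_i ∑_j (b_ij - b_ji) G_j G_i = 0` by symmetry
(`Finset.sum_comm`).  Degrees: `b_ij ∈ Fd (d_i + d_j)`; if `d_i + d_j ≤ k` it is a form of degree
`k - d_i - d_j` and `b_ij G_j` is a form of degree `k - d_i`; otherwise `b_ij = 0`; same for
`b_ji`. -/
def S_Kos1 : Prop :=
  ∀ (N : ℕ) (ι : Type) [Fintype ι] (d : ι → ℕ) (G : ι → Sx N),
    (∀ i, (G i).IsHomogeneous (d i)) → ∀ k : ℕ,
    (K2 N d k).map (Phi2 G) ≤ K1 N d k ⊓ LinearMap.ker (Phi1 G)

/-- (Kos2) Exactness for powers of different variables.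

PROOF.  (a) `X_j ^ e` is regular modulo `(X_i ^ d_i : i ∈ s)`, `j ∉ s` (indices of variables): if
`X_j ^ e * a ∈ (X_i ^ d_i)` then `a ∈ (X_i ^ d_i)` (`MvPolynomial.mem_ideal_span_monomial_image`: a
polynomial is in the ideal iff each monomial of its support is divisible by some `X_i ^ d_i`).
(b) By induction over a finset `s` of indices: `∑_(i ∈ s) a_i X_i ^ d_i = 0` implies the existence
of `b` with `a_i = ∑_(j ∈ s) (b_ij - b_ji) X_j ^ d_j` for `i ∈ s`.  Step `s ∪ {j}`: by (a)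
`a_j = ∑_(i ∈ s) c_i X_i ^ d_i`; then `∑_(i ∈ s) (a_i + c_i X_j ^ d_j) X_i ^ d_i = 0`; induction gives
`b` on `s`; put `b_ij = - c_i`, `b_ji = 0`, `b_jj = 0`.
(c) Degrees: replace `b_ij` by its homogeneous component of degree `k - d_i - d_j` (by `0` if
`d_i + d_j > k`): compare the components of degree `k - d_i` of `a_i = ∑_j (b_ij - b_ji) X_j ^ d_j`
(if `d_i > k` then `a_i = 0` and all the new `b_ij`, `b_ji` are `0`);
`homogeneousComponent m (b * X ^ e) = homogeneousComponent (m - e) b * X ^ e` for `e ≤ m`, `0` for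
`e > m`. -/
def S_Kos2 : Prop :=
  ∀ (N : ℕ) (ι : Type) [Fintype ι] (e : ι → Fin (N + 1)), Function.Injective e →
    ∀ (d : ι → ℕ) (k : ℕ),
    K1 N d k ⊓ LinearMap.ker (Phi1 fun i => (X (e i) ^ d i : Sx N)) ≤
      (K2 N d k).map (Phi2 fun i => (X (e i) ^ d i : Sx N))

/-- (KosR) Rank inequality.

PROOF (uses Pencil, Kos1, Kos2).  Write `M i = X (e i) ^ d i`.  `Phi1 (G + t M) = Phi1 G + t Phi1 M`,
`Phi2 (M + u G) = Phi2 M + u Phi2 G`.  By (Pencil) there is `u ≠ 0` such that, with `t = u⁻¹`,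
`rank (Phi1 G) ≤ rank (Phi1 (G + t M))` on `K1` and `rank (Phi2 M) ≤ rank (Phi2 (M + u G))` on `K2`
(two finite sets of exceptions; `u ↦ u⁻¹`).  `M + u G = u (G + t M)`, so
`K2.map (Phi2 (M + u G)) = K2.map (Phi2 (G + t M))`.  Hence, `H = G + t M` (forms of degrees `d i`):
`rank Phi1 G ≤ rank Phi1 H = dim K1 - dim (K1 ⊓ ker Phi1 H)` (rank-nullity)
`≤ dim K1 - rank Phi2 H` (Kos1) `≤ dim K1 - rank Phi2 M ≤ dim K1 - dim (K1 ⊓ ker Phi1 M)` (Kos2)
`= rank Phi1 M`.  (All spaces are finite-dimensional: `Fd` is, `Submodule.pi`.) -/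
def S_KosR : Prop :=
  ∀ (N : ℕ) (ι : Type) [Fintype ι] (e : ι → Fin (N + 1)), Function.Injective e →
    ∀ (d : ι → ℕ) (G : ι → Sx N), (∀ i, (G i).IsHomogeneous (d i)) → ∀ k : ℕ,
    Module.finrank ℂ ((K1 N d k).map (Phi1 G)) ≤
      Module.finrank ℂ ((K1 N d k).map (Phi1 fun i => (X (e i) ^ d i : Sx N)))

/-- (KosI) `(K1).map (Phi1 G)` is the degree `k` part of the ideal of the `G i`; dimension of the
quotient.

PROOF.  `F ∈ span (range G)`, `F` a form of degree `k`: `F = ∑ A_i G_i`, take components of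
degree `k`: `A_i` may be replaced by its component of degree `k - d_i` (`0` if `d_i > k`).  So
`(K1).map (Phi1 G) = homogeneousSubmodule k ⊓ span (range G)` (as `ℂ`-spaces), and this is the
kernel of `homogeneousSubmodule k → S / span (range G)`, whose image is `gr … k`; rank-nullity;
`finrank (homogeneousSubmodule k) = binom (N + k) N` (count of monomials). -/
def S_KosI : Prop :=
  ∀ (N : ℕ) (ι : Type) [Fintype ι] (d : ι → ℕ) (G : ι → Sx N),
    (∀ i, (G i).IsHomogeneous (d i)) → ∀ k : ℕ,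
    Module.finrank ℂ (gr (Ideal.span (Set.range G)) k) +
      Module.finrank ℂ ((K1 N d k).map (Phi1 G)) = Nat.choose (N + k) N

/-- The Hilbert function of a complete intersection (general index type). -/
def hcG {ι : Type} [Fintype ι] (d : ι → ℕ) (N k : ℕ) : ℤ :=
  ∑ A : Finset ι, (-1) ^ A.card *
    (if ∑ i ∈ A, d i ≤ k then (Nat.choose (N + (k - ∑ i ∈ A, d i)) N : ℤ) else 0)

/-- (KosM) The monomial case.

PROOF.  `(K1).map (Phi1 M)`, `M i = X (e i) ^ d i`, is the span of the monomials `X ^ α`, `|α| = k`,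
with `α (e i) ≥ d i` for some `i`; its dimension is the number of these `α`.  So the left side is
`#{α : |α| = k} - #{α : |α| = k, ∃ i, α (e i) ≥ d i} = #{α : |α| = k, ∀ i, α (e i) < d i}`, and
inclusion-exclusion (`Finset.inclusion_exclusion_card_inf_compl`, or
`∏ (1 - 1_(α (e i) ≥ d i))` expanded with `Finset.prod_one_sub…` / `Finset.prod_add`) gives
`∑_A (-1)^|A| #{α : |α| = k, α (e i) ≥ d i for i ∈ A}`; subtracting `∑_(i ∈ A) d_i e_i` (`e`
injective) this number is `#{β : |β| = k - d_A} = binom (N + k - d_A) N`, or `0` if `d_A > k`. -/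
def S_KosM : Prop :=
  ∀ (N : ℕ) (ι : Type) [Fintype ι] (e : ι → Fin (N + 1)), Function.Injective e →
    ∀ (d : ι → ℕ) (k : ℕ),
    (Nat.choose (N + k) N : ℤ) -
      Module.finrank ℂ ((K1 N d k).map (Phi1 fun i => (X (e i) ^ d i : Sx N))) = hcG d N k

/-- (B1) Minimality of the Hilbert function.

PROOF.  From KosR, KosI, KosM; an injection `e : ι → Fin (N + 1)` exists as
`card ι ≤ N + 1`. -/
def S_B1 : Prop :=
  ∀ (N : ℕ) (ι : Type) [Fintype ι], Fintype.card ι ≤ N + 1 → ∀ (d : ι → ℕ) (G : ι → Sx N),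
    (∀ i, (G i).IsHomogeneous (d i)) → ∀ k : ℕ,
    hcG d N k ≤ Module.finrank ℂ (gr (Ideal.span (Set.range G)) k)

/-- (B1K) Hilbert function of the forms constructed so far.

PROOF.  `c ≤ N + 1` as `2 ≤ d i` and `2 ∑ d i ≤ N`.  (B1) for `ι = {i // d i ≤ K}` and the
restrictions of `d`, `G`: `span (range) = span (G '' {i | d i ≤ K})`, and
`hcG = ∑_(A ⊆ {d i ≤ K}) …`.  For `k ≤ K` the sets `A` containing an `i` with `d i > K ≥ k`
contribute `0` to `hci d N k`.  For `k = K + 1` the sets `A` containing an `i` with `d i ≥ K + 1`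
contribute `0`, except `A = {i}` with `d i = K + 1`, which contributes `- binom (N + 0) N = - 1`
(if `A` contains such an `i` and another element `j`, then `∑_A d ≥ K + 1 + d j > K + 1`). -/
def S_B1K : Prop :=
  ∀ (N c : ℕ) (d : Fin c → ℕ) (I : Ideal (Sx N)), Hyp I d → ∀ (K : ℕ) (G : Fin c → Sx N),
    Data I d K G →
    (∀ k ≤ K, hci d N k ≤ Module.finrank ℂ (gr (Ideal.span (G '' {i | d i ≤ K})) k)) ∧
    hci d N (K + 1) + Nat.card {i : Fin c // d i = K + 1} ≤
      Module.finrank ℂ (gr (Ideal.span (G '' {i | d i ≤ K})) (K + 1))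

/-! ## Step B -/

/-- (RegDim) Forms of degree `k` give independent regular functions.

PROOF.  `r = finrank (gr I k)`; forms `P_1, …, P_r` of degree `k` whose classes are a basis of
`gr I k`.  `f_i (y) = P_i (y)` for `y ∈ zer I`, `y ≠ 0`, and `0` otherwise; `IsReg I k (f_i)` (with
`Q = 1`, `e = 0`).  If `∑ a_i f_i = 0` then `∑ a_i P_i` (a form of degree `k`) vanishes on
`zer I - 0`, so it is in `I` (`S_Null` and `S_Ne`), so `a = 0`. -/
def S_RegDim : Prop :=
  ∀ (N c : ℕ) (d : Fin c → ℕ) (I : Ideal (Sx N)), Hyp I d → ∀ k : ℕ,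
    ∃ P : Fin (Module.finrank ℂ (gr I k)) → Sx N, (∀ i, (P i).IsHomogeneous k) ∧
      ∃ f : Fin (Module.finrank ℂ (gr I k)) → (Vx N → ℂ), (∀ i, IsReg I k (f i)) ∧
        LinearIndependent ℂ f ∧ ∀ i, ∀ y ∈ zer I, y ≠ 0 → f i y = eval y (P i)

/-- (B2) Regular functions of degree `k ≤ K` are forms.

PROOF (uses B1K, RegDim).  `(S/I)_k = (S/(G))_k` for `k ≤ K`: `Ideal.span (G '' {i | d i ≤ K}) ≤ I`
and a form of degree `k` in `I` is in the span (`Data.gen`), so `finrank (gr I k)` equals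
`finrank (gr (span …) k) ≥ hci d N k` (rank-nullity, or: the map
`gr (span) k → gr I k` is bijective).  Let `r = finrank (gr I k)` and `P`, `f` be as in (RegDim).
Let `F` be regular of degree `k`.  The `r + 1` functions `f_1, …, f_r, F` are dependent, otherwise
`r + 1 ≤ hci d N k ≤ r` (`Hyp.reg`); as the `f_i` are independent, `F = ∑ a_i f_i`, which is
`∑ a_i P_i` on `zer I - 0`. -/
def S_B2 : Prop :=
  ∀ (N c : ℕ) (d : Fin c → ℕ) (I : Ideal (Sx N)), Hyp I d → ∀ (K : ℕ) (G : Fin c → Sx N),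
    Data I d K G → ∀ k ≤ K, ∀ F : Vx N → ℂ, IsReg I k F →
    ∃ P : Sx N, P.IsHomogeneous k ∧ ∀ y ∈ zer I, y ≠ 0 → F y = eval y P

/-- (W) `dim I_(K+1) / (G)_(K+1) ≥ #{i : d_i = K + 1}`.

PROOF (uses B1K, RegDim).  `Q = span (G '' {i | d i ≤ K}) ≤ I`.  `U = I_(K+1)`, `U0 = Q_(K+1)`
(subspaces of the forms of degree `K + 1`).  By rank-nullity
`dim U - dim U0 = finrank (gr Q (K + 1)) - finrank (gr I (K + 1))`.  By (RegDim) and `Hyp.reg`
`finrank (gr I (K + 1)) ≤ hci d N (K + 1)`; with (B1K) `dim U - dim U0 ≥ m' =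
#{i // d i = K + 1}`.  Choose `m'` elements of `U` which are independent modulo `U0`. -/
def S_W : Prop :=
  ∀ (N c : ℕ) (d : Fin c → ℕ) (I : Ideal (Sx N)), Hyp I d → ∀ (K : ℕ) (G : Fin c → Sx N),
    Data I d K G →
    ∃ F : {i : Fin c // d i = K + 1} → Sx N, (∀ i, F i ∈ I ∧ (F i).IsHomogeneous (K + 1)) ∧
      ∀ a : {i : Fin c // d i = K + 1} → ℂ,
        ∑ i, C (a i) * F i ∈ Ideal.span (G '' {i | d i ≤ K}) → a = 0

/-- (B3) A form of degree `K + 1` in `I`, not in `(G)`, has a gradient outside the span of the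
`grad (G i)` at some point.

PROOF (uses B2, Null, Pt, Minor, DetHom).  Suppose `grad F (y) ∈ GS d K G y` for all
`y ∈ zer I - 0`.  `ι = {i // d i ≤ K}`.  By `Data.ind` there are unique `ℓ_i (y)` with
`grad F (y) = ∑ ℓ_i (y) grad (G i) (y)`; put `ℓ_i (y) = 0` for the other `y`.  CLAIM
`IsReg I (K + 1 - d i) ℓ_i`.  For `y0 ∈ zer I - 0` take `B` with
`det (pderiv (B j) (G i) (y0)) ≠ 0` (`S_Minor`); `Q = det (pderiv (B j) (G i))`, a form of degree
`e = ∑ (d_i' - 1)`; `P` = the determinant of the matrix with row `i` replaced by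
`pderiv (B j) F`, a form of degree `e - (d_i - 1) + K = e + (K + 1 - d_i)` (`S_DetHom`; `d_i ≥ 2`).
Cramer: for every `z ∈ zer I - 0`: `ℓ_i (z) Q (z) = P (z)` (the determinant is linear in row `i`,
and zero when two rows are equal).
`K + 1 - d_i ≤ K`, so by (B2) there are forms `A_i` of degree `K + 1 - d_i` with `ℓ_i = A_i` on
`zer I - 0`.  `F' = F - ∑ A_i G_i ∈ I` is a form of degree `K + 1`, and
`grad F' (y) = grad F (y) - ∑ A_i (y) grad (G i) (y) = 0` for `y ∈ zer I - 0` (`grad_mul`,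
`G_i (y) = 0`).  So `pderiv k F'` is a form of degree `K` which vanishes on `zer I - 0`, hence in
`I` (`S_Null`, `S_Ne`), hence in `Q' = span (G '' {d i ≤ K})` (`Data.gen`).  Euler
(`IsHomogeneous.sum_X_mul_pderiv`): `(K + 1) F' ∈ Q'`; so `F ∈ Q'`: contradiction. -/
def S_B3 : Prop :=
  ∀ (N c : ℕ) (d : Fin c → ℕ) (I : Ideal (Sx N)), Hyp I d → ∀ (K : ℕ) (G : Fin c → Sx N),
    1 ≤ K → Data I d K G → ∀ F ∈ I, F.IsHomogeneous (K + 1) →
    F ∉ Ideal.span (G '' {i | d i ≤ K}) → ∃ y ∈ zer I, y ≠ 0 ∧ grad F y ∉ GS d K G y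

/-- (L3'') Propagation along a line.

PROOF (uses `S_L3` with `K' = K + 1`).  `s = gradL x v F ∈ Sec I x v (K + 1)` (`gradL_mem_Sec`), and
`hval s (K + 1) 1 0 = grad F (1 • x + 0 • v)` (`gradL_hval`), in `GS d K G (1 • x + 0 • v)`.  `S_L3`:
`s = ∑ L_i gradL x v (G i)`, `L_i = 0` for `K < d i`.  Evaluate at `t` (`gradL_eval`):
`grad F (x + t v) = ∑ L_i (t) grad (G i) (x + t v)`. -/
def S_L3'' : Prop :=
  ∀ (N c : ℕ) (d : Fin c → ℕ) (I : Ideal (Sx N)), Hyp I d → ∀ (K : ℕ) (G : Fin c → Sx N),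
    1 ≤ K → Data I d K G → PL I d (K + 1) G → ∀ x v : Vx N, IsLine I x v →
    ∀ F ∈ I, F.IsHomogeneous (K + 1) → grad F x ∈ GS d K G x →
    ∀ t : ℂ, grad F (x + t • v) ∈ GS d K G (x + t • v)

/-- (B4) … then at EVERY point.

PROOF (uses B3, L3'', Line, Meet).  Let `Z` be the set of `y ∈ zer I - 0` with
`grad F (y) ∈ GS d K G y`; suppose `y ∈ Z`, and let `x ∈ zer I - 0`, `x ∉ Z` be the point of (B3).
`Hyp.cov` gives lines through `x` and `y`, `S_Line` gives `P_x`, `P_y` (homogeneous primes of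
dimension `≥ N + 1 - a`, `a = ∑ d i`, with `span (x, z) ⊆ zer I` for `z ∈ zer P_x`, same for `y`).
`(N + 1 - a) + (N + 1 - a) ≥ N + 2` as `N ≥ 2 a`; `S_Meet`: `z ≠ 0` in both.
`z ∈ Z` ⟹ contradiction, and `z ∉ Z` ⟹ contradiction:
(i) if `x`, `z` are dependent, `z = b x`, `b ≠ 0`, then `z ∈ Z ↔ x ∈ Z` (`grad_smul_form`; `GS` at
`b x` is `GS` at `x`); if they are independent, `IsLine I z (x - z)` holds (span), and `z ∈ Z`
implies `x = z + 1 • (x - z) ∈ Z` by (L3'').  So `z ∉ Z`.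
(ii) in the same way `y ∈ Z` implies `z ∈ Z` (`IsLine I y (z - y)`). -/
def S_B4 : Prop :=
  ∀ (N c : ℕ) (d : Fin c → ℕ) (I : Ideal (Sx N)), Hyp I d → ∀ (K : ℕ) (G : Fin c → Sx N),
    1 ≤ K → Data I d K G → PL I d (K + 1) G → ∀ F ∈ I, F.IsHomogeneous (K + 1) →
    F ∉ Ideal.span (G '' {i | d i ≤ K}) → ∀ y ∈ zer I, y ≠ 0 → grad F y ∉ GS d K G y

/-- (B5) `dim I_(K+1) / (G)_(K+1) ≤ #{i : d_i = K + 1}`.

PROOF (uses B4, N, Line, Pt, Mono).  `m' = Nat.card {i // d i = K + 1}`.  Suppose `F_0, …, F_m'`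
(restrict a longer family) are independent modulo `(G)`.  `n1 = card {i // d i ≤ K}`,
`q = n1 + m'`.  `sig : Fin (q + 1) → Vx N → Vx N`: the functions `grad (G i)`, `d i ≤ K`
(enumerated), then `grad F_0, …, grad F_m'` (the last one is `grad F_m'`); `del`: `d i`, resp.
`K + 1`; `f : Fin q → Fin c`: the enumeration of `{d i ≤ K}` followed by one of
`{d i = K + 1}`, injective; `d j ≠ K + 1` for `j` not in its range.  `J = P` of `S_Line` for a line
(`S_Ne`, `Hyp.cov`).  `IsSect`: `grad G (y) ∈ CN I y`, `P l = pderiv l G`, `Q = 1`, `e = 0`.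
Independence at `y ∈ zer J - 0 ⊆ zer I - 0`: `∑ a_i grad (G i) (y) + ∑ b_j grad F_j (y) = 0`; the
form `F = ∑ b_j F_j` has `grad F (y) ∈ GS d K G y`, so `F ∈ (G)` by (B4), so `b = 0`, and `a = 0` by
`Data.ind`.  `S_N`: `¬ DimGe J (c - q + 1)`; but `DimGe J (N + 1 - a)` and
`c - q + 1 ≤ c + 1 ≤ N + 1 - a` (`2 c ≤ a`, `2 a ≤ N`; if `c = 0`: `c - q + 1 = 1 ≤ N + 1`), with
(Mono). -/
def S_B5 : Prop :=
  ∀ (N c : ℕ) (d : Fin c → ℕ) (I : Ideal (Sx N)), Hyp I d → ∀ (K : ℕ) (G : Fin c → Sx N),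
    1 ≤ K → Data I d K G → PL I d (K + 1) G → ∀ (r : ℕ) (F : Fin r → Sx N),
    (∀ i, F i ∈ I ∧ (F i).IsHomogeneous (K + 1)) →
    (∀ a : Fin r → ℂ, ∑ i, C (a i) * F i ∈ Ideal.span (G '' {i | d i ≤ K}) → a = 0) →
    r ≤ Nat.card {i : Fin c // d i = K + 1}

/-- `tB : S_W → S_B4 → S_B5 → S_B`.  PROOF.  `F` of (W).  `G' i = G i` for `d i ≤ K`, `F i` for
`d i = K + 1`, `0` otherwise.  `Data I d (K + 1) G'`: `hom` clear.  `ind`: let
`∑_(d i ≤ K + 1) c_i grad (G' i) (y) = 0`; `H = ∑_(d i = K + 1) c_i F_i` has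
`grad H (y) ∈ GS d K G y`; by (B4) `H ∈ (G)`, so by (W) `c_i = 0` for `d i = K + 1`, then
`c_i = 0` for `d i ≤ K` by `Data.ind`.  `gen`: for `k ≤ K` from `Data.gen` and monotonicity of
spans; `k = K + 1`: `H ∈ I` a form of degree `K + 1`; by (B5) the `m' + 1` forms `F_i`, `H` are
dependent modulo `(G)`: `∑ a_i F_i + b H ∈ (G)`, not all zero, `b ≠ 0` by (W); so
`H ∈ span (G' '' {d i ≤ K + 1})`. -/
def P_B : Prop := S_W → S_B4 → S_B5 → S_B

end Pool.Agent.Lib.MP_776403_ag.SD
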