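import Pool.Agent.Lib.MP_776403_ag.SD.Main
import Pool.Agent.Lib.MP_776403_ag.SD.L.Close
import Pool.Agent.Lib.MP_776403_ag.SD.L.Cov
import Pool.Agent.Lib.MP_776403_ag.SD.L.DimS
import Pool.Agent.Lib.MP_776403_ag.SD.L.HFb
import Pool.Agent.Lib.MP_776403_ag.SD.L.Hci
import Pool.Agent.Lib.MP_776403_ag.SD.L.Lift
import Pool.Agent.Lib.MP_776403_ag.SD.L.LinU
import Pool.Agent.Lib.MP_776403_ag.SD.L.LineF
import Pool.Agent.Lib.MP_776403_ag.SD.L.Model
import Pool.Agent.Lib.MP_776403_ag.SD.L.Noe
import Pool.Agent.Lib.MP_776403_ag.SD.L.Prim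
import Pool.Agent.Lib.MP_776403_ag.SD.L.Rank
import Pool.Agent.Lib.MP_776403_ag.SD.L.Rng
import Pool.Agent.Lib.MP_776403_ag.SD.L.SD2

/-!
# THEOREM SD without the hypothesis on lines: assembly
-/

set_option autoImplicit false

namespace Pool.Agent.Lib.MP_776403_ag.SD

theorem mDimS : S_DimS := lDimS mKrull tTB

theorem mLineF : S_LineF := lLineF mKrull tNull mLinS eLinB

theorem mLift : S_Lift := lLift mLineF eLinB

theorem mClose : S_Close := lClose lLinU mLinS eLinB tD6p tNull

/-- A smooth variety whose Hilbert function is at most that of a complete intersection and whose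
degree is at most `N - c` is covered by lines. -/
theorem mCov : S_Cov :=
  lCov tNull (lHFb tNull) lHci lNoe lRank mDimS (lModel lPrim) mLift mClose

/-- THEOREM SD without the hypothesis on lines, for `c ≥ 3` and `∏ d_i + 1 ≤ N - c`. -/
theorem mSD2 : S_SD2 := lSD2 mSD mCov lRng

end Pool.Agent.Lib.MP_776403_ag.SD
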