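import Pool.Agent.Lib.MP_776403_ag.SD.SpecB

/-!
# THEOREM SD, section 7: exactness of the Koszul complex for powers of different variables
-/

set_option autoImplicit false

open MvPolynomial

noncomputable section

namespace Pool.Agent.Lib.MP_776403_ag.SD

/-- Membership in the ideal generated by powers of variables. -/
private theorem Kos2Aux.mem_pow {N : ℕ} {ι : Type} (e : ι → Fin (N + 1)) (d : ι → ℕ)
    (s : Finset ι) (F : Sx N) :
    F ∈ Ideal.span ((fun i => (X (e i) ^ d i : Sx N)) '' (s : Set ι)) ↔
      ∀ β ∈ F.support, ∃ i ∈ s, d i ≤ β (e i) := by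
  have h1 : (fun i => (X (e i) ^ d i : Sx N)) '' (s : Set ι) =
      (fun t => monomial t (1 : ℂ)) '' ((fun i => Finsupp.single (e i) (d i)) '' (s : Set ι)) := by
    rw [Set.image_image]
    refine Set.image_congr (fun i _ => ?_)
    rw [X_pow_eq_monomial]
  rw [h1, mem_ideal_span_monomial_image]
  refine forall₂_congr (fun β _ => ?_)
  constructor
  · rintro ⟨t, ⟨i, hi, rfl⟩, ht⟩
    exact ⟨i, hi, Finsupp.single_le_iff.1 ht⟩
  · rintro ⟨i, hi, h⟩
    exact ⟨_, ⟨i, hi, rfl⟩, Finsupp.single_le_iff.2 h⟩

/-- The power of a new variable is regular. -/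
private theorem Kos2Aux.regular {N : ℕ} {ι : Type} (e : ι → Fin (N + 1))
    (he : Function.Injective e) (d : ι → ℕ) (s : Finset ι) (j : ι) (hj : j ∉ s) (F : Sx N)
    (hF : F * X (e j) ^ d j ∈ Ideal.span ((fun i => (X (e i) ^ d i : Sx N)) '' (s : Set ι))) :
    F ∈ Ideal.span ((fun i => (X (e i) ^ d i : Sx N)) '' (s : Set ι)) := by
  rw [Kos2Aux.mem_pow] at hF ⊢
  intro β hβ
  have h1 : β + Finsupp.single (e j) (d j) ∈ (F * X (e j) ^ d j : Sx N).support := by
    rw [mem_support_iff, X_pow_eq_monomial, coeff_mul_monomial, mul_one]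
    exact mem_support_iff.1 hβ
  obtain ⟨i, hi, h2⟩ := hF _ h1
  refine ⟨i, hi, ?_⟩
  have h3 : e j ≠ e i := fun h => hj ((he h) ▸ hi)
  rwa [Finsupp.add_apply, Finsupp.single_eq_of_ne h3.symm, add_zero] at h2

/-- Exactness without degrees. -/
private theorem Kos2Aux.exact {N : ℕ} {ι : Type} (e : ι → Fin (N + 1))
    (he : Function.Injective e) (d : ι → ℕ) (s : Finset ι) :
    ∀ a : ι → Sx N, ∑ i ∈ s, a i * X (e i) ^ d i = 0 →
      ∃ b : ι → ι → Sx N, ∀ i ∈ s, a i = ∑ j ∈ s, (b i j - b j i) * X (e j) ^ d j := by
  classical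
  induction s using Finset.induction_on with
  | empty => exact fun a _ => ⟨0, fun i hi => absurd hi (Finset.notMem_empty i)⟩
  | insert j s hj ih =>
    intro a ha
    rw [Finset.sum_insert hj] at ha
    have h1 : a j ∈ Ideal.span ((fun i => (X (e i) ^ d i : Sx N)) '' (s : Set ι)) := by
      refine Kos2Aux.regular e he d s j hj (a j) ?_
      rw [eq_neg_of_add_eq_zero_left ha]
      refine Submodule.neg_mem _ (Submodule.sum_mem _ (fun i hi => ?_))
      exact Ideal.mul_mem_left _ _ (Ideal.subset_span ⟨i, hi, rfl⟩)
    obtain ⟨f, hf⟩ := (Submodule.mem_span_image_finset_iff_exists_fun' (Sx N)).1 h1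
    have hf' : ∑ i ∈ s, f i * X (e i) ^ d i = a j := hf
    obtain ⟨b, hb⟩ := ih (fun i => a i + f i * X (e j) ^ d j) (by
      have h2 : ∑ i ∈ s, (a i + f i * X (e j) ^ d j) * (X (e i) ^ d i : Sx N) =
          ∑ i ∈ s, a i * X (e i) ^ d i + (∑ i ∈ s, f i * X (e i) ^ d i) * X (e j) ^ d j := by
        rw [Finset.sum_mul, ← Finset.sum_add_distrib]
        exact Finset.sum_congr rfl (fun i _ => by ring)
      rw [h2, hf', add_comm]
      exact ha)
    refine ⟨fun i l => if l = j then (if i = j then 0 else - f i) else
      (if i = j then 0 else b i l), fun i hi => ?_⟩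
    rw [Finset.sum_insert hj]
    rcases Finset.mem_insert.1 hi with rfl | hi
    · rw [sub_self, zero_mul, zero_add, ← hf']
      refine Finset.sum_congr rfl (fun l hl => ?_)
      have hl' : l ≠ i := fun h => hj (h ▸ hl)
      simp only [if_neg hl', if_true, zero_sub, neg_neg]
    · have hi' : i ≠ j := fun h => hj (h ▸ hi)
      have h3 : ∑ l ∈ s, ((if l = j then (if i = j then 0 else - f i) else
          (if i = j then 0 else b i l)) - (if i = j then (if l = j then 0 else - f l) else
          (if l = j then 0 else b l i))) * (X (e l) ^ d l : Sx N) =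
          ∑ l ∈ s, (b i l - b l i) * X (e l) ^ d l := by
        refine Finset.sum_congr rfl (fun l hl => ?_)
        have hl' : l ≠ j := fun h => hj (h ▸ hl)
        simp only [if_neg hl', if_neg hi']
      rw [h3, ← hb i hi]
      simp only [if_neg hi', if_true]
      ring

/-- Homogeneous components of a product with a form. -/
private theorem Kos2Aux.comp_mul {N : ℕ} (p q : Sx N) (m n : ℕ) (hq : q.IsHomogeneous n) :
    homogeneousComponent m (p * q) =
      if n ≤ m then homogeneousComponent (m - n) p * q else 0 := by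
  have h1 : homogeneousComponent m (p * q) = ∑ i ∈ Finset.range (p.totalDegree + 1),
      if m = i + n then homogeneousComponent i p * q else 0 := by
    conv_lhs => rw [← sum_homogeneousComponent p, Finset.sum_mul, map_sum]
    refine Finset.sum_congr rfl (fun i _ => ?_)
    exact homogeneousComponent_of_mem ((homogeneousComponent_isHomogeneous i p).mul hq)
  rw [h1]
  split_ifs with h
  · by_cases h2 : m - n ∈ Finset.range (p.totalDegree + 1)
    · rw [Finset.sum_eq_single_of_mem (m - n) h2]
      · rw [if_pos (by omega)]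
      · intro i _ hi
        exact if_neg (by omega)
    · rw [Finset.sum_eq_zero]
      · rw [homogeneousComponent_eq_zero, zero_mul]
        rw [Finset.mem_range] at h2
        omega
      · intro i hi
        refine if_neg (fun h3 => h2 ?_)
        have h4 : m - n = i := by omega
        rwa [h4]
  · exact Finset.sum_eq_zero (fun i _ => if_neg (by omega))

theorem tKos2 : S_Kos2 := by
  intro N ι _ e he d k a ha
  classical
  obtain ⟨ha1, ha2⟩ := Submodule.mem_inf.1 ha
  have hsum : ∑ i, a i * (X (e i) ^ d i : Sx N) = 0 := ha2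
  obtain ⟨b, hb⟩ := Kos2Aux.exact e he d Finset.univ a hsum
  refine ⟨fun i j => if d i + d j ≤ k then
    homogeneousComponent (k - (d i + d j)) (b i j) else 0, ?_, ?_⟩
  · intro i _ j _
    show (if d i + d j ≤ k then homogeneousComponent (k - (d i + d j)) (b i j) else 0) ∈
      Fd N k (d i + d j)
    unfold Fd
    split_ifs with h
    · exact homogeneousComponent_isHomogeneous _ _
    · exact Submodule.zero_mem _
  · funext i
    have hai : a i ∈ Fd N k (d i) := (Submodule.mem_pi.1 ha1) i (Set.mem_univ i)
    show ∑ j, ((if d i + d j ≤ k then homogeneousComponent (k - (d i + d j)) (b i j) else 0) -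
      (if d j + d i ≤ k then homogeneousComponent (k - (d j + d i)) (b j i) else 0)) *
        (X (e j) ^ d j : Sx N) = a i
    by_cases hk : d i ≤ k
    · have hh : (a i).IsHomogeneous (k - d i) := by
        unfold Fd at hai
        rw [if_pos hk] at hai
        exact hai
      rw [← homogeneousComponent_eq_self hh, hb i (Finset.mem_univ i), map_sum]
      refine Finset.sum_congr rfl (fun j _ => ?_)
      rw [Kos2Aux.comp_mul _ _ _ (d j) (isHomogeneous_X_pow (e j) (d j))]
      by_cases h2 : d j ≤ k - d i
      · rw [if_pos h2, if_pos (by omega), if_pos (by omega), map_sub, Nat.add_comm (d j) (d i),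
          Nat.sub_sub]
      · rw [if_neg h2, if_neg (by omega), if_neg (by omega), sub_self, zero_mul]
    · have h0 : a i = 0 := by
        unfold Fd at hai
        rw [if_neg hk] at hai
        exact (Submodule.mem_bot ℂ).1 hai
      rw [h0]
      refine Finset.sum_eq_zero (fun j _ => ?_)
      rw [if_neg (by omega), if_neg (by omega), sub_self, zero_mul]

end Pool.Agent.Lib.MP_776403_ag.SD
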