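import Pool.Agent.Lib.MP_776403_ag.SD.SpecN

/-!
# NKerA: for large degrees the kernel of `σ_i ∧` on `Λ^i_(j+1)` is contained in `Λ^(i+1)_j`
-/

set_option autoImplicit false

open MvPolynomial

noncomputable section

namespace Pool.Agent.Lib.MP_776403_ag.SD

namespace NKerAAux

variable {N : ℕ} {K : Type} [Field K] [Algebra ℂ K]

/-- The shift of a finitely generated graded module is finitely generated. -/
theorem fg_shift {π : Sx N →ₐ[ℂ] K} {U : ℕ → Submodule ℂ (Om (N + 1) K)} (h : FGn π U) (d : ℕ) :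
    FGn π (fun m => U (m + d)) := by
  obtain ⟨h1, m0, h2⟩ := h
  refine ⟨fun m => h1 (m + d), m0, fun m hm w hw => ?_⟩
  have hw' : w ∈ U (m + d + 1) := by
    have h3 : m + 1 + d = m + d + 1 := by omega
    have h4 : w ∈ U (m + 1 + d) := hw
    rwa [h3] at h4
  exact h2 (m + d) (by omega) w hw'

/-- The shift of a graded module is graded. -/
theorem gf_shift {π : Sx N →ₐ[ℂ] K} {U : ℕ → Submodule ℂ (Om (N + 1) K)} (h : GFn π U) (d : ℕ) :
    GFn π (fun m => U (m + d)) := by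
  intro m b w hw
  have h1 := h (m + d) b w hw
  have h3 : m + d + 1 = m + 1 + d := by omega
  rw [h3] at h1
  exact h1

/-- A sign does not matter in a complex subspace. -/
theorem sign_smul (k : ℕ) (w : Om (N + 1) K) : (-1 : K) ^ k • w = (-1 : ℂ) ^ k • w := by
  rw [← algebraMap_smul K ((-1 : ℂ) ^ k) w]
  simp

/-- The kernel of `σ_i ∧`. -/
def Wk (I : Ideal (Sx N)) (π : Sx N →ₐ[ℂ] K) (σ : ℕ → Fin (N + 1) → K) (δ : ℕ → ℕ) (i j m : ℕ) :
    Submodule ℂ (Om (N + 1) K) :=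
  Li I π σ i (j + 1) (m + δ i) ⊓ LinearMap.ker ((wed (σ i)).restrictScalars ℂ)

theorem mem_Wk {I : Ideal (Sx N)} {π : Sx N →ₐ[ℂ] K} {σ : ℕ → Fin (N + 1) → K} {δ : ℕ → ℕ}
    {i j m : ℕ} {w : Om (N + 1) K} :
    w ∈ Wk I π σ δ i j m ↔ w ∈ Li I π σ i (j + 1) (m + δ i) ∧ wed (σ i) w = 0 := by
  unfold Wk
  rw [Submodule.mem_inf, LinearMap.mem_ker]
  rfl

theorem gf_Wk {I : Ideal (Sx N)} {π : Sx N →ₐ[ℂ] K} {σ : ℕ → Fin (N + 1) → K} {δ : ℕ → ℕ}
    {i j : ℕ} : GFn π (Wk I π σ δ i j) := by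
  intro m b w hw
  obtain ⟨h1, h2⟩ := mem_Wk.1 hw
  refine mem_Wk.2 ⟨gf_shift (Li_GF (I := I) (σ := σ) (i := i) (j := j + 1)) (δ i) m b w h1, ?_⟩
  rw [map_smul, h2, smul_zero]

end NKerAAux

open NKerAAux in
theorem nKerA (h1 : S_NNoe) (h2 : S_NSat) (h3 : S_NLfg) (h4 : S_NFun) (h5 : S_NCon) : S_NKerA := by
  intro N c Q K _ _ I J π σ δ hd i hi j
  have hI : ∀ F ∈ I, π F = 0 := fun F hF => (hd.ker F).2 (hd.le hF)
  have hfgL : FGn π (fun m => Li I π σ i (j + 1) (m + δ i)) :=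
    fg_shift (h3 N K I π hd.Ihom hI σ i (j + 1)) (δ i)
  have hfgW : FGn π (Wk I π σ δ i j) :=
    h1 N K π (fun m => Li I π σ i (j + 1) (m + δ i)) (Wk I π σ δ i j)
      (gf_shift Li_GF (δ i)) hfgL gf_Wk (fun m w hw => (mem_Wk.1 hw).1)
  obtain ⟨m1, hm1⟩ := h2 N K J π hd.Jhom hd.ker (Li I π σ (i + 1) j) (Wk I π σ δ i j) Li_GF hfgW
    (by
      intro y hy hy0
      obtain ⟨g, e, τ, hg, hgy, hτ, hind⟩ := hd.loc y hy hy0
      have hpos : 1 ≤ δ i := hd.pos i hi
      have hind' : LinearIndependent ℂ (fun l : Fin (i + 1) => fun b => eval y (τ l b)) :=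
        hind.comp (Fin.castLE (by omega : i + 1 ≤ Q)) (Fin.castLE_injective _)
      obtain ⟨φ, hφ, hφ0, hφi⟩ := h4 N i τ (fun l => e + δ l - 1) y
        (fun l hl b => (hτ l (by omega) b).1) hind'
      have hpg : π g ≠ 0 := by
        intro h0
        exact hgy (hy g ((hd.ker g).1 h0))
      have hsum : ∀ l < Q, π g * ∑ b, π (φ b) * σ l b = π (∑ b, φ b * τ l b) := by
        intro l hl
        rw [map_sum, Finset.mul_sum]
        refine Finset.sum_congr rfl fun b _ => ?_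
        rw [map_mul, ← (hτ l hl b).2]
        ring
      refine ⟨∑ b, φ b * τ i b, (∑ l ∈ Finset.range i, (e + δ l - 1)) + (e + δ i - 1), ?_, hφi, ?_⟩
      · exact IsHomogeneous.sum _ _ _ fun b _ => (hφ b).mul (hτ i hi b).1
      · intro m w hw
        obtain ⟨hwL, hw0⟩ := mem_Wk.1 hw
        obtain ⟨η, hη, rfl⟩ := mem_Li.1 hwL
        have hl0 : ∀ l < i, ∑ b, (fun b => π (φ b)) b * σ l b = 0 := by
          intro l hl
          have := hsum l (by omega)
          rw [hφ0 l hl, map_zero] at this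
          exact (mul_eq_zero.1 this).resolve_left hpg
        have hη' : η ∈ Lm I π (j + 1) (m + (δ i - 1) + 1) := by
          have h6 : m + δ i = m + (δ i - 1) + 1 := by omega
          rwa [h6] at hη
        have hc := h5 N K I π hI j (m + (δ i - 1)) _ φ hφ η hη'
        have hc' := Lm_smul hg hc
        have hdeg : m + (δ i - 1) + ∑ l ∈ Finset.range i, (e + δ l - 1) + e =
            m + ((∑ l ∈ Finset.range i, (e + δ l - 1)) + (e + δ i - 1)) := by omega
        rw [hdeg] at hc'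
        have hcon := con_wed (fun b => π (φ b)) (σ i) (itw σ i η)
        rw [hw0, map_zero, con_itw σ i _ hl0] at hcon
        have hs : (∑ b, π (φ b) * σ i b) • itw σ i η =
            wed (σ i) ((-1 : K) ^ i • itw σ i (con (fun b => π (φ b)) η)) :=
          (sub_eq_zero.1 hcon.symm)
        refine mem_Li.2 ⟨(-1 : ℂ) ^ i • (π g • con (fun b => π (φ b)) η),
          Submodule.smul_mem _ _ hc', ?_⟩
        rw [itw_succ, ← sign_smul, map_smul, map_smul, map_smul, map_smul, ← hsum i hi, mul_smul,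
          hs, map_smul, smul_comm])
  exact ⟨m1, fun m hm w hw hw0 => hm1 m hm (mem_Wk.2 ⟨hw, hw0⟩)⟩

end Pool.Agent.Lib.MP_776403_ag.SD
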