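import Mathlib

/-!
# Wedge products as functions on lists

`Om n K` is the space of all functions on lists over `Fin n`; the exterior algebra of `K^n` embeds
into it (an element of degree `p` is given by its values on lists of length `p`).  `wed u` is the
multiplication by the vector `u` from the left, `con φ` the contraction with the functional `φ`.
All identities hold for all functions, no alternation is needed.
-/

set_option autoImplicit false

noncomputable section

namespace Pool.Agent.Lib.MP_776403_ag.SD

variable {n : ℕ} {K : Type} [Field K]

/-- Functions on lists. -/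
abbrev Om (n : ℕ) (K : Type) : Type := List (Fin n) → K

/-- Auxiliary form of the wedge product. -/
def wedf (u : Fin n → K) : List (Fin n) → Om n K → K
  | [], _ => 0
  | b :: e, w => u b * w e - wedf u e (fun e' => w (b :: e'))

theorem wedf_add (u : Fin n → K) (e : List (Fin n)) (w w' : Om n K) :
    wedf u e (w + w') = wedf u e w + wedf u e w' := by
  induction e generalizing w w' with
  | nil => simp [wedf]
  | cons b e ih =>
    have := ih (fun e' => w (b :: e')) (fun e' => w' (b :: e'))
    simp only [wedf, Pi.add_apply] at this ⊢
    rw [show (fun e' => w (b :: e') + w' (b :: e')) =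
      (fun e' => w (b :: e')) + (fun e' => w' (b :: e')) from rfl, this]
    ring

theorem wedf_smul (u : Fin n → K) (e : List (Fin n)) (a : K) (w : Om n K) :
    wedf u e (a • w) = a * wedf u e w := by
  induction e generalizing w with
  | nil => simp [wedf]
  | cons b e ih =>
    have := ih (fun e' => w (b :: e'))
    simp only [wedf, Pi.smul_apply, smul_eq_mul] at this ⊢
    rw [show (fun e' => a * w (b :: e')) = a • (fun e' => w (b :: e')) from rfl, this]
    ring

/-- Multiplication by a vector from the left. -/
def wed (u : Fin n → K) : Om n K →ₗ[K] Om n K where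
  toFun w := fun e => wedf u e w
  map_add' w w' := by funext e; exact wedf_add u e w w'
  map_smul' a w := by funext e; exact wedf_smul u e a w

/-- Contraction with a functional. -/
def con (φ : Fin n → K) : Om n K →ₗ[K] Om n K where
  toFun w := fun e => ∑ b, φ b * w (b :: e)
  map_add' w w' := by
    funext e
    simp only [Pi.add_apply, mul_add, Finset.sum_add_distrib]
  map_smul' a w := by
    funext e
    simp only [Pi.smul_apply, smul_eq_mul, RingHom.id_apply, Finset.mul_sum]
    exact Finset.sum_congr rfl fun b _ => by ring

/-- The unit. -/
def eps : Om n K := fun e => if e = [] then 1 else 0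

/-- The wedge product of a list of vectors. -/
def wdg : List (Fin n → K) → Om n K
  | [] => eps
  | u :: us => wed u (wdg us)

theorem wed_nil (u : Fin n → K) (w : Om n K) : wed u w [] = 0 := rfl

theorem wed_cons (u : Fin n → K) (w : Om n K) (b : Fin n) (e : List (Fin n)) :
    wed u w (b :: e) = u b * w e - wed u (fun e' => w (b :: e')) e := rfl

theorem con_apply (φ : Fin n → K) (w : Om n K) (e : List (Fin n)) :
    con φ w e = ∑ b, φ b * w (b :: e) := rfl

theorem wdg_nil : wdg ([] : List (Fin n → K)) = eps := rfl

theorem wdg_cons (u : Fin n → K) (us : List (Fin n → K)) : wdg (u :: us) = wed u (wdg us) := rfl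

/-- `wed` is additive in the vector. -/
theorem wed_add_left (u u' : Fin n → K) (w : Om n K) : wed (u + u') w = wed u w + wed u' w := by
  funext e
  induction e generalizing w with
  | nil => simp [wed_nil]
  | cons b e ih =>
    simp only [wed_cons, ih, Pi.add_apply]
    ring

theorem wed_smul_left (a : K) (u : Fin n → K) (w : Om n K) : wed (a • u) w = a • wed u w := by
  funext e
  induction e generalizing w with
  | nil => simp [wed_nil]
  | cons b e ih =>
    simp only [wed_cons, ih, Pi.smul_apply, smul_eq_mul]
    ring

theorem wed_zero_left (w : Om n K) : wed (0 : Fin n → K) w = 0 := by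
  have := wed_smul_left (0 : K) (0 : Fin n → K) w
  rwa [zero_smul, zero_smul] at this

theorem wed_sum_left {ι : Type} (s : Finset ι) (u : ι → Fin n → K) (w : Om n K) :
    wed (∑ i ∈ s, u i) w = ∑ i ∈ s, wed (u i) w := by
  classical
  induction s using Finset.induction_on with
  | empty => rw [Finset.sum_empty, Finset.sum_empty, wed_zero_left]
  | insert a s ha ih => rw [Finset.sum_insert ha, Finset.sum_insert ha, wed_add_left, ih]

/-- `u ∧ u ∧ w = 0`. -/
theorem wed_self (u : Fin n → K) (w : Om n K) : wed u (wed u w) = 0 := by
  funext e
  induction e generalizing w with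
  | nil => rfl
  | cons b e ih =>
    rw [wed_cons]
    have h1 : (fun e' => wed u w (b :: e')) = u b • w - wed u (fun e' => w (b :: e')) := by
      funext e'
      rw [wed_cons]
      rfl
    rw [h1, map_sub, map_smul]
    have h2 := ih (fun e' => w (b :: e'))
    simp only [Pi.sub_apply, Pi.smul_apply, smul_eq_mul, Pi.zero_apply] at h2 ⊢
    rw [h2]
    ring

/-- `u ∧ v ∧ w = - v ∧ u ∧ w`. -/
theorem wed_wed (u v : Fin n → K) (w : Om n K) : wed u (wed v w) = - wed v (wed u w) := by
  have h := wed_self (u + v) w
  rw [wed_add_left, wed_add_left, map_add, map_add] at h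
  rw [wed_self, wed_self] at h
  rw [zero_add, add_zero] at h
  exact eq_neg_of_add_eq_zero_left h

/-- The contraction is an antiderivation. -/
theorem con_wed (φ u : Fin n → K) (w : Om n K) :
    con φ (wed u w) = (∑ b, φ b * u b) • w - wed u (con φ w) := by
  funext e
  have h : con φ w = ∑ b, φ b • (fun e' => w (b :: e')) := by
    funext e'
    simp only [con_apply, Finset.sum_apply, Pi.smul_apply, smul_eq_mul]
  rw [con_apply, h, map_sum]
  simp only [wed_cons, Pi.sub_apply, Pi.smul_apply, smul_eq_mul, Finset.sum_apply, map_smul]
  rw [Finset.sum_mul, ← Finset.sum_sub_distrib]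
  exact Finset.sum_congr rfl fun b _ => by ring

theorem con_eps (φ : Fin n → K) : con φ (eps : Om n K) = 0 := by
  funext e
  rw [con_apply]
  simp [eps]

end Pool.Agent.Lib.MP_776403_ag.SD
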