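import Pool.Agent.Lib.MP_776403_ag.SD.Defs
import Pool.Agent.Lib.MP_776403_ag.SD.Wed

/-!
# Definitions and tools for Lemma N (the top Chern class lemma)

`K` is any field with a homomorphism `π : S → K` whose kernel is the prime ideal `J ⊇ I`
(`K = Frac (S / J)` in the application).
-/

set_option autoImplicit false

open MvPolynomial

noncomputable section

namespace Pool.Agent.Lib.MP_776403_ag.SD

variable {N : ℕ} {K : Type} [Field K] [Algebra ℂ K]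

/-- The gradient of `F` in `K`. -/
def gk (π : Sx N →ₐ[ℂ] K) (F : Sx N) : Fin (N + 1) → K := fun i => π (pderiv i F)

/-- The `K`-span of the gradients of the elements of `I`. -/
def CK (I : Ideal (Sx N)) (π : Sx N →ₐ[ℂ] K) : Submodule K (Fin (N + 1) → K) :=
  Submodule.span K {v | ∃ F ∈ I, v = gk π F}

/-- `Λ_j(m)`: the complex span of the products `a • grad F_1 ∧ ... ∧ grad F_j` of total degree
`m`, with forms `F_i ∈ I`. -/
def Lm (I : Ideal (Sx N)) (π : Sx N →ₐ[ℂ] K) (j m : ℕ) : Submodule ℂ (Om (N + 1) K) :=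
  Submodule.span ℂ {z | ∃ (a : Sx N) (e : ℕ) (L : List (Sx N × ℕ)), a.IsHomogeneous e ∧
    L.length = j ∧ (∀ x ∈ L, x.1 ∈ I ∧ x.1.IsHomogeneous x.2) ∧ e + (L.map Prod.snd).sum = m ∧
    z = π a • wdg (L.map fun x => gk π x.1)}

/-- `σ_(i-1) ∧ ... ∧ σ_0 ∧ w`. -/
def itw (σ : ℕ → Fin (N + 1) → K) : ℕ → (Om (N + 1) K →ₗ[K] Om (N + 1) K)
  | 0 => LinearMap.id
  | i + 1 => (wed (σ i)).comp (itw σ i)

/-- `Λ^i_j(m) = σ_(i-1) ∧ ... ∧ σ_0 ∧ Λ_j(m)`. -/
def Li (I : Ideal (Sx N)) (π : Sx N →ₐ[ℂ] K) (σ : ℕ → Fin (N + 1) → K) (i j m : ℕ) :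
    Submodule ℂ (Om (N + 1) K) :=
  (Lm I π j m).map ((itw σ i).restrictScalars ℂ)

/-- `U` is a graded `S`-submodule of `Om`, `S` acting through `π`. -/
def GFn (π : Sx N →ₐ[ℂ] K) (U : ℕ → Submodule ℂ (Om (N + 1) K)) : Prop :=
  ∀ (m : ℕ) (i : Fin (N + 1)), ∀ w ∈ U m, π (X i) • w ∈ U (m + 1)

/-- The graded module `U` is finitely generated: finite dimensional in each degree, and
`U (m + 1) = ∑ x_i U m` for large `m`. -/
def FGn (π : Sx N →ₐ[ℂ] K) (U : ℕ → Submodule ℂ (Om (N + 1) K)) : Prop :=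
  (∀ m, FiniteDimensional ℂ (U m)) ∧ ∃ m0 : ℕ, ∀ m, m0 ≤ m → ∀ w ∈ U (m + 1),
    w ∈ Submodule.span ℂ {z | ∃ (i : Fin (N + 1)) (w' : Om (N + 1) K), w' ∈ U m ∧
      z = π (X i) • w'}

theorem itw_zero (σ : ℕ → Fin (N + 1) → K) (w : Om (N + 1) K) : itw σ 0 w = w := rfl

theorem itw_succ (σ : ℕ → Fin (N + 1) → K) (i : ℕ) (w : Om (N + 1) K) :
    itw σ (i + 1) w = wed (σ i) (itw σ i w) := rfl

/-- A vector passes `σ_(i-1) ∧ ... ∧ σ_0`. -/
theorem wed_itw (σ : ℕ → Fin (N + 1) → K) (i : ℕ) (u : Fin (N + 1) → K) (w : Om (N + 1) K) :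
    wed u (itw σ i w) = (-1 : K) ^ i • itw σ i (wed u w) := by
  induction i with
  | zero => rw [itw_zero, itw_zero, pow_zero, one_smul]
  | succ i ih =>
    rw [itw_succ, itw_succ, wed_wed, ih, map_smul, pow_succ, mul_neg, mul_one, neg_smul]

/-- A contraction with `φ · σ_l = 0` passes `σ_(i-1) ∧ ... ∧ σ_0`. -/
theorem con_itw (σ : ℕ → Fin (N + 1) → K) (i : ℕ) (φ : Fin (N + 1) → K)
    (h : ∀ l < i, ∑ b, φ b * σ l b = 0) (w : Om (N + 1) K) :
    con φ (itw σ i w) = (-1 : K) ^ i • itw σ i (con φ w) := by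
  induction i with
  | zero => rw [itw_zero, itw_zero, pow_zero, one_smul]
  | succ i ih =>
    rw [itw_succ, itw_succ, con_wed, h i (Nat.lt_succ_self i), zero_smul, zero_sub,
      ih (fun l hl => h l (Nat.lt_succ_of_lt hl)), map_smul, pow_succ, mul_neg, mul_one, neg_smul]

/-- The elements which generate `Lm`. -/
theorem mem_Lm {I : Ideal (Sx N)} {π : Sx N →ₐ[ℂ] K} {a : Sx N} {e : ℕ} {L : List (Sx N × ℕ)}
    (ha : a.IsHomogeneous e) (hL : ∀ x ∈ L, x.1 ∈ I ∧ x.1.IsHomogeneous x.2) :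
    π a • wdg (L.map fun x => gk π x.1) ∈ Lm I π L.length (e + (L.map Prod.snd).sum) :=
  Submodule.subset_span ⟨a, e, L, ha, rfl, hL, rfl, rfl⟩

/-- Multiplication by a form. -/
theorem Lm_smul {I : Ideal (Sx N)} {π : Sx N →ₐ[ℂ] K} {j m e : ℕ} {a : Sx N}
    (ha : a.IsHomogeneous e) {w : Om (N + 1) K} (hw : w ∈ Lm I π j m) :
    π a • w ∈ Lm I π j (m + e) := by
  unfold Lm at hw
  induction hw using Submodule.span_induction with
  | mem z hz =>
    obtain ⟨a', e', L, ha', hL, hL', hm, rfl⟩ := hz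
    refine Submodule.subset_span ⟨a * a', e + e', L, ha.mul ha', hL, hL', by omega, ?_⟩
    rw [map_mul, mul_smul]
  | zero => rw [smul_zero]; exact Submodule.zero_mem _
  | add x y _ _ hx hy => rw [smul_add]; exact Submodule.add_mem _ hx hy
  | smul r x _ hx => rw [smul_comm]; exact Submodule.smul_mem _ r hx

/-- Multiplication by the gradient of a form of `I`. -/
theorem Lm_wed {I : Ideal (Sx N)} {π : Sx N →ₐ[ℂ] K} {j m f : ℕ} {F : Sx N} (hF : F ∈ I)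
    (hf : F.IsHomogeneous f) {w : Om (N + 1) K} (hw : w ∈ Lm I π j m) :
    wed (gk π F) w ∈ Lm I π (j + 1) (m + f) := by
  unfold Lm at hw
  induction hw using Submodule.span_induction with
  | mem z hz =>
    obtain ⟨a', e', L, ha', hL, hL', hm, rfl⟩ := hz
    refine Submodule.subset_span ⟨a', e', (F, f) :: L, ha', by rw [List.length_cons, hL], ?_, ?_, ?_⟩
    · intro x hx
      rcases List.mem_cons.1 hx with rfl | hx
      · exact ⟨hF, hf⟩
      · exact hL' x hx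
    · rw [List.map_cons, List.sum_cons]; omega
    · rw [map_smul, List.map_cons, wdg_cons]
  | zero => rw [map_zero]; exact Submodule.zero_mem _
  | add x y _ _ hx hy => rw [map_add]; exact Submodule.add_mem _ hx hy
  | smul r x _ hx =>
    have : wed (gk π F) (r • x) = r • wed (gk π F) x := by
      rw [← algebraMap_smul K r x, map_smul, algebraMap_smul]
    rw [this]; exact Submodule.smul_mem _ r hx

theorem Li_zero {I : Ideal (Sx N)} {π : Sx N →ₐ[ℂ] K} {σ : ℕ → Fin (N + 1) → K} {j m : ℕ} :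
    Li I π σ 0 j m = Lm I π j m := by
  unfold Li
  have : (itw σ 0).restrictScalars ℂ = (LinearMap.id : Om (N + 1) K →ₗ[ℂ] Om (N + 1) K) := rfl
  rw [this, Submodule.map_id]

theorem mem_Li {I : Ideal (Sx N)} {π : Sx N →ₐ[ℂ] K} {σ : ℕ → Fin (N + 1) → K} {i j m : ℕ}
    {w : Om (N + 1) K} : w ∈ Li I π σ i j m ↔ ∃ η ∈ Lm I π j m, itw σ i η = w := Iff.rfl

theorem Li_succ {I : Ideal (Sx N)} {π : Sx N →ₐ[ℂ] K} {σ : ℕ → Fin (N + 1) → K} {i j m : ℕ} :
    Li I π σ (i + 1) j m = (Li I π σ i j m).map ((wed (σ i)).restrictScalars ℂ) := by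
  unfold Li
  rw [← Submodule.map_comp]
  rfl

theorem Li_smul {I : Ideal (Sx N)} {π : Sx N →ₐ[ℂ] K} {σ : ℕ → Fin (N + 1) → K} {i j m e : ℕ}
    {a : Sx N} (ha : a.IsHomogeneous e) {w : Om (N + 1) K} (hw : w ∈ Li I π σ i j m) :
    π a • w ∈ Li I π σ i j (m + e) := by
  obtain ⟨η, hη, rfl⟩ := mem_Li.1 hw
  exact mem_Li.2 ⟨π a • η, Lm_smul ha hη, by rw [map_smul]⟩

theorem Li_wed {I : Ideal (Sx N)} {π : Sx N →ₐ[ℂ] K} {σ : ℕ → Fin (N + 1) → K} {i j m f : ℕ}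
    {F : Sx N} (hF : F ∈ I) (hf : F.IsHomogeneous f) {w : Om (N + 1) K}
    (hw : w ∈ Li I π σ i j m) : wed (gk π F) w ∈ Li I π σ i (j + 1) (m + f) := by
  obtain ⟨η, hη, rfl⟩ := mem_Li.1 hw
  rw [wed_itw]
  have h : (-1 : K) ^ i • itw σ i (wed (gk π F) η) = itw σ i ((-1 : ℂ) ^ i • wed (gk π F) η) := by
    rw [← algebraMap_smul K ((-1 : ℂ) ^ i) (wed (gk π F) η), map_smul]
    simp
  rw [h]
  exact mem_Li.2 ⟨_, Submodule.smul_mem _ _ (Lm_wed hF hf hη), rfl⟩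

theorem Li_GF {I : Ideal (Sx N)} {π : Sx N →ₐ[ℂ] K} {σ : ℕ → Fin (N + 1) → K} {i j : ℕ} :
    GFn π (Li I π σ i j) := fun m b _ hw => Li_smul (isHomogeneous_X ℂ b) hw

end Pool.Agent.Lib.MP_776403_ag.SD
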