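import Pool.Agent.Lib.MP_776403_ag.SD.SpecE

/-!
# THEOREM SD, part A (helper7): step A

Section 6 of note 4385.  Statements with proofs in the docstrings.  `K = k + 1` in the main case
(`k ≥ 1`), `τ = Fin (N + 1) × Fin k` are the variables `s_j` of the section
`s(t) = ξ + ∑ t^(j+1) s_j`.
-/

set_option autoImplicit false

open MvPolynomial

noncomputable section

namespace Pool.Agent.Lib.MP_776403_ag.SD

variable {N : ℕ}

/-! ## Sections on a line -/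

/-- Combinations of the `grad (G i)` are sections with values in `GS`.  PROOF: `Bas.lean`
(`gradL_mem_Sec`, `Sec_mul`, `gradL_hval`): `L i = 0` unless `d i ≤ K`, and for `L ∈ degreeLT` of
`n + 1 - d i` the product `L * gradL` has degree `< n`; `hval (L * g) n σ τ` is the product of the
homogenizations of `L` (degree `n - d i`) and of `g` (degree `d i - 1`): for `σ ≠ 0` it is
`σ^(n-1)` times the value at `τ/σ`; both sides are polynomials in `σ`. -/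
def S_CombV : Prop :=
  ∀ (N c : ℕ) (d : Fin c → ℕ) (I : Ideal (Sx N)), (∀ i, 2 ≤ d i) → ∀ (K : ℕ) (G : Fin c → Sx N),
    (∀ i, d i ≤ K → G i ∈ I ∧ (G i).IsHomogeneous (d i)) → ∀ x v : Vx N, IsLine I x v →
    ∀ (n : ℕ) (L : Fin c → Polynomial ℂ), (∀ i, L i ∈ Polynomial.degreeLT ℂ (n + 1 - d i)) →
    (∀ i, K < d i → L i = 0) → (fun l => ∑ i, L i * gradL x v (G i) l) ∈ Sec I x v n ∧
    ∀ σ τ : ℂ, hval (fun l => ∑ i, L i * gradL x v (G i) l) n σ τ ∈ GS d K G (σ • x + τ • v)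

/-- Change of the second point of a line.  PROOF: `s' i = ∑_(j < n) coeff_j (1 + μ t)^(n-1-j) t^j`
with the coefficients of `s i`; degree `< n`; for `σ ≠ 0` both sides are `σ^(n-1) s'_i(τ/σ)`, both
are polynomials in `σ`, so equal for `σ = 0` too; `σ x + τ (v + μ x) = (σ + μ τ) x + τ v`, so
`S_SecVal` (both directions) gives `s' ∈ Sec`. -/
def S_Repar : Prop :=
  ∀ (N c : ℕ) (I : Ideal (Sx N)), I.IsPrime → IsHom I → Smooth I c → ∀ (x v : Vx N) (μ : ℂ),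
    IsLine I x v → IsLine I x (v + μ • x) ∧ ∀ (n : ℕ), ∀ s ∈ Sec I x v n,
    ∃ s' ∈ Sec I x (v + μ • x) n, ∀ σ τ : ℂ, hval s' n σ τ = hval s n (σ + μ * τ) τ

/-! ## The normalization -/

/-- Dual vectors.  PROOF: independent vectors extend to a basis; coordinates (or: the map
`w ↦ (∑ w_l g_(i,l))_i` is surjective on `ℂ^{i | p i}`). -/
def S_DualV : Prop :=
  ∀ (N c : ℕ) (p : Fin c → Prop) (g : Fin c → Vx N),
    LinearIndependent ℂ (fun i : {i // p i} => g i) →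
    ∃ w : Fin c → Vx N, ∀ i j, p i → p j → ∑ l, w i l * g j l = if i = j then 1 else 0

/-- Uniqueness of the normalization.  PROOF: suppose some `L i ≠ 0`; let `j ≥ 1` be the least order
in `t` of the `L i ≠ 0` (`coeff`), attained by `L i0`; then `d i0 ≤ K` and `j ≤ K - d i0` by the
degree of `L i0`, and the coefficient of `t^j` in `∑_l w_(i0,l) ∑_i' L i' gradL (G i')_l` is
`∑_i' (L i').coeff j * ⟨w_(i0), grad (G i') (x)⟩ = (L i0).coeff j` (only `i'` with `d i' ≤ K` have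
`L i' ≠ 0`; the constant coefficient of `gradL x v G` is `grad G x`).  Contradiction. -/
def S_NrmU : Prop :=
  ∀ (N c : ℕ) (d : Fin c → ℕ) (K : ℕ) (G : Fin c → Sx N) (x v : Vx N) (w : Fin c → Vx N),
    (∀ i j, d i ≤ K → d j ≤ K → ∑ l, w i l * grad (G j) x l = if i = j then 1 else 0) →
    ∀ L : Fin c → Polynomial ℂ, (∀ i, L i ∈ Polynomial.degreeLT ℂ (K + 1 - d i)) →
    (∀ i, (L i).coeff 0 = 0) →
    (∀ i, ∀ j, 1 ≤ j → j ≤ K - d i →
      (∑ l, Polynomial.C (w i l) * ∑ i', L i' * gradL x v (G i') l).coeff j = 0) →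
    ∀ i, L i = 0

/-- Existence of the normalization.  PROOF: for `a : (i : Fin c) → Fin (K - d i) → ℂ` put
`L_a i = ∑_j a i j t^(j+1)`; the linear map `a ↦ (coeff (j+1) of ∑_l w_(i,l) ∑_i' L_a i' gradL_l)`
of this space to itself is injective by `S_NrmU`, so surjective
(`LinearMap.injective_iff_surjective`). -/
def S_NrmE : Prop :=
  ∀ (N c : ℕ) (d : Fin c → ℕ) (K : ℕ) (G : Fin c → Sx N) (x v : Vx N) (w : Fin c → Vx N),
    (∀ i j, d i ≤ K → d j ≤ K → ∑ l, w i l * grad (G j) x l = if i = j then 1 else 0) →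
    ∀ s : Fin (N + 1) → Polynomial ℂ,
    ∃ L : Fin c → Polynomial ℂ, (∀ i, L i ∈ Polynomial.degreeLT ℂ (K + 1 - d i)) ∧
    (∀ i, (L i).coeff 0 = 0) ∧
    ∀ i, ∀ j, 1 ≤ j → j ≤ K - d i →
      (∑ l, Polynomial.C (w i l) * (s l - ∑ i', L i' * gradL x v (G i') l)).coeff j = 0

/-! ## Affine-linear equations for `s` -/

/-- The affine-linear form `∑ A_c s_c + b`, with coefficients in `ℂ[v]`. -/
def aff {τ : Type} [Fintype τ] (A : τ → Sx N) (b : Sx N) : MvPolynomial (Fin (N + 1) ⊕ τ) ℂ :=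
  ∑ c, rename Sum.inl (A c) * X (Sum.inr c) + rename Sum.inl b

/-- Cramer's rule modulo an ideal.  PROOF: the vectors `(A_c(z))_c` with `aff A b ∈ P` for some `b`
form a subspace of `ℂ^τ` (`aff` is additive, and `rename (C a) * aff A b = aff (a A) (a b)`) whose
orthogonal space is zero by hypothesis, so it is everything: for each `c` there are `A^c, b^c` with
`aff A^c b^c ∈ P`, `A^c(z) = e_c`.  `g = det (A^c_c')`, `g(z) = 1`; `h = - adj b`:
`∑_c' adj_(c,c') aff A^c' b^c' = g X_c - h_c`.  `s c = h_c(z)`.  For `aff A b ∈ P`: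
`g aff A b - ∑ A_c (g X_c - h_c) = rename (∑ A_c h_c + g b) ∈ P`, so its value at `z` is zero. -/
def S_Cram : Prop :=
  ∀ (N : ℕ) (τ : Type) [Fintype τ] (P : Ideal (MvPolynomial (Fin (N + 1) ⊕ τ) ℂ)) (z : Vx N),
    (∀ q : Sx N, rename Sum.inl q ∈ P → eval z q = 0) →
    (∀ s : τ → ℂ, (∀ (A : τ → Sx N) (b : Sx N), aff A b ∈ P → ∑ c, eval z (A c) * s c = 0) →
      s = 0) →
    ∃ (s : τ → ℂ) (g : Sx N) (h : τ → Sx N), eval z g ≠ 0 ∧
      (∀ c, rename Sum.inl g * X (Sum.inr c) - rename Sum.inl (h c) ∈ P) ∧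
      ∀ (A : τ → Sx N) (b : Sx N), aff A b ∈ P → ∑ c, eval z (A c) * s c + eval z b = 0

/-- `ξ + ∑ t^(j+1) s_j` for a point `s`. -/
def sp {k : ℕ} (ξ : Vx N) (s : Fin (N + 1) × Fin k → ℂ) (i : Fin (N + 1)) : Polynomial ℂ :=
  Polynomial.C (ξ i) + ∑ j : Fin k, Polynomial.C (s (i, j)) * Polynomial.X ^ (j.1 + 1)

/-- The coefficients of the equation (`w` is orthogonal to `s`) at `t^n`. -/
def eqA (k : ℕ) (x : Vx N) (w : Fin (N + 1) → Sx N) (n : ℕ) (p : Fin (N + 1) × Fin k) : Sx N :=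
  if p.2.1 + 1 ≤ n then (linS x (w p.1)).coeff (n - (p.2.1 + 1)) else 0

/-- The constant term of this equation. -/
def eqB (x ξ : Vx N) (w : Fin (N + 1) → Sx N) (n : ℕ) : Sx N :=
  ∑ i, C (ξ i) * (linS x (w i)).coeff n

/-- PROOF: expand (`Polynomial.coeff_C_mul`, `Polynomial.coeff_mul_X_pow'`), `S_LinS`. -/
def S_Aff : Prop :=
  ∀ (N k : ℕ) (x ξ : Vx N) (w : Fin (N + 1) → Sx N) (n : ℕ),
    (∑ i, sA k ξ i * linA k x (w i)).coeff n = aff (eqA k x w n) (eqB x ξ w n) ∧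
    ∀ (z : Vx N) (s : Fin (N + 1) × Fin k → ℂ),
      (∑ i, sp ξ s i * lin x z (w i)).coeff n =
        ∑ c, eval z (eqA k x w n c) * s c + eval z (eqB x ξ w n)

/-- The normalization equation: coefficient of `t^(j+1)` in `⟨s(t), w⟩`. -/
def nrmA {k : ℕ} (w : Vx N) (j : Fin k) : Ak N k := ∑ l, C (w l) * X (Sum.inr (l, j))

/-- The ideals used in step A: the family `P` of pairs (line through `x`, section). -/
structure FamA (I : Ideal (Sx N)) {c : ℕ} (d : Fin c → ℕ) (k : ℕ) (G : Fin c → Sx N)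
    (x ξ lam : Vx N) (w : Fin c → Vx N) (P : Ideal (Ak N k)) : Prop where
  lamx : ∑ l, lam l * x l = 1
  dual : ∀ i j, d i ≤ k + 1 → d j ≤ k + 1 →
    ∑ l, w i l * grad (G j) x l = if i = j then 1 else 0
  prime : P.IsPrime
  wh : IsWH (wt N k) P
  j1 : J1 I x k ≤ P
  j2 : J2 I x ξ k ≤ P
  lamP : ∑ l, C (lam l) * X (Sum.inl l) ∈ P
  nrmP : ∀ i, ∀ j : Fin k, j.1 < k + 1 - d i → nrmA (w i) j ∈ P

/-- More generators.  PROOF: `b' = Fin.append b (e ∘ Fintype.equivFin.symm)` (up to a cast); `J ⊔ E ≤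
span b ⊔ 𝔪 J ⊔ E`. -/
def S_Gen : Prop :=
  ∀ (σ : Type) (z : σ → ℂ) (J : Ideal (MvPolynomial σ ℂ)) (g : ℕ) (b : Fin g → MvPolynomial σ ℂ)
    (ι : Type) [Fintype ι] (e : ι → MvPolynomial σ ℂ), (∀ i, b i ∈ J) →
    J ≤ Ideal.span (Set.range b) ⊔ ptI z * J →
    ∃ b' : Fin (g + Fintype.card ι) → MvPolynomial σ ℂ,
      (∀ i, b' i ∈ J ⊔ Ideal.span (Set.range e)) ∧
      J ⊔ Ideal.span (Set.range e) ≤ Ideal.span (Set.range b') ⊔
        ptI z * (J ⊔ Ideal.span (Set.range e))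

/-- The dimension count.  PROOF: put `r = #{i | d i ≤ k + 1}`;
`∑ i, (k + 1 - d i) + ∑_(d i ≤ k + 1) d i = r (k + 1)`, `∑ i, d i ≥ 2 c`, `c < N + 1`, so
`N + 1 - c` is a true difference; the claim is `N + (c - r) k + ∑_(d i ≤ k+1) d i ≥ 2 a + 1`. -/
def S_Ari : Prop :=
  ∀ (N c k : ℕ) (d : Fin c → ℕ), (∀ i, 2 ≤ d i) → 2 * ∑ i, d i ≤ N → 1 ≤ k →
    (∃ i, k + 1 < d i) →
    c - Fintype.card {i // d i ≤ k + 1} + 1 ≤ Fintype.card (Fin (N + 1) ⊕ (Fin (N + 1) × Fin k)) -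
      ((∑ i, d i + (∑ i, d i - c) + (N + 1 - c) * k) + (1 + ∑ i, (k + 1 - d i)))

/-- Existence of the family.  PROOF: `S_E` for `J = J1 ⊔ J2`; `S_Gen` with the index type
`ι = Option (Σ i : Fin c, Fin (k + 1 - d i))` (`none`: the form `λ(v)`; `some ⟨i, j⟩`:
`nrmA (w i) ⟨j, _⟩`, `j < k` because `2 ≤ d i`), of cardinality `1 + ∑ (k + 1 - d i)`;
`J'' = J ⊔ span e` is weighted homogeneous (`S_WH`: `λ(v)` has weight `1`, `nrmA w j` has weight
`j + 1`), the point `ptA k v0 s0` is a zero (`S_PtE`, hypotheses); `S_Krull`, `S_Ari` (a subfamily of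
an algebraically independent family is algebraically independent). -/
def S_Fam : Prop :=
  ∀ (N c : ℕ) (d : Fin c → ℕ) (I : Ideal (Sx N)), Hyp I d → ∀ (k : ℕ) (G : Fin c → Sx N),
    1 ≤ k → (∃ i, k + 1 < d i) → ∀ (x v0 lam : Vx N) (w : Fin c → Vx N), IsLine I x v0 →
    ∑ l, lam l * x l = 1 → ∑ l, lam l * v0 l = 0 →
    (∀ i j, d i ≤ k + 1 → d j ≤ k + 1 → ∑ l, w i l * grad (G j) x l = if i = j then 1 else 0) →
    ∀ L : Loc I x c, L.good v0 → ∀ s0 ∈ Sec I x v0 (k + 1),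
    (∀ i, ∀ j : ℕ, j < k + 1 - d i → ∑ l, w i l * (s0 l).coeff (j + 1) = 0) →
    ∃ P : Ideal (Ak N k), FamA I d k G x (fun i => (s0 i).coeff 0) lam w P ∧
      P ≤ ptI (ptA k v0 s0) ∧
      ∃ y : Fin (c - Fintype.card {i // d i ≤ k + 1} + 1) → Ak N k ⧸ P, AlgebraicIndependent ℂ y

/-- Analysis of the family at a point.  PROOF: `IsLine`: `S_P0`; `λ(z) = 0`, `λ(x) = 1`, `z ≠ 0`.
Hypothesis of `S_Cram` (first: definition of `P0`, `zer`).  Second: let `s` be a solution of the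
homogeneous equations, `ŝ = sp 0 s`.  For `w' ∈ TF I` (homogeneous) all coefficients of
`∑ ŝ_i lin x z (w'_i)` are zero: `S_Aff` (`eqA` does not depend on `ξ`, `eqB x 0 w' n = 0`,
`aff (eqA ..) (eqB x ξ ..) ∈ J2 ≤ P`).  So `ŝ ∈ Sec I x z (k + 1)`, `ŝ = t s'`, `s' i =
∑_j s(i,j) t^j`, `s' ∈ Sec I x z k` (`Sec_div`), and by `PL` `s' = ∑ L' i gradL (G i)`,
`L' i ∈ degreeLT (k + 1 - d i)`.  `L i = t L' i` satisfies the hypotheses of `S_NrmU` (`K = k + 1`;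
`L' i = 0` if `k + 1 ≤ d i`): for `1 ≤ j ≤ k + 1 - d i` the coefficient of `t^j` in
`∑_l w_(i,l) ŝ_l` is `∑_l w_(i,l) s(l, j-1)`, zero by `nrmP` (`nrmA w j = aff A 0` with
`A (l, j') = if j' = j then C (w l) else 0`).  So `L = 0`, `ŝ = 0`, `s = 0`.  The solution `s` of
`S_Cram` satisfies `sp ξ s ∈ Sec I x z (k + 1)` by `S_Aff`. -/
def S_PtA : Prop :=
  ∀ (N c : ℕ) (d : Fin c → ℕ) (I : Ideal (Sx N)), Hyp I d → ∀ (k : ℕ) (G : Fin c → Sx N),
    PL I d (k + 1) G → ∀ (x ξ lam : Vx N) (w : Fin c → Vx N) (P : Ideal (Ak N k)),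
    FamA I d k G x ξ lam w P → ∀ z ∈ zer (P0 P), z ≠ 0 → IsLine I x z ∧
    ∃ (s : Fin (N + 1) × Fin k → ℂ) (g : Sx N) (h : Fin (N + 1) × Fin k → Sx N), eval z g ≠ 0 ∧
      (∀ c, rename Sum.inl g * X (Sum.inr c) - rename Sum.inl (h c) ∈ P) ∧
      (∀ (A : Fin (N + 1) × Fin k → Sx N) (b : Sx N), aff A b ∈ P →
        ∑ c, eval z (A c) * s c + eval z b = 0) ∧
      sp ξ s ∈ Sec I x z (k + 1)

/-- The section `σ(z) = s_(k-1)(z)` over the variety of `P0 P`.  PROOF: `k ≥ 1`; for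
`z ∈ zer (P0 P)`, `z ≠ 0` choose `s^z` of `S_PtA`, `sig z l = s^z (l, k-1)`.  `sig z = hval (sp ξ s^z)
(k+1) 0 1 ∈ CN I z` by `S_SecVal` (point `0 • x + 1 • z`).  Quotients near `y`: take `g, h` of
`S_PtA` at `y`; `P` is weighted homogeneous, so for all `n`
`rename g_n * X (inr (l, k-1)) - rename (h_l)_(n+k) ∈ P` (`g_n` = homogeneous component of degree
`n`; `X (inr (l, k-1))` has weight `k`); choose `n` with `g_n(y) ≠ 0` (`g(y) = ∑ g_n(y)`); `Q = g_n`,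
`e = n`, `P l = (h_l)_(n+k)`, homogeneous of degree `n + k = e + (k + 1) - 1`.  The identity
`sig z l Q(z) = P_l(z)`: third property in `S_PtA` for the affine form `Q X_(l,k-1) - P_l`. -/
def S_SigA : Prop :=
  ∀ (N c : ℕ) (d : Fin c → ℕ) (I : Ideal (Sx N)), Hyp I d → ∀ (k : ℕ) (G : Fin c → Sx N),
    1 ≤ k → PL I d (k + 1) G → ∀ (x ξ lam : Vx N) (w : Fin c → Vx N) (P : Ideal (Ak N k)),
    FamA I d k G x ξ lam w P → ∃ sig : Vx N → Vx N, IsSect I (P0 P) (k + 1) sig ∧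
      ∀ z ∈ zer (P0 P), z ≠ 0 → IsLine I x z ∧ ∃ s ∈ Sec I x z (k + 1),
        hval s (k + 1) 1 0 = ξ ∧ hval s (k + 1) 0 1 = sig z

/-- Independence.  PROOF: otherwise `S_L3` (`K' = K`, `σ = 0`, `τ = 1`) gives
`s = ∑ L_i gradL x z (G i)`, and the value at `(1, 0)` is in `GS d K G x` (`S_CombV`), but it is
`ξ`. -/
def S_IndA : Prop :=
  ∀ (N c : ℕ) (d : Fin c → ℕ) (I : Ideal (Sx N)), Hyp I d → ∀ (K : ℕ) (G : Fin c → Sx N),
    1 ≤ K → Data I d K G → PL I d K G → ∀ (x z ξ u : Vx N), ξ ∉ GS d K G x → IsLine I x z →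
    ∀ s ∈ Sec I x z K, hval s K 1 0 = ξ → hval s K 0 1 = u → u ∉ GS d K G z

/-- The contradiction.  PROOF: `r = card {i // d i ≤ K}`, `f : Fin r → Fin c` an enumeration;
`S_N` with `q = r`, `sig = Fin.snoc (fun i y => grad (G (f i)) y) sig`, `del = Fin.snoc (d ∘ f) K`;
`grad (G i)` is a section of degree `d i` (`S_Perp`; `P l = ∂_l G_i`, `Q = 1`, `e = 0`);
independence: `Data.ind` and `sig y ∉ GS d K G y` (`linearIndependent_finSnoc` or
`LinearIndependent.finSnoc'`); `d j ≠ K` for `j` not in the range of `f`. -/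
def S_FinA : Prop :=
  ∀ (N c : ℕ) (d : Fin c → ℕ) (I : Ideal (Sx N)), Hyp I d → ∀ (K : ℕ) (G : Fin c → Sx N),
    1 ≤ K → Data I d K G → ∀ J : Ideal (Sx N), J.IsPrime → IsHom J → I ≤ J →
    ∀ sig : Vx N → Vx N, IsSect I J K sig → (∀ y ∈ zer J, y ≠ 0 → sig y ∉ GS d K G y) →
    ¬ DimGe J (c - Fintype.card {i // d i ≤ K} + 1)

/-- Step A for `K = 1`.  PROOF: `S_Loc`, `S_Good` (`μ`), `S_Repar` (replace `v` by `v + μ x`, `s` by
`s'`); `ξ i = (s' i).coeff 0`; `ξ = hval s' 1 1 0 = hval s 1 1 0 ≠ 0`, as `0 ∈ GS`.  `S_E` with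
`k = 0`, `J = J1 ⊔ J2`, `S_WH`, `S_PtE`, `S_Krull`: `P` prime with `N + 1 - (a + (a - c)) ≥ c + 1`
algebraically independent elements; `S_Frac` (the index type is empty), `S_P0`: `DimGe (P0 P) (c + 1)`,
`I ≤ P0 P`.  The constant `ξ` is a section of degree `1`: `ξ ∈ CN I y` for `y ∈ zer (P0 P)` by the
last part of `S_Perp`: for `w ∈ TF I` of degree `m` the coefficient of `t^m` in
`∑ sA 0 ξ i * linA 0 x (w i)` is `rename (∑ ξ_i w_i) ∈ P` (`S_LinS`).  `GS d 1 G y` is `0`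
(`2 ≤ d i`), so `S_FinA` (`card {i // d i ≤ 1} = 0`) gives a contradiction. -/
def S_CaseOne : Prop :=
  ∀ (N c : ℕ) (d : Fin c → ℕ) (I : Ideal (Sx N)), Hyp I d → ∀ (G : Fin c → Sx N),
    Data I d 1 G → ∀ x v : Vx N, IsLine I x v → ∀ s ∈ Sec I x v 1,
    (∀ σ τ : ℂ, (σ ≠ 0 ∨ τ ≠ 0) → hval s 1 σ τ ∉ GS d 1 G (σ • x + τ • v)) → False

/-- Step A for `K = k + 1`, `k ≥ 1`.  PROOF: `S_Loc`, `S_Good`, `S_Repar` as in `S_CaseOne`
(`v0 = v + μ x`, `s'`); `λ` a vector with `∑ λ_l x_l = 1`, `∑ λ_l v0_l = 0` (`x, v0` independent);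
`w` dual to the `grad (G i) x`, `d i ≤ k + 1` (`S_DualV`, `Data.ind`); `L` of `S_NrmE` for `s'`,
`K = k + 1`; `s0 = s' - ∑ L i gradL (G i) ∈ Sec` (`S_CombV`; `L i = 0` if `k + 1 < d i`),
`s0 (0) = s'(0) = ξ` (`L i (0) = 0`).  `ξ = hval s' (k+1) 1 0 = hval s (k+1) 1 0 ∉ GS d (k+1) G x`.
`S_Fam`: `P`.  `S_SigA`: `sig`.  `S_IndA`: `sig z ∉ GS`.  `S_Frac`: the fractions of `S_PtA` at
`z = v0 ∈ zer (P0 P)` (`P ≤ ptI (ptA k v0 s0)`): `DimGe (P0 P) (c - r + 1)`.  `S_P0`, `S_FinA`. -/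
def S_CaseTwo : Prop :=
  ∀ (N c : ℕ) (d : Fin c → ℕ) (I : Ideal (Sx N)), Hyp I d → ∀ (k : ℕ) (G : Fin c → Sx N),
    1 ≤ k → (∃ i, k + 1 < d i) → Data I d (k + 1) G → PL I d (k + 1) G →
    ∀ x v : Vx N, IsLine I x v → ∀ s ∈ Sec I x v (k + 1),
    (∀ σ τ : ℂ, (σ ≠ 0 ∨ τ ≠ 0) → hval s (k + 1) σ τ ∉ GS d (k + 1) G (σ • x + τ • v)) → False

/-- PROOF of `S_A`: let `s ∈ Sec I x v K`.  If `hval s K σ τ ∈ GS` for some `(σ, τ) ≠ 0`, then `S_L3`
(`K' = K`) gives the claim (`L i ∈ degreeLT (K + 1 - d i)`).  Otherwise: if `d i ≤ K` for all `i` then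
`GS d K G x = CN I x` (`c` independent vectors in a space of dimension `c`, `S_Perp`) and
`hval s K 1 0 ∈ CN I x` by `S_SecVal`, contradiction; else `S_CaseOne` if `K = 1` and `S_CaseTwo` if
`K = k + 1`, `k ≥ 1`. -/
def S_AOf : Prop := S_L3 → S_SecVal → S_Perp → S_CaseOne → S_CaseTwo → S_A

end Pool.Agent.Lib.MP_776403_ag.SD
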