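import Pool.Agent.Lib.MP_776403_ag.SD.NTools
import Pool.Agent.Lib.MP_776403_ag.SD.Iface

/-!
# THEOREM SD, section 5: the statements for Lemma N

Conventions: `J ⊇ I` homogeneous primes, `K` a field, `π : S → K` a homomorphism of complex algebras
with kernel `J` (`K = Frac (S / J)` at the end, but nothing else about `K` is needed).  `Om (N+1) K`
(file `Wed`) are the functions on lists; `wed u`, `con φ`, `wdg` = wedge with a vector, contraction
with a functional, wedge product of a list of vectors.  File `NTools`: `gk π F` the gradient in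
`K`, `CK I π` the `K`-span of all gradients, `Lm I π j m = Λ_j(m)`, `Li I π σ i j m = Λ^i_j(m)`,
`GFn`, `FGn` (graded modules, finitely generated), and the lemmas `Lm_smul`, `Lm_wed`, `Li_succ`,
`Li_smul`, `Li_wed`, `wed_itw`, `con_itw`, `Li_GF`.
-/

set_option autoImplicit false

open MvPolynomial

noncomputable section

namespace Pool.Agent.Lib.MP_776403_ag.SD

/-! ## Multilinear algebra -/

/-- NDet.  The values of `wdg us` are determinants.
PROOF.  Induction on `us` (generalise the list `e`): `wdg (u :: us) (b :: e)` by `wed_cons`; better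
first prove `wed u w e = ∑ l : Fin e.length, (-1)^l * u (e.get l) * w (e.eraseIdx l)` (induction on
`e`), then `Matrix.det_succ_row_zero`. -/
def S_NDet : Prop :=
  ∀ (n : ℕ) (K : Type) [Field K] (p : ℕ) (u : Fin p → Fin n → K),
    (∀ α : Fin p → Fin n,
      wdg (List.ofFn u) (List.ofFn α) = Matrix.det (Matrix.of fun i k => u i (α k))) ∧
    (∀ e : List (Fin n), e.length ≠ p → wdg (List.ofFn u) e = 0)

/-- NDep.  The wedge product of more than `c` vectors of a space of dimension `≤ c` is `0`.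
PROOF.  Either from `S_NDet`-like determinants, or directly: the vectors of the list are linearly
dependent, so (induction on the list) either the tail is dependent and `wdg us = 0` by induction,
or the head is in the span of the tail; and `wed u (wdg us) = 0` for `u` in the list `us` (induction:
`wed_self`, `wed_wed`), hence for `u` in the span of the list (`wed_add_left`, `wed_smul_left`). -/
def S_NDep : Prop :=
  ∀ (n : ℕ) (K : Type) [Field K] (C : Submodule K (Fin n → K)) (us : List (Fin n → K)),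
    (∀ u ∈ us, u ∈ C) → Module.finrank K C < us.length → wdg us = 0

/-- NLi0.  `σ_i ∧ ... ∧ σ_0 ≠ 0` for independent vectors.
PROOF.  Induction on `i`.  Choose `φ` with `φ · σ_l = 0` for `l < i` and `φ · σ_i ≠ 0` (a functional
which vanishes on the span of the `σ_l`, `l < i`, but not at `σ_i`; functionals on `K^n` are dot
products).  `con φ (itw σ (i + 1) eps) = (φ · σ_i) • itw σ i eps - wed σ_i (con φ (itw σ i eps))` and
`con φ (itw σ i eps) = ± itw σ i (con φ eps) = 0` (`con_wed`, `con_itw`, `con_eps`). -/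
def S_NLi0 : Prop :=
  ∀ (N : ℕ) (K : Type) [Field K] [Algebra ℂ K] (σ : ℕ → Fin (N + 1) → K) (i : ℕ),
    LinearIndependent K (fun l : Fin i => σ l) → itw σ i (eps : Om (N + 1) K) ≠ 0

/-- NCon.  Contraction of `Λ_(j+1)(m+1)` with a vector of forms of degree `E`.
PROOF.  Write `φ' b = π (φ b)`.  CLAIM: for a list `L` of length `j + 1` of forms of `I` with degrees,
`con φ' (wdg (L.map gk)) ∈ Lm I π j (s + E - 1)`, `s` the sum of the degrees; induction on `L`: for
`L = (F, f) :: L'`, `con_wed` gives `(∑ φ' b * gk π F b) • wdg L' - wed (gk π F) (con φ' (wdg L'))`.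
First summand: `∑ φ_b ∂_b F` is a form of degree `E + f - 1` if `f ≥ 1` (`IsHomogeneous.pderiv`), and
`0` if `f = 0` (then `F` is a constant); second summand: induction and `Lm_wed` (if `L'` is empty,
`con_eps`).  Degree `0` forms of `I` are `0`, because `π` is injective on constants and `I ≤ ker π`,
so all degrees may be supposed `≥ 1` (otherwise `gk π F = 0` and the product is `0`). -/
def S_NCon : Prop :=
  ∀ (N : ℕ) (K : Type) [Field K] [Algebra ℂ K] (I : Ideal (Sx N)) (π : Sx N →ₐ[ℂ] K),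
    (∀ F ∈ I, π F = 0) → ∀ (j m E : ℕ) (φ : Fin (N + 1) → Sx N), (∀ b, (φ b).IsHomogeneous E) →
    ∀ η ∈ Lm I π (j + 1) (m + 1), con (fun b => π (φ b)) η ∈ Lm I π j (m + E)

/-! ## Graded modules -/

/-- NNoe.  A graded submodule of a finitely generated graded module is finitely generated.
PROOF.  Let `m0` be the bound of `FGn π U`, `ω_1, ..., ω_b` a basis (or finite spanning family) of
`U m0`.  `φ : S^b → Om`, `φ s = ∑ π (s_i) • ω_i`.  Then `U (m0 + e)` is the image of the vectors of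
forms of degree `e` (induction on `e` with `FGn`).  Let `W' ⊆ S^b` be the `S`-submodule generated by
all vectors `s` of forms of some degree `e` with `φ s ∈ W (m0 + e)`.  `IsNoetherian S (Fin b → S)`
gives finitely many generators among these vectors (`Submodule.fg_span_iff_fg_span_finset_subset`
or `Submodule.FG` + finite subset of the generating set); let `e1` be larger than all their degrees.
For `e ≥ e1` and `w ∈ W (m0 + e + 1)`: `w = φ s`, `s` a vector of forms of degree `e + 1`,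
`s = ∑ a_l s_l`; taking homogeneous components of degree `e + 1` we may take `a_l` a form of degree
`e + 1 - e_l ≥ 1`, so `a_l = ∑ x_i a_li` with forms `a_li` of degree `e - e_l` and
`w = ∑ x_i • (∑ φ (a_li s_l))`, with `φ (a_li s_l) ∈ W (m0 + e)` by `GFn π W`. -/
def S_NNoe : Prop :=
  ∀ (N : ℕ) (K : Type) [Field K] [Algebra ℂ K] (π : Sx N →ₐ[ℂ] K)
    (U W : ℕ → Submodule ℂ (Om (N + 1) K)), GFn π U → FGn π U → GFn π W → (∀ m, W m ≤ U m) → FGn π W

/-- NSat.  An inclusion of graded modules which holds locally at all points of the projective variety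
of `J` holds in large degrees.
PROOF.  Let `b` be the ideal generated by all forms `g` (of degree `e`) with `π g • w ∈ U (m + e)` for
all `m`, `w ∈ W m`.  It is homogeneous, contains the forms of `J` (`π g = 0`), so by hypothesis its
only zero is `0` and `S_Irr` gives `r` with all forms of degree `r` in `b`.  A form `s ∈ b` of degree
`r` is `∑ a_i g_i` with forms `a_i` of degree `r - e_i` (homogeneous components), so
`π s • w ∈ U (m + r)` for `w ∈ W m`.  By `FGn π W`, for `m ≥ m0` all of `W (m + r)` is spanned by the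
`π s • w`, `s` a monomial of degree `r`, `w ∈ W m` (induction).  So `W m ≤ U m` for `m ≥ m0 + r`. -/
def S_NSat : Prop :=
  ∀ (N : ℕ) (K : Type) [Field K] [Algebra ℂ K] (J : Ideal (Sx N)) (π : Sx N →ₐ[ℂ] K), IsHom J →
    (∀ F, π F = 0 ↔ F ∈ J) → ∀ (U W : ℕ → Submodule ℂ (Om (N + 1) K)), GFn π U → FGn π W →
    (∀ y ∈ zer J, y ≠ 0 → ∃ (g : Sx N) (e : ℕ), g.IsHomogeneous e ∧ eval y g ≠ 0 ∧
      ∀ m, ∀ w ∈ W m, π g • w ∈ U (m + e)) →
    ∃ m1 : ℕ, ∀ m, m1 ≤ m → W m ≤ U m

/-- NLfg.  `Λ^i_j` is a finitely generated graded module.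
PROOF.  For `i = 0`: `I` is generated by finitely many forms `F_1, ..., F_s` (Noetherian and
homogeneous), of degrees `≤ D`.  For a form `F ∈ I` of degree `f`, `F = ∑ a_l F_l` with forms `a_l` of
degree `f - f_l` and `gk π F = ∑ π (a_l) • gk π F_l` (`π F_l = 0`).  By multilinearity of `wdg`,
`Lm I π j m` is the span of the `π a • wdg (gk F_(l_1), ..., gk F_(l_j))` with a monomial `a` of
degree `m - f_(l_1) - ...`.  So it is finite dimensional, and for `m ≥ j * D` a generator in degree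
`m + 1` has `deg a ≥ 1`, `a = x_i a'`.  For general `i`: apply the `K`-linear map `itw σ i`. -/
def S_NLfg : Prop :=
  ∀ (N : ℕ) (K : Type) [Field K] [Algebra ℂ K] (I : Ideal (Sx N)) (π : Sx N →ₐ[ℂ] K), IsHom I →
    (∀ F ∈ I, π F = 0) → ∀ (σ : ℕ → Fin (N + 1) → K) (i j : ℕ), FGn π (Li I π σ i j)

/-! ## Local algebra -/

/-- NSpc.  Linear independence over `K` of vectors of forms = linear independence of the values at
some point of the punctured cone of `J`.
PROOF.  `r` vectors in `K^(N+1)` are independent iff some `r × r` minor `Δ` is nonzero; `π Δ = 0` iff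
`Δ ∈ J`.  `Δ` is a form; if it vanishes at all points `≠ 0` of `zer J` then `Δ ∈ J` (`S_Null`, second
part; the punctured cone is not empty). -/
def S_NSpc : Prop :=
  ∀ (N : ℕ) (K : Type) [Field K] [Algebra ℂ K] (J : Ideal (Sx N)) (π : Sx N →ₐ[ℂ] K),
    J.IsPrime → IsHom J → (∀ F, π F = 0 ↔ F ∈ J) → (∃ y ∈ zer J, y ≠ 0) →
    ∀ (r : ℕ) (P : Fin r → Fin (N + 1) → Sx N) (e : Fin r → ℕ),
    (∀ l b, (P l b).IsHomogeneous (e l)) →
    (LinearIndependent K (fun l : Fin r => fun b => π (P l b)) ↔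
      ∃ z ∈ zer J, z ≠ 0 ∧ LinearIndependent ℂ (fun l : Fin r => fun b => eval z (P l b)))

/-- NRk.  The space of gradients over `K` has dimension at most `c`; a vector of forms with values
in the conormal spaces is in it.
PROOF.  `S_Perp`: the conormal spaces `CN I z`, `z ∈ zer J ⊆ zer I`, have dimension `c`.  If `CK` had
dimension `> c` then `c + 1` gradients `gk π F_l` of forms (`I` is homogeneous, so the gradients of
forms span `CK`) would be independent over `K`, by `S_NSpc` their values would be independent at some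
`z`: contradiction.  Second part: take a maximal independent family of gradients of forms; if `π P` were not
in its span, the family with `π P` would be independent over `K`; but then at some `z` the values (all in
`CN I z`) ... take the `c` forms with gradients independent at one point `z0` (they are independent over
`K`): together with `P` they would be `c + 1` independent vectors over `K`, so in `CN I z` for some
`z`: contradiction. -/
def S_NRk : Prop :=
  ∀ (N c : ℕ) (K : Type) [Field K] [Algebra ℂ K] (I J : Ideal (Sx N)) (π : Sx N →ₐ[ℂ] K),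
    I.IsPrime → IsHom I → Smooth I c → J.IsPrime → IsHom J → I ≤ J →
    (∀ F, π F = 0 ↔ F ∈ J) → (∃ y ∈ zer J, y ≠ 0) →
    Module.finrank K (CK I π) ≤ c ∧
    ∀ (P : Fin (N + 1) → Sx N) (e : ℕ), (∀ b, (P b).IsHomogeneous e) →
      (∀ z ∈ zer J, z ≠ 0 → (fun b => eval z (P b)) ∈ CN I z) → (fun b => π (P b)) ∈ CK I π

/-- NFun.  A functional with polynomial coefficients which kills `τ_0, ..., τ_(i-1)` and not `τ_i`.
PROOF.  The values at `y` are independent: some `(i+1) × (i+1)` minor `α : Fin (i+1) → Fin (N+1)` is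
nonzero at `y`.  `φ b = ` the sum over the `k` with `α k = b` of the cofactor of the entry `(i, k)` of
the matrix `(τ_l (α k))_(l,k)`; so `∑ φ_b u_b = det (τ_0, ..., τ_(i-1), u)` restricted to `α`: zero for
`u = τ_l`, `l < i` (two equal rows), and the minor for `u = τ_i`.  The cofactor is a form of degree
`∑_(l < i) e_l`. -/
def S_NFun : Prop :=
  ∀ (N i : ℕ) (τ : ℕ → Fin (N + 1) → Sx N) (e : ℕ → ℕ) (y : Vx N),
    (∀ l ≤ i, ∀ b, (τ l b).IsHomogeneous (e l)) →
    LinearIndependent ℂ (fun l : Fin (i + 1) => fun b => eval y (τ l b)) →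
    ∃ φ : Fin (N + 1) → Sx N, (∀ b, (φ b).IsHomogeneous (∑ l ∈ Finset.range i, e l)) ∧
      (∀ l < i, ∑ b, φ b * τ l b = 0) ∧ eval y (∑ b, φ b * τ i b) ≠ 0

/-- NCrm.  Near every point of the variety of `J` a section with values in `CK` is a combination of
gradients of forms of `I`, with polynomial coefficients.
PROOF.  `Smooth I c` at `y`: forms `F_1, ..., F_c ∈ I` of degrees `f_l` with independent gradients at
`y`; some minor `Δ` of the matrix `(∂_(α k) F_l)` has `Δ(y) ≠ 0`, a form, `π Δ ≠ 0`; the `gk π F_l` are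
independent, so they are a basis of `CK I π` (dimension `≤ c` by `hrk`).  `s = ∑ c_l gk π F_l`, Cramer
on the coordinates `α`: `π Δ * c_l = ` the minor with row `l` replaced by `s`; multiply by `π g`:
`π g * s = π τ`, so `π (Δ g) • s = ∑ π (a_l) • gk π F_l`, `a_l` the minor with row `l` replaced by `τ`,
a form of degree `∑_(l' ≠ l) (f_l' - 1) + (e + δ - 1)`; `g' = Δ g`, `e' = e + ∑ (f_l' - 1)`, so
`deg a_l + f_l = e' + δ`, because `f_l ≥ 1` (a form of degree `0` in `I` is zero and its gradient is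
not independent). -/
def S_NCrm : Prop :=
  ∀ (N c : ℕ) (K : Type) [Field K] [Algebra ℂ K] (I J : Ideal (Sx N)) (π : Sx N →ₐ[ℂ] K),
    I.IsPrime → IsHom I → Smooth I c → J.IsPrime → IsHom J → I ≤ J →
    (∀ F, π F = 0 ↔ F ∈ J) → Module.finrank K (CK I π) ≤ c → ∀ y ∈ zer J, y ≠ 0 →
    ∀ (s : Fin (N + 1) → K) (g : Sx N) (e δ : ℕ) (τ : Fin (N + 1) → Sx N), s ∈ CK I π → 1 ≤ δ →
    g.IsHomogeneous e → eval y g ≠ 0 → (∀ b, (τ b).IsHomogeneous (e + δ - 1)) →
    (∀ b, π g * s b = π (τ b)) →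
    ∃ (g' : Sx N) (e' : ℕ) (a F : Fin c → Sx N) (ea f : Fin c → ℕ), g'.IsHomogeneous e' ∧
      eval y g' ≠ 0 ∧ (∀ l, (a l).IsHomogeneous (ea l) ∧ F l ∈ I ∧ (F l).IsHomogeneous (f l) ∧
        ea l + f l = e' + δ) ∧ π g' • s = ∑ l, π (a l) • gk π (F l)

/-! ## The data of Lemma N over `K` -/

/-- The sections `σ_0, ..., σ_(Q-1)` of degrees `δ_l ≥ 1` over `K`. -/
structure NDat (N c Q : ℕ) (K : Type) [Field K] [Algebra ℂ K] (I J : Ideal (Sx N))
    (π : Sx N →ₐ[ℂ] K) (σ : ℕ → Fin (N + 1) → K) (δ : ℕ → ℕ) : Prop where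
  Iprime : I.IsPrime
  Ihom : IsHom I
  smooth : Smooth I c
  Jprime : J.IsPrime
  Jhom : IsHom J
  le : I ≤ J
  ker : ∀ F, π F = 0 ↔ F ∈ J
  rk : Module.finrank K (CK I π) ≤ c
  mem : ∀ l < Q, σ l ∈ CK I π
  pos : ∀ l < Q, 1 ≤ δ l
  ind : LinearIndependent K (fun l : Fin Q => σ l)
  loc : ∀ y ∈ zer J, y ≠ 0 → ∃ (g : Sx N) (e : ℕ) (τ : ℕ → Fin (N + 1) → Sx N),
    g.IsHomogeneous e ∧ eval y g ≠ 0 ∧
    (∀ l < Q, ∀ b, (τ l b).IsHomogeneous (e + δ l - 1) ∧ π g * σ l b = π (τ l b)) ∧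
    LinearIndependent ℂ (fun l : Fin Q => fun b => eval y (τ l b))

/-- NKerA.  For large `m` the kernel of `σ_i ∧` on `Λ^i_(j+1)(m + δ_i)` is contained in
`Λ^(i+1)_j(m)`.
PROOF.  `W m` = this kernel, `U m = Li I π σ (i+1) j m`.  `W` is a graded submodule of the shift of
`Li I π σ i (j+1)`, so `FGn π W` (`S_NNoe`, `S_NLfg`); `GFn π U` is `Li_GF`.  By `S_NSat` it suffices:
for `y` there is a form `g'` of degree `D`, `g'(y) ≠ 0`, with `π g' • W m ⊆ U (m + D)`.  Take `g, e, τ`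
from `loc` at `y`, `φ` from `S_NFun` for `τ_0, ..., τ_i` (the first `i + 1` of the independent vectors), of
degree `E = ∑_(l<i) (e + δ_l - 1)`, `φ' b = π (φ b)`.  `π g * (φ' · σ_l) = π (φ · τ_l) = 0` for `l < i`
and `π g ≠ 0` (as `g(y) ≠ 0`, `y ∈ zer J`), so `φ' · σ_l = 0`.  `g' = φ · τ_i`, a form of degree
`D = E + e + δ_i - 1`, and `π g * (φ' · σ_i) = π g'`.  For `w = itw σ i η ∈ W m`,
`η ∈ Lm (j+1) (m + δ_i)`: `0 = con φ' (wed σ_i w) = (φ' · σ_i) • w - wed σ_i (con φ' w)`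
(`con_wed`) and `con φ' w = ± itw σ i (con φ' η)` (`con_itw`), so
`π g' • w = ± wed σ_i (itw σ i (π g • con φ' η)) = ± itw σ (i+1) (π g • con φ' η)`, and
`con φ' η ∈ Lm j (m + δ_i - 1 + E)` (`S_NCon`), `π g • con φ' η ∈ Lm j (m + D)` (`Lm_smul`). -/
def S_NKerA : Prop :=
  ∀ (N c Q : ℕ) (K : Type) [Field K] [Algebra ℂ K] (I J : Ideal (Sx N)) (π : Sx N →ₐ[ℂ] K)
    (σ : ℕ → Fin (N + 1) → K) (δ : ℕ → ℕ), NDat N c Q K I J π σ δ → ∀ i < Q, ∀ j : ℕ,
    ∃ m1 : ℕ, ∀ m, m1 ≤ m → ∀ w ∈ Li I π σ i (j + 1) (m + δ i), wed (σ i) w = 0 →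
      w ∈ Li I π σ (i + 1) j m

/-- NKerB.  For large `m`, `Λ^(i+1)_j(m) ⊆ Λ^i_(j+1)(m + δ_i)`.
PROOF.  `S_NSat` with `W m = Li I π σ (i+1) j m` (`S_NLfg`) and `U m = Li I π σ i (j+1) (m + δ_i)`.  At
`y`: `S_NCrm` for `s = σ_i` (with `g, e, τ i` from `loc`) gives `g'` of degree `e'`, `a_l`, `F_l`.  For
`w = wed σ_i (itw σ i η)`, `η ∈ Lm j m`:
`π g' • w = ∑ π (a_l) • wed (gk π F_l) (itw σ i η)` (`wed_smul_left`, `wed_sum_left`,
`wed_add_left`), and `Li_wed`, `Li_smul` put each summand into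
`Li i (j+1) (m + f_l + ea_l) = Li i (j+1) (m + e' + δ_i) = U (m + e')`. -/
def S_NKerB : Prop :=
  ∀ (N c Q : ℕ) (K : Type) [Field K] [Algebra ℂ K] (I J : Ideal (Sx N)) (π : Sx N →ₐ[ℂ] K)
    (σ : ℕ → Fin (N + 1) → K) (δ : ℕ → ℕ), NDat N c Q K I J π σ δ → ∀ i < Q, ∀ j : ℕ,
    ∃ m1 : ℕ, ∀ m, m1 ≤ m → Li I π σ (i + 1) j m ≤ Li I π σ i (j + 1) (m + δ i)

/-- NRec.  The dimensions `h i j m = dim Λ^i_j(m)`.
PROOF.  `Li (i+1) j m' = (Li i j m').map (wed σ_i)` (`Li_succ`), rank-nullity for `wed σ_i` on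
`Li i (j+1) (m + δ_i)`; the kernel is `Li (i+1) j m` for large `m` by `S_NKerA`, `S_NKerB` and
`wed_self` (elements of `Li (i+1) j m` are `wed σ_i (..)`).  For `j = 0`: `Lm I π 0 m` consists of the
`π a • eps`, so an element of `Li i 0 m` is `π a • itw σ i eps`; if `wed σ_i` kills it then
`π a • itw σ (i+1) eps = 0`, so `π a = 0` by `S_NLi0`.  Third part: for `Q + j > c`,
`Li Q j m = 0`: `itw σ Q (π a • wdg (L.map gk)) = π a • wdg (σ_(Q-1) :: ... :: σ_0 :: L.map gk)`, all
vectors in `CK`, `S_NDep`.  (Finite dimension: `S_NLfg`.) -/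
def S_NRec : Prop :=
  ∀ (N c Q : ℕ) (K : Type) [Field K] [Algebra ℂ K] (I J : Ideal (Sx N)) (π : Sx N →ₐ[ℂ] K)
    (σ : ℕ → Fin (N + 1) → K) (δ : ℕ → ℕ), NDat N c Q K I J π σ δ →
    (∀ i < Q, ∀ j : ℕ, ∀ᶠ m : ℕ in Filter.atTop,
      Module.finrank ℂ (Li I π σ i (j + 1) (m + δ i)) =
        Module.finrank ℂ (Li I π σ (i + 1) (j + 1) (m + δ i)) +
          Module.finrank ℂ (Li I π σ (i + 1) j m)) ∧
    (∀ i < Q, ∀ m : ℕ, Module.finrank ℂ (Li I π σ i 0 m) =
      Module.finrank ℂ (Li I π σ (i + 1) 0 m)) ∧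
    ∀ j : ℕ, c < Q + j → ∀ m : ℕ, Module.finrank ℂ (Li I π σ Q j m) = 0

/-! ## Counting -/

/-- NPow.  The formal part: from the recursion to `∏_(i ∈ s) (T^(d i) - T^κ) H = 0`, `s` the set of
the `i` not in the range of `f`, `T` the shift.
PROOF.  Put everything into `PowerSeries ℤ` modulo polynomials: `H` corresponds to `∑ H(m) X^m`, the
shift `m ↦ m - e` to multiplication by `X^e`, 'eventually equal' to 'equal modulo polynomials'
(a module `M` over `ℤ[X]`; or work directly with functions `ℕ → ℤ` and `∀ᶠ`).  With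
`h_i(u) = ∑_j h i j u^j`: `h_0 = ∏_(l) (1 + u X^(d l)) H`, `h_i = (1 + u X^(δ i)) h_(i+1)` for
`i ≤ q`, and `h_(q+1)` has degree `≤ c - q - 1` in `u`.  `1 + u X^δ` is injective (compare
coefficients from `u^0` on), so after cancelling the factors `δ i = d (f i)`, `i < q`,
`(1 + u X^κ) h_(q+1) = ∏_(l ∈ s) (1 + u X^(d l)) H`, `κ = δ q`, `s` with `p = c - q` elements.  Apply
`∑_j u^j g_j ↦ ∑_(j ≤ p) (-1)^(p-j) X^(κ (p-j)) g_j`: the left side becomes `0` (telescoping, degree
`≤ p - 1`), the right side `∏_(l ∈ s) (X^(d l) - X^κ) H`. -/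
def S_NPow : Prop :=
  ∀ (c q : ℕ) (d : Fin c → ℕ) (f : Fin q → Fin c) (δ : ℕ → ℕ) (H : ℕ → ℤ) (h : ℕ → ℕ → ℕ → ℤ),
    Function.Injective f → (∀ i : Fin q, δ i = d (f i)) →
    (∀ j, ∀ᶠ m : ℕ in Filter.atTop, h 0 j m =
      ∑ A ∈ Finset.powersetCard j (Finset.univ : Finset (Fin c)), H (m - ∑ i ∈ A, d i)) →
    (∀ i ≤ q, ∀ j, ∀ᶠ m : ℕ in Filter.atTop,
      h i (j + 1) (m + δ i) = h (i + 1) (j + 1) (m + δ i) + h (i + 1) j m) →
    (∀ i ≤ q, ∀ᶠ m : ℕ in Filter.atTop, h i 0 m = h (i + 1) 0 m) →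
    (∀ j, c < q + 1 + j → ∀ᶠ m : ℕ in Filter.atTop, h (q + 1) j m = 0) →
    ∀ᶠ m : ℕ in Filter.atTop,
      ∑ A ∈ ((Finset.univ : Finset (Fin c)) \ Finset.univ.image f).powerset,
        (-1) ^ A.card * H (m - ∑ i ∈ A, d i -
          δ q * (((Finset.univ : Finset (Fin c)) \ Finset.univ.image f) \ A).card) = 0

/-- NGro.  Solutions of `∏_(i ∈ s) (T^(d i) - T^κ) H = 0` grow at most like `m^(p-1)`, `p = |s|`.
PROOF.  Induction on `s` (`Finset.induction_on`), `H` general.  For `s = insert a s'` the sum over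
`A ⊆ s` splits (`Finset.sum_powerset_insert`) into the sum for `s'` and `H_1(m) = H(m - κ) - H(m - d a)`
(sign; natural number subtractions are harmless for large `m`).  If `s'` is empty, `H_1` is
eventually `0`, so `H` is eventually periodic with period `|κ - d a| ≥ 1` and bounded.  If `|s'| = p' ≥ 1`,
`|H_1(m)| ≤ C (m+1)^(p'-1)`, so `|H(m)| ≤ |H(m - t)| + C (m + t' + 1)^(p'-1)` with
`t = |κ - d a|`, `t' = min`, and `|H(m)| ≤ C' (m+1)^(p')` by strong induction on `m` (choose `C'` large: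
`C' (m+1)^p' ≥ C' (m + 1 - t)^p' + C (m + t' + 1)^(p'-1)`, since
`(m+1)^p' - (m+1-t)^p' ≥ (m+1)^(p'-1)`). -/
def S_NGro : Prop :=
  ∀ (ι : Type) [DecidableEq ι] (d : ι → ℕ) (κ : ℕ) (s : Finset ι), (∀ i ∈ s, d i ≠ κ) →
    ∀ H : ℕ → ℤ, (∀ᶠ m : ℕ in Filter.atTop,
      ∑ A ∈ s.powerset, (-1) ^ A.card * H (m - ∑ i ∈ A, d i - κ * (s \ A).card) = 0) →
    (s.card = 0 → ∀ᶠ m : ℕ in Filter.atTop, H m = 0) ∧
    (1 ≤ s.card → ∃ C : ℤ, ∀ᶠ m : ℕ in Filter.atTop, |H m| ≤ C * ((m : ℤ) + 1) ^ (s.card - 1))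

/-- NBin.  `binom(m + p, p)` grows like `m^p`.
PROOF.  `Nat.choose (m + p) p ≥ ((m + 1) ^ p) / p!` (product formula; `Nat.pow_le_choose`-like lemmas
or `Nat.choose_eq_descFactorial_div_factorial`). -/
def S_NBin : Prop :=
  ∀ (p : ℕ) (C : ℤ), 1 ≤ p → ∀ᶠ m : ℕ in Filter.atTop,
    C * ((m : ℤ) + 1) ^ (p - 1) < (Nat.choose (m + p) p : ℤ)

/-! ## Conversions -/

/-- NRel.  `Λ_j(m)` with determinants in `S / J` has the same dimension as `Lm`.
PROOF.  `π` factors through an injection `S / J → K`.  The complex linear map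
`Ψ : ((Fin j → Fin (N+1)) → S / J) → Om`, `Ψ ω e = π' (ω (e.get))` if `e.length = j` and `0` otherwise,
is injective and sends the generator `(a, F_1, ..., F_j)` of `Lam I J j m` to
`π a • wdg [gk F_1, ..., gk F_j]` (`S_NDet`); lists of pairs `L` correspond to pairs of functions on
`Fin j`.  So `Lm I π j m = (Lam I J j m).map Ψ`. -/
def S_NRel : Prop :=
  ∀ (N : ℕ) (K : Type) [Field K] [Algebra ℂ K] (I J : Ideal (Sx N)) (π : Sx N →ₐ[ℂ] K),
    (∀ F, π F = 0 ↔ F ∈ J) → ∀ j m : ℕ,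
    Module.finrank ℂ (Lm I π j m) = Module.finrank ℂ (Lam I J j m)

/-- NCnv.  From sections as functions to sections over `K`.
PROOF.  Fix `y0 ∈ zer J`, `y0 ≠ 0`, and for each `i` the local representation `P_i, Q_i, e_i` of
`sig i` at `y0`; `σ i b = π (P_i b) / π (Q_i)` (`π Q_i ≠ 0` as `Q_i(y0) ≠ 0`), `σ i = 0` for
`i ≥ Q`.  If `P, Q, e` is another local representation (at `y`) then `Q P_i b - Q_i P b` is a form
which vanishes at all points `≠ 0` of `zer J` (both are `sig z b * Q(z) * Q_i(z)`), so it is in `J`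
(`S_Null`) and `π Q * σ i b = π (P b)`.  `loc`: at `y` take `g` = the product of the `Q`'s of all `i`,
`τ i b` = (product of the other `Q`'s) * `P_i b`; values at `y` are `g(y) * sig i y`: independent.
`mem`: `π (P_i)` is in `CK` by the second part of `S_NRk`: for `z ≠ 0` in `zer J` the value `P_i(z)` is
`Q_i(z) * sig i z ∈ CN I z`.  `ind`: `S_NSpc` at `y0` for the `P_i` (values `Q_i(y0) * sig i y0`), then
divide by `π Q_i`. -/
def S_NCnv : Prop :=
  ∀ (N c : ℕ) (K : Type) [Field K] [Algebra ℂ K] (I J : Ideal (Sx N)) (π : Sx N →ₐ[ℂ] K),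
    I.IsPrime → IsHom I → Smooth I c → J.IsPrime → IsHom J → I ≤ J →
    (∀ F, π F = 0 ↔ F ∈ J) → (∃ y ∈ zer J, y ≠ 0) →
    ∀ (Q : ℕ) (sig : Fin Q → (Vx N → Vx N)) (del : Fin Q → ℕ),
    (∀ i, IsSect I J (del i) (sig i)) → (∀ i, 1 ≤ del i) →
    (∀ y ∈ zer J, y ≠ 0 → LinearIndependent ℂ (fun i => sig i y)) →
    ∃ (σ : ℕ → Fin (N + 1) → K) (δ : ℕ → ℕ), (∀ i : Fin Q, δ i = del i) ∧
      NDat N c Q K I J π σ δ

end Pool.Agent.Lib.MP_776403_ag.SD
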